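import Pool.Agent.Lib.MP_ae5b4e_an_WD.DA

/-!
# POR (iii), N2, bridge, Z side: definitions
-/

namespace Pool.Agent.MP_ae5b4e_an_WD

open Complex Set Filter Topology Metric MeasureTheory
open Pool.Agent.MP_ae5b4e_an_WB
open Pool.Agent.MP_ae5b4e_an_M (S1 C1f Gf)

/-- local coordinate at a zero `z` of `q` of order `μ`: `q (lam c) = c ^ μ` -/
structure ZChart (q : ℂ → ℂ) (z : ℂ) (μ : ℕ) (lam : ℂ → ℂ) (r : ℝ) : Prop where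
  pos : 0 < r
  mu : 0 < μ
  d : DifferentiableOn ℂ lam (ball 0 r)
  zero : lam 0 = z
  val : ∀ c ∈ ball (0 : ℂ) r, (lam c).im < 0 ∧ q (lam c) = c ^ μ
  inj : InjOn lam (ball 0 r)

/-- `∫ (w/y) dl` from the zero to the label `lam c` at `γ = gs e^(uz)`, along the arc
`l s = lam (c e^(-vs))`, `v = 2u/μ` (`g = lam'`; `Y` = the value of `y` at the label `lam c`, `γ = gs`) -/
noncomputable def zE (u : ℂ) (μ : ℕ) (Y c : ℂ) (g : ℂ → ℂ) (z : ℂ) : ℂ :=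
  ∫ s in Ioi (0 : ℝ), G Y * exp (u * (z - s)) / Fl Y (u * (z - s)) *
    (2 * u / μ * (c * exp (-(2 * u / μ * s))) * g (c * exp (-(2 * u / μ * s))))

/-- `ζ` is a singular point of type `Z_k`, `k ≠ 0`, on the line (vertical limit from below), with the zero
`z0` of `q` -/
structure ZAt (q : ℂ → ℂ) (U : Set (ℂ × ℂ)) (L : ℂ × ℂ → ℂ) (gs ζ z0 : ℂ) (k : ℤ) : Prop where
  seg : ∃ s0 : ℝ, 0 < s0 ∧ ∀ s ∈ Ioc (0 : ℝ) s0, (ζ - I * s, gs) ∈ U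
  lim : Tendsto (fun s : ℝ => L (ζ - I * s, gs)) (𝓝[>] 0) (𝓝 z0)
  low : z0.im < 0
  zero : q z0 = 0
  ne : k ≠ 0
  lim2 : Tendsto (fun s : ℝ => y2 q L (ζ - I * s, gs)) (𝓝[>] 0) (𝓝 ((k * Real.pi) ^ 2))

/-- `Tz` is (near `z = 0`) the height of the singular point of type `Z`, seen from the point `τ` of the
D-side with label `lam c` -/
def ZGerm (q : ℂ → ℂ) (U : Set (ℂ × ℂ)) (L : ℂ × ℂ → ℂ) (gs u : ℂ) (μ : ℕ) (lam : ℂ → ℂ)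
    (τ c : ℂ) (Tz : ℂ → ℂ) : Prop :=
  lam c = L (τ, gs) ∧ c ≠ 0 ∧ ∀ (Y : ℂ) (f : ℂ → ℂ), Y ^ 2 = y2 q L (τ, gs) →
    InvGerm U L gs u τ f → ∀ᶠ z in 𝓝 (0 : ℂ), Tz z = f z - zE u μ Y c (deriv lam) z

/-- `zE` only depends on `Y ^ 2` -/
theorem zE_sq {u : ℂ} {μ : ℕ} {Y Y' : ℂ} (h : Y ^ 2 = Y' ^ 2) (c : ℂ) (g : ℂ → ℂ) (z : ℂ) :
    zE u μ Y c g z = zE u μ Y' c g z := by
  rcases sq_eq_sq_iff_eq_or_eq_neg.1 h with h1 | h1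
  · rw [h1]
  · rw [h1]
    unfold zE
    refine setIntegral_congr_fun measurableSet_Ioi fun s _ => ?_
    change G (-Y') * exp (u * (z - s)) / Fl (-Y') (u * (z - s)) * _ = _
    rw [Fl_neg, G_neg, neg_mul, neg_div_neg_eq]

end Pool.Agent.MP_ae5b4e_an_WD
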