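import Pool.Agent.Lib.MP_ae5b4e_an_WD.ZD

/-!
# POR (iii), N2, bridge, Z side: primitives in a left half plane
-/

namespace Pool.Agent.MP_ae5b4e_an_WD

open Complex Set Filter Topology Metric MeasureTheory
open Pool.Agent.MP_ae5b4e_an_WB
open Pool.Agent.MP_ae5b4e_an_M (S1 C1f Gf)

/-- Primitive in a left half plane, as an integral over a ray to `- oo` in the direction `- v`.

Proof. `r > 0` with `X.re + r < R`. Differentiate under the integral
(`hasDerivAt_integral_of_dominated_loc_of_deriv_le`, ball of radius `r/2`): `‖deriv Ω (X' - s v)‖ ≤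
(2/r) C exp (κ (X.re + r - s v.re))` by Cauchy (`Complex.norm_deriv_le_of_forall_mem_sphere_norm_le`),
integrable in `s`. Then
`∫_0^oo Ω' (X - s v) v ds = - [Ω (X - s v)]_0^oo = Ω X` (`integral_Ioi_of_hasDerivAt_of_tendsto`). The bound
is `∫_0^oo C e^(κ (X.re - s v.re)) ‖v‖ ds`. -/
theorem hp_prim {R κ C : ℝ} (hκ : 0 < κ) {v : ℂ} (hv : 0 < v.re) {Ω : ℂ → ℂ}
    (hΩ : DifferentiableOn ℂ Ω {X | X.re < R})
    (hb : ∀ X : ℂ, X.re < R → ‖Ω X‖ ≤ C * Real.exp (κ * X.re)) {X : ℂ} (hX : X.re < R) :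
    HasDerivAt (fun X => ∫ s in Ioi (0 : ℝ), Ω (X - s * v) * v) (Ω X) X ∧
      ‖∫ s in Ioi (0 : ℝ), Ω (X - s * v) * v‖ ≤ C * ‖v‖ / (κ * v.re) * Real.exp (κ * X.re) := by
  have hopen : IsOpen {X : ℂ | X.re < R} := isOpen_lt continuous_re continuous_const
  have hC : 0 ≤ C := by
    have h1 := (norm_nonneg _).trans (hb X hX)
    have h2 := Real.exp_pos (κ * X.re)
    by_contra h3
    push Not at h3
    nlinarith [mul_neg_of_neg_of_pos h3 h2]
  set r : ℝ := (R - X.re) / 3 with hr
  have hr0 : 0 < r := by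
    rw [hr]
    linarith
  have hXr : X.re + 2 * r < R := by
    rw [hr]
    linarith
  have hre : ∀ (Y : ℂ) (s : ℝ), (Y - s * v).re = Y.re - s * v.re := by
    intro Y s
    simp
  have hmem : ∀ (Y : ℂ) (s : ℝ), Y.re < R → 0 ≤ s → (Y - s * v).re < R := by
    intro Y s h1 h2
    rw [hre]
    have := mul_nonneg h2 hv.le
    linarith
  have hd : ∀ Y : ℂ, Y.re < R → HasDerivAt Ω (deriv Ω Y) Y := fun Y hY =>
    ((hΩ Y hY).differentiableAt (hopen.mem_nhds hY)).hasDerivAt
  have hcd : ContinuousOn (deriv Ω) {X : ℂ | X.re < R} :=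
    (hΩ.deriv hopen).continuousOn
  have hcl : ∀ Y : ℂ, Continuous fun s : ℝ => Y - s * v := fun Y => by fun_prop
  have hmeas : ∀ (f : ℂ → ℂ), ContinuousOn f {X : ℂ | X.re < R} → ∀ Y : ℂ, Y.re < R →
      AEStronglyMeasurable (fun s : ℝ => f (Y - s * v) * v) (volume.restrict (Ioi 0)) := by
    intro f hf Y hY
    refine ContinuousOn.aestronglyMeasurable ?_ measurableSet_Ioi
    refine ContinuousOn.mul ?_ continuousOn_const
    exact hf.comp (hcl Y).continuousOn fun s hs => hmem Y s hY (le_of_lt hs)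
  have hκv : 0 < κ * v.re := mul_pos hκ hv
  have hint : ∀ A : ℝ, Integrable (fun s : ℝ => A * Real.exp (-(κ * v.re) * s))
      (volume.restrict (Ioi 0)) := fun A =>
    (exp_neg_integrableOn_Ioi 0 hκv).const_mul A
  -- the bound for the function
  have hbd : ∀ s ∈ Ioi (0:ℝ), ‖Ω (X - s * v) * v‖ ≤
      C * ‖v‖ * Real.exp (κ * X.re) * Real.exp (-(κ * v.re) * s) := by
    intro s hs
    rw [norm_mul]
    have h1 := hb (X - s * v) (hmem X s hX (le_of_lt hs))
    rw [hre] at h1
    have h2 : κ * (X.re - s * v.re) = κ * X.re + -(κ * v.re) * s := by ring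
    rw [h2, Real.exp_add] at h1
    have h3 := mul_le_mul_of_nonneg_right h1 (norm_nonneg v)
    linarith
  have hF_int : Integrable (fun s : ℝ => Ω (X - s * v) * v) (volume.restrict (Ioi 0)) := by
    refine (hint (C * ‖v‖ * Real.exp (κ * X.re))).mono' (hmeas Ω hΩ.continuousOn X hX) ?_
    exact (ae_restrict_iff' measurableSet_Ioi).2 (Eventually.of_forall hbd)
  -- the bound for the derivative
  have hder : ∀ Y ∈ ball X r, ∀ s ∈ Ioi (0:ℝ), ‖deriv Ω (Y - s * v) * v‖ ≤
      C * Real.exp (κ * (X.re + 2 * r)) / r * ‖v‖ * Real.exp (-(κ * v.re) * s) := by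
    intro Y hY s hs
    have hs0 : 0 < s := hs
    have h1 : Y.re < X.re + r := by
      have h2 : ‖Y - X‖ < r := by
        rw [← dist_eq_norm]
        exact mem_ball.1 hY
      have h3 := (abs_re_le_norm (Y - X)).trans_lt h2
      rw [sub_re, abs_lt] at h3
      linarith [h3.2]
    have hsv : 0 < s * v.re := mul_pos hs0 hv
    have h4 : ∀ Z ∈ closedBall (Y - s * v) r, Z.re ≤ X.re + 2 * r - s * v.re := by
      intro Z hZ
      have h2 : ‖Z - (Y - s * v)‖ ≤ r := by
        rw [← dist_eq_norm]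
        exact mem_closedBall.1 hZ
      have h3 := (abs_re_le_norm (Z - (Y - s * v))).trans h2
      rw [sub_re, hre, abs_le] at h3
      linarith [h3.2]
    have h5 : ‖deriv Ω (Y - s * v)‖ ≤ C * Real.exp (κ * (X.re + 2 * r - s * v.re)) / r := by
      refine norm_deriv_le_of_forall_mem_sphere_norm_le hr0 ?_ fun Z hZ => ?_
      · refine DifferentiableOn.diffContOnCl ?_
        rw [closure_ball _ hr0.ne']
        refine hΩ.mono fun Z hZ => ?_
        have := h4 Z hZ
        show Z.re < R
        linarith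
      · have h6 := h4 Z (sphere_subset_closedBall hZ)
        refine (hb Z (by linarith)).trans ?_
        refine mul_le_mul_of_nonneg_left ?_ hC
        exact Real.exp_le_exp.2 (mul_le_mul_of_nonneg_left h6 hκ.le)
    rw [norm_mul]
    have h2 : κ * (X.re + 2 * r - s * v.re) = κ * (X.re + 2 * r) + -(κ * v.re) * s := by ring
    rw [h2, Real.exp_add] at h5
    have h3 := mul_le_mul_of_nonneg_right h5 (norm_nonneg v)
    refine h3.trans (le_of_eq ?_)
    ring
  have hball : ∀ Y ∈ ball X r, Y.re < R := by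
    intro Y hY
    have h2 : ‖Y - X‖ < r := by
      rw [← dist_eq_norm]
      exact mem_ball.1 hY
    have h3 := (abs_re_le_norm (Y - X)).trans_lt h2
    rw [sub_re, abs_lt] at h3
    linarith [h3.2]
  have hchain : ∀ Y ∈ ball X r, ∀ s ∈ Ioi (0:ℝ),
      HasDerivAt (fun Y : ℂ => Ω (Y - s * v) * v) (deriv Ω (Y - s * v) * v) Y := by
    intro Y hY s hs
    have h1 := hd (Y - s * v) (hmem Y s (hball Y hY) (le_of_lt hs))
    have h2 : HasDerivAt (fun Y : ℂ => Y - s * v) 1 Y := (hasDerivAt_id Y).sub_const _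
    have h3 := (h1.comp Y h2).mul_const v
    rw [mul_one] at h3
    exact h3
  have key := hasDerivAt_integral_of_dominated_loc_of_deriv_le (μ := volume.restrict (Ioi (0:ℝ)))
    (F := fun (Y : ℂ) (s : ℝ) => Ω (Y - s * v) * v)
    (F' := fun (Y : ℂ) (s : ℝ) => deriv Ω (Y - s * v) * v) (x₀ := X)
    (ball_mem_nhds X hr0)
    (by
      filter_upwards [ball_mem_nhds X hr0] with Y hY
      exact hmeas Ω hΩ.continuousOn Y (hball Y hY))
    hF_int (hmeas _ hcd X hX)
    ((ae_restrict_iff' measurableSet_Ioi).2 (Eventually.of_forall fun s hs Y hY =>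
      hder Y hY s hs))
    (hint _)
    ((ae_restrict_iff' measurableSet_Ioi).2 (Eventually.of_forall fun s hs Y hY =>
      hchain Y hY s hs))
  have hval : ∫ s in Ioi (0:ℝ), deriv Ω (X - s * v) * v = Ω X := by
    have hc : Tendsto (fun s : ℝ => -Ω (X - s * v)) atTop (𝓝 0) := by
      rw [tendsto_zero_iff_norm_tendsto_zero]
      have h1 : Tendsto (fun s : ℝ => C * Real.exp (κ * X.re) * Real.exp (-(κ * v.re) * s)) atTop
          (𝓝 0) := by
        have h2 : Tendsto (fun s : ℝ => Real.exp (-((κ * v.re) * s))) atTop (𝓝 0) :=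
          Real.tendsto_exp_neg_atTop_nhds_zero.comp (tendsto_id.const_mul_atTop hκv)
        have h3 := h2.const_mul (C * Real.exp (κ * X.re))
        rw [mul_zero] at h3
        refine h3.congr fun s => ?_
        rw [neg_mul]
      refine squeeze_zero' (Eventually.of_forall fun s => norm_nonneg _) ?_ h1
      filter_upwards [eventually_ge_atTop 0] with s hs
      rw [norm_neg]
      refine (hb _ (hmem X s hX hs)).trans (le_of_eq ?_)
      rw [hre, mul_assoc, ← Real.exp_add]
      congr 2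
      ring
    have h1 := integral_Ioi_of_hasDerivAt_of_tendsto (f := fun s : ℝ => -Ω (X - s * v))
      (f' := fun s : ℝ => deriv Ω (X - s * v) * v) (a := 0) (m := 0) ?_ ?_ key.1 hc
    · rw [h1]
      simp
    · refine ContinuousAt.continuousWithinAt ?_
      refine ContinuousAt.neg ?_
      have h2 : ContinuousAt Ω (X - (0:ℝ) * v) :=
        (hd _ (hmem X 0 hX le_rfl)).continuousAt
      exact ContinuousAt.comp (f := fun s : ℝ => X - s * v) h2 (hcl X).continuousAt
    · intro s hs
      have h2 := hd (X - s * v) (hmem X s hX (le_of_lt hs))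
      have h3 : HasDerivAt (fun s : ℝ => X - s * v) (-v) s := by
        have h4 := ((hasDerivAt_id s).ofReal_comp.mul_const v).const_sub X
        simpa using h4
      have h4 := (HasDerivAt.comp_of_eq s h2 h3 rfl).neg
      refine h4.congr_deriv ?_
      ring
  refine ⟨?_, ?_⟩
  · have h1 := key.2
    rwa [hval] at h1
  · have h1 := norm_integral_le_of_norm_le (hint (C * ‖v‖ * Real.exp (κ * X.re)))
      ((ae_restrict_iff' measurableSet_Ioi).2 (Eventually.of_forall hbd))
    refine h1.trans (le_of_eq ?_)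
    rw [integral_const_mul, integral_exp_mul_Ioi (by linarith) 0, mul_zero, Real.exp_zero]
    field_simp

end Pool.Agent.MP_ae5b4e_an_WD
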