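import Mathlib

/-!
# POR (iii), N2, bridge: path avoiding zeros
-/

namespace Pool.Agent.MP_ae5b4e_an_WD

open Complex Set Filter Topology Metric

/-- a path in a half plane strip avoiding a discrete set: `A` has finitely many points in every
compact set; polygon `a → c → b` with a suitable vertex `c` close to the midpoint (for each zero `p`
the `c` with `p ∈ [a,c] ∪ [c,b]` lie on two half lines: a null set) -/
theorem exists_path_avoid {m m' : ℝ} (hmm : m' < m) {f : ℂ → ℂ}
    (hf : DifferentiableOn ℂ f {τ | τ.im < m}) {a b : ℂ} (ha : m' < a.im) (ha' : a.im < m)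
    (hb : m' < b.im) (hb' : b.im < m) (hfa : f a ≠ 0) (hfb : f b ≠ 0) :
    ∃ ζ : ℝ → ℂ, ContinuousOn ζ (Icc 0 1) ∧ ζ 0 = a ∧ ζ 1 = b ∧ ∀ s ∈ Icc (0 : ℝ) 1,
      m' < (ζ s).im ∧ (ζ s).im < m ∧ min a.re b.re - 1 < (ζ s).re ∧
      (ζ s).re < max a.re b.re + 1 ∧ f (ζ s) ≠ 0 := by
  have hmin1 : min a.re b.re - 1 < a.re := by
    have := min_le_left a.re b.re
    linarith
  have hmin2 : min a.re b.re - 1 < b.re := by
    have := min_le_right a.re b.re
    linarith
  have hmax1 : a.re < max a.re b.re + 1 := by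
    have := le_max_left a.re b.re
    linarith
  have hmax2 : b.re < max a.re b.re + 1 := by
    have := le_max_right a.re b.re
    linarith
  -- the convex region
  set K : Set ℂ := {z | (m' < z.im ∧ z.im < m) ∧ min a.re b.re - 1 < z.re ∧
    z.re < max a.re b.re + 1} with hK
  have hKo : IsOpen K :=
    ((isOpen_lt continuous_const continuous_im).inter
      (isOpen_lt continuous_im continuous_const)).inter
      ((isOpen_lt continuous_const continuous_re).inter
      (isOpen_lt continuous_re continuous_const))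
  have hKc : Convex ℝ K :=
    ((convex_halfSpace_im_gt m').inter (convex_halfSpace_im_lt m)).inter
      ((convex_halfSpace_re_gt _).inter (convex_halfSpace_re_lt _))
  have haK : a ∈ K := ⟨⟨ha, ha'⟩, hmin1, hmax1⟩
  have hbK : b ∈ K := ⟨⟨hb, hb'⟩, hmin2, hmax2⟩
  -- it is enough to join `a` and `b` in `K` without the zeros
  suffices h : JoinedIn (K ∩ {z | f z ≠ 0}) a b by
    obtain ⟨γ, hγ⟩ := h
    refine ⟨γ.extend, γ.continuous_extend.continuousOn, γ.extend_zero, γ.extend_one, ?_⟩
    intro s hs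
    have h1 : γ.extend s ∈ K ∩ {z | f z ≠ 0} := by
      rw [γ.extend_apply hs]
      exact hγ ⟨s, hs⟩
    exact ⟨h1.1.1.1, h1.1.1.2, h1.1.2.1, h1.1.2.2, h1.2⟩
  -- the zeros are countable
  set H : Set ℂ := {τ | τ.im < m} with hH
  have hHo : IsOpen H := isOpen_lt continuous_im continuous_const
  have hHc : Convex ℝ H := convex_halfSpace_im_lt m
  have haH : a ∈ H := ha'
  have hcod := AnalyticOnNhd.preimage_zero_mem_codiscreteWithin (hf.analyticOnNhd hHo) hfa haH
    ⟨⟨a, haH⟩, hHc.isPreconnected⟩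
  set Z : Set ℂ := (f ⁻¹' {0}ᶜ)ᶜ ∩ H with hZ
  have hZc : Z.Countable := by
    apply (HereditarilyLindelofSpace.isLindelof _).countable_of_isDiscrete
    exact isDiscrete_of_codiscreteWithin (by rwa [compl_compl])
  have hnotZ : ∀ z ∈ K, z ∉ Z → f z ≠ 0 := by
    intro z hz hzZ h0
    exact hzZ ⟨fun h => h h0, hz.1.2⟩
  have haZ : a ∉ Z := fun h => h.1 hfa
  have hbZ : b ∉ Z := fun h => h.1 hfb
  rcases eq_or_ne a b with rfl | hab
  · exact JoinedIn.refl ⟨haK, hfa⟩
  let c := (2 : ℝ)⁻¹ • (a + b)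
  let x := (2 : ℝ)⁻¹ • (b - a)
  have Ia : c - x = a := by
    simp only [c, x]
    module
  have Ib : c + x = b := by
    simp only [c, x]
    module
  have x_ne_zero : x ≠ 0 := by simpa [x] using sub_ne_zero.2 hab.symm
  have hrank : 1 < Module.rank ℝ ℂ := by
    rw [Complex.rank_real_complex]
    exact Nat.one_lt_ofNat
  obtain ⟨y, hy⟩ : ∃ y, LinearIndependent ℝ ![x, y] :=
    exists_linearIndependent_pair_of_one_lt_rank hrank x_ne_zero
  have A : Set.Countable {t : ℝ | (segment ℝ (c + x) (c + t • y) ∩ Z).Nonempty} := by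
    apply countable_ofPred_nonempty_of_disjoint _ (fun t ↦ inter_subset_right) hZc
    intro t t' htt'
    apply disjoint_iff_inter_eq_empty.2
    have N : {c + x} ∩ Z = ∅ := by
      simpa only [singleton_inter_eq_empty, mem_compl_iff, Ib] using hbZ
    rw [inter_assoc, inter_comm Z, inter_assoc, inter_self, ← inter_assoc, ← subset_empty_iff, ← N]
    apply inter_subset_inter_left
    apply Eq.subset
    apply segment_inter_eq_endpoint_of_linearIndependent_of_ne hy htt'.symm
  have B : Set.Countable {t : ℝ | (segment ℝ (c - x) (c + t • y) ∩ Z).Nonempty} := by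
    apply countable_ofPred_nonempty_of_disjoint _ (fun t ↦ inter_subset_right) hZc
    intro t t' htt'
    apply disjoint_iff_inter_eq_empty.2
    have N : {c - x} ∩ Z = ∅ := by
      simpa only [singleton_inter_eq_empty, mem_compl_iff, Ia] using haZ
    rw [inter_assoc, inter_comm Z, inter_assoc, inter_self, ← inter_assoc, ← subset_empty_iff, ← N]
    apply inter_subset_inter_left
    rw [sub_eq_add_neg _ x]
    apply Eq.subset
    apply segment_inter_eq_endpoint_of_linearIndependent_of_ne _ htt'.symm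
    convert! hy.units_smul ![-1, 1]
    simp [← List.ofFn_inj]
  have hcK : c ∈ K := by
    have h1 := hKc haK hbK (by norm_num : (0:ℝ) ≤ 2⁻¹) (by norm_num : (0:ℝ) ≤ 2⁻¹) (by norm_num)
    have h2 : (2 : ℝ)⁻¹ • a + (2 : ℝ)⁻¹ • b = c := by
      simp only [c]
      module
    rwa [h2] at h1
  have hev : {t : ℝ | c + t • y ∈ K} ∈ 𝓝 (0:ℝ) := by
    have h1 : Continuous fun t : ℝ => c + t • y := by fun_prop
    refine h1.continuousAt.preimage_mem_nhds (hKo.mem_nhds ?_)
    simpa using hcK
  obtain ⟨U, hU1, hU2, hU3⟩ := _root_.mem_nhds_iff.1 hev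
  obtain ⟨t, htU, ht⟩ := ((A.union B).dense_compl ℝ).inter_open_nonempty U hU2 ⟨0, hU3⟩
  have htK : c + t • y ∈ K := hU1 htU
  simp only [compl_union, mem_inter_iff, mem_compl_iff, mem_ofPred_eq, not_nonempty_iff_eq_empty]
    at ht
  have JA : JoinedIn (K ∩ {z | f z ≠ 0}) a (c + t • y) := by
    apply JoinedIn.of_segment_subset
    intro w hw
    have h1 : w ∈ K := hKc.segment_subset haK htK hw
    refine ⟨h1, hnotZ w h1 fun h2 => ?_⟩
    have h3 : w ∈ segment ℝ (c - x) (c + t • y) ∩ Z := ⟨by rwa [Ia], h2⟩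
    rw [ht.2] at h3
    exact h3
  have JB : JoinedIn (K ∩ {z | f z ≠ 0}) b (c + t • y) := by
    apply JoinedIn.of_segment_subset
    intro w hw
    have h1 : w ∈ K := hKc.segment_subset hbK htK hw
    refine ⟨h1, hnotZ w h1 fun h2 => ?_⟩
    have h3 : w ∈ segment ℝ (c + x) (c + t • y) ∩ Z := ⟨by rwa [Ib], h2⟩
    rw [ht.1] at h3
    exact h3
  exact JA.trans JB.symm

end Pool.Agent.MP_ae5b4e_an_WD
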