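import Pool.Agent.Lib.MP_ae5b4e_an_WD.Path
import Pool.Agent.Lib.MP_ae5b4e_an_WD.Wall1

/-!
# POR (iii), N2, bridge: LEMMA B in D-side form
-/

namespace Pool.Agent.MP_ae5b4e_an_WD

open Complex Set Filter Topology Metric
open Pool.Agent.MP_ae5b4e_an_WB
open Pool.Agent.MP_ae5b4e_an_M (S1 C1f Gf)

private theorem Wall_pt {ζ τ : ℂ} {m s ε0 : ℝ} (hζ : ζ.im = m) (hs : s ∈ Ioo (0 : ℝ) (min ε0 1 / 2))
    (h : ‖τ - (ζ - I * s)‖ < s / 2) :
    m - ε0 < τ.im ∧ τ.im < m ∧ ζ.re - 1 < τ.re ∧ τ.re < ζ.re + 1 := by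
  have h0 : 0 < s := hs.1
  have h1 : s < min ε0 1 / 2 := hs.2
  have h2 : min ε0 1 ≤ ε0 := min_le_left _ _
  have h3 : min ε0 1 ≤ 1 := min_le_right _ _
  have h4 := (abs_im_le_norm (τ - (ζ - I * s))).trans_lt h
  have h5 := (abs_re_le_norm (τ - (ζ - I * s))).trans_lt h
  have e1 : (τ - (ζ - I * s)).im = τ.im - m + s := by
    simp [hζ]
    ring
  have e2 : (τ - (ζ - I * s)).re = τ.re - ζ.re := by
    simp
  rw [e1, abs_lt] at h4
  rw [e2, abs_lt] at h5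
  refine ⟨by linarith, by linarith, by linarith, by linarith⟩

/-- LEMMA B (D-side form). Two good ends on the line `Im τ = m`, all labels just below the line
between them are `GoodP` or `Off`; `Td - Tb = k e^(uz)` for real `γ = gs e^(uz)`. Then `k = 0`.
Choose `ε` small (`ε < ε0`, `ε < 1`), `τb`, `τd` from `EndGood`, a path by `exists_path_avoid`
(`f τ = q (L (τ, gs))`), `exists_pathPrim`; `T 0`, `T 1` are the germs at `τb`, `τd`; `wall_zero`. -/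
theorem wall_D {q : ℂ → ℂ} {U : Set (ℂ × ℂ)} {L : ℂ × ℂ → ℂ} (h : DS q U L) {u gs k : ℂ}
    (hu : 0 < u.re) (hgs : gs ≠ 0) {m : ℝ} (hm : ∀ τ : ℂ, τ.im < m → (τ, gs) ∈ U) {ζb ζd : ℂ}
    (hbm : ζb.im = m) (hdm : ζd.im = m) {Tb Td : ℂ → ℂ} (hb : EndGood q U L gs u ζb Tb)
    (hd : EndGood q U L gs u ζd Td) {ε0 : ℝ} (hε0 : 0 < ε0)
    (hgood : ∀ τ : ℂ, m - ε0 < τ.im → τ.im < m → min ζb.re ζd.re - 2 < τ.re →
      τ.re < max ζb.re ζd.re + 2 → ¬ Off u gs q (L (τ, gs)) → GoodP u q (L (τ, gs)))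
    (hk : ∀ᶠ z in 𝓝 (0 : ℂ), (u * z).im = 0 → Td z - Tb z = k * exp (u * z)) : k = 0 := by
  have hε : 0 < min ε0 1 / 2 := by
    have : 0 < min ε0 1 := lt_min hε0 one_pos
    linarith
  obtain ⟨-, -, hb3⟩ := hb
  obtain ⟨-, -, hd3⟩ := hd
  obtain ⟨s, hs, τb, hτb, hbU, hbq, hbO, hbE⟩ := hb3 _ hε
  obtain ⟨s', hs', τd, hτd, hdU, hdq, hdO, hdE⟩ := hd3 _ hε
  obtain ⟨b1, b2, b3, b4⟩ := Wall_pt hbm hs hτb
  obtain ⟨d1, d2, d3, d4⟩ := Wall_pt hdm hs' hτd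
  have hHm : IsOpen Hm := isOpen_lt Complex.continuous_im continuous_const
  have hf : DifferentiableOn ℂ (fun τ : ℂ => q (L (τ, gs))) {τ | τ.im < m} := by
    intro τ hτ
    have hU := hm τ hτ
    have h1 : DifferentiableAt ℂ L (τ, gs) := (h.an _ hU).differentiableAt
    have h2 : DifferentiableAt ℂ (fun τ : ℂ => L (τ, gs)) τ :=
      DifferentiableAt.comp (g := L) (f := fun τ : ℂ => (τ, gs)) τ h1 (by fun_prop)
    have h3 : DifferentiableAt ℂ q (L (τ, gs)) :=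
      h.qd.differentiableAt (hHm.mem_nhds (h.low _ hU))
    exact (DifferentiableAt.comp (g := q) (f := fun τ : ℂ => L (τ, gs)) τ h3
      h2).differentiableWithinAt
  obtain ⟨ζ, hζc, hζ0, hζ1, hζ⟩ := exists_path_avoid (m := m) (m' := m - ε0) (by linarith) hf
    b1 b2 d1 d2 hbq hdq
  have hζU : ∀ s ∈ Icc (0 : ℝ) 1, (ζ s, gs) ∈ U := fun s hs => hm _ (hζ s hs).2.1
  obtain ⟨y, T, hT, hTi, -⟩ := exists_pathPrim h (u := u) hζc hζU (fun s hs => (hζ s hs).2.2.2.2)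
  have hpc : ContinuousOn (fun s => L (ζ s, gs)) (Icc 0 1) := by
    intro s hs
    have h1 : ContinuousAt L (ζ s, gs) := (h.an _ (hζU s hs)).continuousAt
    have h2 : ContinuousWithinAt (fun s : ℝ => (ζ s, gs)) (Icc 0 1) s :=
      (hζc s hs).prodMk continuousWithinAt_const
    exact ContinuousAt.comp_continuousWithinAt (g := L) h1 h2
  have mem0 : (0 : ℝ) ∈ Icc (0 : ℝ) 1 := by norm_num
  have mem1 : (1 : ℝ) ∈ Icc (0 : ℝ) 1 := by norm_num
  have hT0 := hTi 0 mem0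
  have hT1 := hTi 1 mem1
  rw [hζ0] at hT0
  rw [hζ1] at hT1
  obtain ⟨Eb, hEba, hEbg, hEbe⟩ := hbE _ hT0
  obtain ⟨Ed, hEda, hEdg, hEde⟩ := hdE _ hT1
  refine wall_zero hu hgs h.qd (p := fun s => L (ζ s, gs)) hT hpc ?_ ?_ ?_ hEbg hEdg hEba hEda
    hT0.1 hT1.1 ?_
  · intro s hs hoff
    obtain ⟨c1, c2, c3, c4, -⟩ := hζ s hs
    refine hgood (ζ s) c1 c2 (lt_of_le_of_lt ?_ c3) (lt_of_lt_of_le c4 ?_) hoff
    · have k1 : min ζb.re ζd.re ≤ ζb.re := min_le_left _ _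
      have k2 : min ζb.re ζd.re ≤ ζd.re := min_le_right _ _
      have k3 : min ζb.re ζd.re - 1 ≤ min τb.re τd.re :=
        le_min (by linarith) (by linarith)
      linarith
    · have k1 : ζb.re ≤ max ζb.re ζd.re := le_max_left _ _
      have k2 : ζd.re ≤ max ζb.re ζd.re := le_max_right _ _
      have k3 : max τb.re τd.re ≤ max ζb.re ζd.re + 1 :=
        max_le (by linarith) (by linarith)
      linarith
  · change Off u gs q (L (ζ 0, gs))
    rw [hζ0]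
    exact hbO
  · change Off u gs q (L (ζ 1, gs))
    rw [hζ1]
    exact hdO
  · filter_upwards [hk, hEbe, hEde] with z hz hzb hzd hz0
    rw [← hz hz0, hzb, hzd]
    ring

end Pool.Agent.MP_ae5b4e_an_WD
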