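import Pool.Agent.Lib.MP_ae5b4e_an_WD.AV3

/-!
# POR (iii), N2, bridge: asymptotic values of `G`: the values `0` and `∞`

Summary of AV2, AV3, AV: let `y` be continuous on `(0, s0]`, `sin (y s) ≠ 0`, `G (y s) → w` as `s → 0+`.
* `av_regular`: `w ≠ 0`, `w ^ 2 ≠ tipc` : `y s → y1`, `sin y1 ≠ 0`, `G y1 = w`;
* `av_tip`: `w ^ 2 = tipc` : the same, or `|Im y s| → ∞` and `|y s| e^(- 2 |Im y s|) → 0`;
* `av_zero`: `w = 0` : `y s → k π`;
* `av_top`: `|G (y s)| → ∞` : `y s → k π`, `k ≠ 0`.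
-/

namespace Pool.Agent.MP_ae5b4e_an_WD

open Complex Set Filter Topology Metric
open Pool.Agent.MP_ae5b4e_an_WB

/-- `|G y| > e / 2` on the lines `Re y = (m + 1/2) π` -/
theorem norm_G_gt_of_re {y : ℂ} (m : ℤ) (hy : y.re = (m + 1 / 2) * Real.pi) :
    Real.exp 1 / 2 < ‖G y‖ := by
  set η : ℝ := y.im with hη
  have hys : y = (Real.pi / 2 + η * I) + m * Real.pi := by
    apply Complex.ext
    · simp [hy]; ring
    · simp [hη]
  have hsin : sin y = (-1) ^ m * Real.cosh η := by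
    rw [hys, sin_add_int_mul_pi']
    congr 1
    rw [Complex.sin_add, Complex.sin_pi_div_two, Complex.cos_pi_div_two, Complex.cos_mul_I]
    push_cast; ring
  have hcos : cos y = (-1) ^ m * (-(Real.sinh η * I)) := by
    rw [hys, cos_add_int_mul_pi']
    congr 1
    rw [Complex.cos_add, Complex.sin_pi_div_two, Complex.cos_pi_div_two, Complex.sin_mul_I]
    push_cast; ring
  have hm : ((-1 : ℂ)) ^ m ≠ 0 := zpow_ne_zero _ (by norm_num)
  have hch : 0 < Real.cosh η := Real.cosh_pos η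
  have hcot : cos y / sin y = -((Real.sinh η / Real.cosh η : ℝ) * I) := by
    rw [hsin, hcos, mul_div_mul_left _ _ hm]
    push_cast
    ring
  have hre : (1 - y * (cos y / sin y)).re = 1 - η * (Real.sinh η / Real.cosh η) := by
    rw [hcot]
    generalize Real.sinh η / Real.cosh η = t
    simp [hη]
    ring
  have hn : ‖G y‖ = Real.cosh η * Real.exp (1 - η * (Real.sinh η / Real.cosh η)) := by
    unfold G
    rw [norm_mul, norm_exp, hre, hsin, norm_mul, norm_zpow, norm_neg, norm_one, one_zpow, one_mul,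
      norm_real, Real.norm_eq_abs, abs_of_pos hch]
  rw [hn]
  have h1 : η * (Real.sinh η / Real.cosh η) ≤ |η| := by
    have h2 : |Real.sinh η / Real.cosh η| ≤ 1 := by
      rw [abs_div, abs_of_pos hch, div_le_one hch, abs_le]
      constructor
      · have := Real.exp_pos η
        rw [Real.sinh_eq, Real.cosh_eq]; linarith
      · have := Real.exp_pos (-η)
        rw [Real.sinh_eq, Real.cosh_eq]; linarith
    calc η * (Real.sinh η / Real.cosh η) ≤ |η * (Real.sinh η / Real.cosh η)| := le_abs_self _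
      _ = |η| * |Real.sinh η / Real.cosh η| := abs_mul _ _
      _ ≤ |η| * 1 := by gcongr
      _ = |η| := mul_one _
  have h3 : Real.exp (1 - |η|) ≤ Real.exp (1 - η * (Real.sinh η / Real.cosh η)) :=
    Real.exp_le_exp.2 (by linarith)
  have h4 : Real.exp |η| / 2 < Real.cosh η := by
    rw [← Real.cosh_abs, Real.cosh_eq]
    have := Real.exp_pos (-|η|)
    linarith
  calc Real.exp 1 / 2 = Real.exp |η| / 2 * Real.exp (1 - |η|) := by
        rw [div_mul_eq_mul_div, ← Real.exp_add]; congr 2; ring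
    _ < Real.cosh η * Real.exp (1 - |η|) := by
        have := Real.exp_pos (1 - |η|)
        nlinarith
    _ ≤ _ := by gcongr

/-- a path which avoids the lines `Re y = a + j π` stays between two of them -/
theorem stay_between {y : ℝ → ℂ} {s1 : ℝ} (hc : ContinuousOn y (Ioc 0 s1)) (a : ℝ)
    (hav : ∀ s ∈ Ioc 0 s1, ∀ j : ℤ, (y s).re ≠ a + j * Real.pi) :
    ∃ m : ℤ, ∀ s ∈ Ioc 0 s1, a + m * Real.pi < (y s).re ∧ (y s).re < a + (m + 1) * Real.pi := by
  set m : ℤ := ⌊((y s1).re - a) / Real.pi⌋ with hm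
  have hpi := Real.pi_pos
  have h1 : (m : ℝ) ≤ ((y s1).re - a) / Real.pi := Int.floor_le _
  have h2 : ((y s1).re - a) / Real.pi < m + 1 := Int.lt_floor_add_one _
  rw [le_div_iff₀ hpi] at h1
  rw [div_lt_iff₀ hpi] at h2
  have hsub : ∀ s ∈ Ioc 0 s1, uIcc s s1 ⊆ Ioc 0 s1 := by
    intro s hs
    rw [uIcc_of_le hs.2]
    exact fun x hx => ⟨hs.1.trans_le hx.1, hx.2⟩
  have hcre : ContinuousOn (fun s => (y s).re) (Ioc 0 s1) :=
    Complex.continuous_re.comp_continuousOn hc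
  refine ⟨m, fun s hs => ⟨?_, ?_⟩⟩
  · by_contra hn
    rw [not_lt] at hn
    have h3 : a + m * Real.pi ∈ uIcc (y s).re (y s1).re := by
      rw [uIcc_of_le (by linarith)]; exact ⟨hn, by linarith⟩
    obtain ⟨x, hx, hx0⟩ := intermediate_value_uIcc (hcre.mono (hsub s hs)) h3
    exact hav x (hsub s hs hx) m hx0
  · by_contra hn
    rw [not_lt] at hn
    have h3 : a + (m + 1) * Real.pi ∈ uIcc (y s).re (y s1).re := by
      rw [uIcc_of_ge (by linarith)]; exact ⟨by linarith, hn⟩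
    obtain ⟨x, hx, hx0⟩ := intermediate_value_uIcc (hcre.mono (hsub s hs)) h3
    refine hav x (hsub s hs hx) (m + 1) ?_
    simp only at hx0
    rw [hx0]; push_cast; ring

/-- in a vertical strip the imaginary part is bounded if `G ^ 2` stays away from `tipc` -/
theorem im_bound_of_re_le (R : ℝ) {c : ℝ} (hc : 0 < c) : ∃ M : ℝ, ∀ y : ℂ, |y.re| ≤ R →
    c ≤ ‖G y ^ 2 - tipc‖ → |y.im| ≤ M := by
  -- upper half plane
  have hup : ∃ M : ℝ, ∀ y : ℂ, |y.re| ≤ R → M < y.im → ‖G y ^ 2 - tipc‖ < c := by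
    have hE : Tendsto (fun t : ℝ => 4 * (R + t) * Real.exp (-(2 * t))) atTop (𝓝 0) := by
      have h1 : Tendsto (fun x : ℝ => x * Real.exp (-x)) atTop (𝓝 0) := by
        simpa using Real.tendsto_pow_mul_exp_neg_atTop_nhds_zero 1
      have h2 : Tendsto (fun t : ℝ => 2 * t) atTop atTop := tendsto_id.const_mul_atTop two_pos
      have h3 := Real.tendsto_exp_neg_atTop_nhds_zero.comp h2
      have h4 := ((h3.const_mul (4 * R)).add ((h1.comp h2).const_mul 2))
      rw [mul_zero, mul_zero, add_zero] at h4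
      refine h4.congr fun t => ?_
      simp only [Function.comp_apply]
      ring
    have hE2 : Tendsto (fun t : ℝ => Real.exp (-(2 * t))) atTop (𝓝 0) :=
      Real.tendsto_exp_neg_atTop_nhds_zero.comp (tendsto_id.const_mul_atTop two_pos)
    -- the function of two variables is continuous at `(0, 0)`
    have hcont : ContinuousAt (fun p : ℂ × ℂ =>
        tipc * ((1 - p.1) ^ 2 * exp (p.2 / (1 - p.1))) - tipc) (0, 0) := by
      have h5 : (1 : ℂ) - ((0, 0) : ℂ × ℂ).1 ≠ 0 := by simp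
      refine ContinuousAt.sub (continuousAt_const.mul (ContinuousAt.mul (by fun_prop) ?_))
        continuousAt_const
      exact (continuousAt_snd.div (by fun_prop) h5).cexp
    have h6 : ∀ᶠ p : ℂ × ℂ in 𝓝 (0, 0),
        ‖tipc * ((1 - p.1) ^ 2 * exp (p.2 / (1 - p.1))) - tipc‖ < c := by
      refine hcont.norm.eventually (Iio_mem_nhds ?_)
      simpa using hc
    obtain ⟨δ, hδ, hb⟩ := Metric.eventually_nhds_iff_ball.1 h6
    have h7 := (hE.eventually (Iio_mem_nhds hδ)).and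
      ((hE2.eventually (Iio_mem_nhds hδ)).and (eventually_gt_atTop (0 : ℝ)))
    obtain ⟨M, hM⟩ := Filter.eventually_atTop.1 h7
    refine ⟨M, fun y hy hyM => ?_⟩
    obtain ⟨h8, h9, h10⟩ := hM y.im hyM.le
    rw [G_sq_upper h10]
    have hEn : ‖exp (2 * I * y)‖ = Real.exp (-(2 * y.im)) := by
      rw [norm_exp]; congr 1; simp
    have hmem : (exp (2 * I * y), 4 * I * y * exp (2 * I * y)) ∈ ball ((0, 0) : ℂ × ℂ) δ := by
      rw [← ball_prod_same]
      refine ⟨?_, ?_⟩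
      · rw [mem_ball_zero_iff, hEn]; exact h9
      · rw [mem_ball_zero_iff, norm_mul, hEn, norm_mul, norm_mul, norm_I]
        simp only [Complex.norm_ofNat, mul_one]
        refine lt_of_le_of_lt ?_ h8
        gcongr
        have := Complex.norm_le_abs_re_add_abs_im y
        rw [abs_of_pos h10] at this
        linarith
    have h11 := hb _ hmem
    generalize exp (2 * I * y) = E at h11 ⊢
    exact h11
  obtain ⟨M, hM⟩ := hup
  refine ⟨M, fun y hy hyc => ?_⟩
  by_contra hn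
  rw [not_le] at hn
  rcases le_or_gt 0 y.im with h0 | h0
  · rw [abs_of_nonneg h0] at hn
    exact absurd (hM y hy hn) (not_lt.2 hyc)
  · rw [abs_of_neg h0] at hn
    have h1 := hM (-y) (by simpa using hy) (by simpa using hn)
    rw [G_neg, neg_sq] at h1
    exact absurd h1 (not_lt.2 hyc)

/-- (AV0): if `G (y s) → 0` then `y s` tends to a zero of `sin` -/
theorem av_zero {y : ℝ → ℂ} {s0 : ℝ} (hs0 : 0 < s0)
    (hc : ContinuousOn y (Ioc 0 s0)) (_hs : ∀ s ∈ Ioc 0 s0, sin (y s) ≠ 0)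
    (hw : Tendsto (fun s => G (y s)) (𝓝[>] 0) (𝓝 0)) :
    ∃ k : ℤ, Tendsto y (𝓝[>] 0) (𝓝 (k * Real.pi)) := by
  have htip : tipc ≠ 0 := by
    unfold tipc
    rw [neg_ne_zero, ofReal_ne_zero]
    positivity
  have hpi := Real.pi_pos
  have h1 : ∀ᶠ s in 𝓝[>] (0 : ℝ), ‖G (y s)‖ < Real.exp 1 / 2 := by
    have := hw.norm
    rw [norm_zero] at this
    exact this.eventually (Iio_mem_nhds (by positivity))
  have h2 : ∀ᶠ s in 𝓝[>] (0 : ℝ), ‖tipc‖ / 2 ≤ ‖G (y s) ^ 2 - tipc‖ := by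
    have h3 : Tendsto (fun s => ‖G (y s) ^ 2 - tipc‖) (𝓝[>] 0) (𝓝 ‖(0 : ℂ) ^ 2 - tipc‖) :=
      ((hw.pow 2).sub_const _).norm
    have h4 : ‖(0 : ℂ) ^ 2 - tipc‖ = ‖tipc‖ := by simp
    rw [h4] at h3
    filter_upwards [h3.eventually (Ioi_mem_nhds (by
      linarith [norm_pos_iff.2 htip] : ‖tipc‖ / 2 < ‖tipc‖))] with s hs'
    exact le_of_lt hs'
  obtain ⟨s1, hs1, hb⟩ := (mem_nhdsGT_iff_exists_Ioc_subset).1
    (Filter.inter_mem (Filter.inter_mem h1 h2) (Ioc_mem_nhdsGT hs0))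
  have hs1' : (0 : ℝ) < s1 := hs1
  have hcy : ContinuousOn y (Ioc 0 s1) := hc.mono fun s hs => (hb hs).2
  obtain ⟨m, hm⟩ := stay_between hcy (Real.pi / 2) (by
    intro s hs' j hj
    have h5 := norm_G_gt_of_re (y := y s) j (by rw [hj]; ring)
    exact absurd (hb hs').1.1 (not_lt.2 h5.le))
  refine ⟨m + 1, ?_⟩
  obtain ⟨M, hM⟩ := im_bound_of_re_le (Real.pi / 2 + (|(m : ℝ)| + 1) * Real.pi)
    (by have := norm_pos_iff.2 htip; positivity : 0 < ‖tipc‖ / 2)
  have hre : ∀ s ∈ Ioc 0 s1, |(y s).re| ≤ Real.pi / 2 + (|(m : ℝ)| + 1) * Real.pi := by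
    intro s hs'
    obtain ⟨h5, h6⟩ := hm s hs'
    have h7 := neg_abs_le (m : ℝ)
    have h8 := le_abs_self (m : ℝ)
    rw [abs_le]
    constructor <;> nlinarith
  have hbd : ∀ s ∈ Ioc 0 s1, |(y s).im| ≤ M := fun s hs' => hM _ (hre s hs') (hb hs').1.2
  -- compactness
  by_contra hnt
  rw [Metric.tendsto_nhds] at hnt
  push Not at hnt
  obtain ⟨ε, hε, hfr⟩ := hnt
  have hfr' : ∃ᶠ s in 𝓝[>] (0 : ℝ), ε ≤ dist (y s) (((m + 1 : ℤ) : ℂ) * Real.pi) := by
    refine hfr.mono fun s hs' => ?_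
    exact hs'
  set R : ℝ := Real.pi / 2 + (|(m : ℝ)| + 1) * Real.pi with hR
  have hK : IsCompact (closedBall (0 : ℂ) (R + M) ∩ {z | ε ≤ dist z (((m + 1 : ℤ) : ℂ) * Real.pi)} ∩
      {z : ℂ | Real.pi / 2 + m * Real.pi ≤ z.re ∧ z.re ≤ Real.pi / 2 + (m + 1) * Real.pi}) := by
    refine ((isCompact_closedBall _ _).inter_right ?_).inter_right ?_
    · exact isClosed_le continuous_const (continuous_id.dist continuous_const)
    · exact (isClosed_le continuous_const Complex.continuous_re).inter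
        (isClosed_le Complex.continuous_re continuous_const)
  have hfr2 : ∃ᶠ s in 𝓝[>] (0 : ℝ), y s ∈ closedBall (0 : ℂ) (R + M) ∩
      {z | ε ≤ dist z (((m + 1 : ℤ) : ℂ) * Real.pi)} ∩
      {z : ℂ | Real.pi / 2 + m * Real.pi ≤ z.re ∧ z.re ≤ Real.pi / 2 + (m + 1) * Real.pi} := by
    refine (hfr'.and_eventually (Ioc_mem_nhdsGT hs1')).mono ?_
    rintro s ⟨h5, h6⟩
    refine ⟨⟨?_, h5⟩, (hm s h6).1.le, (hm s h6).2.le⟩
    rw [mem_closedBall_zero_iff]
    exact (Complex.norm_le_abs_re_add_abs_im _).trans (add_le_add (hre s h6) (hbd s h6))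
  obtain ⟨z, hzK, hz⟩ := hK.exists_mapClusterPt_of_frequently hfr2
  by_cases hsz : sin z = 0
  · obtain ⟨k, hk⟩ := Complex.sin_eq_zero_iff.1 hsz
    have hzre : z.re = k * Real.pi := by rw [hk]; simp
    obtain ⟨h5, h6⟩ := hzK.2
    rw [hzre] at h5 h6
    have h7 : (m : ℝ) < k := by
      have : ((m : ℝ) + 1 / 2) * Real.pi ≤ k * Real.pi := by linarith
      have := le_of_mul_le_mul_right this hpi
      linarith
    have h8 : (k : ℝ) < m + 2 := by
      have : (k : ℝ) * Real.pi ≤ (m + 3 / 2) * Real.pi := by linarith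
      have := le_of_mul_le_mul_right this hpi
      linarith
    have h9 : k = m + 1 := by
      have h10 : m < k := by exact_mod_cast h7
      have h11 : k < m + 2 := by exact_mod_cast h8
      omega
    have h12 := hzK.1.2
    simp only [mem_ofPred_eq] at h12
    rw [hk, h9, dist_self] at h12
    linarith
  · have hGz := G_ne_zero hsz
    have h5 : ∀ᶠ x in 𝓝 z, ‖G z‖ / 2 < ‖G x‖ := by
      have := norm_pos_iff.2 hGz
      exact (continuousAt_G hsz).norm.eventually (Ioi_mem_nhds (by linarith))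
    have h6 : ∀ᶠ s in 𝓝[>] (0 : ℝ), ‖G (y s)‖ < ‖G z‖ / 2 := by
      have h7 := hw.norm
      rw [norm_zero] at h7
      exact h7.eventually (Iio_mem_nhds (by have := norm_pos_iff.2 hGz; positivity))
    obtain ⟨s, h8, h9⟩ := ((hz.frequently h5).and_eventually h6).exists
    exact absurd h8 (not_lt.2 h9.le)

/-- if `|G (y s)| → ∞` then `y s` tends to a zero of `sin` other than `0` -/
theorem av_top {y : ℝ → ℂ} {s0 : ℝ} (hs0 : 0 < s0)
    (hc : ContinuousOn y (Ioc 0 s0)) (hs : ∀ s ∈ Ioc 0 s0, sin (y s) ≠ 0)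
    (hw : Tendsto (fun s => ‖G (y s)‖) (𝓝[>] 0) atTop) :
    ∃ k : ℤ, k ≠ 0 ∧ Tendsto y (𝓝[>] 0) (𝓝 (k * Real.pi)) := by
  have hpi := Real.pi_pos
  have h1 : ∀ᶠ s in 𝓝[>] (0 : ℝ), Real.exp 1 / 2 < ‖G (y s)‖ := hw.eventually (Ioi_mem_atTop _)
  obtain ⟨s1, hs1, hb⟩ := (mem_nhdsGT_iff_exists_Ioc_subset).1
    (Filter.inter_mem h1 (Ioc_mem_nhdsGT hs0))
  have hs1' : (0 : ℝ) < s1 := hs1
  have hcy : ContinuousOn y (Ioc 0 s1) := hc.mono fun s hs => (hb hs).2
  obtain ⟨m, hm⟩ := stay_between hcy 0 (by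
    intro s hs' j hj
    have h5 := norm_G_lt_of_re (y := y s) j (by rw [hj]; ring) (hs s (hb hs').2)
    exact absurd (hb hs').1 (not_lt.2 h5.le))
  simp only [zero_add] at hm
  -- the corner near which the path stays
  have hcor : ∀ ε : ℝ, 0 < ε → ε ≤ 1 → ∀ᶠ s in 𝓝[>] (0 : ℝ),
      ∃ j : ℤ, j ≠ 0 ∧ (j = m ∨ j = m + 1) ∧ ‖y s - j * Real.pi‖ < ε := by
    intro ε hε hε1
    obtain ⟨M, -, hM⟩ := exists_large m hε hε1
    filter_upwards [hw.eventually (Ioi_mem_atTop M), Ioc_mem_nhdsGT hs1'] with s hsM hs'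
    exact hM (y s) (hm s hs').1.le (hm s hs').2.le (hs s (hb hs').2) hsM
  -- the corner does not change
  have hcor1 := hcor 1 one_pos le_rfl
  obtain ⟨s2, hs2, hb2⟩ := (mem_nhdsGT_iff_exists_Ioc_subset).1
    (Filter.inter_mem hcor1 (Ioc_mem_nhdsGT hs1'))
  have hs2' : (0 : ℝ) < s2 := hs2
  obtain ⟨j0, hj0, hj0m, hj0n⟩ := (hb2 (⟨hs2', le_rfl⟩ : s2 ∈ Ioc 0 s2)).1
  have hcre : ContinuousOn (fun s => (y s).re) (Ioc 0 s2) :=
    Complex.continuous_re.comp_continuousOn (hcy.mono fun s hs => (hb2 hs).2)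
  have hne : ∀ s ∈ Ioc 0 s2, ∀ j : ℤ, ‖y s - j * Real.pi‖ < 1 → (j = m ∨ j = m + 1) → j = j0 := by
    intro s hs' j hj hjm
    by_contra hne
    have hre1 : |(y s).re - j * Real.pi| < 1 := by
      have := Complex.abs_re_le_norm (y s - j * Real.pi)
      have h2 : (y s - (j : ℂ) * (Real.pi : ℂ)).re = (y s).re - j * Real.pi := by simp
      rw [h2] at this
      linarith
    have hre0 : |(y s2).re - j0 * Real.pi| < 1 := by
      have := Complex.abs_re_le_norm (y s2 - j0 * Real.pi)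
      have h2 : (y s2 - (j0 : ℂ) * (Real.pi : ℂ)).re = (y s2).re - j0 * Real.pi := by simp
      rw [h2] at this
      linarith
    rw [abs_lt] at hre1 hre0
    have hpi3 := Real.pi_gt_three
    -- the mid point of the strip is attained
    have hmid : (m + 1 / 2) * Real.pi ∈ uIcc (y s).re (y s2).re := by
      rcases hjm with h | h <;> rcases hj0m with h' | h'
      · exact absurd (h.trans h'.symm) hne
      · rw [h] at hre1; rw [h'] at hre0
        push_cast at hre0
        rw [uIcc_of_le (by nlinarith)]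
        exact ⟨by nlinarith, by nlinarith⟩
      · rw [h] at hre1; rw [h'] at hre0
        push_cast at hre1
        rw [uIcc_of_ge (by nlinarith)]
        exact ⟨by nlinarith, by nlinarith⟩
      · exact absurd (h.trans h'.symm) hne
    have hsub : uIcc s s2 ⊆ Ioc 0 s2 := by
      rw [uIcc_of_le hs'.2]
      exact fun x hx => ⟨hs'.1.trans_le hx.1, hx.2⟩
    obtain ⟨x, hx, hx0⟩ := intermediate_value_uIcc (hcre.mono hsub) hmid
    obtain ⟨i, -, him, hin⟩ := (hb2 (hsub hx)).1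
    have hrei : |(y x).re - i * Real.pi| < 1 := by
      have := Complex.abs_re_le_norm (y x - i * Real.pi)
      have h2 : (y x - (i : ℂ) * (Real.pi : ℂ)).re = (y x).re - i * Real.pi := by simp
      rw [h2] at this
      linarith
    simp only at hx0
    rw [hx0, abs_lt] at hrei
    rcases him with h | h
    · rw [h] at hrei; nlinarith
    · rw [h] at hrei; push_cast at hrei; nlinarith
  refine ⟨j0, hj0, ?_⟩
  rw [Metric.tendsto_nhds]
  intro ε hε
  filter_upwards [hcor (min ε 1) (by positivity) (min_le_right _ _), Ioc_mem_nhdsGT hs2']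
    with s hs3 hs4
  obtain ⟨j, -, hjm, hjn⟩ := hs3
  have h1 := hne s hs4 j (hjn.trans_le (min_le_right _ _)) hjm
  rw [dist_eq_norm, ← h1]
  exact hjn.trans_le (min_le_left _ _)

end Pool.Agent.MP_ae5b4e_an_WD
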