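import Pool.Agent.Lib.MP_ae5b4e_an_T.Defs

/-!
# POR (iii), N2, D5: from uncountably many parameters to an identity

`cnt`: for uncountably many real `γ` there are two different points of the line with slit
neighbourhoods (branch points `Tb γ`, `Td γ`), at which the label is not regular, and
`T - γ T'` is the same for both at `γ`. Then for uncountably many of these `γ` the germs satisfy
`Td γ z - Tb γ z = k z` with one real `k ≠ 0`.

The branch point in a rational bidisc is unique: if `T1`, `T2` have slit structures in the same bidisc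
and `T1 γ` is a singular point of the line, then `T2 γ = T1 γ`.
-/

namespace Pool.Agent.MP_ae5b4e_an_WD

open Complex Set Filter Topology Metric
open Pool.Agent.MP_ae5b4e_an_T (Dv RgN Slb SlN)

/-- slit structure of `T` in the bidisc of centre `(a, c)` and radii `r`, `ρ` -/
def Bd (vi : ℂ → ℝ) (L : ℂ × ℂ → ℂ) (a c : ℂ) (r ρ : ℝ) (T : ℂ → ℂ) : Prop :=
  AnalyticOnNhd ℂ T (ball c ρ) ∧ (∀ γ ∈ ball c ρ, T γ ∈ ball a r ∧ -(T γ).im ≤ vi γ) ∧
    ∃ Λ : ℂ × ℂ → ℂ, ∀ p ∈ ball a r ×ˢ ball c ρ, ¬(p.1.re = (T p.2).re ∧ (T p.2).im ≤ p.1.im) →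
      AnalyticAt ℂ Λ p ∧ (Λ p).im < 0 ∧ (p ∈ Dv vi → Λ p = L p)

/-- uniqueness of the branch point on the line -/
theorem Bd.eq {vi : ℂ → ℝ} {L : ℂ × ℂ → ℂ} {a c : ℂ} {r ρ : ℝ} {T1 T2 : ℂ → ℂ}
    (h1 : Bd vi L a c r ρ T1) (h2 : Bd vi L a c r ρ T2) {γ : ℝ} (hγ : (γ : ℂ) ∈ ball c ρ)
    (hl : (T1 γ).im = -vi γ) (hs : ¬ RgN vi L γ (T1 γ)) : T2 γ = T1 γ := by
  by_contra hne
  obtain ⟨hT2, hin, Λ, hΛ⟩ := h2
  have hnot : ¬((T1 γ).re = (T2 γ).re ∧ (T2 γ).im ≤ (T1 γ).im) := by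
    rintro ⟨hr, hi⟩
    have h3 := (hin γ hγ).2
    apply hne
    apply Complex.ext hr.symm
    linarith
  -- the complement of the slit is open
  have hcont : ContinuousAt (fun p : ℂ × ℂ => T2 p.2) (T1 γ, (γ : ℂ)) :=
    ContinuousAt.comp (g := T2) (hT2 γ hγ).continuousAt continuousAt_snd
  have hopen : ∀ᶠ p : ℂ × ℂ in 𝓝 (T1 γ, (γ : ℂ)),
      ¬(p.1.re = (T2 p.2).re ∧ (T2 p.2).im ≤ p.1.im) := by
    rcases not_and_or.1 hnot with h | h
    · have hc : ContinuousAt (fun p : ℂ × ℂ => p.1.re - (T2 p.2).re) (T1 γ, (γ : ℂ)) :=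
        (Complex.continuous_re.continuousAt.comp continuousAt_fst).sub
          (Complex.continuous_re.continuousAt.comp hcont)
      have h0 : (T1 γ).re - (T2 γ).re ≠ 0 := sub_ne_zero.2 h
      filter_upwards [hc.eventually_ne h0] with p hp hq
      exact hp (sub_eq_zero.2 hq.1)
    · have hc : ContinuousAt (fun p : ℂ × ℂ => (T2 p.2).im - p.1.im) (T1 γ, (γ : ℂ)) :=
        (Complex.continuous_im.continuousAt.comp hcont).sub
          (Complex.continuous_im.continuousAt.comp continuousAt_fst)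
      have h0 : 0 < (T2 γ).im - (T1 γ).im := by
        rw [not_le] at h
        linarith
      filter_upwards [hc.eventually (lt_mem_nhds h0)] with p hp hq
      linarith [hq.2]
  have hmem : ball a r ×ˢ ball c ρ ∈ 𝓝 (T1 γ, (γ : ℂ)) :=
    (isOpen_ball.prod isOpen_ball).mem_nhds ⟨(h1.2.1 γ hγ).1, hγ⟩
  obtain ⟨δ, hδ, hball⟩ := Metric.eventually_nhds_iff_ball.1 (hopen.and hmem)
  refine hs ⟨δ, hδ, Λ, ?_, ?_, ?_⟩
  · intro p hp
    have hp' : p ∈ ball (T1 γ, (γ : ℂ)) δ := by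
      rw [← ball_prod_same]
      exact hp
    obtain ⟨k1, k2⟩ := hball p hp'
    exact (hΛ p k2 k1).1
  · intro p hp
    have hp' : p ∈ ball (T1 γ, (γ : ℂ)) δ := by
      rw [← ball_prod_same]
      exact hp
    obtain ⟨k1, k2⟩ := hball p hp'
    exact (hΛ p k2 k1).2.1
  · intro p hp
    have hp' : p ∈ ball (T1 γ, (γ : ℂ)) δ := by
      rw [← ball_prod_same]
      exact hp
    obtain ⟨k1, k2⟩ := hball p hp'
    exact (hΛ p k2 k1).2.2

/-- a slit neighbourhood contains rational bidiscs -/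
theorem exists_bd {vi : ℂ → ℝ} {L : ℂ × ℂ → ℂ} {γ0 : ℝ} {ζ : ℂ} {T : ℂ → ℂ} {R ρ0 : ℝ}
    {Λ : ℂ × ℂ → ℂ} (h : SlN vi L γ0 ζ T R ρ0 Λ) : ∃ (a : ℕ) (r : ℚ), ∀ (c : ℂ) (ρ : ℝ),
      ball c ρ ⊆ ball (γ0 : ℂ) ρ0 → Bd vi L (TopologicalSpace.denseSeq ℂ a) c r ρ T := by
  have hρ : 0 < R := h.pos.trans_le h.le
  obtain ⟨r, hr1, hr2⟩ := exists_rat_btwn (show R / 4 < R / 2 by linarith)
  have hd : Dense (range (TopologicalSpace.denseSeq ℂ)) := TopologicalSpace.denseRange_denseSeq ℂ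
  obtain ⟨x, ⟨a, rfl⟩, hx⟩ := hd.exists_dist_lt ζ (show (0 : ℝ) < R / 8 by linarith)
  refine ⟨a, r, fun c ρ hc => ⟨h.Tan.mono hc, fun γ hγ => ⟨?_, h.not_mem γ (hc hγ)⟩, Λ, ?_⟩⟩
  · have h1 := h.Tin γ (hc hγ)
    rw [mem_ball]
    calc dist (T γ) (TopologicalSpace.denseSeq ℂ a)
        ≤ dist (T γ) ζ + dist ζ (TopologicalSpace.denseSeq ℂ a) := dist_triangle _ _ _
      _ < R / 8 + R / 8 := by
          rw [dist_eq_norm (T γ)]
          exact add_lt_add h1 hx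
      _ ≤ R / 4 := by linarith
      _ < r := hr1
  · rintro ⟨p1, p2⟩ ⟨hp1, hp2⟩ hns
    have hp1' : p1 ∈ ball ζ R := by
      rw [mem_ball] at hp1 ⊢
      calc dist p1 ζ ≤ dist p1 (TopologicalSpace.denseSeq ℂ a)
            + dist (TopologicalSpace.denseSeq ℂ a) ζ := dist_triangle _ _ _
        _ < r + R / 8 := by
            rw [dist_comm (TopologicalSpace.denseSeq ℂ a)]
            exact add_lt_add hp1 hx
        _ < R := by linarith
    have hS : ((p1, p2) : ℂ × ℂ) ∈ Slb T ζ γ0 R ρ0 := ⟨⟨hp1', hc hp2⟩, hns⟩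
    exact ⟨h.an _ hS, h.im _ hS, h.eq _ hS⟩

/-- an uncountable set of reals accumulates at one of its points -/
theorem exists_acc {A : Set ℝ} (hA : ¬ A.Countable) :
    ∃ x ∈ A, ∃ᶠ y : ℝ in 𝓝[≠] x, y ∈ A := by
  by_contra hcon
  push Not at hcon
  apply hA
  have hd : DiscreteTopology A := by
    rw [discreteTopology_subtype_iff]
    intro x hx
    have h1 := hcon x hx
    rw [← disjoint_iff, Filter.disjoint_principal_right]
    exact h1
  have : Countable A := countable_of_Lindelof_of_discrete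
  exact Set.countable_coe_iff.1 this

/-- D5: from uncountably many parameters to an identity. -/
theorem cnt {vi : ℂ → ℝ} {L : ℂ × ℂ → ℂ} {A : Set ℝ} (hA : ¬ A.Countable) (hpos : ∀ γ ∈ A, 0 < γ)
    {Tb Td : ℝ → ℂ → ℂ}
    (hb : ∀ γ ∈ A, (∃ (R ρ : ℝ) (Λ : ℂ × ℂ → ℂ), SlN vi L γ (Tb γ γ) (Tb γ) R ρ Λ) ∧
      (Tb γ γ).im = -vi γ ∧ ¬ RgN vi L γ (Tb γ γ))
    (hd : ∀ γ ∈ A, (∃ (R ρ : ℝ) (Λ : ℂ × ℂ → ℂ), SlN vi L γ (Td γ γ) (Td γ) R ρ Λ) ∧
      (Td γ γ).im = -vi γ ∧ ¬ RgN vi L γ (Td γ γ))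
    (hne : ∀ γ ∈ A, Tb γ γ ≠ Td γ γ)
    (hS : ∀ γ ∈ A, Tb γ γ - γ * deriv (Tb γ) γ = Td γ γ - γ * deriv (Td γ) γ) :
    ∃ A' ⊆ A, ¬ A'.Countable ∧ ∃ k : ℝ, k ≠ 0 ∧ ∀ γ ∈ A', ∀ᶠ z in 𝓝 (γ : ℂ),
      Td γ z - Tb γ z = k * z := by
  -- the data
  set P : ℝ → (ℕ × ℚ) × (ℕ × ℚ) × (ℚ × ℚ) → Prop := fun γ d =>
    (γ : ℂ) ∈ ball (((d.2.2.1 : ℝ) : ℂ)) (d.2.2.2 : ℝ) ∧
    Bd vi L (TopologicalSpace.denseSeq ℂ d.1.1) ((d.2.2.1 : ℝ) : ℂ) d.1.2 d.2.2.2 (Tb γ) ∧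
    Bd vi L (TopologicalSpace.denseSeq ℂ d.2.1.1) ((d.2.2.1 : ℝ) : ℂ) d.2.1.2 d.2.2.2 (Td γ) with hP
  have hex : ∀ γ ∈ A, ∃ d, P γ d := by
    intro γ hγ
    obtain ⟨⟨R1, ρ1, Λ1, h1⟩, -, -⟩ := hb γ hγ
    obtain ⟨⟨R2, ρ2, Λ2, h2⟩, -, -⟩ := hd γ hγ
    obtain ⟨a1, r1, k1⟩ := exists_bd h1
    obtain ⟨a2, r2, k2⟩ := exists_bd h2
    have hm : 0 < min ρ1 ρ2 := lt_min h1.pos h2.pos
    obtain ⟨ρ, hρ1, hρ2⟩ := exists_rat_btwn (show min ρ1 ρ2 / 4 < min ρ1 ρ2 / 2 by linarith)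
    obtain ⟨c, hc1, hc2⟩ := exists_rat_btwn (show γ - min ρ1 ρ2 / 4 < γ by linarith)
    have hdist : dist (γ : ℂ) ((c : ℝ) : ℂ) < min ρ1 ρ2 / 4 := by
      rw [dist_eq_norm, ← ofReal_sub, Complex.norm_real, Real.norm_eq_abs, abs_lt]
      constructor <;> linarith
    have hsub : ball ((c : ℝ) : ℂ) (ρ : ℝ) ⊆ ball (γ : ℂ) (min ρ1 ρ2) := by
      apply ball_subset_ball'
      rw [dist_comm]
      linarith
    refine ⟨((a1, r1), (a2, r2), (c, ρ)), ?_, k1 _ _ ?_, k2 _ _ ?_⟩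
    · rw [mem_ball]
      linarith
    · exact hsub.trans (ball_subset_ball (min_le_left _ _))
    · exact hsub.trans (ball_subset_ball (min_le_right _ _))
  obtain ⟨d, hdA⟩ : ∃ d, ¬ {γ | γ ∈ A ∧ P γ d}.Countable := by
    by_contra hcon
    push Not at hcon
    apply hA
    refine (Set.countable_iUnion hcon).mono fun γ hγ => ?_
    obtain ⟨d, hd'⟩ := hex γ hγ
    exact mem_iUnion.2 ⟨d, hγ, hd'⟩
  set A1 : Set ℝ := {γ | γ ∈ A ∧ P γ d} with hA1
  set c : ℂ := ((d.2.2.1 : ℝ) : ℂ) with hc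
  set ρ : ℝ := (d.2.2.2 : ℝ) with hρ
  have eb : ∀ γ1 ∈ A1, ∀ γ2 ∈ A1, Tb γ1 γ2 = Tb γ2 γ2 := by
    intro γ1 h1 γ2 h2
    exact Bd.eq h2.2.2.1 h1.2.2.1 h2.2.1 (hb γ2 h2.1).2.1 (hb γ2 h2.1).2.2
  have ed : ∀ γ1 ∈ A1, ∀ γ2 ∈ A1, Td γ1 γ2 = Td γ2 γ2 := by
    intro γ1 h1 γ2 h2
    exact Bd.eq h2.2.2.2 h1.2.2.2 h2.2.1 (hd γ2 h2.1).2.1 (hd γ2 h2.1).2.2
  obtain ⟨x, hx, hacc⟩ := exists_acc hdA
  have htend : Tendsto (fun y : ℝ => (y : ℂ)) (𝓝[≠] x) (𝓝[≠] (x : ℂ)) := by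
    refine tendsto_nhdsWithin_iff.2 ⟨?_, ?_⟩
    · exact (Complex.continuous_ofReal.tendsto x).mono_left nhdsWithin_le_nhds
    · filter_upwards [self_mem_nhdsWithin] with y hy
      simpa using hy
  have hpre : IsPreconnected (ball c ρ) := (convex_ball _ _).isPreconnected
  have idb : ∀ γ ∈ A1, EqOn (Tb x) (Tb γ) (ball c ρ) := by
    intro γ hγ
    refine hx.2.2.1.1.eqOn_of_preconnected_of_frequently_eq hγ.2.2.1.1 hpre hx.2.1 ?_
    refine htend.frequently (hacc.mono fun y hy => ?_)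
    rw [eb x hx y hy, eb γ hγ y hy]
  have idd : ∀ γ ∈ A1, EqOn (Td x) (Td γ) (ball c ρ) := by
    intro γ hγ
    refine hx.2.2.2.1.eqOn_of_preconnected_of_frequently_eq hγ.2.2.2.1 hpre hx.2.1 ?_
    refine htend.frequently (hacc.mono fun y hy => ?_)
    rw [ed x hx y hy, ed γ hγ y hy]
  -- the identity `H = 0`
  have anb : AnalyticOnNhd ℂ (Tb x) (ball c ρ) := hx.2.2.1.1
  have and' : AnalyticOnNhd ℂ (Td x) (ball c ρ) := hx.2.2.2.1
  set H : ℂ → ℂ := fun z => (Tb x z - z * deriv (Tb x) z) - (Td x z - z * deriv (Td x) z) with hH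
  have anH : AnalyticOnNhd ℂ H (ball c ρ) :=
    ((anb.sub (analyticOnNhd_id.mul anb.deriv)).sub (and'.sub (analyticOnNhd_id.mul and'.deriv)))
  have hH0 : ∀ γ ∈ A1, H γ = 0 := by
    intro γ hγ
    have n1 : ball c ρ ∈ 𝓝 (γ : ℂ) := isOpen_ball.mem_nhds hγ.2.1
    have e1 : Tb x =ᶠ[𝓝 (γ : ℂ)] Tb γ := (idb γ hγ).eventuallyEq_of_mem n1
    have e2 : Td x =ᶠ[𝓝 (γ : ℂ)] Td γ := (idd γ hγ).eventuallyEq_of_mem n1
    simp only [hH]
    rw [e1.deriv_eq, e2.deriv_eq, e1.eq_of_nhds, e2.eq_of_nhds, hS γ hγ.1, sub_self]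
  have hHz : EqOn H 0 (ball c ρ) := by
    refine anH.eqOn_zero_of_preconnected_of_frequently_eq_zero hpre hx.2.1 ?_
    exact htend.frequently (hacc.mono fun y hy => hH0 y hy)
  have hx0 : (x : ℂ) ≠ 0 := by exact_mod_cast (hpos x hx.1).ne'
  -- `(Td - Tb) / z` is constant near `x`, hence `Td - Tb = k z` on the ball
  set k : ℂ := (Td x x - Tb x x) / x with hk
  have hkr : k.im = 0 := by
    have h1 : (Td x x - Tb x x).im = 0 := by
      rw [Complex.sub_im, (hb x hx.1).2.1, (hd x hx.1).2.1, sub_self]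
    rw [hk, Complex.div_ofReal_im, h1, zero_div]
  set D : ℂ → ℂ := fun z => Td x z - Tb x z - k * z with hD
  have anD : AnalyticOnNhd ℂ D (ball c ρ) := (and'.sub anb).sub (analyticOnNhd_const.mul analyticOnNhd_id)
  have hDx : D x = 0 := by
    simp only [hD, hk]
    field_simp
    ring
  -- `z D' = D`
  have hDd : ∀ z ∈ ball c ρ, z * deriv D z = D z := by
    intro z hz
    have d1 : HasDerivAt (Tb x) (deriv (Tb x) z) z := (anb z hz).differentiableAt.hasDerivAt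
    have d2 : HasDerivAt (Td x) (deriv (Td x) z) z := (and' z hz).differentiableAt.hasDerivAt
    have d3 : HasDerivAt D (deriv (Td x) z - deriv (Tb x) z - k * 1) z :=
      (d2.sub d1).sub ((hasDerivAt_id z).const_mul k)
    have h4 : H z = 0 := hHz hz
    rw [d3.deriv]
    simp only [hD]
    simp only [hH] at h4
    linear_combination h4
  have hDz : EqOn D 0 (ball c ρ) := by
    -- all points near `x`: `D z = z * (D / z)`, and `(D / z)' = 0`
    refine anD.eqOn_zero_of_preconnected_of_eventuallyEq_zero hpre hx.2.1 ?_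
    have hopen : IsOpen (ball c ρ ∩ {z : ℂ | z ≠ 0}) := isOpen_ball.inter isOpen_ne
    obtain ⟨ε, hε, hεb⟩ := Metric.isOpen_iff.1 hopen x ⟨hx.2.1, hx0⟩
    filter_upwards [ball_mem_nhds (x : ℂ) hε] with z hz
    have hconst : (fun z => D z / z) z = (fun z => D z / z) (x : ℂ) := by
      refine (convex_ball (x : ℂ) ε).is_const_of_fderivWithin_eq_zero (𝕜 := ℂ)
        (f := fun z => D z / z) ?_ ?_ hz (mem_ball_self hε)
      · intro w hw
        have hw' := hεb hw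
        exact (((anD w hw'.1).differentiableAt).div differentiableAt_id hw'.2).differentiableWithinAt
      · intro w hw
        have hw' := hεb hw
        have d1 : HasDerivAt D (deriv D w) w := (anD w hw'.1).differentiableAt.hasDerivAt
        have d2 : HasDerivAt (fun z => D z / z) ((deriv D w * w - D w * 1) / w ^ 2) w :=
          d1.div (hasDerivAt_id w) hw'.2
        have e0 : (deriv D w * w - D w * 1) / w ^ 2 = 0 := by
          have := hDd w hw'.1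
          rw [show deriv D w * w - D w * 1 = w * deriv D w - D w by ring, this, sub_self, zero_div]
        rw [e0] at d2
        rw [fderivWithin_of_isOpen isOpen_ball hw]
        have := d2.hasFDerivAt.fderiv
        rw [this]
        ext
        simp
    have hz0 : z ≠ 0 := (hεb hz).2
    simp only [hDx, zero_div] at hconst
    simpa [hz0] using hconst
  refine ⟨A1, fun γ hγ => hγ.1, hdA, k.re, ?_, ?_⟩
  · intro h0
    have h1 : k = 0 := Complex.ext h0 hkr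
    have h2 : Td x x - Tb x x = 0 := by
      have h3 : (Td x x - Tb x x) / x = 0 := h1
      rcases div_eq_zero_iff.1 h3 with h4 | h4
      · exact h4
      · exact absurd h4 hx0
    exact hne x hx.1 (sub_eq_zero.1 h2).symm
  · intro γ hγ
    have n1 : ball c ρ ∈ 𝓝 (γ : ℂ) := isOpen_ball.mem_nhds hγ.2.1
    filter_upwards [n1] with z hz
    have h5 : D z = 0 := hDz hz
    rw [← idb γ hγ hz, ← idd γ hγ hz]
    have h6 : ((k.re : ℝ) : ℂ) = k := Complex.ext (by simp) (by simp [hkr])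
    rw [h6]
    simp only [hD] at h5
    linear_combination h5

end Pool.Agent.MP_ae5b4e_an_WD
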