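import Pool.Agent.Lib.MP_ae5b4e_an_WD.EndTip1

/-!
# POR (iii), N2, bridge: a tip with a good trajectory is a good end
-/

namespace Pool.Agent.MP_ae5b4e_an_WD

open Complex Set Filter Topology Metric
open Pool.Agent.MP_ae5b4e_an_WB
open Pool.Agent.MP_ae5b4e_an_M (S1 C1f Gf)

/-- the integral `tipE` only depends on the chart near `0` -/
private theorem EndTip_tipE {u W a Y z : ℂ} {lam1 lam2 : ℂ → ℂ} {ρ : ℝ}
    (heq : EqOn lam1 lam2 (ball 0 ρ)) (ha : ‖a‖ < ρ) (hz : ‖z‖ < ρ) :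
    tipE u W a Y (deriv lam1) z = tipE u W a Y (deriv lam2) z := by
  unfold tipE
  congr 1
  refine intervalIntegral.integral_congr fun θ hθ => ?_
  rw [uIcc_of_le zero_le_one] at hθ
  have h1 : (θ : ℂ) * (a + z) - z = θ * a - ((1 - θ : ℝ) : ℂ) * z := by
    push_cast
    ring
  have h2 : (θ : ℂ) * (a + z) - z ∈ ball (0 : ℂ) ρ := by
    rw [mem_ball_zero_iff, h1]
    refine (norm_sub_le _ _).trans_lt ?_
    rw [norm_mul, norm_mul, Complex.norm_real, Complex.norm_real, Real.norm_of_nonneg hθ.1,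
      Real.norm_of_nonneg (sub_nonneg.2 hθ.2)]
    rcases eq_or_lt_of_le hθ.1 with h0 | h0
    · rw [← h0]
      linarith
    · have h3 : θ * ‖a‖ < θ * ρ := mul_lt_mul_of_pos_left ha h0
      have h4 : (1 - θ) * ‖z‖ ≤ (1 - θ) * ρ :=
        mul_le_mul_of_nonneg_left hz.le (sub_nonneg.2 hθ.2)
      linarith
  have h5 : deriv lam1 ((θ : ℂ) * (a + z) - z) = deriv lam2 ((θ : ℂ) * (a + z) - z) :=
    (heq.eventuallyEq_of_mem (isOpen_ball.mem_nhds h2)).deriv_eq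
  change _ * deriv lam1 ((θ : ℂ) * (a + z) - z) = _ * deriv lam2 ((θ : ℂ) * (a + z) - z)
  rw [h5]

private theorem EndTip_congr {q : ℂ → ℂ} {U : Set (ℂ × ℂ)} {L : ℂ × ℂ → ℂ} {gs u τ a : ℂ}
    {T lam1 lam2 : ℂ → ℂ} {ρ : ℝ} (heq : EqOn lam1 lam2 (ball 0 ρ)) (ha : ‖a‖ < ρ)
    (h : TipGerm q U L gs u lam1 τ a T) : TipGerm q U L gs u lam2 τ a T := by
  have hρ : 0 < ρ := (norm_nonneg a).trans_lt ha
  refine ⟨?_, h.2.1, fun Y f hY hf => ?_⟩
  · rw [← heq (mem_ball_zero_iff.2 ha)]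
    exact h.1
  · filter_upwards [h.2.2 Y f hY hf, ball_mem_nhds (0 : ℂ) hρ] with z h1 hz
    rw [h1, EndTip_tipE heq ha (mem_ball_zero_iff.1 hz)]

open Classical in
/-- the chart cut off outside of a ball (value `I`, not a label) -/
private noncomputable def EndTip_cut (lam : ℂ → ℂ) (ρ : ℝ) : ℂ → ℂ :=
  fun ω => if ω ∈ ball (0 : ℂ) ρ then lam ω else I

private theorem EndTip_cut_eq (lam : ℂ → ℂ) (ρ : ℝ) :
    EqOn (EndTip_cut lam ρ) lam (ball 0 ρ) := by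
  intro ω hω
  exact if_pos hω

private theorem EndTip_cut_loc {u lb : ℂ} {q : ℂ → ℂ} {lam : ℂ → ℂ} {r ρ : ℝ}
    (h : LocChart u q lb lam r) (hρ : 0 < ρ) (hρr : ρ ≤ r) :
    LocChart u q lb (EndTip_cut lam ρ) ρ := by
  obtain ⟨hr, hr1, hr2, hd, h0, hl, hinj⟩ := h
  have hsub : ball (0 : ℂ) ρ ⊆ ball 0 r := ball_subset_ball hρr
  have he := EndTip_cut_eq lam ρ
  refine ⟨hρ, hρr.trans hr1, ?_, (hd.mono hsub).congr he, ?_, ?_, ?_⟩
  · exact (mul_le_mul_of_nonneg_right hρr (sq_nonneg _)).trans hr2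
  · rw [he (mem_ball_self hρ), h0]
  · intro ω hω
    rw [he hω]
    exact hl ω (hsub hω)
  · exact (hinj.mono hsub).congr he.symm

private theorem EndTip_cut_small {q : ℂ → ℂ} {U : Set (ℂ × ℂ)} {L : ℂ × ℂ → ℂ} (h : DS q U L)
    {gs u τ a : ℂ} {T lam : ℂ → ℂ} {ρ : ℝ} (hτ : (τ, gs) ∈ U)
    (hT : TipGerm q U L gs u (EndTip_cut lam ρ) τ a T) :
    ‖a‖ < ρ ∧ TipGerm q U L gs u lam τ a T := by
  have h1 : ‖a‖ < ρ := by
    by_contra hcon
    have h2 : a ∉ ball (0 : ℂ) ρ := by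
      rw [mem_ball_zero_iff]
      exact hcon
    have h3 : EndTip_cut lam ρ a = I := if_neg h2
    have h4 := h.low _ hτ
    rw [← hT.1, h3, I_im] at h4
    linarith
  exact ⟨h1, EndTip_congr (EndTip_cut_eq lam ρ) h1 hT⟩

/-- near every point of the D-side the label takes values `lam ω` with `ω` not real -/
private theorem EndTip_nonreal {q : ℂ → ℂ} {U : Set (ℂ × ℂ)} {L : ℂ × ℂ → ℂ} (h : DS q U L)
    {u gs lb : ℂ} {lam : ℂ → ℂ} {r : ℝ} (hlam : LocChart u q lb lam r) {τ0 a0 : ℂ}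
    (h0 : (τ0, gs) ∈ U) (ha : lam a0 = L (τ0, gs)) (ha0 : ‖a0‖ < r) {δ : ℝ} (hδ : 0 < δ)
    {ρ : ℝ} (hρ : ‖a0‖ < ρ) :
    ∃ τ ∈ ball τ0 δ, ∃ ω : ℂ, ‖ω‖ < ρ ∧ lam ω = L (τ, gs) ∧ ω.im ≠ 0 := by
  have han : AnalyticAt ℂ (fun τ => L (τ, gs)) τ0 := by
    have h2 : AnalyticAt ℂ (fun τ : ℂ => (τ, gs)) τ0 := analyticAt_id.prod analyticAt_const
    exact AnalyticAt.fun_comp (f := fun τ : ℂ => (τ, gs)) (h.an _ h0) h2
  have hmap : 𝓝 (L (τ0, gs)) ≤ map (fun τ => L (τ, gs)) (𝓝 τ0) := by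
    rcases han.eventually_constant_or_nhds_le_map_nhds with h1 | h1
    · exfalso
      have h2 : (fun τ => L (τ, gs)) =ᶠ[𝓝 τ0] fun _ => L (τ0, gs) := h1
      have h3 := h2.deriv_eq
      rw [deriv_const] at h3
      exact h.dt_ne_zero h0 h3
    · exact h1
  have himg : (fun τ => L (τ, gs)) '' ball τ0 δ ∈ 𝓝 (lam a0) := by
    rw [ha]
    exact hmap (image_mem_map (ball_mem_nhds τ0 hδ))
  have hc : ContinuousAt lam a0 :=
    (hlam.2.2.2.1.differentiableAt (isOpen_ball.mem_nhds (mem_ball_zero_iff.2 ha0))).continuousAt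
  have hev : ∀ᶠ ω in 𝓝 a0, lam ω ∈ (fun τ => L (τ, gs)) '' ball τ0 δ ∧ ω ∈ ball (0 : ℂ) ρ :=
    (hc.eventually himg).and (isOpen_ball.mem_nhds (mem_ball_zero_iff.2 hρ))
  obtain ⟨ε, hε, hball⟩ := Metric.eventually_nhds_iff_ball.1 hev
  have hcase : ∃ ω ∈ ball a0 ε, ω.im ≠ 0 := by
    rcases le_or_gt 0 a0.im with h1 | h1
    · refine ⟨a0 + (ε / 2 : ℝ) * I, ?_, ?_⟩
      · rw [mem_ball, dist_eq_norm, add_sub_cancel_left, norm_mul, Complex.norm_I, mul_one,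
          Complex.norm_real, Real.norm_eq_abs, abs_of_pos (half_pos hε)]
        exact half_lt_self hε
      · have h2 : (a0 + ((ε / 2 : ℝ) : ℂ) * I).im = a0.im + ε / 2 := by simp
        rw [h2]
        have := half_pos hε
        linarith
    · exact ⟨a0, mem_ball_self hε, h1.ne⟩
  obtain ⟨ω, hω, him⟩ := hcase
  obtain ⟨⟨τ, hτ, he⟩, h2⟩ := hball ω hω
  exact ⟨τ, hτ, ω, mem_ball_zero_iff.1 h2, he.symm, him⟩

private theorem EndTip_tipc_ne : tipc ≠ 0 := by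
  unfold tipc
  rw [neg_ne_zero, Complex.ofReal_ne_zero]
  positivity

private theorem EndTip_off {u gs lb : ℂ} (hu : 0 < u.re) {q : ℂ → ℂ} {lam : ℂ → ℂ} {r : ℝ}
    (hlam : LocChart u q lb lam r) (htip : gs ^ 2 * q lb = tipc) {ω : ℂ} (hω : ‖ω‖ < r)
    (him : ω.im ≠ 0) : Off u gs q (lam ω) := by
  intro t ht heq
  have h1 := (hlam.2.2.2.2.2.1 ω (mem_ball_zero_iff.2 hω)).2
  have h2 : tipc * exp (2 * (u * (ω + t))) = tipc * 1 := by
    rw [mul_one]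
    refine Eq.trans ?_ heq
    rw [h1, ← htip, mul_add, mul_add, Complex.exp_add]
    ring
  have h3 : exp (2 * (u * (ω + t))) = 1 := mul_left_cancel₀ EndTip_tipc_ne h2
  have h4 : (ω + (t : ℂ)).im = ω.im := by simp
  have h5 := exp_eq_one_strip (z := ω + t) hu (d := r) (by linarith [hlam.2.2.1])
    (by rw [h4]; exact (Complex.abs_im_le_norm ω).trans_lt hω) h3
  rw [h5, zero_im] at h4
  exact him h4.symm

/-- END OF TYPE TIP. Chart `lam` from `exists_chart` (`IsChart.loc`), family `Tb` from `exists_tipFam`. Given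
`ε`: choose `s < ε` small, `δ ≤ s/2`; the height `a τ` is holomorphic and not constant near `ζb - i s`
(`L` is locally injective in `τ`: `dt L ≠ 0`), so some `τ` in the ball has `a τ ∉ (-oo, 0]` (open mapping).
`Off`: `gs² q (lam a) e^(2ut) = tipc e^(2u(a+t)) ≠ tipc` (small `a`, `exp_eq_one_strip`).
`E z = tipE u (G Y e^(-ua)) a Y (deriv lam) z`: `analyticAt_tipE`, `germ_tip` (for both values of `W`). -/
theorem endGood_tip {q : ℂ → ℂ} {U : Set (ℂ × ℂ)} {L : ℂ × ℂ → ℂ} (h : DS q U L) {u gs lb ζb : ℂ}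
    (hu : 0 < u.re) (hgs : gs ≠ 0) (hT : TipAt q U L gs ζb lb) (hG : GoodP u q lb) :
    ∃ Tb : ℂ → ℂ, EndGood q U L gs u ζb Tb ∧ ∀ (lam : ℂ → ℂ) (r : ℝ), LocChart u q lb lam r →
      ∃ s1 : ℝ, 0 < s1 ∧ ∀ s ∈ Ioc (0 : ℝ) s1, ∃ δ : ℝ, 0 < δ ∧
        ∀ τ ∈ ball (ζb - I * s) δ, (τ, gs) ∈ U ∧ ∃ a : ℂ, TipGerm q U L gs u lam τ a Tb := by
  have hq0 : q lb ≠ 0 := hG.1
  obtain ⟨lam, hlam⟩ := exists_chart hu h.qd hG
  obtain ⟨r, hloc⟩ := IsChart.loc hu h.qd hq0 hT.reg hlam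
  obtain ⟨W, hW⟩ : ∃ W : ℂ, W ^ 2 = tipc := IsAlgClosed.exists_pow_nat_eq tipc two_pos
  have hW' : (-W) ^ 2 = tipc := by rw [neg_sq, hW]
  obtain ⟨ε1, hε1, hg1⟩ := germ_tip hu hlam hT.tip hW
  obtain ⟨ε2, hε2, hg2⟩ := germ_tip hu hlam hT.tip hW'
  have hr : 0 < r := hloc.1
  obtain ⟨ρ, hρ, hm⟩ : ∃ ρ : ℝ, 0 < ρ ∧ ρ < min (min ε1 ε2) (r / 4) :=
    exists_between (lt_min (lt_min hε1 hε2) (by positivity))
  have hρ1 : ρ < ε1 := hm.trans_le ((min_le_left _ _).trans (min_le_left _ _))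
  have hρ2 : ρ < ε2 := hm.trans_le ((min_le_left _ _).trans (min_le_right _ _))
  have hρ3 : ρ < r / 4 := hm.trans_le (min_le_right _ _)
  have hρr : ρ ≤ r := by linarith
  obtain ⟨Tb, hTb, hTb0, s1, hs1, hfam⟩ := exists_tipFam h hu hgs
    (EndTip_cut_loc hloc hρ hρr) hT
  have hinj := hloc.2.2.2.2.2.2
  refine ⟨Tb, ⟨hTb, hTb0, fun ε hε => ?_⟩, fun lam' r' hlam' => ?_⟩
  · obtain ⟨s, hs, hs2⟩ : ∃ s : ℝ, 0 < s ∧ s < min ε s1 := exists_between (lt_min hε hs1)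
    obtain ⟨δ, hδ, hδf⟩ := hfam s ⟨hs, (hs2.trans_le (min_le_right _ _)).le⟩
    obtain ⟨hU0, a0, ha0⟩ := hδf _ (mem_ball_self hδ)
    obtain ⟨ha0s, ha0'⟩ := EndTip_cut_small h hU0 ha0
    obtain ⟨τ, hτ, ω, hω, hωL, him⟩ := EndTip_nonreal h hloc hU0 ha0'.1 (ha0s.trans_le hρr)
      (lt_min hδ (half_pos hs)) ha0s
    obtain ⟨hU, a, ha⟩ := hδf τ (ball_subset_ball (min_le_left _ _) hτ)
    obtain ⟨has, ha'⟩ := EndTip_cut_small h hU ha
    have haω : a = ω := hinj (mem_ball_zero_iff.2 (has.trans_le hρr))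
      (mem_ball_zero_iff.2 (hω.trans_le hρr)) (by rw [ha'.1, hωL])
    subst haω
    have hql := (hloc.2.2.2.2.2.1 a (mem_ball_zero_iff.2 (has.trans_le hρr))).2
    have hqL : q (L (τ, gs)) ≠ 0 := by
      rw [← ha'.1, hql]
      exact mul_ne_zero hq0 (exp_ne_zero _)
    refine ⟨s, ⟨hs, hs2.trans_le (min_le_left _ _)⟩, τ, ?_, hU, hqL, ?_, fun f hf => ?_⟩
    · have := ball_subset_ball (min_le_right _ _) hτ
      rwa [mem_ball, dist_eq_norm] at this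
    · rw [← ha'.1]
      exact EndTip_off hu hloc hT.tip (has.trans_le hρr) him
    · obtain ⟨Y, hY⟩ : ∃ Y : ℂ, Y ^ 2 = y2 q L (τ, gs) :=
        IsAlgClosed.exists_pow_nat_eq _ two_pos
      obtain ⟨hsin, hGY, -⟩ := h.G_of_sq hU hqL hY
      have hE : G Y = G Y * exp (-(u * a)) * exp (u * a) := by
        rw [mul_assoc, ← Complex.exp_add, neg_add_cancel, exp_zero, mul_one]
      have hW2 : (G Y * exp (-(u * a))) ^ 2 = tipc := by
        rw [mul_pow, hGY, ← ha'.1, hql, ← hT.tip, ← Complex.exp_nat_mul]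
        have h1 : exp (2 * (u * a)) * exp (((2 : ℕ) : ℂ) * -(u * a)) = 1 := by
          rw [← Complex.exp_add, ← exp_zero]
          congr 1
          push_cast
          ring
        linear_combination gs ^ 2 * q lb * h1
      refine ⟨tipE u (G Y * exp (-(u * a))) a Y (deriv lam), ?_, ?_, ha'.2.2 Y f hY hf⟩
      · exact analyticAt_tipE hu hW2 hsin hE ha'.2.1 (by linarith) hloc.2.2.1 hloc.2.1
          (hloc.2.2.2.1.deriv isOpen_ball)
      · have hna : ¬ (a.im = 0 ∧ a.re ≤ 0) := fun hc => him hc.1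
        rcases sq_eq_sq_iff_eq_or_eq_neg.1 (hW2.trans hW.symm) with h1 | h1
        · rw [h1] at hE ⊢
          exact hg1 a Y (has.trans hρ1) hna hsin hE
        · rw [h1] at hE ⊢
          exact hg2 a Y (has.trans hρ2) hna hsin hE
  · obtain ⟨r3, hr3, heq⟩ := Metric.eventually_nhds_iff_ball.1
      (LocChart.unique hT.reg hloc hlam')
    obtain ⟨ρ', hρ', hm'⟩ : ∃ ρ' : ℝ, 0 < ρ' ∧ ρ' < min r3 ρ := exists_between (lt_min hr3 hρ)
    have hρ3' : ρ' < r3 := hm'.trans_le (min_le_left _ _)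
    have hρρ : ρ' < ρ := hm'.trans_le (min_le_right _ _)
    obtain ⟨T3, -, -, s3, hs3, hfam3⟩ := exists_tipFam h hu hgs
      (EndTip_cut_loc hloc hρ' (hρρ.le.trans hρr)) hT
    refine ⟨min s1 s3, lt_min hs1 hs3, fun s hs => ?_⟩
    obtain ⟨δ1, hδ1, hf1⟩ := hfam s ⟨hs.1, hs.2.trans (min_le_left _ _)⟩
    obtain ⟨δ3, hδ3, hf3⟩ := hfam3 s ⟨hs.1, hs.2.trans (min_le_right _ _)⟩
    refine ⟨min δ1 δ3, lt_min hδ1 hδ3, fun τ hτ => ?_⟩
    obtain ⟨hU, a, ha⟩ := hf1 τ (ball_subset_ball (min_le_left _ _) hτ)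
    obtain ⟨-, a3, ha3⟩ := hf3 τ (ball_subset_ball (min_le_right _ _) hτ)
    obtain ⟨has, ha'⟩ := EndTip_cut_small h hU ha
    obtain ⟨ha3s, ha3'⟩ := EndTip_cut_small h hU ha3
    have haa : a = a3 := hinj (mem_ball_zero_iff.2 (has.trans_le hρr))
      (mem_ball_zero_iff.2 ((ha3s.trans hρρ).trans_le hρr)) (by rw [ha'.1, ha3'.1])
    subst haa
    exact ⟨hU, a, EndTip_congr (fun ω hω => heq ω hω) (ha3s.trans hρ3') ha'⟩

end Pool.Agent.MP_ae5b4e_an_WD
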