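import Pool.Agent.Lib.MP_ae5b4e_an_WD.Z5

/-!
# POR (iii), N2, bridge, Z side: a zero of `q` is a good end
-/

namespace Pool.Agent.MP_ae5b4e_an_WD

open Complex Set Filter Topology Metric MeasureTheory
open Pool.Agent.MP_ae5b4e_an_WB
open Pool.Agent.MP_ae5b4e_an_M (S1 C1f Gf)

private theorem Z6_tipc_ne : tipc ≠ 0 := by
  unfold tipc
  rw [neg_ne_zero, Complex.ofReal_ne_zero]
  positivity

/-- two values with the same modulus and a small difference of the arguments are not both on the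
curve of the tips -/
private theorem Z6_off {u W : ℂ} (hu : 0 < u.re) {y : ℝ} (h0 : 0 < y) (h1 : y < 2 * Real.pi)
    {t0 : ℝ} (ht0 : W * exp (2 * (u * t0)) = tipc) (t : ℝ) :
    W * exp (y * I) * exp (2 * (u * t)) ≠ tipc := by
  intro ht
  have hW : W ≠ 0 := by
    rintro rfl
    rw [zero_mul] at ht0
    exact Z6_tipc_ne ht0.symm
  have h2 : exp (y * I) * exp (2 * (u * t)) = exp (2 * (u * t0)) := by
    refine mul_left_cancel₀ hW ?_
    rw [← mul_assoc, ht, ht0]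
  have h3 := congrArg norm h2
  rw [norm_mul, Complex.norm_exp_ofReal_mul_I, one_mul, Complex.norm_exp, Complex.norm_exp,
    Real.exp_eq_exp] at h3
  have h4 : ∀ x : ℝ, (2 * (u * x)).re = 2 * (u.re * x) := by
    intro x
    simp
  rw [h4, h4] at h3
  have h5 : t = t0 := by
    have h6 : u.re * t = u.re * t0 := by linarith
    exact mul_left_cancel₀ hu.ne' h6
  rw [h5] at h2
  have h6 : exp (y * I) = 1 := by
    refine mul_right_cancel₀ (exp_ne_zero (2 * (u * t0))) ?_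
    rw [h2, one_mul]
  obtain ⟨n, hn⟩ := Complex.exp_eq_one_iff.1 h6
  have h7 : y = n * (2 * Real.pi) := by
    have h8 := congrArg Complex.im hn
    simpa using h8
  have hpi := Real.pi_pos
  have h9 : (0 : ℝ) < n := by
    by_contra hcon
    push Not at hcon
    nlinarith
  have h10 : (n : ℝ) < 1 := by
    by_contra hcon
    push Not at hcon
    nlinarith
  have h11 : 0 < n := by exact_mod_cast h9
  have h12 : n < 1 := by exact_mod_cast h10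
  omega

/-- near a point of the D-side with label `lam c0` there is a point whose label is `Off` -/
private theorem Z6_exists {q : ℂ → ℂ} {U : Set (ℂ × ℂ)} {L : ℂ × ℂ → ℂ} (h : DS q U L)
    {u gs z0 : ℂ} (hu : 0 < u.re) {μ : ℕ} {lam : ℂ → ℂ} {r : ℝ}
    (hlam : ZChart q z0 μ lam r) {τ0 c0 : ℂ} (h0 : (τ0, gs) ∈ U) (hc : lam c0 = L (τ0, gs))
    (hcr : ‖c0‖ < r) {δ : ℝ} (hδ : 0 < δ) :
    ∃ τ ∈ ball τ0 δ, Off u gs q (L (τ, gs)) := by
  by_cases hoff : Off u gs q (L (τ0, gs))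
  · exact ⟨τ0, mem_ball_self hδ, hoff⟩
  unfold Off at hoff
  push Not at hoff
  obtain ⟨t0, -, ht0⟩ := hoff
  rw [← hc, (hlam.val c0 (mem_ball_zero_iff.2 hcr)).2] at ht0
  have han : AnalyticAt ℂ (fun τ => L (τ, gs)) τ0 := by
    have h2 : AnalyticAt ℂ (fun τ : ℂ => (τ, gs)) τ0 := analyticAt_id.prod analyticAt_const
    exact AnalyticAt.fun_comp (f := fun τ : ℂ => (τ, gs)) (h.an _ h0) h2
  have hmap : 𝓝 (L (τ0, gs)) ≤ map (fun τ => L (τ, gs)) (𝓝 τ0) := by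
    rcases han.eventually_constant_or_nhds_le_map_nhds with h1 | h1
    · exfalso
      have h2 : (fun τ => L (τ, gs)) =ᶠ[𝓝 τ0] fun _ => L (τ0, gs) := h1
      have h3 := h2.deriv_eq
      rw [deriv_const] at h3
      exact h.dt_ne_zero h0 h3
    · exact h1
  have himg : (fun τ => L (τ, gs)) '' ball τ0 δ ∈ 𝓝 (lam c0) := by
    rw [hc]
    exact hmap (image_mem_map (ball_mem_nhds τ0 hδ))
  have hcont : ContinuousAt lam c0 :=
    (hlam.d.differentiableAt (isOpen_ball.mem_nhds (mem_ball_zero_iff.2 hcr))).continuousAt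
  have hev : ∀ᶠ c in 𝓝 c0, lam c ∈ (fun τ => L (τ, gs)) '' ball τ0 δ ∧ c ∈ ball (0 : ℂ) r :=
    (hcont.eventually himg).and (isOpen_ball.mem_nhds (mem_ball_zero_iff.2 hcr))
  have hrot : Tendsto (fun y : ℝ => c0 * exp (y * I)) (𝓝[>] 0) (𝓝 c0) := by
    have h1 : Continuous fun y : ℝ => c0 * exp (y * I) := by fun_prop
    have h2 : Tendsto (fun y : ℝ => c0 * exp (y * I)) (𝓝 0)
        (𝓝 (c0 * exp (((0 : ℝ) : ℂ) * I))) := h1.tendsto 0
    rw [Complex.ofReal_zero, zero_mul, exp_zero, mul_one] at h2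
    exact h2.mono_left nhdsWithin_le_nhds
  have hpi := Real.pi_pos
  have hμ : (0 : ℝ) < μ := by exact_mod_cast hlam.mu
  have hsm : ∀ᶠ y : ℝ in 𝓝[>] 0, y ∈ Ioo (0 : ℝ) (2 * Real.pi / μ) :=
    Ioo_mem_nhdsGT (by positivity)
  obtain ⟨y, ⟨⟨τ, hτ, hτc⟩, hyr⟩, hy0, hy1⟩ := ((hrot.eventually hev).and hsm).exists
  refine ⟨τ, hτ, fun t _ => ?_⟩
  have h1 : (μ : ℝ) * y < 2 * Real.pi := by
    rw [lt_div_iff₀ hμ] at hy1
    linarith
  have h2 := Z6_off hu (mul_pos hμ hy0) h1 ht0 t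
  have h3 : L (τ, gs) = lam (c0 * exp (y * I)) := hτc
  rw [h3, (hlam.val _ hyr).2, mul_pow, ← Complex.exp_nat_mul, ← mul_assoc]
  have h4 : ((μ : ℝ) * y : ℝ) * I = (μ : ℂ) * (y * I) := by
    push_cast
    ring
  rwa [h4] at h2

/-- END OF TYPE Z (analogue of `endGood_tip`). `exists_zChart`, `exists_zFam`. Given `ε`, choose `s < ε`
small, `δ ≤ s/2`; near `τ0 = ζ - i s` there is `τ` with `Off u gs q (L (τ, gs))`: otherwise
`gs² q (L (τ, gs)) ∈ {tipc e^(-2ut) : t ≥ 0}` for all `τ` of a ball, but this set has empty interior (it is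
contained in a curve: `log` of it is on a line) and `τ ↦ q (L (τ, gs))` is open or constant: it is not
constant because `dt L ≠ 0` and `q ∘ lam = c ^ μ` is not constant (see `EndTip_nonreal`, `exists_off` in
WB). `germ_zE`, `analyticAt_zE`. -/
theorem endGood_zero {q : ℂ → ℂ} {U : Set (ℂ × ℂ)} {L : ℂ × ℂ → ℂ} (h : DS q U L) {u gs ζ z0 : ℂ}
    (hu : 0 < u.re) (hgs : gs ≠ 0) {k : ℤ} (hZ : ZAt q U L gs ζ z0 k)
    (hne : ¬ ∀ᶠ z in 𝓝 z0, q z = 0) :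
    ∃ (μ : ℕ) (lam : ℂ → ℂ) (r : ℝ) (Tz : ℂ → ℂ), ZChart q z0 μ lam r ∧
      EndGood q U L gs u ζ Tz ∧ ∃ s1 : ℝ, 0 < s1 ∧ ∀ s ∈ Ioc (0 : ℝ) s1, ∃ δ : ℝ, 0 < δ ∧
        ∀ τ ∈ ball (ζ - I * s) δ, (τ, gs) ∈ U ∧
          ∃ c : ℂ, ‖c‖ < r ∧ ‖gs‖ ^ 2 * ‖c‖ ^ μ ≤ 1 ∧ ZGerm q U L gs u μ lam τ c Tz := by
  obtain ⟨μ, lam, r, hlam⟩ := exists_zChart h.qd hZ.low hZ.zero hne
  obtain ⟨Tz, hTz, hTz0, s1, hs1, hfam⟩ := exists_zFam h hu hgs hlam hZ
  refine ⟨μ, lam, r, Tz, hlam, ⟨hTz, hTz0, fun ε hε => ?_⟩, s1, hs1, hfam⟩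
  obtain ⟨s, hs, hs2⟩ : ∃ s : ℝ, 0 < s ∧ s < min ε s1 := exists_between (lt_min hε hs1)
  obtain ⟨δ, hδ, hδf⟩ := hfam s ⟨hs, (hs2.trans_le (min_le_right _ _)).le⟩
  obtain ⟨hU0, c0, hc0r, -, hc0⟩ := hδf _ (mem_ball_self hδ)
  obtain ⟨τ, hτ, hoff⟩ := Z6_exists h hu hlam hU0 hc0.1 hc0r (lt_min hδ (half_pos hs))
  obtain ⟨hU, c, hcr, hcs, hc⟩ := hδf τ (ball_subset_ball (min_le_left _ _) hτ)
  have hqL : q (L (τ, gs)) = c ^ μ := by
    rw [← hc.1]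
    exact (hlam.val c (mem_ball_zero_iff.2 hcr)).2
  have hq0 : q (L (τ, gs)) ≠ 0 := by
    rw [hqL]
    exact pow_ne_zero _ hc.2.1
  refine ⟨s, ⟨hs, hs2.trans_le (min_le_left _ _)⟩, τ, ?_, hU, hq0, hoff, fun f hf => ?_⟩
  · have := ball_subset_ball (min_le_right _ _) hτ
    rwa [mem_ball, dist_eq_norm] at this
  · obtain ⟨Y, hY⟩ : ∃ Y : ℂ, Y ^ 2 = y2 q L (τ, gs) :=
      IsAlgClosed.exists_pow_nat_eq _ two_pos
    obtain ⟨hsin, hGY, -⟩ := h.G_of_sq hU hq0 hY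
    have hG1 : ‖G Y‖ ≤ 1 := by
      have h1 : ‖G Y‖ ^ 2 ≤ 1 ^ 2 := by
        rw [← norm_pow, hGY, hqL, norm_mul, norm_pow, norm_pow, one_pow]
        exact hcs
      exact (pow_le_pow_iff_left₀ (norm_nonneg _) zero_le_one two_ne_zero).1 h1
    refine ⟨zE u μ Y c (deriv lam), analyticAt_zE hu hlam.mu hsin hG1 hcr
      (hlam.d.deriv isOpen_ball), ?_, hc.2.2 Y f hY hf⟩
    exact germ_zE hu hlam.mu hsin hG1 (fun t ht => by rw [hGY]; exact hoff t ht) hcr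
      (hlam.d.deriv isOpen_ball)

end Pool.Agent.MP_ae5b4e_an_WD
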