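import Pool.Agent.Lib.MP_ae5b4e_an_WD.Wall
import Pool.Agent.Lib.MP_ae5b4e_an_WD.EndTip
import Pool.Agent.Lib.MP_ae5b4e_an_WD.Z6
import Pool.Agent.Lib.MP_ae5b4e_an_WD.Cnt
import Pool.Agent.Lib.MP_ae5b4e_an_TS.Defs

/-!
# POR (iii), N2: good singular points of the line; no walls

`Pg`: a singular point of the line with a slit neighbourhood, at which the label is not regular and
which is a good end (Lemma B). `pg_tip`, `pg_Z`: tips and points `Z_k` are such points.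
`no_wall`: there are no uncountably many parameters with two such points, `T - γ T'` equal.
-/

namespace Pool.Agent.MP_ae5b4e_an_WD

open Complex Set Filter Topology Metric
open Pool.Agent.MP_ae5b4e_an_WB
open Pool.Agent.MP_ae5b4e_an_T (Dv Hp RgN Slb SlN Lb Xf LimAt TAt ZkAt Deep)

/-- good singular point of the line -/
def Pg (q : ℂ → ℂ) (vi : ℂ → ℝ) (L : ℂ × ℂ → ℂ) (u : ℂ) (γ x : ℝ) (T : ℂ → ℂ) : Prop :=
  (∃ (R ρ : ℝ) (Λ : ℂ × ℂ → ℂ), SlN vi L γ ((x : ℂ) - vi γ * I) T R ρ Λ) ∧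
    ¬ RgN vi L γ ((x : ℂ) - vi γ * I) ∧
    EndGood q (Dv vi) L γ u ((x : ℂ) - vi γ * I) (fun z => T (γ * exp (u * z)))

theorem EndGood.congr {q : ℂ → ℂ} {U : Set (ℂ × ℂ)} {L : ℂ × ℂ → ℂ} {gs u ζ : ℂ} {T1 T2 : ℂ → ℂ}
    (h : EndGood q U L gs u ζ T1) (he : T1 =ᶠ[𝓝 0] T2) : EndGood q U L gs u ζ T2 := by
  refine ⟨h.1.congr he, by rw [← he.eq_of_nhds]; exact h.2.1, fun ε hε => ?_⟩
  obtain ⟨s, hs, τ, h1, h2, h3, h4, h5⟩ := h.2.2 ε hε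
  refine ⟨s, hs, τ, h1, h2, h3, h4, fun f hf => ?_⟩
  obtain ⟨E, hE, hg, hz⟩ := h5 f hf
  refine ⟨E, hE, hg, ?_⟩
  filter_upwards [hz, he] with z k1 k2
  rw [← k2, k1]

open Classical in
/-- a chart cut off outside of a ball (value `I`, not a label) -/
noncomputable def cutc (lam : ℂ → ℂ) (ρ : ℝ) : ℂ → ℂ :=
  fun ω => if ω ∈ ball (0 : ℂ) ρ then lam ω else I

theorem cutc_eq (lam : ℂ → ℂ) (ρ : ℝ) : EqOn (cutc lam ρ) lam (ball 0 ρ) := fun _ hω => if_pos hω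

theorem cutc_deriv (lam : ℂ → ℂ) (ρ : ℝ) : EqOn (deriv (cutc lam ρ)) (deriv lam) (ball 0 ρ) := by
  intro ω hω
  exact ((cutc_eq lam ρ).eventuallyEq_of_mem (isOpen_ball.mem_nhds hω)).deriv_eq

theorem cutc_mem {lam : ℂ → ℂ} {ρ : ℝ} {a l : ℂ} (h : cutc lam ρ a = l) (hl : l.im < 0) :
    a ∈ ball (0 : ℂ) ρ ∧ lam a = l := by
  by_cases ha : a ∈ ball (0 : ℂ) ρ
  · exact ⟨ha, by rw [← cutc_eq lam ρ ha, h]⟩
  · exfalso
    have h2 : cutc lam ρ a = I := if_neg ha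
    rw [← h, h2, I_im] at hl
    linarith

theorem cutc_loc {u lb : ℂ} {q : ℂ → ℂ} {lam : ℂ → ℂ} {r : ℝ} (h : LocChart u q lb lam r) :
    LocChart u q lb (cutc lam r) r := by
  obtain ⟨hr, hr1, hr2, hd, h0, hl, hinj⟩ := h
  have he := cutc_eq lam r
  refine ⟨hr, hr1, hr2, hd.congr he, ?_, ?_, hinj.congr he.symm⟩
  · rw [he (mem_ball_self hr), h0]
  · intro ω hω
    rw [he hω]
    exact hl ω hω

theorem cutc_zc {q : ℂ → ℂ} {z : ℂ} {μ : ℕ} {lam : ℂ → ℂ} {r : ℝ} (h : ZChart q z μ lam r) :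
    ZChart q z μ (cutc lam r) r := by
  have he := cutc_eq lam r
  refine ⟨h.pos, h.mu, h.d.congr he, ?_, ?_, h.inj.congr he.symm⟩
  · rw [he (mem_ball_self h.pos), h.zero]
  · intro ω hω
    rw [he hω]
    exact h.val ω hω

/-- TIPS are good singular points (the last hypothesis is the last clause of `slit_tip`) -/
theorem end_tip {q : ℂ → ℂ} {U : Set (ℂ × ℂ)} {L : ℂ × ℂ → ℂ} (h : DS q U L) {u gs ζ l : ℂ}
    (hu : 0 < u.re) (hgs : gs ≠ 0) (hT : TipAt q U L gs ζ l) (hG : GoodP u q l) {T : ℂ → ℂ}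
    (hfam : ∀ (lam : ℂ → ℂ) (r : ℝ), LocChart u q l lam r →
      ∃ s1 : ℝ, 0 < s1 ∧ ∀ s ∈ Ioc (0 : ℝ) s1, ∃ δ : ℝ, 0 < δ ∧
        ∀ τ ∈ ball (ζ - I * s) δ, (τ, gs) ∈ U ∧ ∃ a : ℂ, TipGerm q U L gs u lam τ a T) :
    EndGood q U L gs u ζ T := by
  obtain ⟨Tb, hE, hfam'⟩ := endGood_tip h hu hgs hT hG
  obtain ⟨lam, hlam⟩ := exists_chart hu h.qd hG
  obtain ⟨r, hloc⟩ := IsChart.loc hu h.qd hG.1 hT.reg hlam
  obtain ⟨s1, hs1, hf1⟩ := hfam _ r (cutc_loc hloc)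
  obtain ⟨s2, hs2, hf2⟩ := hfam' _ r (cutc_loc hloc)
  have hs : min s1 s2 ∈ Ioc (0 : ℝ) s1 := ⟨lt_min hs1 hs2, min_le_left _ _⟩
  have hs' : min s1 s2 ∈ Ioc (0 : ℝ) s2 := ⟨lt_min hs1 hs2, min_le_right _ _⟩
  obtain ⟨δ1, hδ1, k1⟩ := hf1 _ hs
  obtain ⟨δ2, hδ2, k2⟩ := hf2 _ hs'
  obtain ⟨hU, a1, ha1⟩ := k1 _ (mem_ball_self hδ1)
  obtain ⟨-, a2, ha2⟩ := k2 _ (mem_ball_self hδ2)
  have hlow := h.low _ hU
  obtain ⟨m1, e1⟩ := cutc_mem ha1.1 hlow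
  obtain ⟨m2, e2⟩ := cutc_mem ha2.1 hlow
  have ha : a1 = a2 := hloc.2.2.2.2.2.2 m1 m2 (by rw [e1, e2])
  subst ha
  obtain ⟨Y, hY⟩ : ∃ Y : ℂ, Y ^ 2 = y2 q L (ζ - I * (min s1 s2 : ℝ), gs) :=
    IsAlgClosed.exists_pow_nat_eq _ two_pos
  obtain ⟨f, hf⟩ := h.exists_invGerm (u := u) hU
  refine hE.congr ?_
  filter_upwards [ha1.2.2 Y f hY hf, ha2.2.2 Y f hY hf] with z j1 j2
  rw [j1, j2]

/-- points `Z_k` are good singular points (the last hypothesis is the last clause of `slit_Z`) -/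
theorem end_Z {q : ℂ → ℂ} {U : Set (ℂ × ℂ)} {L : ℂ × ℂ → ℂ} (h : DS q U L) {u gs ζ l : ℂ}
    (hu : 0 < u.re) (hgs : gs ≠ 0) {k : ℤ} (hZ : ZAt q U L gs ζ l k)
    (hne : ¬ ∀ᶠ z in 𝓝 l, q z = 0) {T : ℂ → ℂ}
    (hfam : ∀ (μ : ℕ) (lam : ℂ → ℂ) (r : ℝ), ZChart q l μ lam r →
      ∃ s1 : ℝ, 0 < s1 ∧ ∀ s ∈ Ioc (0 : ℝ) s1, ∃ δ : ℝ, 0 < δ ∧
        ∀ τ ∈ ball (ζ - I * s) δ, (τ, gs) ∈ U ∧ ∃ c : ℂ, ZGerm q U L gs u μ lam τ c T) :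
    EndGood q U L gs u ζ T := by
  obtain ⟨μ, lam, r, Tz, hlam, hE, s2, hs2, hf2⟩ := endGood_zero h hu hgs hZ hne
  obtain ⟨s1, hs1, hf1⟩ := hfam μ _ r (cutc_zc hlam)
  have hs : min s1 s2 ∈ Ioc (0 : ℝ) s1 := ⟨lt_min hs1 hs2, min_le_left _ _⟩
  have hs' : min s1 s2 ∈ Ioc (0 : ℝ) s2 := ⟨lt_min hs1 hs2, min_le_right _ _⟩
  obtain ⟨δ1, hδ1, k1⟩ := hf1 _ hs
  obtain ⟨δ2, hδ2, k2⟩ := hf2 _ hs'
  obtain ⟨hU, c1, hc1⟩ := k1 _ (mem_ball_self hδ1)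
  obtain ⟨-, c2, hc2r, -, hc2⟩ := k2 _ (mem_ball_self hδ2)
  have hlow := h.low _ hU
  obtain ⟨m1, e1⟩ := cutc_mem hc1.1 hlow
  have hc : c1 = c2 := hlam.inj m1 (mem_ball_zero_iff.2 hc2r) (by rw [e1, hc2.1])
  subst hc
  obtain ⟨Y, hY⟩ : ∃ Y : ℂ, Y ^ 2 = y2 q L (ζ - I * (min s1 s2 : ℝ), gs) :=
    IsAlgClosed.exists_pow_nat_eq _ two_pos
  obtain ⟨f, hf⟩ := h.exists_invGerm (u := u) hU
  have hzE : ∀ z : ℂ, zE u μ Y c1 (deriv (cutc lam r)) z = zE u μ Y c1 (deriv lam) z := by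
    intro z
    unfold zE
    refine MeasureTheory.setIntegral_congr_fun measurableSet_Ioi fun s hs => ?_
    have hs0 : (0 : ℝ) < s := hs
    have hμ : (0 : ℝ) < μ := by exact_mod_cast hlam.mu
    have hmem : c1 * exp (-(2 * u / μ * s)) ∈ ball (0 : ℂ) r := by
      rw [mem_ball_zero_iff, norm_mul, Complex.norm_exp]
      have hre : (-(2 * u / (μ : ℂ) * (s : ℂ))).re = -(2 * u.re / μ * s) := by
        have : (2 * u / (μ : ℂ) * (s : ℂ)) = ((2 / μ * s : ℝ) : ℂ) * u := by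
          push_cast
          ring
        rw [Complex.neg_re, this, Complex.re_ofReal_mul]
        ring
      rw [hre]
      have h1 : Real.exp (-(2 * u.re / μ * s)) ≤ 1 := by
        rw [Real.exp_le_one_iff]
        have : 0 ≤ 2 * u.re / μ * s := by positivity
        linarith
      calc ‖c1‖ * Real.exp (-(2 * u.re / μ * s)) ≤ ‖c1‖ * 1 :=
            mul_le_mul_of_nonneg_left h1 (norm_nonneg _)
        _ = ‖c1‖ := mul_one _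
        _ < r := mem_ball_zero_iff.1 m1
    simp only [cutc_deriv lam r hmem]
  refine hE.congr ?_
  filter_upwards [hc1.2.2 Y f hY hf, hc2.2.2 Y f hY hf] with z j1 j2
  rw [j1, j2, hzE]

/-- on the slice, `X` extends continuously to regular points -/
theorem rgn_X {q : ℂ → ℂ} {C : ℝ} {vi : ℂ → ℝ} {L : ℂ × ℂ → ℂ} (h : Lb q C vi L) {γ : ℝ}
    (hγ : 0 < γ) {x : ℝ} (hR : RgN vi L γ ((x : ℂ) - vi γ * I)) :
    ∃ (l a : ℂ), l.im < 0 ∧ Tendsto (fun s : ℝ => L ((x : ℂ) - (vi γ + s : ℝ) * I, (γ : ℂ)))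
        (𝓝[>] 0) (𝓝 l) ∧
      Tendsto (fun s : ℝ => Xf q γ (fun τ => L (τ, γ)) ((x : ℂ) - (vi γ + s : ℝ) * I)) (𝓝[>] 0)
        (𝓝 (q l * (γ * a) ^ 2)) := by
  obtain ⟨ρ, hρ, Λ, han, him, heq⟩ := hR
  set ζ : ℂ := (x : ℂ) - vi γ * I with hζ
  set f : ℂ → ℂ := fun τ => Λ (τ, (γ : ℂ)) with hf
  have hfan : ∀ τ ∈ ball ζ ρ, AnalyticAt ℂ f τ := by
    intro τ hτ
    have h2 : AnalyticAt ℂ (fun τ : ℂ => (τ, (γ : ℂ))) τ := analyticAt_id.prod analyticAt_const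
    exact AnalyticAt.fun_comp (f := fun τ : ℂ => (τ, (γ : ℂ))) (han _ ⟨hτ, mem_ball_self hρ⟩) h2
  have hζρ : ζ ∈ ball ζ ρ := mem_ball_self hρ
  have hp : Tendsto (fun s : ℝ => (x : ℂ) - (vi γ + s : ℝ) * I) (𝓝[>] 0) (𝓝 ζ) := by
    have h1 : Continuous (fun s : ℝ => (x : ℂ) - (vi γ + s : ℝ) * I) := by fun_prop
    have h2 := h1.tendsto 0
    simp only [add_zero] at h2
    exact h2.mono_left nhdsWithin_le_nhds
  have hball : ∀ᶠ s : ℝ in 𝓝[>] 0, (x : ℂ) - (vi γ + s : ℝ) * I ∈ ball ζ ρ :=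
    hp.eventually (ball_mem_nhds _ hρ)
  have hpos : ∀ᶠ s : ℝ in 𝓝[>] 0, 0 < s := self_mem_nhdsWithin
  have hDv : ∀ τ : ℂ, τ.im < -vi γ → (τ, (γ : ℂ)) ∈ Dv vi := fun τ hτ => Lb.mem hγ hτ
  have hloc : ∀ᶠ s : ℝ in 𝓝[>] 0, ∀ᶠ τ in 𝓝 ((x : ℂ) - (vi γ + s : ℝ) * I), L (τ, (γ : ℂ)) = f τ := by
    filter_upwards [hball, hpos] with s hs hs0
    have h3 : ((x : ℂ) - (vi γ + s : ℝ) * I).im < -vi γ := by
      simp
      linarith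
    filter_upwards [isOpen_ball.mem_nhds hs,
      (isOpen_lt Complex.continuous_im continuous_const).mem_nhds h3] with τ h4 h5
    exact (heq (τ, (γ : ℂ)) ⟨h4, mem_ball_self hρ⟩ (hDv τ h5)).symm
  refine ⟨f ζ, deriv f ζ, him _ ⟨hζρ, mem_ball_self hρ⟩, ?_, ?_⟩
  · have h1 : Tendsto (fun s : ℝ => f ((x : ℂ) - (vi γ + s : ℝ) * I)) (𝓝[>] 0) (𝓝 (f ζ)) :=
      ((hfan ζ hζρ).continuousAt.tendsto).comp hp
    refine h1.congr' ?_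
    filter_upwards [hloc] with s hs
    exact hs.self_of_nhds.symm
  · have hlow : (f ζ).im < 0 := him _ ⟨hζρ, mem_ball_self hρ⟩
    have hHm : IsOpen Hm := isOpen_lt Complex.continuous_im continuous_const
    have hqc : ContinuousAt q (f ζ) := (h.ds.qd.differentiableAt (hHm.mem_nhds hlow)).continuousAt
    have hcont : ContinuousAt (fun τ => q (f τ) * (γ * deriv f τ) ^ 2) ζ := by
      have k1 : ContinuousAt (fun τ => q (f τ)) ζ :=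
        ContinuousAt.comp (g := q) hqc (hfan ζ hζρ).continuousAt
      have k2 : ContinuousAt (deriv f) ζ := (hfan ζ hζρ).deriv.continuousAt
      exact k1.mul ((continuousAt_const.mul k2).pow 2)
    have h1 : Tendsto (fun s : ℝ => q (f ((x : ℂ) - (vi γ + s : ℝ) * I)) *
        (γ * deriv f ((x : ℂ) - (vi γ + s : ℝ) * I)) ^ 2) (𝓝[>] 0)
        (𝓝 (q (f ζ) * (γ * deriv f ζ) ^ 2)) := hcont.tendsto.comp hp
    refine h1.congr' ?_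
    filter_upwards [hloc] with s hs
    have e1 : (fun τ => L (τ, (γ : ℂ))) =ᶠ[𝓝 ((x : ℂ) - (vi γ + s : ℝ) * I)] f := hs
    have e2 := e1.eq_of_nhds
    beta_reduce at e2
    unfold Xf
    rw [e1.deriv_eq]
    beta_reduce
    rw [e2]

/-- tips are not regular -/
theorem not_rgn_tip {q : ℂ → ℂ} {C : ℝ} {vi : ℂ → ℝ} {L : ℂ × ℂ → ℂ} (h : Lb q C vi L) {γ : ℝ}
    (hγ : 0 < γ) {x : ℝ} {l : ℂ} (hT : TAt q γ (vi γ) (fun τ => L (τ, γ)) x l) :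
    ¬ RgN vi L γ ((x : ℂ) - vi γ * I) := by
  intro hR
  obtain ⟨l', a, -, -, hX⟩ := rgn_X h hγ hR
  have h1 := hX.norm
  exact not_tendsto_nhds_of_tendsto_atTop hT.2.2 _ h1

/-- points `Z_k` are not regular -/
theorem not_rgn_Z {q : ℂ → ℂ} {C : ℝ} {vi : ℂ → ℝ} {L : ℂ × ℂ → ℂ} (h : Lb q C vi L) {γ : ℝ}
    (hγ : 0 < γ) {x : ℝ} {l : ℂ} {k : ℕ} (hZ : ZkAt q γ (vi γ) (fun τ => L (τ, γ)) x l k) :
    ¬ RgN vi L γ ((x : ℂ) - vi γ * I) := by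
  intro hR
  obtain ⟨l', a, -, hl, hX⟩ := rgn_X h hγ hR
  obtain ⟨hlim, hq, hk, hX2⟩ := hZ
  have hp : Tendsto (fun s : ℝ => (x : ℂ) - (vi γ + s : ℝ) * I) (𝓝[>] 0)
      (𝓝[Hp (vi γ)] ((x : ℂ) - vi γ * I)) := by
    refine tendsto_nhdsWithin_iff.2 ⟨?_, ?_⟩
    · have h1 : Continuous (fun s : ℝ => (x : ℂ) - (vi γ + s : ℝ) * I) := by fun_prop
      have h2 := h1.tendsto 0
      simp only [add_zero] at h2
      exact h2.mono_left nhdsWithin_le_nhds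
    · filter_upwards [self_mem_nhdsWithin] with s hs
      have hs0 : (0 : ℝ) < s := hs
      change ((x : ℂ) - (vi γ + s : ℝ) * I).im < -vi γ
      simp
      linarith
  have h2 : Tendsto (fun s : ℝ => L ((x : ℂ) - (vi γ + s : ℝ) * I, (γ : ℂ))) (𝓝[>] 0) (𝓝 l) :=
    hlim.comp hp
  have e : l' = l := tendsto_nhds_unique hl h2
  rw [e, hq, zero_mul] at hX
  have h3 : ((k * Real.pi : ℂ) ^ 2) = 0 := tendsto_nhds_unique hX2 hX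
  have h4 : (k * Real.pi : ℂ) ≠ 0 := by
    refine mul_ne_zero ?_ ?_
    · exact_mod_cast (by omega : k ≠ 0)
    · exact_mod_cast Real.pi_ne_zero
  exact pow_ne_zero 2 h4 h3

/-- NO WALLS, local version: only the labels over the stretch between the two points, at distance
`< ε0 γ` below the line, have to be good. -/
theorem no_wall_loc {q : ℂ → ℂ} {C : ℝ} {vi : ℂ → ℝ} {L : ℂ × ℂ → ℂ} (h : Lb q C vi L) {u : ℂ}
    (hu : 0 < u.re) {A : Set ℝ} (hA : ¬ A.Countable) (hpos : ∀ γ ∈ A, 0 < γ) {xb xd : ℝ → ℝ}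
    {Tb Td : ℝ → ℂ → ℂ} (hb : ∀ γ ∈ A, Pg q vi L u γ (xb γ) (Tb γ))
    (hd : ∀ γ ∈ A, Pg q vi L u γ (xd γ) (Td γ)) (hne : ∀ γ ∈ A, xb γ ≠ xd γ)
    (hS : ∀ γ ∈ A, Tb γ γ - γ * deriv (Tb γ) γ = Td γ γ - γ * deriv (Td γ) γ)
    {ε0 : ℝ → ℝ} (hε0 : ∀ γ ∈ A, 0 < ε0 γ)
    (hgood : ∀ γ ∈ A, ∀ τ : ℂ, -vi γ - ε0 γ < τ.im → τ.im < -vi γ →
      min (xb γ) (xd γ) - 2 < τ.re → τ.re < max (xb γ) (xd γ) + 2 →
      ¬ Off u γ q (L (τ, γ)) → GoodP u q (L (τ, γ))) :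
    False := by
  have eb : ∀ γ ∈ A, Tb γ γ = (xb γ : ℂ) - vi γ * I := by
    intro γ hγ
    obtain ⟨⟨R, ρ, Λ, h1⟩, -, -⟩ := hb γ hγ
    exact h1.T0
  have ed : ∀ γ ∈ A, Td γ γ = (xd γ : ℂ) - vi γ * I := by
    intro γ hγ
    obtain ⟨⟨R, ρ, Λ, h1⟩, -, -⟩ := hd γ hγ
    exact h1.T0
  obtain ⟨A', hA'A, hA', k, hk0, hk⟩ := cnt (vi := vi) (L := L) hA hpos (Tb := Tb) (Td := Td)
    (fun γ hγ => by
      rw [eb γ hγ]
      exact ⟨(hb γ hγ).1, by simp, (hb γ hγ).2.1⟩)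
    (fun γ hγ => by
      rw [ed γ hγ]
      exact ⟨(hd γ hγ).1, by simp, (hd γ hγ).2.1⟩)
    (fun γ hγ he => hne γ hγ (by
      rw [eb γ hγ, ed γ hγ] at he
      have := congrArg Complex.re he
      simpa using this)) hS
  obtain ⟨γ, hγ⟩ : A'.Nonempty := by
    rw [nonempty_iff_ne_empty]
    rintro rfl
    exact hA' countable_empty
  have hγA := hA'A hγ
  have hγ0 : (γ : ℂ) ≠ 0 := by exact_mod_cast (hpos γ hγA).ne'
  have h0 := wall_D (u := u) (gs := (γ : ℂ)) (k := (k : ℂ) * γ) h.ds hu hγ0 (m := -vi γ)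
    (fun τ hτ => Lb.mem (hpos γ hγA) hτ) (ζb := (xb γ : ℂ) - vi γ * I)
    (ζd := (xd γ : ℂ) - vi γ * I) (by simp) (by simp) (hb γ hγA).2.2 (hd γ hγA).2.2
    (ε0 := ε0 γ) (hε0 γ hγA) (fun τ h1 h2 h3 h4 => hgood γ hγA τ h1 h2 (by simpa using h3)
      (by simpa using h4)) (by
      have ht : Tendsto (fun z : ℂ => (γ : ℂ) * exp (u * z)) (𝓝 0) (𝓝 (γ : ℂ)) := by
        have h1 : Continuous (fun z : ℂ => (γ : ℂ) * exp (u * z)) := by fun_prop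
        have h2 := h1.tendsto 0
        simpa using h2
      filter_upwards [ht.eventually (hk γ hγ)] with z hz _
      rw [hz]
      ring)
  rcases mul_eq_zero.1 h0 with h1 | h1
  · exact hk0 (by exact_mod_cast h1)
  · exact hγ0 h1

/-- NO WALLS. -/
theorem no_wall {q : ℂ → ℂ} {C : ℝ} {vi : ℂ → ℝ} {L : ℂ × ℂ → ℂ} (h : Lb q C vi L) {u : ℂ}
    (hu : 0 < u.re) {A : Set ℝ} (hA : ¬ A.Countable) (hpos : ∀ γ ∈ A, 0 < γ) {xb xd : ℝ → ℝ}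
    {Tb Td : ℝ → ℂ → ℂ} (hb : ∀ γ ∈ A, Pg q vi L u γ (xb γ) (Tb γ))
    (hd : ∀ γ ∈ A, Pg q vi L u γ (xd γ) (Td γ)) (hne : ∀ γ ∈ A, xb γ ≠ xd γ)
    (hS : ∀ γ ∈ A, Tb γ γ - γ * deriv (Tb γ) γ = Td γ γ - γ * deriv (Td γ) γ)
    (hgood : ∀ γ ∈ A, ∀ τ : ℂ, τ.im < -vi γ → ¬ Off u γ q (L (τ, γ)) → GoodP u q (L (τ, γ))) :
    False :=
  no_wall_loc h hu hA hpos hb hd hne hS (ε0 := fun _ => 1) (fun _ _ => one_pos)
    (fun γ hγ τ _ h2 _ _ => hgood γ hγ τ h2)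

end Pool.Agent.MP_ae5b4e_an_WD
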