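import Pool.Agent.Lib.MP_ae5b4e_an_WD.AV2

/-!
# POR (iii), N2, bridge: asymptotic values of `G`: the value `tipc`
-/

namespace Pool.Agent.MP_ae5b4e_an_WD

open Complex Set Filter Topology Metric
open Pool.Agent.MP_ae5b4e_an_WB

/-- if `f` is continuous and `exp f → 1` then `f` converges to some `2 π i m` -/
theorem tendsto_of_exp {f : ℝ → ℂ} {s0 : ℝ} (hs0 : 0 < s0) (hc : ContinuousOn f (Ioc 0 s0))
    (he : Tendsto (fun s => exp (f s)) (𝓝[>] 0) (𝓝 1)) :
    ∃ m : ℤ, Tendsto f (𝓝[>] 0) (𝓝 (m * (2 * Real.pi * I))) := by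
  have h1 : ∀ᶠ s in 𝓝[>] (0 : ℝ), exp (f s) ∈ slitPlane :=
    he.eventually (isOpen_slitPlane.mem_nhds Complex.one_mem_slitPlane)
  obtain ⟨s1, hs1, hb⟩ := (mem_nhdsGT_iff_exists_Ioc_subset).1
    (Filter.inter_mem h1 (Ioc_mem_nhdsGT hs0))
  have hs1' : (0 : ℝ) < s1 := hs1
  set g : ℝ → ℂ := fun s => f s - log (exp (f s)) with hg
  have hgc : ContinuousOn g (Ioc 0 s1) := by
    have hf1 : ContinuousOn f (Ioc 0 s1) := hc.mono fun s hs => (hb hs).2
    exact hf1.sub (hf1.cexp.clog fun s hs => (hb hs).1)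
  have hint : ∀ s, ∃ n : ℤ, g s = n * (2 * Real.pi * I) := by
    intro s
    have : exp (g s) = 1 := by
      rw [hg]; simp only
      rw [exp_sub, exp_log (exp_ne_zero _), div_self (exp_ne_zero _)]
    exact Complex.exp_eq_one_iff.1 this
  choose n hn using hint
  have hconst : ∀ s ∈ Ioc 0 s1, n s = n s1 := by
    by_contra hne
    push Not at hne
    obtain ⟨s, hs, hne⟩ := hne
    have hre : ContinuousOn (fun s => (g s).im / (2 * Real.pi)) (Ioc 0 s1) :=
      (Complex.continuous_im.comp_continuousOn hgc).div_const _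
    have hval : ∀ s, (g s).im / (2 * Real.pi) = n s := by
      intro s
      rw [hn s]
      have : ((n s : ℂ) * (2 * Real.pi * I)).im = n s * (2 * Real.pi) := by simp
      rw [this]
      field_simp
    have hsub : uIcc s s1 ⊆ Ioc 0 s1 := by
      rw [uIcc_of_le hs.2]
      exact fun x hx => ⟨hs.1.trans_le hx.1, hx.2⟩
    have hiv := intermediate_value_uIcc (hre.mono hsub)
    -- a value strictly between two integers
    rcases lt_or_gt_of_ne hne with hlt | hlt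
    · have : ((n s : ℝ) + 1 / 2) ∈ uIcc ((g s).im / (2 * Real.pi)) ((g s1).im / (2 * Real.pi)) := by
        rw [hval, hval]
        have h3 : (n s : ℝ) + 1 ≤ n s1 := by exact_mod_cast hlt
        rw [uIcc_of_le (by linarith)]
        exact ⟨by linarith, by linarith⟩
      obtain ⟨x, -, hx⟩ := hiv this
      simp only at hx
      rw [hval] at hx
      have h4 : (2 : ℝ) * n x = 2 * n s + 1 := by linarith
      have h5 : (2 : ℤ) * n x = 2 * n s + 1 := by exact_mod_cast h4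
      omega
    · have : ((n s1 : ℝ) + 1 / 2) ∈ uIcc ((g s).im / (2 * Real.pi)) ((g s1).im / (2 * Real.pi)) := by
        rw [hval, hval]
        have h3 : (n s1 : ℝ) + 1 ≤ n s := by exact_mod_cast hlt
        rw [uIcc_of_ge (by linarith)]
        exact ⟨by linarith, by linarith⟩
      obtain ⟨x, -, hx⟩ := hiv this
      simp only at hx
      rw [hval] at hx
      have h4 : (2 : ℝ) * n x = 2 * n s1 + 1 := by linarith
      have h5 : (2 : ℤ) * n x = 2 * n s1 + 1 := by exact_mod_cast h4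
      omega
  refine ⟨n s1, ?_⟩
  have h2 : Tendsto (fun s => (n s1 : ℂ) * (2 * Real.pi * I) + log (exp (f s))) (𝓝[>] 0)
      (𝓝 (n s1 * (2 * Real.pi * I) + log 1)) :=
    tendsto_const_nhds.add (he.clog Complex.one_mem_slitPlane)
  rw [log_one, add_zero] at h2
  refine h2.congr' ?_
  filter_upwards [Ioc_mem_nhdsGT hs1'] with s hs
  rw [← hconst s hs, ← hn s, hg]
  simp

/-- at a cluster point `0` the value `G` tends to `0` -/
theorem G_small_of_small {ε : ℝ} (hε : 0 < ε) : ∀ᶠ z in 𝓝 (0 : ℂ), sin z ≠ 0 → ‖G z‖ < ε := by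
  obtain ⟨C, hC, h⟩ := exists_G_small
  have h1 : ∀ᶠ z in 𝓝 (0 : ℂ), ‖z‖ < min 1 (ε / C) := by
    have : Tendsto (fun z : ℂ => ‖z‖) (𝓝 0) (𝓝 0) := by
      simpa using (continuous_norm (E := ℂ)).tendsto 0
    exact this.eventually (Iio_mem_nhds (by positivity))
  filter_upwards [h1] with z hz hsz
  have h2 : ‖z‖ ≤ 1 := (hz.trans_le (min_le_left _ _)).le
  have h3 : ‖z‖ < ε / C := hz.trans_le (min_le_right _ _)
  calc ‖G z‖ ≤ C * ‖z‖ := h z h2 hsz
    _ < C * (ε / C) := by gcongr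
    _ = ε := by field_simp

/-- either the path converges to a regular point or its imaginary part tends to `∞` -/
theorem av_dich {y : ℝ → ℂ} {s0 : ℝ} (hs0 : 0 < s0) {w : ℂ}
    (hc : ContinuousOn y (Ioc 0 s0)) (hs : ∀ s ∈ Ioc 0 s0, sin (y s) ≠ 0)
    (hw : Tendsto (fun s => G (y s)) (𝓝[>] 0) (𝓝 w)) (h0 : w ≠ 0) :
    (∃ y1, sin y1 ≠ 0 ∧ G y1 = w ∧ Tendsto y (𝓝[>] 0) (𝓝 y1)) ∨
      Tendsto (fun s => |(y s).im|) (𝓝[>] 0) atTop := by
  by_cases hreg : ∃ y1, sin y1 ≠ 0 ∧ G y1 = w ∧ Tendsto y (𝓝[>] 0) (𝓝 y1)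
  · exact Or.inl hreg
  right
  have hno : ∀ T : ℝ, 0 < T → ∀ᶠ s in 𝓝[>] (0 : ℝ), ¬ ∀ t ∈ ball (0 : ℂ) T, ∃ η, IsLift (y s) t η := by
    intro T hT
    rw [← Filter.not_frequently]
    exact fun hf => hreg (tendsto_of_branch hs0 hT hc hs hw h0 hf)
  have hss : ∀ᶠ s in 𝓝[>] (0 : ℝ), s ∈ Ioc 0 s0 := Ioc_mem_nhdsGT hs0
  rw [Filter.tendsto_atTop]
  intro M
  by_contra hM
  rw [Filter.not_eventually] at hM
  have hM' : ∃ᶠ s in 𝓝[>] (0 : ℝ), |(y s).im| ≤ M := hM.mono fun s hs => (not_le.1 hs).le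
  obtain ⟨K, hK1, hK⟩ := lift_of_im_le M
  -- nearest zero of `sin`
  have hnear : ∀ z : ℂ, ∃ k : ℤ, |z.re - k * Real.pi| ≤ Real.pi / 2 := by
    intro z
    refine ⟨round (z.re / Real.pi), ?_⟩
    have h1 := abs_sub_round (z.re / Real.pi)
    have h2 : z.re - round (z.re / Real.pi) * Real.pi =
        (z.re / Real.pi - round (z.re / Real.pi)) * Real.pi := by
      field_simp
    rw [h2, abs_mul, abs_of_pos Real.pi_pos]
    nlinarith [Real.pi_pos]
  have hbd : ∃ᶠ s in 𝓝[>] (0 : ℝ), y s ∈ closedBall (0 : ℂ) (K * (|M| + 2)) := by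
    refine (hM'.and_eventually ((hno 1 one_pos).and hss)).mono ?_
    rintro s ⟨h1, h2, h3⟩
    by_contra hb
    rw [mem_closedBall_zero_iff, not_le] at hb
    apply h2
    obtain ⟨k, hk⟩ := hnear (y s)
    refine hK (y s) k (hs s h3) h1 hk ?_
    have h4 := Complex.norm_le_abs_re_add_abs_im (y s - k * Real.pi)
    have h5 : (y s - (k : ℂ) * (Real.pi : ℂ)).re = (y s).re - k * Real.pi := by simp
    have h6 : (y s - (k : ℂ) * (Real.pi : ℂ)).im = (y s).im := by simp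
    rw [h5, h6] at h4
    have := Real.pi_lt_four
    have h7 : ‖y s - k * Real.pi‖ ≤ |M| + 2 := by linarith [le_abs_self M]
    have hK0 : 0 < K := by linarith
    calc K * ‖y s - k * Real.pi‖ ≤ K * (|M| + 2) := by gcongr
      _ ≤ ‖y s‖ := hb.le
  obtain ⟨z, -, hz⟩ := (isCompact_closedBall (0 : ℂ) (K * (|M| + 2))).exists_mapClusterPt_of_frequently
    hbd
  have hfr : ∀ P : ℂ → Prop, (∀ᶠ x in 𝓝 z, P x) → ∃ᶠ s in 𝓝[>] (0 : ℝ), P (y s) :=
    fun P hP => hz.frequently hP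
  by_cases hsz : sin z = 0
  · obtain ⟨k, hk⟩ := Complex.sin_eq_zero_iff.1 hsz
    rcases eq_or_ne k 0 with hk0 | hk0
    · have hz0 : z = 0 := by rw [hk, hk0]; simp
      have h1 : ∀ᶠ x in 𝓝 z, sin x ≠ 0 → ‖G x‖ < ‖w‖ / 2 := by
        rw [hz0]
        exact G_small_of_small (half_pos (norm_pos_iff.2 h0))
      have h2 : ∀ᶠ s in 𝓝[>] (0 : ℝ), ‖w‖ / 2 < ‖G (y s)‖ :=
        hw.norm.eventually (Ioi_mem_nhds (by linarith [norm_pos_iff.2 h0]))
      obtain ⟨s, h3, h4, h5⟩ := ((hfr _ h1).and_eventually (h2.and hss)).exists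
      exact absurd (h3 (hs s h5)) (not_lt.2 h4.le)
    · obtain ⟨K', hK1', hK'⟩ := lift_of_im_le 1
      have hzn : 0 < ‖z‖ := by
        rw [norm_pos_iff, hk]
        exact mul_ne_zero (by exact_mod_cast hk0) (by exact_mod_cast Real.pi_ne_zero)
      have h1 : ∀ᶠ x : ℂ in 𝓝 z, K' * ‖x - k * Real.pi‖ < ‖x‖ := by
        have hc1 : Continuous (fun x : ℂ => ‖x‖ - K' * ‖x - k * Real.pi‖) := by fun_prop
        have := (hc1.continuousAt (x := z)).eventually (Ioi_mem_nhds (a := 0) (by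
          rw [← hk]; simpa using hzn))
        filter_upwards [this] with x hx
        have : 0 < ‖x‖ - K' * ‖x - k * Real.pi‖ := hx
        linarith
      have h2 : ∀ᶠ x : ℂ in 𝓝 z, |x.im| < 1 := by
        have hc1 : Continuous (fun x : ℂ => |x.im|) := by fun_prop
        refine (hc1.continuousAt (x := z)).eventually (Iio_mem_nhds ?_)
        rw [hk]; simp
      have h3 : ∀ᶠ x : ℂ in 𝓝 z, |x.re - k * Real.pi| < Real.pi / 2 := by
        have hc1 : Continuous (fun x : ℂ => |x.re - k * Real.pi|) := by fun_prop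
        refine (hc1.continuousAt (x := z)).eventually (Iio_mem_nhds ?_)
        rw [hk]; simp [Real.pi_pos]
      obtain ⟨s, ⟨h4, h5, h6⟩, h7, h8⟩ :=
        ((hfr _ (h1.and (h2.and h3))).and_eventually ((hno 1 one_pos).and hss)).exists
      exact h7 (hK' (y s) k (hs s h8) h5.le h6.le h4.le)
  · obtain ⟨T, hT, h1⟩ := lift_near hsz
    obtain ⟨s, h2, h3⟩ := ((hfr _ h1).and_eventually (hno T hT)).exists
    exact h3 h2

/-- the upper half plane case -/
theorem tip_upper {y : ℝ → ℂ} {s0 : ℝ} (hs0 : 0 < s0) (hc : ContinuousOn y (Ioc 0 s0))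
    (hw : Tendsto (fun s => G (y s) ^ 2) (𝓝[>] 0) (𝓝 tipc))
    (him : Tendsto (fun s => (y s).im) (𝓝[>] 0) atTop) :
    Tendsto (fun s => ‖y s‖ * Real.exp (-(2 * (y s).im))) (𝓝[>] 0) (𝓝 0) := by
  have htip : tipc ≠ 0 := by
    unfold tipc
    rw [neg_ne_zero, ofReal_ne_zero]
    positivity
  set E : ℝ → ℂ := fun s => exp (2 * I * y s) with hE
  have hEn : ∀ s, ‖E s‖ = Real.exp (-(2 * (y s).im)) := by
    intro s
    rw [hE]; simp only
    rw [norm_exp]
    congr 1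
    simp
  have hE0 : Tendsto E (𝓝[>] 0) (𝓝 0) := by
    rw [tendsto_zero_iff_norm_tendsto_zero]
    simp only [hEn]
    have : Tendsto (fun s => 2 * (y s).im) (𝓝[>] 0) atTop := him.const_mul_atTop two_pos
    exact Real.tendsto_exp_neg_atTop_nhds_zero.comp this
  have hpos : ∀ᶠ s in 𝓝[>] (0 : ℝ), 1 < (y s).im := him.eventually (Ioi_mem_atTop 1)
  obtain ⟨s1, hs1, hb⟩ := (mem_nhdsGT_iff_exists_Ioc_subset).1
    (Filter.inter_mem hpos (Ioc_mem_nhdsGT hs0))
  have hs1' : (0 : ℝ) < s1 := hs1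
  have hy1 : ∀ s ∈ Ioc 0 s1, 1 < (y s).im := fun s hs => (hb hs).1
  have hcy : ContinuousOn y (Ioc 0 s1) := hc.mono fun s hs => (hb hs).2
  have hE1 : ∀ s ∈ Ioc 0 s1, 1 - E s ≠ 0 := by
    intro s hs h
    have h1 : E s = 1 := (sub_eq_zero.1 h).symm
    have h2 := hEn s
    rw [h1, norm_one] at h2
    have : Real.exp (-(2 * (y s).im)) < 1 := by
      rw [Real.exp_lt_one_iff]
      linarith [hy1 s hs]
    linarith
  set f : ℝ → ℂ := fun s => 4 * I * y s * E s / (1 - E s) with hf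
  have hcE : ContinuousOn E (Ioc 0 s1) := (continuousOn_const.mul hcy).cexp
  have hcf : ContinuousOn f (Ioc 0 s1) :=
    ((continuousOn_const.mul hcy).mul hcE).div (continuousOn_const.sub hcE) hE1
  have hexp : Tendsto (fun s => exp (f s)) (𝓝[>] 0) (𝓝 1) := by
    have h1 : Tendsto (fun s => G (y s) ^ 2 / tipc / (1 - E s) ^ 2) (𝓝[>] 0)
        (𝓝 (tipc / tipc / (1 - 0) ^ 2)) :=
      (hw.div_const _).div ((tendsto_const_nhds.sub hE0).pow 2) (by simp)
    rw [div_self htip, sub_zero, one_pow, div_one] at h1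
    refine h1.congr' ?_
    filter_upwards [Ioc_mem_nhdsGT hs1'] with s hs
    have h2 := G_sq_upper (y := y s) (by linarith [hy1 s hs])
    have h3 : (1 - E s) ^ 2 ≠ 0 := pow_ne_zero 2 (hE1 s hs)
    have h4 : G (y s) ^ 2 = tipc * ((1 - E s) ^ 2 * exp (f s)) := by
      rw [h2]
    rw [h4, mul_div_cancel_left₀ _ htip, mul_div_cancel_left₀ _ h3]
  obtain ⟨m, hm⟩ := tendsto_of_exp hs1' hcf hexp
  have hx : Tendsto (fun s => 4 * I * y s * E s) (𝓝[>] 0) (𝓝 (m * (2 * Real.pi * I))) := by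
    have h1 : Tendsto (fun s => f s * (1 - E s)) (𝓝[>] 0)
        (𝓝 (m * (2 * Real.pi * I) * (1 - 0))) := hm.mul (tendsto_const_nhds.sub hE0)
    rw [sub_zero, mul_one] at h1
    refine h1.congr' ?_
    filter_upwards [Ioc_mem_nhdsGT hs1'] with s hs
    rw [hf]; simp only
    rw [div_mul_cancel₀ _ (hE1 s hs)]
  have hnx : ∀ s, ‖4 * I * y s * E s‖ = 4 * (‖y s‖ * Real.exp (-(2 * (y s).im))) := by
    intro s
    rw [norm_mul, norm_mul, norm_mul, norm_I, hEn]
    simp; ring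
  have hx2 : Tendsto (fun s => ‖y s‖ * Real.exp (-(2 * (y s).im))) (𝓝[>] 0)
      (𝓝 (‖(m : ℂ) * (2 * Real.pi * I)‖ / 4)) := by
    have h1 := hx.norm.div_const 4
    refine h1.congr fun s => ?_
    rw [hnx]; ring
  rcases eq_or_ne m 0 with hm0 | hm0
  · rw [hm0] at hx2
    simpa using hx2
  exfalso
  set c : ℝ := ‖(m : ℂ) * (2 * Real.pi * I)‖ / 4 with hcdef
  have hcpos : 0 < c := by
    have : (m : ℂ) * (2 * Real.pi * I) ≠ 0 := by
      refine mul_ne_zero (by exact_mod_cast hm0) (mul_ne_zero (mul_ne_zero two_ne_zero ?_) I_ne_zero)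
      exact_mod_cast Real.pi_ne_zero
    have := norm_pos_iff.2 this
    positivity
  -- `Im y / ‖y‖ → 0`
  have hratio : Tendsto (fun s => (y s).im / ‖y s‖) (𝓝[>] 0) (𝓝 0) := by
    have h1 : Tendsto (fun x : ℝ => x * Real.exp (-x)) atTop (𝓝 0) := by
      simpa using Real.tendsto_pow_mul_exp_neg_atTop_nhds_zero 1
    have h2 : Tendsto (fun s => 2 * (y s).im) (𝓝[>] 0) atTop := him.const_mul_atTop two_pos
    have h3 : Tendsto (fun s => (2 * (y s).im * Real.exp (-(2 * (y s).im))) /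
        (‖y s‖ * Real.exp (-(2 * (y s).im))) / 2) (𝓝[>] 0) (𝓝 (0 / c / 2)) :=
      ((h1.comp h2).div hx2 hcpos.ne').div_const 2
    rw [zero_div, zero_div] at h3
    refine h3.congr fun s => ?_
    have := Real.exp_ne_zero (-(2 * (y s).im))
    rcases eq_or_ne (‖y s‖) 0 with hy | hy
    · rw [hy]; simp
    · field_simp
  -- `y ^ 2 / ‖y‖ ^ 2 → 1`
  have hy0 : ∀ s ∈ Ioc 0 s1, y s ≠ 0 := by
    intro s hs h
    have := hy1 s hs
    rw [h] at this
    simp at this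
    linarith
  have hsq : Tendsto (fun s => y s ^ 2 / (‖y s‖ : ℂ) ^ 2) (𝓝[>] 0) (𝓝 1) := by
    rw [tendsto_iff_norm_sub_tendsto_zero]
    have h1 : Tendsto (fun s => 2 * ((y s).im / ‖y s‖)) (𝓝[>] 0) (𝓝 (2 * 0)) := hratio.const_mul 2
    rw [mul_zero] at h1
    refine squeeze_zero' (Eventually.of_forall fun s => norm_nonneg _) ?_ h1
    filter_upwards [Ioc_mem_nhdsGT hs1'] with s hs
    have h2 : (‖y s‖ : ℂ) ^ 2 = y s * (starRingEnd ℂ) (y s) := by
      rw [Complex.mul_conj, Complex.normSq_eq_norm_sq]; push_cast; ring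
    have hyn : (‖y s‖ : ℂ) ≠ 0 := by exact_mod_cast (norm_ne_zero_iff.2 (hy0 s hs))
    have h3 : y s ^ 2 / (‖y s‖ : ℂ) ^ 2 - 1 = y s * (2 * I * (y s).im) / (‖y s‖ : ℂ) ^ 2 := by
      rw [div_sub_one (pow_ne_zero 2 hyn)]
      congr 1
      rw [h2]
      have h4 : y s - (starRingEnd ℂ) (y s) = 2 * I * (y s).im := by
        rw [Complex.sub_conj]; push_cast; ring
      rw [← h4]; ring
    rw [h3, norm_div, norm_mul, norm_mul, norm_mul, norm_I, norm_pow]
    simp only [norm_real, norm_norm, Complex.norm_ofNat, mul_one]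
    have hpy : 0 < ‖y s‖ := norm_pos_iff.2 (hy0 s hs)
    rw [Real.norm_eq_abs, abs_of_pos (by linarith [hy1 s hs] : (0 : ℝ) < (y s).im)]
    apply le_of_eq
    field_simp
  -- `exp (4 i Re y) → 1`
  have hexp2 : Tendsto (fun s => exp (4 * I * ((y s).re : ℂ))) (𝓝[>] 0) (𝓝 1) := by
    have h1 : Tendsto (fun s => -((4 * I * y s * E s) ^ 2 /
        ((4 * (‖y s‖ * Real.exp (-(2 * (y s).im))) : ℝ) : ℂ) ^ 2) / (y s ^ 2 / (‖y s‖ : ℂ) ^ 2))
        (𝓝[>] 0) (𝓝 (-(((m : ℂ) * (2 * Real.pi * I)) ^ 2 / ((4 * c : ℝ) : ℂ) ^ 2) / 1)) := by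
      refine Tendsto.div ?_ hsq one_ne_zero
      refine Tendsto.neg ?_
      refine (hx.pow 2).div ?_ ?_
      · refine Tendsto.pow ?_ 2
        have h2 := hx2.const_mul 4
        exact (Complex.continuous_ofReal.tendsto _).comp h2
      · exact pow_ne_zero 2 (by exact_mod_cast (by positivity : (4 * c : ℝ) ≠ 0))
    have hval : -(((m : ℂ) * (2 * Real.pi * I)) ^ 2 / ((4 * c : ℝ) : ℂ) ^ 2) / 1 = 1 := by
      have h2 : (4 * c : ℝ) = ‖(m : ℂ) * (2 * Real.pi * I)‖ := by rw [hcdef]; ring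
      have h3 : ‖(m : ℂ) * (2 * Real.pi * I)‖ = |(m : ℝ)| * (2 * Real.pi) := by
        rw [norm_mul, norm_mul, norm_mul, norm_I]
        simp [abs_of_pos Real.pi_pos]
      have h4 : (((4 * c : ℝ)) : ℂ) ^ 2 = ((m : ℂ) * (2 * Real.pi)) ^ 2 := by
        rw [h2, h3]
        have h5 : (|(m : ℝ)| * (2 * Real.pi)) ^ 2 = ((m : ℝ) * (2 * Real.pi)) ^ 2 := by
          rw [mul_pow, sq_abs]; ring
        exact_mod_cast h5
      rw [h4, div_one]
      have hm' : ((m : ℂ) * (2 * Real.pi)) ^ 2 ≠ 0 := by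
        refine pow_ne_zero 2 (mul_ne_zero (by exact_mod_cast hm0) (mul_ne_zero two_ne_zero ?_))
        exact_mod_cast Real.pi_ne_zero
      have h6 : ((m : ℂ) * (2 * Real.pi * I)) ^ 2 = -((m : ℂ) * (2 * Real.pi)) ^ 2 := by
        rw [← mul_assoc, mul_pow _ I, I_sq]; ring
      rw [h6, neg_div, neg_neg, div_self hm']
    rw [hval] at h1
    refine h1.congr' ?_
    filter_upwards [Ioc_mem_nhdsGT hs1'] with s hs
    have hEsplit : E s = (Real.exp (-(2 * (y s).im)) : ℂ) * exp (2 * I * ((y s).re : ℂ)) := by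
      rw [hE]; simp only
      rw [ofReal_exp, ← exp_add]
      congr 1
      conv_lhs => rw [← Complex.re_add_im (y s)]
      push_cast
      have : I * I = -1 := I_mul_I
      linear_combination (2 * ((y s).im : ℂ)) * this
    have h4 : exp (4 * I * ((y s).re : ℂ)) = exp (2 * I * ((y s).re : ℂ)) ^ 2 := by
      rw [← exp_nat_mul]; congr 1; push_cast; ring
    have hyn : (‖y s‖ : ℂ) ≠ 0 := by exact_mod_cast (norm_ne_zero_iff.2 (hy0 s hs))
    have hyc : y s ≠ 0 := hy0 s hs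
    have hen : (Real.exp (-(2 * (y s).im)) : ℂ) ≠ 0 := by exact_mod_cast Real.exp_ne_zero _
    rw [hEsplit, h4]
    push_cast at hen ⊢
    field_simp
    linear_combination (-1 : ℂ) * I_sq
  have hcre : ContinuousOn (fun s => 4 * I * ((y s).re : ℂ)) (Ioc 0 s1) :=
    continuousOn_const.mul (Complex.continuous_ofReal.comp_continuousOn
      (Complex.continuous_re.comp_continuousOn hcy))
  obtain ⟨m', hm'⟩ := tendsto_of_exp hs1' hcre hexp2
  -- so `Re y` is bounded, contradiction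
  have hb1 : Tendsto (fun s => |(y s).re|) (𝓝[>] 0) (𝓝 (‖(m' : ℂ) * (2 * Real.pi * I)‖ / 4)) := by
    refine (hm'.norm.div_const 4).congr fun s => ?_
    rw [norm_mul, norm_mul, norm_I]
    simp
  have hb2 : Tendsto (fun s => ‖y s‖ * Real.exp (-(2 * (y s).im))) (𝓝[>] 0) (𝓝 0) := by
    have h1 : Tendsto (fun x : ℝ => x * Real.exp (-x)) atTop (𝓝 0) := by
      simpa using Real.tendsto_pow_mul_exp_neg_atTop_nhds_zero 1
    have h2 : Tendsto (fun s => 2 * (y s).im) (𝓝[>] 0) atTop := him.const_mul_atTop two_pos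
    have h3 : Tendsto (fun s => Real.exp (-(2 * (y s).im))) (𝓝[>] 0) (𝓝 0) :=
      Real.tendsto_exp_neg_atTop_nhds_zero.comp h2
    have h4 : Tendsto (fun s => |(y s).re| * Real.exp (-(2 * (y s).im)) +
        2 * (y s).im * Real.exp (-(2 * (y s).im))) (𝓝[>] 0)
        (𝓝 (‖(m' : ℂ) * (2 * Real.pi * I)‖ / 4 * 0 + 0)) := (hb1.mul h3).add (h1.comp h2)
    rw [mul_zero, add_zero] at h4
    refine squeeze_zero' (Eventually.of_forall fun s => by positivity) ?_ h4
    filter_upwards [Ioc_mem_nhdsGT hs1'] with s hs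
    have h5 := Complex.norm_le_abs_re_add_abs_im (y s)
    rw [abs_of_pos (by linarith [hy1 s hs] : (0 : ℝ) < (y s).im)] at h5
    have h6 : ‖y s‖ ≤ |(y s).re| + 2 * (y s).im := by linarith [hy1 s hs]
    rw [← add_mul]
    gcongr
  exact hcpos.ne' (tendsto_nhds_unique hx2 hb2)

/-- (AV2): the asymptotic value `tipc` -/
theorem av_tip {y : ℝ → ℂ} {s0 : ℝ} (hs0 : 0 < s0) {w : ℂ}
    (hc : ContinuousOn y (Ioc 0 s0)) (hs : ∀ s ∈ Ioc 0 s0, sin (y s) ≠ 0)
    (hw : Tendsto (fun s => G (y s)) (𝓝[>] 0) (𝓝 w)) (h2 : w ^ 2 = tipc) :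
    (∃ y1, sin y1 ≠ 0 ∧ G y1 = w ∧ Tendsto y (𝓝[>] 0) (𝓝 y1)) ∨
      (Tendsto (fun s => |(y s).im|) (𝓝[>] 0) atTop ∧
        Tendsto (fun s => ‖y s‖ * Real.exp (-(2 * |(y s).im|))) (𝓝[>] 0) (𝓝 0)) := by
  have htip : tipc ≠ 0 := by
    unfold tipc
    rw [neg_ne_zero, ofReal_ne_zero]
    positivity
  have h0 : w ≠ 0 := by
    rintro rfl
    exact htip (by rw [← h2]; simp)
  rcases av_dich hs0 hc hs hw h0 with h | him
  · exact Or.inl h
  refine Or.inr ⟨him, ?_⟩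
  have hpos : ∀ᶠ s in 𝓝[>] (0 : ℝ), 1 < |(y s).im| := him.eventually (Ioi_mem_atTop 1)
  obtain ⟨s1, hs1, hb⟩ := (mem_nhdsGT_iff_exists_Ioc_subset).1
    (Filter.inter_mem hpos (Ioc_mem_nhdsGT hs0))
  have hs1' : (0 : ℝ) < s1 := hs1
  have hy1 : ∀ s ∈ Ioc 0 s1, 1 < |(y s).im| := fun s hs => (hb hs).1
  have hcy : ContinuousOn y (Ioc 0 s1) := hc.mono fun s hs => (hb hs).2
  have hsub : ∀ s ∈ Ioc 0 s1, uIcc s s1 ⊆ Ioc 0 s1 := by
    intro s hs
    rw [uIcc_of_le hs.2]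
    exact fun x hx => ⟨hs.1.trans_le hx.1, hx.2⟩
  have hcim : ContinuousOn (fun s => (y s).im) (Ioc 0 s1) :=
    Complex.continuous_im.comp_continuousOn hcy
  have hm1 : s1 ∈ Ioc 0 s1 := ⟨hs1', le_rfl⟩
  have hG2 : Tendsto (fun s => G (y s) ^ 2) (𝓝[>] 0) (𝓝 tipc) := by
    rw [← h2]; exact hw.pow 2
  rcases lt_or_ge 0 (y s1).im with hp | hp
  · have hall : ∀ s ∈ Ioc 0 s1, 0 < (y s).im := by
      intro s hs
      by_contra hn
      rw [not_lt] at hn
      have h3 : (0 : ℝ) ∈ uIcc (y s).im (y s1).im := by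
        rw [uIcc_of_le (hn.trans hp.le)]; exact ⟨hn, hp.le⟩
      obtain ⟨x, hx, hx0⟩ := intermediate_value_uIcc (hcim.mono (hsub s hs)) h3
      have := hy1 x (hsub s hs hx)
      simp only at hx0
      rw [hx0] at this
      simp at this
      linarith
    have hev : ∀ᶠ s in 𝓝[>] (0 : ℝ), |(y s).im| = (y s).im := by
      filter_upwards [Ioc_mem_nhdsGT hs1'] with s hs
      exact abs_of_pos (hall s hs)
    have him' : Tendsto (fun s => (y s).im) (𝓝[>] 0) atTop := him.congr' hev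
    refine (tip_upper hs1' hcy hG2 him').congr' ?_
    filter_upwards [hev] with s hs
    rw [hs]
  · have hall : ∀ s ∈ Ioc 0 s1, (y s).im < 0 := by
      intro s hs
      by_contra hn
      rw [not_lt] at hn
      have h3 : (0 : ℝ) ∈ uIcc (y s).im (y s1).im := by
        rw [uIcc_of_ge (hp.trans hn)]; exact ⟨hp, hn⟩
      obtain ⟨x, hx, hx0⟩ := intermediate_value_uIcc (hcim.mono (hsub s hs)) h3
      have := hy1 x (hsub s hs hx)
      simp only at hx0
      rw [hx0] at this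
      simp at this
      linarith
    have hev : ∀ᶠ s in 𝓝[>] (0 : ℝ), |(y s).im| = (-y s).im := by
      filter_upwards [Ioc_mem_nhdsGT hs1'] with s hs
      rw [abs_of_neg (hall s hs)]; simp
    have him' : Tendsto (fun s => (-y s).im) (𝓝[>] 0) atTop := him.congr' hev
    have hG2' : Tendsto (fun s => G (-y s) ^ 2) (𝓝[>] 0) (𝓝 tipc) := by
      refine hG2.congr fun s => ?_
      rw [G_neg]; ring
    refine (tip_upper (y := fun s => -y s) hs1' hcy.neg hG2' him').congr' ?_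
    filter_upwards [hev] with s hs
    rw [hs, norm_neg]

end Pool.Agent.MP_ae5b4e_an_WD
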