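import Pool.Agent.Lib.MP_ae5b4e_an_WD.DA

/-!
# POR (iii), N2, bridge: Cauchy for a triangle at a tip
-/

namespace Pool.Agent.MP_ae5b4e_an_WD

open Complex Set Filter Topology Metric MeasureTheory
open Pool.Agent.MP_ae5b4e_an_WB
open Pool.Agent.MP_ae5b4e_an_M (S1 C1f Gf)

theorem TipL2_tipc_ne : tipc ≠ 0 := by
  unfold tipc
  rw [neg_ne_zero, Complex.ofReal_ne_zero]
  positivity

/-- bound of the height function -/
theorem TipL2_bd :
    ∃ C : ℝ, 0 < C ∧ ∀ u W a Ya : ℂ, G Ya = W * exp (u * a) → ∀ ω : ℂ,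
      ‖W * exp (u * ω) / Fl Ya (u * (ω - a))‖ ≤ C * (1 + ‖W‖ * Real.exp (‖u‖ * ‖ω‖)) := by
  obtain ⟨C, hC, h⟩ := exists_norm_psi_le
  refine ⟨C, hC, fun u W a Ya hG ω => ?_⟩
  have h1 := h Ya (u * (ω - a))
  have h2 : G Ya * exp (u * (ω - a)) = W * exp (u * ω) := by
    rw [hG, mul_assoc, ← Complex.exp_add]
    congr 2
    ring
  rw [h2] at h1
  refine h1.trans (mul_le_mul_of_nonneg_left ?_ hC.le)
  rw [norm_mul, Complex.norm_exp]
  have h3 : (u * ω).re ≤ ‖u‖ * ‖ω‖ := by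
    rw [← norm_mul]
    exact Complex.re_le_norm _
  have h4 := mul_le_mul_of_nonneg_left (Real.exp_le_exp.2 h3) (norm_nonneg W)
  linarith

/-- integrals along segments that start at the boundary point `0` of a disc -/
private lemma TipL2_tri {c : ℂ} {R M : ℝ} {f : ℂ → ℂ} (hR : 0 < R) (hc : ‖c‖ = R)
    (hf : DifferentiableOn ℂ f (ball c R)) (hM : ∀ z ∈ ball c R, ‖f z‖ ≤ M) :
    ∃ Φ : ℂ → ℂ, (∀ z ∈ ball c R, HasDerivAt Φ (f z) z) ∧
      ∀ z1 ∈ ball c R, ∀ z2 ∈ ball c R, z1 * (∫ θ in (0 : ℝ)..1, f (θ * z1)) -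
        z2 * (∫ θ in (0 : ℝ)..1, f (θ * z2)) = Φ z1 - Φ z2 := by
  obtain ⟨Φ, hΦ⟩ := hf.isExactOn_ball
  have hΦ' : ∀ z ∈ ball c R, HasDerivAt Φ (f z) z := fun z hz => hΦ z hz
  refine ⟨Φ, hΦ', ?_⟩
  have hseg : ∀ z ∈ ball c R, ∀ θ ∈ Ioc (0 : ℝ) 1, (θ : ℂ) * z ∈ ball c R := by
    intro z hz θ hθ
    rw [mem_ball_iff_norm] at hz ⊢
    have h1 : (θ : ℂ) * z - c = ((θ : ℝ) : ℂ) * (z - c) - ((1 - θ : ℝ) : ℂ) * c := by
      push_cast
      ring
    rw [h1]
    refine (norm_sub_le _ _).trans_lt ?_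
    rw [norm_mul, norm_mul, Complex.norm_real, Complex.norm_real, Real.norm_of_nonneg hθ.1.le,
      Real.norm_of_nonneg (by linarith [hθ.2]), hc]
    have h2 := mul_lt_mul_of_pos_left hz hθ.1
    nlinarith
  have hcont : ∀ z ∈ ball c R, ContinuousOn (fun θ : ℝ => f (θ * z)) (Ioc 0 1) := by
    intro z hz θ hθ
    have h1 : ContinuousAt f ((θ : ℂ) * z) :=
      (hf.differentiableAt (isOpen_ball.mem_nhds (hseg z hz θ hθ))).continuousAt
    exact (ContinuousAt.comp (g := f) (f := fun θ : ℝ => (θ : ℂ) * z) h1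
      (by fun_prop)).continuousWithinAt
  have hint : ∀ z ∈ ball c R, IntervalIntegrable (fun θ : ℝ => f (θ * z)) volume 0 1 := by
    intro z hz
    rw [intervalIntegrable_iff_integrableOn_Ioc_of_le zero_le_one]
    refine IntegrableOn.of_bound measure_Ioc_lt_top
      ((hcont z hz).aestronglyMeasurable measurableSet_Ioc) M ?_
    exact (ae_restrict_mem measurableSet_Ioc).mono fun θ hθ => hM _ (hseg z hz θ hθ)
  have hftc : ∀ z ∈ ball c R, ∀ s ∈ Ioc (0 : ℝ) 1,
      z * (∫ θ in s..1, f (θ * z)) = Φ z - Φ (s * z) := by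
    intro z hz s hs
    have h1 : ∀ θ ∈ uIcc s 1, HasDerivAt (fun θ : ℝ => Φ (θ * z)) (f (θ * z) * z) θ := by
      intro θ hθ
      rw [uIcc_of_le hs.2] at hθ
      have h2 := hΦ' _ (hseg z hz θ ⟨hs.1.trans_le hθ.1, hθ.2⟩)
      have h3 : HasDerivAt (fun θ : ℝ => (θ : ℂ) * z) z θ := by
        have := (Complex.ofRealCLM.hasDerivAt (x := θ)).mul_const z
        simpa using this
      exact HasDerivAt.comp θ (h₂ := Φ) h2 h3
    have h4 : IntervalIntegrable (fun θ : ℝ => f (θ * z) * z) volume s 1 := by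
      refine ContinuousOn.intervalIntegrable ?_
      rw [uIcc_of_le hs.2]
      exact ((hcont z hz).mono fun θ hθ => ⟨hs.1.trans_le hθ.1, hθ.2⟩).mul continuousOn_const
    have h5 := intervalIntegral.integral_eq_sub_of_hasDerivAt h1 h4
    rw [intervalIntegral.integral_mul_const] at h5
    rw [mul_comm, h5]
    simp
  intro z1 hz1 z2 hz2
  have hlim : ∀ z ∈ ball c R, Tendsto (fun s : ℝ => z * (∫ θ in s..1, f (θ * z))) (𝓝[>] 0)
      (𝓝 (z * (∫ θ in (0 : ℝ)..1, f (θ * z)))) := by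
    intro z hz
    have h1 : IntegrableOn (fun θ : ℝ => f (θ * z)) (uIcc 0 1) := by
      rw [uIcc_of_le zero_le_one, integrableOn_Icc_iff_integrableOn_Ioc]
      exact (intervalIntegrable_iff_integrableOn_Ioc_of_le zero_le_one).1 (hint z hz)
    have h2 := intervalIntegral.continuousOn_primitive_interval_left h1 0 left_mem_uIcc
    have h3 : Tendsto (fun s : ℝ => ∫ θ in s..1, f (θ * z)) (𝓝[>] 0)
        (𝓝 (∫ θ in (0 : ℝ)..1, f (θ * z))) := by
      refine Tendsto.mono_left h2 ?_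
      rw [uIcc_of_le zero_le_one]
      refine nhdsWithin_le_of_mem ?_
      exact Icc_mem_nhdsGT zero_lt_one
    exact h3.const_mul z
  have h1 := ((hlim z1 hz1).sub (hlim z2 hz2)).sub_const (Φ z1 - Φ z2)
  have h2 : Tendsto (fun s : ℝ => z1 * (∫ θ in s..1, f (θ * z1)) -
      z2 * (∫ θ in s..1, f (θ * z2)) - (Φ z1 - Φ z2)) (𝓝[>] 0) (𝓝 0) := by
    have hM0 : 0 ≤ M := (norm_nonneg _).trans (hM c (mem_ball_self hR))
    have h3 : Tendsto (fun s : ℝ => M * (s * ‖z2 - z1‖)) (𝓝[>] 0) (𝓝 0) := by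
      have : Tendsto (fun s : ℝ => M * (s * ‖z2 - z1‖)) (𝓝 0) (𝓝 (M * (0 * ‖z2 - z1‖))) := by
        have h : Continuous fun s : ℝ => M * (s * ‖z2 - z1‖) := by fun_prop
        exact h.tendsto 0
      rw [zero_mul, mul_zero] at this
      exact this.mono_left nhdsWithin_le_nhds
    refine squeeze_zero_norm' ?_ h3
    filter_upwards [Ioc_mem_nhdsGT zero_lt_one] with s hs
    rw [hftc z1 hz1 s hs, hftc z2 hz2 s hs]
    have h4 : Φ z1 - Φ (s * z1) - (Φ z2 - Φ (s * z2)) - (Φ z1 - Φ z2) =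
        Φ (s * z2) - Φ (s * z1) := by ring
    rw [h4]
    refine ((convex_ball c R).norm_image_sub_le_of_norm_hasDerivWithin_le
      (fun z hz => (hΦ' z hz).hasDerivWithinAt) hM (hseg z1 hz1 s hs)
      (hseg z2 hz2 s hs)).trans (le_of_eq ?_)
    rw [← mul_sub, norm_mul, Complex.norm_real, Real.norm_of_nonneg hs.1.le]
  have h3 := tendsto_nhds_unique h1 h2
  exact sub_eq_zero.1 h3

/-- continuation from the height `b` to the height `ω`, inside the disc `ball a ‖a‖` -/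
theorem TipL2_fwd {u W a b Yb ω : ℂ} {r : ℝ} (hu : 0 < u.re) (hW : W ^ 2 = tipc)
    (hG : G Yb = W * exp (u * b)) (ha : a ≠ 0) (har : 8 * ‖a‖ < r) (hr : r * ‖u‖ ^ 2 ≤ u.re)
    (hb : b ∈ ball a ‖a‖) (hω : ω ∈ ball a ‖a‖) : Fwd Yb (u * (ω - b)) := by
  intro s hs heq
  have ha0 : 0 < ‖a‖ := norm_pos_iff.2 ha
  have hmem : b + s * (ω - b) ∈ ball a ‖a‖ := by
    have h1 := (convex_ball a ‖a‖) hb hω (a := 1 - s) (b := s) (by linarith [hs.2]) hs.1
      (by ring)
    have h2 : (1 - s) • b + s • ω = b + s * (ω - b) := by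
      simp only [Complex.real_smul]
      push_cast
      ring
    rw [h2] at h1
    exact h1
  have he : tipc * exp (2 * (u * (b + s * (ω - b)))) = tipc * 1 := by
    rw [mul_one]
    rw [hG, mul_pow, hW, ← Complex.exp_nat_mul, mul_assoc, ← Complex.exp_add] at heq
    rw [← heq]
    nth_rewrite 1 [heq]
    congr 2
    push_cast
    ring
  have he1 : exp (2 * (u * (b + s * (ω - b)))) = 1 := mul_left_cancel₀ TipL2_tipc_ne he
  rw [mem_ball_iff_norm] at hmem
  have hn : ‖b + s * (ω - b)‖ < 2 * ‖a‖ := by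
    have h1 := norm_sub_norm_le (b + s * (ω - b)) a
    linarith
  have him : |(b + s * (ω - b)).im| < r := lt_of_le_of_lt (abs_im_le_norm _) (by linarith)
  have hz0 := exp_eq_one_strip hu (d := r) (by linarith) him he1
  rw [hz0, zero_sub, norm_neg] at hmem
  exact lt_irrefl _ hmem

/-- CAUCHY FOR A TRIANGLE WITH VERTEX `0`: let `a + z` and `b + z` be close to `a` (all of size
`< 2 ‖a‖`, `‖b - a‖ + ‖z‖ ≤ ‖a‖/8`). `ψ ω = W e^(uω) / Fl Ya (u (ω - a))` is holomorphic near every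
`ω ≠ 0`
of the triangle `0, a+z, b+z` (the segment from `a` to `ω` avoids `0`: the triangle lies in the
sector
`|arg (ω/a)| < 1`), bounded (`exists_norm_psi_le`), and `ψ` computed from `Yb = Fl Ya (u (b - a))`
is the
same. So `tipE b - tipE a = ∫_[a+z, b+z] ψ(ω) g(ω - z) dω`. -/
theorem tipE_sub {u W a Ya b : ℂ} {g : ℂ → ℂ} {r : ℝ} (hu : 0 < u.re)
    (hW : W ^ 2 = tipc) (hYa : sin Ya ≠ 0) (hG : G Ya = W * exp (u * a)) (ha : a ≠ 0)
    (har : 8 * ‖a‖ < r) (hr : r * ‖u‖ ^ 2 ≤ u.re) (hr1 : r ≤ 1)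
    (hg : DifferentiableOn ℂ g (ball 0 r)) {z : ℂ} (hab : ‖b - a‖ + ‖z‖ ≤ ‖a‖ / 8) :
    tipE u W b (Fl Ya (u * (b - a))) g z - tipE u W a Ya g z =
      (b - a) * ∫ θ in (0 : ℝ)..1, W * exp (u * (a + z + θ * (b - a))) /
        Fl Ya (u * (z + θ * (b - a))) * g (a + θ * (b - a)) := by
  have ha0 : 0 < ‖a‖ := norm_pos_iff.2 ha
  have hz : ‖z‖ ≤ ‖a‖ / 8 := by have := norm_nonneg (b - a); linarith
  have hba : ‖b - a‖ ≤ ‖a‖ / 8 := by have := norm_nonneg z; linarith
  obtain ⟨C, hC, hbd0⟩ := TipL2_bd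
  have hbd := hbd0 u W a Ya hG
  have haB : a ∈ ball a ‖a‖ := mem_ball_self ha0
  have hbB : b ∈ ball a ‖a‖ := by rw [mem_ball_iff_norm]; linarith
  have hazB : a + z ∈ ball a ‖a‖ := by
    rw [mem_ball_iff_norm, add_sub_cancel_left]; linarith
  have hbzB : b + z ∈ ball a ‖a‖ := by
    rw [mem_ball_iff_norm]
    have h1 : b + z - a = b - a + z := by ring
    rw [h1]
    exact (norm_add_le _ _).trans_lt (by linarith)
  set f : ℂ → ℂ := fun ω => W * exp (u * ω) / Fl Ya (u * (ω - a)) * g (ω - z) with hfd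
  have hnB : ∀ ω ∈ ball a ‖a‖, ‖ω‖ < 2 * ‖a‖ ∧ ‖ω - z‖ < 3 * ‖a‖ := by
    intro ω hω
    rw [mem_ball_iff_norm] at hω
    have h1 := norm_sub_norm_le ω a
    refine ⟨by linarith, (norm_sub_le _ _).trans_lt (by linarith)⟩
  have hfdiff : DifferentiableOn ℂ f (ball a ‖a‖) := by
    intro ω hω
    have hF := TipL2_fwd hu hW hG ha har hr haB hω
    have h1 : DifferentiableAt ℂ (fun ω => Fl Ya (u * (ω - a))) ω :=
      DifferentiableAt.comp (g := Fl Ya) (f := fun ω => u * (ω - a)) ω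
        (hasDerivAt_Fl hYa hF).differentiableAt (by fun_prop)
    have h2 : DifferentiableAt ℂ (fun ω => g (ω - z)) ω := by
      refine DifferentiableAt.comp (g := g) (f := fun ω : ℂ => ω - z) ω
        (hg.differentiableAt (isOpen_ball.mem_nhds ?_)) (by fun_prop)
      rw [mem_ball_zero_iff]
      linarith [(hnB ω hω).2]
    have h3 : DifferentiableAt ℂ (fun ω => W * exp (u * ω)) ω := by fun_prop
    exact ((h3.div h1 (Fl_ne_zero hYa hF)).mul h2).differentiableWithinAt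
  have hK : ContinuousOn g (closedBall 0 (3 * ‖a‖)) :=
    hg.continuousOn.mono (closedBall_subset_ball (by linarith))
  obtain ⟨M, hM⟩ := (isCompact_closedBall (0 : ℂ) (3 * ‖a‖)).exists_bound_of_continuousOn hK
  have hfb : ∀ ω ∈ ball a ‖a‖, ‖f ω‖ ≤ C * (1 + ‖W‖ * Real.exp (‖u‖ * (2 * ‖a‖))) * M := by
    intro ω hω
    obtain ⟨h1, h2⟩ := hnB ω hω
    rw [hfd]
    simp only []
    rw [norm_mul]
    refine mul_le_mul ((hbd _).trans ?_) (hM _ (mem_closedBall_zero_iff.2 h2.le))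
      (norm_nonneg _) (by positivity)
    have h3 : Real.exp (‖u‖ * ‖ω‖) ≤ Real.exp (‖u‖ * (2 * ‖a‖)) :=
      Real.exp_le_exp.2 (mul_le_mul_of_nonneg_left h1.le (norm_nonneg _))
    have h4 := mul_le_mul_of_nonneg_left h3 (norm_nonneg W)
    exact mul_le_mul_of_nonneg_left (by linarith) hC.le
  obtain ⟨Φ, hΦ, htri⟩ := TipL2_tri ha0 rfl hfdiff hfb
  have key := htri _ hbzB _ hazB
  -- the term of `a`
  have hA : tipE u W a Ya g z = (a + z) * ∫ θ in (0 : ℝ)..1, f (θ * (a + z)) := rfl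
  -- the term of `b`
  have hFab : Fwd Ya (u * (b - a)) := TipL2_fwd hu hW hG ha har hr haB hbB
  have hGb : G (Fl Ya (u * (b - a))) = W * exp (u * b) := by
    rw [G_Fl hYa hFab, hG, mul_assoc, ← Complex.exp_add]
    congr 2
    ring
  have hB : tipE u W b (Fl Ya (u * (b - a))) g z =
      (b + z) * ∫ θ in (0 : ℝ)..1, f (θ * (b + z)) := by
    unfold tipE
    congr 1
    refine intervalIntegral.integral_congr_ae (Filter.Eventually.of_forall fun θ hθ => ?_)
    rw [uIoc_of_le zero_le_one] at hθ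
    have hωB : (θ : ℂ) * (b + z) ∈ ball a ‖a‖ := by
      rw [mem_ball_iff_norm] at hbzB ⊢
      have h1 : (θ : ℂ) * (b + z) - a = ((θ : ℝ) : ℂ) * (b + z - a) - ((1 - θ : ℝ) : ℂ) * a := by
        push_cast
        ring
      rw [h1]
      refine (norm_sub_le _ _).trans_lt ?_
      rw [norm_mul, norm_mul, Complex.norm_real, Complex.norm_real, Real.norm_of_nonneg hθ.1.le,
        Real.norm_of_nonneg (by linarith [hθ.2])]
      have h2 := mul_lt_mul_of_pos_left hbzB hθ.1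
      nlinarith
    have h1 : Fl (Fl Ya (u * (b - a))) (u * (θ * (b + z) - b)) =
        Fl Ya (u * (θ * (b + z) - a)) := by
      have h2 := Fl_add hYa hFab (s := u * (θ * (b + z) - b))
        (TipL2_fwd hu hW hGb ha har hr hbB hωB) (by
        intro s hs
        have h3 : u * (b - a) + s * (u * (θ * (b + z) - b)) =
            u * (b + s * (θ * (b + z) - b) - a) := by ring
        rw [h3]
        apply TipL2_fwd hu hW hG ha har hr haB
        have h4 := (convex_ball a ‖a‖) hbB hωB (a := 1 - s) (b := s) (by linarith [hs.2]) hs.1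
          (by ring)
        have h5 : (1 - s) • b + s • ((θ : ℂ) * (b + z)) = b + s * (θ * (b + z) - b) := by
          simp only [Complex.real_smul]
          push_cast
          ring
        rw [h5] at h4
        exact h4)
      rw [h2]
      congr 1
      ring
    simp only [hfd]
    rw [h1]
  -- the connecting segment
  have hseg : ∀ θ ∈ Icc (0 : ℝ) 1, a + z + θ * (b - a) ∈ ball a ‖a‖ := by
    intro θ hθ
    rw [mem_ball_iff_norm]
    have h1 : a + z + θ * (b - a) - a = z + θ * (b - a) := by ring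
    rw [h1]
    refine (norm_add_le _ _).trans_lt ?_
    rw [norm_mul, Complex.norm_real, Real.norm_of_nonneg hθ.1]
    have h2 : θ * ‖b - a‖ ≤ 1 * ‖b - a‖ := mul_le_mul_of_nonneg_right hθ.2 (norm_nonneg _)
    linarith
  have hcon : (b - a) * (∫ θ in (0 : ℝ)..1, f (a + z + θ * (b - a))) =
      Φ (b + z) - Φ (a + z) := by
    have c1 : ∀ θ ∈ uIcc (0 : ℝ) 1, HasDerivAt (fun θ : ℝ => Φ (a + z + θ * (b - a)))
        (f (a + z + θ * (b - a)) * (b - a)) θ := by
      intro θ hθ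
      rw [uIcc_of_le zero_le_one] at hθ
      have c3 : HasDerivAt (fun θ : ℝ => a + z + (θ : ℂ) * (b - a)) (b - a) θ := by
        have := ((Complex.ofRealCLM.hasDerivAt (x := θ)).mul_const (b - a)).const_add (a + z)
        simpa using this
      exact HasDerivAt.comp θ (h₂ := Φ) (hΦ _ (hseg θ hθ)) c3
    have c2 : IntervalIntegrable (fun θ : ℝ => f (a + z + θ * (b - a)) * (b - a))
        MeasureTheory.volume 0 1 := by
      refine ContinuousOn.intervalIntegrable fun θ hθ => ?_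
      rw [uIcc_of_le zero_le_one] at hθ
      have c3 : ContinuousAt f (a + z + θ * (b - a)) :=
        (hfdiff.differentiableAt (isOpen_ball.mem_nhds (hseg θ hθ))).continuousAt
      exact ((ContinuousAt.comp (g := f) (f := fun θ : ℝ => a + z + (θ : ℂ) * (b - a)) c3
        (by fun_prop)).mul continuousAt_const).continuousWithinAt
    have c3 := intervalIntegral.integral_eq_sub_of_hasDerivAt c1 c2
    rw [intervalIntegral.integral_mul_const] at c3
    rw [mul_comm, c3]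
    have c4 : a + z + ((1 : ℝ) : ℂ) * (b - a) = b + z := by
      push_cast
      ring
    have c5 : a + z + ((0 : ℝ) : ℂ) * (b - a) = a + z := by
      push_cast
      ring
    rw [c4, c5]
  have hend : (∫ θ in (0 : ℝ)..1, W * exp (u * (a + z + θ * (b - a))) /
      Fl Ya (u * (z + θ * (b - a))) * g (a + θ * (b - a))) =
      ∫ θ in (0 : ℝ)..1, f (a + z + θ * (b - a)) := by
    refine intervalIntegral.integral_congr fun θ _ => ?_
    simp only [hfd]
    have h1 : a + z + θ * (b - a) - a = z + θ * (b - a) := by ring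
    have h2 : a + z + θ * (b - a) - z = a + θ * (b - a) := by ring
    rw [h1, h2]
  rw [hB, hA, hend, hcon, key]

end Pool.Agent.MP_ae5b4e_an_WD
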