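import Pool.Agent.Lib.MP_ae5b4e_an_WD.Z4

/-!
# POR (iii), N2, bridge, Z side: the analytic family of a zero
-/

namespace Pool.Agent.MP_ae5b4e_an_WD

open Complex Set Filter Topology Metric MeasureTheory
open Pool.Agent.MP_ae5b4e_an_WB
open Pool.Agent.MP_ae5b4e_an_M (S1 C1f Gf)

/-- THE FAMILY OF A ZERO (analogue of `exists_tipFam`). For small `s > 0`: `q (L (ζ - i s, gs)) ≠ 0`
(`y2 → (kπ)² ≠ 0`), the label is `lam (c s)` with `c s → 0`, `c s ≠ 0` (`ZChart.nhds_le`, injectivity).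
By `z_local` the germ `f_s z - zE (c s)` does not depend on `s ∈ (0, s1]` (connectedness); call it `Tz`
(analytic: `analyticAt_zE`, `InvGerm`; `‖G Y‖² = ‖gs² q‖ ≤ 1`, `sin Y ≠ 0` by `DS.G_of_sq`). At `z = 0`:
`Tz 0 = ζ - i s - zE (c s) 0 → ζ` as `s → 0` (`exists_norm_zE_le`). The last statement is `z_local` at
`τ0 = ζ - i s`. -/
theorem exists_zFam {q : ℂ → ℂ} {U : Set (ℂ × ℂ)} {L : ℂ × ℂ → ℂ} (h : DS q U L) {u gs ζ z0 : ℂ}
    (hu : 0 < u.re) (hgs : gs ≠ 0) {μ : ℕ} {lam : ℂ → ℂ} {r : ℝ} (hlam : ZChart q z0 μ lam r)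
    {k : ℤ} (hZ : ZAt q U L gs ζ z0 k) :
    ∃ Tz : ℂ → ℂ, AnalyticAt ℂ Tz 0 ∧ Tz 0 = ζ ∧ ∃ s1 : ℝ, 0 < s1 ∧ ∀ s ∈ Ioc (0 : ℝ) s1,
      ∃ δ : ℝ, 0 < δ ∧ ∀ τ ∈ ball (ζ - I * s) δ, (τ, gs) ∈ U ∧
        ∃ c : ℂ, ‖c‖ < r ∧ ‖gs‖ ^ 2 * ‖c‖ ^ μ ≤ 1 ∧ ZGerm q U L gs u μ lam τ c Tz := by
  classical
  have hr0 := hlam.pos
  have hμ := hlam.mu
  have hl0 := hlam.zero
  have hi := hlam.inj
  have hv := hlam.val
  have hdd : DifferentiableOn ℂ (deriv lam) (ball 0 r) := hlam.d.deriv isOpen_ball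
  obtain ⟨s0, hs0, hseg⟩ := hZ.seg
  -- the small radius
  obtain ⟨η0, hη0, hη0r, hη0s⟩ : ∃ η0 : ℝ, 0 < η0 ∧ η0 ≤ r / 4 ∧ ∀ t : ℝ, 0 ≤ t → t ≤ 2 * η0 →
      ‖gs‖ ^ 2 * t ^ μ ≤ 1 := by
    have hA : 0 < ‖gs‖ ^ 2 + 1 := by positivity
    have hA' : 0 < 1 / (2 * (‖gs‖ ^ 2 + 1)) := by positivity
    refine ⟨min (r / 4) (1 / (2 * (‖gs‖ ^ 2 + 1))), lt_min (by linarith) hA', min_le_left _ _, ?_⟩
    intro t ht0 ht
    have h1 : t ≤ 1 / (‖gs‖ ^ 2 + 1) := by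
      refine ht.trans ?_
      have h2 : 2 * min (r / 4) (1 / (2 * (‖gs‖ ^ 2 + 1))) ≤ 2 * (1 / (2 * (‖gs‖ ^ 2 + 1))) :=
        mul_le_mul_of_nonneg_left (min_le_right _ _) (by norm_num)
      refine h2.trans (le_of_eq ?_)
      field_simp
    have h3 : t ≤ 1 := by
      refine h1.trans ?_
      rw [div_le_one hA]
      nlinarith [sq_nonneg ‖gs‖]
    have h4 : t ^ μ ≤ t := by
      calc t ^ μ ≤ t ^ 1 := pow_le_pow_of_le_one ht0 h3 hμ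
        _ = t := pow_one t
    have h5 : ‖gs‖ ^ 2 * t ^ μ ≤ ‖gs‖ ^ 2 * (1 / (‖gs‖ ^ 2 + 1)) :=
      mul_le_mul_of_nonneg_left (h4.trans h1) (by positivity)
    refine h5.trans ?_
    rw [mul_one_div, div_le_one hA]
    linarith
  -- images of balls
  have himg : ∀ η : ℝ, 0 < η → ∀ᶠ s : ℝ in 𝓝[>] 0,
      L (ζ - I * s, gs) ∈ lam '' (ball 0 η) := by
    intro η hη
    have h2 : lam '' ball 0 η ∈ 𝓝 z0 := by
      exact hlam.nhds_le (image_mem_map (ball_mem_nhds 0 hη))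
    exact hZ.lim.eventually h2
  have hy2 : ∀ᶠ s : ℝ in 𝓝[>] 0, y2 q L (ζ - I * s, gs) ≠ 0 := by
    have h1 : ((k * Real.pi : ℂ)) ^ 2 ≠ 0 :=
      pow_ne_zero 2 (mul_ne_zero (Int.cast_ne_zero.2 hZ.ne) (ofReal_ne_zero.2 Real.pi_ne_zero))
    exact hZ.lim2.eventually (isOpen_ne.mem_nhds h1)
  obtain ⟨s1', hs1', hs1i⟩ := mem_nhdsGT_iff_exists_Ioc_subset.1 ((himg η0 hη0).and hy2)
  set s1 : ℝ := min s0 s1' with hs1d
  have hs1 : 0 < s1 := lt_min hs0 hs1'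
  have hU : ∀ s ∈ Ioc (0 : ℝ) s1, (ζ - I * s, gs) ∈ U := fun s hs =>
    hseg s ⟨hs.1, hs.2.trans (min_le_left _ _)⟩
  have hex : ∀ s : ℝ, ∃ a : ℂ, s ∈ Ioc (0 : ℝ) s1 → a ∈ ball (0 : ℂ) η0 ∧
      lam a = L (ζ - I * s, gs) ∧ a ≠ 0 := by
    intro s
    by_cases hs : s ∈ Ioc (0 : ℝ) s1
    · obtain ⟨⟨a, ha1, ha2⟩, h3⟩ := hs1i ⟨hs.1, hs.2.trans (min_le_right _ _)⟩
      refine ⟨a, fun _ => ⟨ha1, ha2, ?_⟩⟩
      rintro rfl
      apply h3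
      unfold y2
      rw [← ha2, hl0, hZ.zero, zero_mul]
    · exact ⟨0, fun h1 => absurd h1 hs⟩
  choose a ha using hex
  have hexY : ∀ s : ℝ, ∃ Y : ℂ, Y ^ 2 = y2 q L (ζ - I * s, gs) := fun s =>
    IsAlgClosed.exists_pow_nat_eq _ two_pos
  choose Y hY using hexY
  have hexf : ∀ s : ℝ, ∃ f : ℂ → ℂ, s ∈ Ioc (0 : ℝ) s1 →
      InvGerm U L gs u (ζ - I * s) f := by
    intro s
    by_cases hs : s ∈ Ioc (0 : ℝ) s1
    · obtain ⟨f, hf⟩ := h.exists_invGerm (u := u) (hU s hs)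
      exact ⟨f, fun _ => hf⟩
    · exact ⟨fun _ => 0, fun h1 => absurd h1 hs⟩
  choose f hf using hexf
  set T : ℝ → ℂ → ℂ := fun s z => f s z - zE u μ (Y s) (a s) (deriv lam) z with hTd
  have har : ∀ s ∈ Ioc (0 : ℝ) s1, 4 * ‖a s‖ < r := by
    intro s hs
    have := mem_ball_zero_iff.1 (ha s hs).1
    linarith
  have hsm : ∀ s ∈ Ioc (0 : ℝ) s1, ‖gs‖ ^ 2 * ‖a s‖ ^ μ ≤ 1 := by
    intro s hs
    have := mem_ball_zero_iff.1 (ha s hs).1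
    exact hη0s _ (norm_nonneg _) (by linarith)
  -- local constancy
  have hloc : ∀ s ∈ Ioc (0 : ℝ) s1, ∃ ε : ℝ, 0 < ε ∧ ∀ τ ∈ ball (ζ - I * s) ε, (τ, gs) ∈ U ∧
      ∃ b : ℂ, ‖b - a s‖ < ‖a s‖ / 2 ∧ ‖b‖ < r ∧ lam b = L (τ, gs) ∧ ∀ (Y1 : ℂ) (f1 : ℂ → ℂ),
        Y1 ^ 2 = y2 q L (τ, gs) → InvGerm U L gs u τ f1 → ∀ᶠ z in 𝓝 (0 : ℂ),
          f1 z - zE u μ Y1 b (deriv lam) z = T s z := by
    intro s hs
    obtain ⟨ε, hε, h1⟩ := z_local h hu hgs hlam (hU s hs) (ha s hs).2.1 (ha s hs).2.2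
      (by have := har s hs; have := norm_nonneg (a s); linarith) (hsm s hs)
    refine ⟨ε, hε, fun τ hτ => ?_⟩
    obtain ⟨h2, b, h3, h4, h5, h6⟩ := h1 τ hτ
    exact ⟨h2, b, h3, h4, h5, fun Y1 f1 hY1 hf1 => h6 (Y s) Y1 (f s) f1 (hY s) hY1 (hf s hs) hf1⟩
  have hconst : ∀ s ∈ Ioc (0 : ℝ) s1, T s =ᶠ[𝓝 0] T s1 := by
    have hpc : PreconnectedSpace (Ioc (0 : ℝ) s1) :=
      Subtype.preconnectedSpace isPreconnected_Ioc
    have hlc : IsLocallyConstant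
        (fun s : Ioc (0 : ℝ) s1 => ((T s : ℂ → ℂ) : Germ (𝓝 (0 : ℂ)) ℂ)) := by
      rw [IsLocallyConstant.iff_eventually_eq]
      intro s
      obtain ⟨ε, hε, h1⟩ := hloc s s.2
      have h2 : ∀ᶠ s' : Ioc (0 : ℝ) s1 in 𝓝 s, (ζ - I * (s' : ℝ)) ∈ ball (ζ - I * (s : ℝ)) ε := by
        have hc : Continuous fun s' : Ioc (0 : ℝ) s1 => (ζ - I * (s' : ℝ)) := by fun_prop
        exact hc.continuousAt.eventually (ball_mem_nhds _ hε)
      filter_upwards [h2] with s' hs'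
      obtain ⟨-, b, h3, h4, h5, h6⟩ := h1 _ hs'
      have h7 : b = a s' := by
        have hb : b ∈ ball (0 : ℂ) r := mem_ball_zero_iff.2 h4
        have hb' : a s' ∈ ball (0 : ℂ) r := by
          rw [mem_ball_zero_iff]
          have h8 := har s' s'.2
          have h9 := norm_nonneg (a s')
          linarith
        exact hi hb hb' (h5.trans (ha s' s'.2).2.1.symm)
      rw [h7] at h6
      exact Germ.coe_eq.2 (h6 (Y s') (f s') (hY s') (hf s' s'.2))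
    intro s hs
    have h1 := hlc.apply_eq_of_preconnectedSpace ⟨s, hs⟩ ⟨s1, ⟨hs1, le_rfl⟩⟩
    exact Germ.coe_eq.1 h1
  have hs1m : s1 ∈ Ioc (0 : ℝ) s1 := ⟨hs1, le_rfl⟩
  -- the values of `G`
  have hGY : ∀ s ∈ Ioc (0 : ℝ) s1, sin (Y s) ≠ 0 ∧ ‖G (Y s)‖ ≤ 1 := by
    intro s hs
    have har' : a s ∈ ball (0 : ℂ) r := by
      rw [mem_ball_zero_iff]
      have h8 := har s hs
      have h9 := norm_nonneg (a s)
      linarith
    have hqv : q (L (ζ - I * s, gs)) = a s ^ μ := by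
      rw [← (ha s hs).2.1, (hv _ har').2]
    have hq : q (L (ζ - I * s, gs)) ≠ 0 := by
      rw [hqv]
      exact pow_ne_zero _ (ha s hs).2.2
    obtain ⟨h1, h2, -⟩ := h.G_of_sq (hU s hs) hq (hY s)
    refine ⟨h1, ?_⟩
    have h3 : ‖G (Y s)‖ ^ 2 ≤ 1 := by
      rw [← norm_pow, h2, norm_mul, norm_pow, hqv, norm_pow]
      exact hsm s hs
    exact (sq_le_one_iff₀ (norm_nonneg _)).1 h3
  refine ⟨T s1, ?_, ?_, s1, hs1, ?_⟩
  · -- analytic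
    refine (hf s1 hs1m).1.sub ?_
    exact analyticAt_zE hu hμ (hGY s1 hs1m).1 (hGY s1 hs1m).2
      (by have := har s1 hs1m; have := norm_nonneg (a s1); linarith) hdd
  · -- the value at `0`
    obtain ⟨C, hC⟩ := exists_norm_zE_le hu hμ hr0 hdd
    have hbd : ∀ s ∈ Ioc (0 : ℝ) s1, ‖T s1 0 - (ζ - I * s)‖ ≤ C * ‖a s‖ := by
      intro s hs
      have h1 : T s 0 = T s1 0 := (hconst s hs).self_of_nhds
      have h2 : T s 0 = (ζ - I * s) - zE u μ (Y s) (a s) (deriv lam) 0 := by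
        show f s 0 - _ = _
        rw [(hf s hs).2.1]
      rw [← h1, h2, sub_sub_cancel_left, norm_neg]
      exact hC _ _ (hGY s hs).1 (hGY s hs).2
        (by have := har s hs; have := norm_nonneg (a s); linarith)
    have ha0 : Tendsto (fun s : ℝ => ‖a s‖) (𝓝[>] 0) (𝓝 0) := by
      rw [Metric.tendsto_nhds]
      intro ε hε
      have h1 : 0 < min ε (r / 16) := lt_min hε (by linarith)
      filter_upwards [himg _ h1, Ioc_mem_nhdsGT hs1] with s hs2 hs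
      obtain ⟨b, hb1, hb2⟩ := hs2
      have h2 : b = a s := by
        refine hi (ball_subset_ball ?_ hb1) (ball_subset_ball (by linarith) (ha s hs).1)
          (hb2.trans (ha s hs).2.1.symm)
        exact (min_le_right _ _).trans (by linarith)
      rw [h2] at hb1
      rw [dist_zero_right, norm_norm]
      exact (mem_ball_zero_iff.1 hb1).trans_le (min_le_left _ _)
    have h1 : Tendsto (fun s : ℝ => ζ - I * s) (𝓝[>] 0) (𝓝 ζ) := by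
      have hc : Continuous fun s : ℝ => ζ - I * s := by fun_prop
      have h2 := hc.tendsto 0
      rw [ofReal_zero, mul_zero, sub_zero] at h2
      exact h2.mono_left nhdsWithin_le_nhds
    have h2 : Tendsto (fun s : ℝ => ζ - I * s) (𝓝[>] 0) (𝓝 (T s1 0)) := by
      rw [tendsto_iff_norm_sub_tendsto_zero]
      have h3 := ha0.const_mul C
      rw [mul_zero] at h3
      refine squeeze_zero' (Eventually.of_forall fun s => norm_nonneg _) ?_ h3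
      filter_upwards [Ioc_mem_nhdsGT hs1] with s hs
      rw [norm_sub_rev]
      exact hbd s hs
    exact tendsto_nhds_unique h2 h1
  · intro s hs
    obtain ⟨ε, hε, h1⟩ := hloc s hs
    refine ⟨ε, hε, fun τ hτ => ?_⟩
    obtain ⟨h2, b, h3, h4, h5, h6⟩ := h1 τ hτ
    have hbn : ‖b‖ ≤ 2 * η0 := by
      have h7 := mem_ball_zero_iff.1 (ha s hs).1
      have h8 : ‖b‖ ≤ ‖b - a s‖ + ‖a s‖ := by
        have := norm_add_le (b - a s) (a s)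
        rwa [sub_add_cancel] at this
      linarith
    refine ⟨h2, b, h4, hη0s _ (norm_nonneg _) hbn, h5, ?_, fun Y1 f1 hY1 hf1 => ?_⟩
    · rintro rfl
      rw [zero_sub, norm_neg] at h3
      have := norm_pos_iff.2 (ha s hs).2.2
      linarith
    · filter_upwards [h6 Y1 f1 hY1 hf1, hconst s hs] with z hz1 hz2
      rw [hz1, hz2]

/-- the family does not depend on the point from which it is seen -/
theorem zFam_unique {q : ℂ → ℂ} {U : Set (ℂ × ℂ)} {L : ℂ × ℂ → ℂ} (h : DS q U L) {u gs : ℂ}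
    {μ : ℕ} {lam : ℂ → ℂ} {τ c : ℂ} (hτ : (τ, gs) ∈ U) {T T' : ℂ → ℂ}
    (hT : ZGerm q U L gs u μ lam τ c T) (hT' : ZGerm q U L gs u μ lam τ c T') :
    ∀ᶠ z in 𝓝 (0 : ℂ), T z = T' z := by
  obtain ⟨Y, hY⟩ : ∃ Y : ℂ, Y ^ 2 = y2 q L (τ, gs) := IsAlgClosed.exists_pow_nat_eq _ two_pos
  obtain ⟨f, hf⟩ := h.exists_invGerm (u := u) hτ
  filter_upwards [hT.2.2 Y f hY hf, hT'.2.2 Y f hY hf] with z h1 h2
  rw [h1, h2]

end Pool.Agent.MP_ae5b4e_an_WD
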