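import Pool.Agent.Lib.MP_ae5b4e_an_WD.DA

/-!
# POR (iii), N2, bridge: local charts
-/

namespace Pool.Agent.MP_ae5b4e_an_WD

open Complex Set Filter Topology Metric
open Pool.Agent.MP_ae5b4e_an_WB
open Pool.Agent.MP_ae5b4e_an_M (S1 C1f Gf)

private theorem TipL1_isOpen_Hm : IsOpen Hm := isOpen_lt Complex.continuous_im continuous_const

private theorem TipL1_inj {u ω ω' : ℂ} (hu : u ≠ 0) {r : ℝ} (hr : r * (‖u‖ + 1) ≤ 1)
    (hω : ω ∈ ball (0 : ℂ) r) (hω' : ω' ∈ ball (0 : ℂ) r)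
    (h : exp (2 * (u * ω)) = exp (2 * (u * ω'))) : ω = ω' := by
  have key : ∀ z ∈ ball (0 : ℂ) r, |(2 * (u * z)).im| ≤ 2 := by
    intro z hz
    rw [mem_ball_zero_iff] at hz
    have h1 : ‖(2 * (u * z) : ℂ)‖ = 2 * (‖u‖ * ‖z‖) := by
      rw [norm_mul, norm_mul]
      norm_num
    have h2 : ‖u‖ * ‖z‖ ≤ 1 := by
      have h3 : ‖u‖ * ‖z‖ ≤ ‖u‖ * r := mul_le_mul_of_nonneg_left hz.le (norm_nonneg u)
      have h4 : 0 ≤ r := (norm_nonneg z).trans hz.le
      nlinarith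
    exact (Complex.abs_im_le_norm _).trans (by rw [h1]; linarith)
  have hπ := Real.pi_gt_three
  have h1 := abs_le.1 (key ω hω)
  have h2 := abs_le.1 (key ω' hω')
  have h3 := Complex.exp_inj_of_neg_pi_lt_of_le_pi (by linarith) (by linarith) (by linarith)
    (by linarith) h
  have h4 : u * ω = u * ω' := by
    have : (2 : ℂ) ≠ 0 := two_ne_zero
    exact mul_left_cancel₀ this h3
  exact mul_left_cancel₀ hu h4

private theorem TipL1_of_ev {u : ℂ} (hu : 0 < u.re) {q : ℂ → ℂ} {P : ℂ} (hqP : q P ≠ 0)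
    {lam : ℂ → ℂ} (h0 : lam 0 = P)
    (h : ∀ᶠ ω in 𝓝 (0 : ℂ), DifferentiableAt ℂ lam ω ∧ (lam ω).im < 0 ∧
      q (lam ω) = q P * exp (2 * (u * ω))) : ∃ r : ℝ, LocChart u q P lam r := by
  obtain ⟨ε, hε, h⟩ := Metric.eventually_nhds_iff_ball.1 h
  have hu0 : u ≠ 0 := by
    rintro rfl
    simp at hu
  have hn : 0 ≤ ‖u‖ := norm_nonneg u
  have hn2 : 0 ≤ ‖u‖ ^ 2 := sq_nonneg _
  refine ⟨min ε (min 1 (min (u.re / (‖u‖ ^ 2 + 1)) (1 / (‖u‖ + 1)))), ?_, ?_, ?_, ?_, h0, ?_, ?_⟩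
  · refine lt_min hε (lt_min one_pos (lt_min ?_ ?_)) <;> positivity
  · exact (min_le_right _ _).trans (min_le_left _ _)
  · have h1 : min ε (min 1 (min (u.re / (‖u‖ ^ 2 + 1)) (1 / (‖u‖ + 1)))) ≤
        u.re / (‖u‖ ^ 2 + 1) :=
      (min_le_right _ _).trans ((min_le_right _ _).trans (min_le_left _ _))
    have h2 : 0 < min ε (min 1 (min (u.re / (‖u‖ ^ 2 + 1)) (1 / (‖u‖ + 1)))) := by
      refine lt_min hε (lt_min one_pos (lt_min ?_ ?_)) <;> positivity
    rw [le_div_iff₀ (by positivity)] at h1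
    linarith
  · intro ω hω
    exact (h ω (ball_subset_ball (min_le_left _ _) hω)).1.differentiableWithinAt
  · intro ω hω
    exact (h ω (ball_subset_ball (min_le_left _ _) hω)).2
  · intro ω hω ω' hω' heq
    have h1 := (h ω (ball_subset_ball (min_le_left _ _) hω)).2.2
    have h2 := (h ω' (ball_subset_ball (min_le_left _ _) hω')).2.2
    rw [heq, h2] at h1
    refine TipL1_inj hu0 ?_ hω hω' (mul_left_cancel₀ hqP h1).symm
    have h3 : min ε (min 1 (min (u.re / (‖u‖ ^ 2 + 1)) (1 / (‖u‖ + 1)))) ≤ 1 / (‖u‖ + 1) :=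
      (min_le_right _ _).trans ((min_le_right _ _).trans (min_le_right _ _))
    rwa [le_div_iff₀ (by positivity)] at h3

theorem exists_locChart {u : ℂ} (hu : 0 < u.re) {q : ℂ → ℂ} (hq : DifferentiableOn ℂ q Hm) {P : ℂ}
    (hP : P.im < 0) (hq0 : q P ≠ 0) (hd : deriv q P ≠ 0) :
    ∃ (lam : ℂ → ℂ) (r : ℝ), LocChart u q P lam r := by
  have hqa : AnalyticAt ℂ q P := (hq.analyticOnNhd TipL1_isOpen_Hm) P hP
  have hga := hqa.analyticAt_localInverse hd
  have hright := hqa.hasStrictDerivAt.eventually_right_inverse hd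
  have hgP : hqa.hasStrictDerivAt.localInverse _ _ _ hd (q P) = P :=
    HasStrictFDerivAt.localInverse_apply_image ..
  generalize hqa.hasStrictDerivAt.localInverse _ _ _ hd = g at hga hright hgP
  have hE0 : q P * exp (2 * (u * 0)) = q P := by
    rw [mul_zero, mul_zero, exp_zero, mul_one]
  have hEa : AnalyticAt ℂ (fun ω => q P * exp (2 * (u * ω))) 0 := by fun_prop
  have hla : AnalyticAt ℂ (fun ω => g (q P * exp (2 * (u * ω)))) 0 := by
    refine AnalyticAt.comp (g := g) (f := fun ω => q P * exp (2 * (u * ω))) ?_ hEa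
    rw [hE0]
    exact hga
  have hl0 : g (q P * exp (2 * (u * 0))) = P := by rw [hE0, hgP]
  have hEc : Tendsto (fun ω => q P * exp (2 * (u * ω))) (𝓝 0) (𝓝 (q P)) := by
    have h1 := hEa.continuousAt.tendsto
    rwa [hE0] at h1
  obtain ⟨r, hr⟩ := TipL1_of_ev hu hq0 (lam := fun ω => g (q P * exp (2 * (u * ω)))) hl0 (by
    have h1 : ∀ᶠ ω in 𝓝 (0 : ℂ), (g (q P * exp (2 * (u * ω)))).im < 0 := by
      have h2 := hla.continuousAt.tendsto
      rw [hl0] at h2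
      exact h2.eventually (TipL1_isOpen_Hm.mem_nhds hP)
    filter_upwards [hla.eventually_analyticAt, h1, hEc.eventually hright] with ω h2 h3 h4
    exact ⟨h2.differentiableAt, h3, h4⟩)
  exact ⟨_, r, hr⟩

/-- the chart along the trajectory of a good point is a local chart -/
theorem IsChart.loc {u : ℂ} (hu : 0 < u.re) {q : ℂ → ℂ} (hq : DifferentiableOn ℂ q Hm) {P : ℂ}
    (hq0 : q P ≠ 0) (hd : deriv q P ≠ 0) {lam : ℂ → ℂ} (h : IsChart u q P lam) :
    ∃ r : ℝ, LocChart u q P lam r := by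
  obtain ⟨δ, hδ, hdiff, h1⟩ := h.hol 1 one_pos
  have h0 : (0 : ℂ) ∈ Rc 1 δ := by
    refine ⟨?_, ?_, ?_⟩
    · rw [zero_re]
      linarith
    · rw [zero_re]
      exact hδ
    · rw [zero_im, abs_zero]
      exact hδ
  refine TipL1_of_ev hu hq0 h.zero ?_
  filter_upwards [(isOpen_Rc 1 δ).mem_nhds h0] with ω hω
  exact ⟨hdiff.differentiableAt ((isOpen_Rc 1 δ).mem_nhds hω), h1 ω hω⟩

/-- local charts are unique near `0` -/
theorem LocChart.unique {u : ℂ} {q : ℂ → ℂ} {P : ℂ} (hd : deriv q P ≠ 0) {lam lam' : ℂ → ℂ}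
    {r r' : ℝ} (h : LocChart u q P lam r) (h' : LocChart u q P lam' r') :
    ∀ᶠ ω in 𝓝 (0 : ℂ), lam ω = lam' ω := by
  obtain ⟨hr, -, -, hdl, hl0, hl, hinj⟩ := h
  obtain ⟨hr', -, -, hdl', hl0', hl', -⟩ := h'
  have h00 : (0 : ℂ) ∈ ball (0 : ℂ) r := mem_ball_self hr
  have h00' : (0 : ℂ) ∈ ball (0 : ℂ) r' := mem_ball_self hr'
  have hla : AnalyticAt ℂ lam 0 := (hdl.analyticOnNhd isOpen_ball) 0 h00
  have hmap : 𝓝 P ≤ map lam (𝓝 0) := by
    rcases hla.eventually_constant_or_nhds_le_map_nhds with h1 | h1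
    · exfalso
      obtain ⟨ε, hε, h2⟩ := Metric.eventually_nhds_iff_ball.1 h1
      have h3 : (((min r ε) / 2 : ℝ) : ℂ) ∈ ball (0 : ℂ) (min r ε) := by
        rw [mem_ball_zero_iff, Complex.norm_real, Real.norm_eq_abs, abs_of_pos]
        · exact half_lt_self (lt_min hr hε)
        · exact half_pos (lt_min hr hε)
      have h4 := hinj (ball_subset_ball (min_le_left _ _) h3) h00
        (h2 _ (ball_subset_ball (min_le_right _ _) h3))
      have h5 : (min r ε) / 2 = 0 := by exact_mod_cast h4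
      have h6 := half_pos (lt_min hr hε)
      linarith
    · rwa [hl0] at h1
  have himg : ∀ V ∈ 𝓝 (0 : ℂ), lam '' V ∈ 𝓝 P := fun V hV => hmap (image_mem_map hV)
  have hne : u ≠ 0 ∧ q P ≠ 0 := by
    by_contra hcon
    apply hd
    have h1 : ∀ᶠ z in 𝓝 P, q z = q P := by
      filter_upwards [himg _ (ball_mem_nhds 0 hr)] with z hz
      obtain ⟨ω, hω, rfl⟩ := hz
      rw [(hl ω hω).2]
      by_cases hu : u = 0
      · rw [hu, zero_mul, mul_zero, exp_zero, mul_one]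
      · have h2 : q P = 0 := by
          by_contra h3
          exact hcon ⟨hu, h3⟩
        rw [h2, zero_mul]
    have h2 : q =ᶠ[𝓝 P] fun _ => q P := h1
    rw [h2.deriv_eq, deriv_const]
  have hla' : ContinuousAt lam' 0 :=
    (hdl'.differentiableAt (isOpen_ball.mem_nhds h00')).continuousAt
  have hn : 0 ≤ ‖u‖ := norm_nonneg u
  have hs : 0 < min r (1 / (‖u‖ + 1)) := lt_min hr (by positivity)
  have h5 : ∀ᶠ ω in 𝓝 (0 : ℂ), lam' ω ∈ lam '' ball 0 (min r (1 / (‖u‖ + 1))) := by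
    have h6 := hla'.tendsto
    rw [hl0'] at h6
    exact h6.eventually (himg _ (ball_mem_nhds 0 hs))
  filter_upwards [h5, ball_mem_nhds (0 : ℂ) hr', ball_mem_nhds (0 : ℂ) hs] with ω h6 h7 h8
  obtain ⟨ω', hω', h9⟩ := h6
  have h10 := (hl ω' (ball_subset_ball (min_le_left _ _) hω')).2
  rw [h9, (hl' ω h7).2] at h10
  have h11 : ω = ω' := by
    refine TipL1_inj hne.1 (r := min r (1 / (‖u‖ + 1))) ?_ h8 hω' (mul_left_cancel₀ hne.2 h10)
    have h3 : min r (1 / (‖u‖ + 1)) ≤ 1 / (‖u‖ + 1) := min_le_right _ _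
    rwa [le_div_iff₀ (by positivity)] at h3
  rw [h11, h9, h11]

end Pool.Agent.MP_ae5b4e_an_WD
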