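import Pool.Agent.Lib.MP_ae5b4e_an_WD.Loc
import Pool.Agent.Lib.MP_ae5b4e_an_WD.TipL1
import Pool.Agent.Lib.MP_ae5b4e_an_WD.TipL2

/-!
# POR (iii), N2, bridge: local constancy of the height of a tip
-/

namespace Pool.Agent.MP_ae5b4e_an_WD

open Complex Set Filter Topology Metric
open Pool.Agent.MP_ae5b4e_an_WB
open Pool.Agent.MP_ae5b4e_an_M (S1 C1f Gf)

/-- the derivative of a local chart does not vanish -/
theorem LocChart.deriv_ne {u : ℂ} (hu : 0 < u.re) {q : ℂ → ℂ} (hq : DifferentiableOn ℂ q Hm)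
    {P : ℂ} (hP : q P ≠ 0) {lam : ℂ → ℂ} {r : ℝ} (h : LocChart u q P lam r) {ω : ℂ}
    (hω : ω ∈ ball (0 : ℂ) r) : deriv lam ω ≠ 0 := by
  obtain ⟨hr0, hr1, hr2, hd, h0, hv, hi⟩ := h
  have hu0 : u ≠ 0 := by
    rintro rfl
    simp at hu
  have hHm : IsOpen Hm := isOpen_lt continuous_im continuous_const
  have h1 : HasDerivAt lam (deriv lam ω) ω :=
    (hd.differentiableAt (isOpen_ball.mem_nhds hω)).hasDerivAt
  have h2 : HasDerivAt q (deriv q (lam ω)) (lam ω) :=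
    (hq.differentiableAt (hHm.mem_nhds (hv ω hω).1)).hasDerivAt
  have h3 : HasDerivAt (fun w => q (lam w)) (deriv q (lam ω) * deriv lam ω) ω :=
    HasDerivAt.comp (h₂ := q) ω h2 h1
  have h4 : HasDerivAt (fun w : ℂ => q P * exp (2 * (u * w)))
      (q P * (exp (2 * (u * ω)) * (2 * (u * 1)))) ω := by
    have h5 : HasDerivAt (fun w : ℂ => 2 * (u * w)) (2 * (u * 1)) ω :=
      ((hasDerivAt_id ω).const_mul u).const_mul 2
    exact h5.cexp.const_mul (q P)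
  have h5 : HasDerivAt (fun w => q (lam w)) (q P * (exp (2 * (u * ω)) * (2 * (u * 1)))) ω := by
    refine h4.congr_of_eventuallyEq ?_
    filter_upwards [isOpen_ball.mem_nhds hω] with w hw
    exact (hv w hw).2
  have h6 := h3.unique h5
  intro h7
  rw [h7, mul_zero] at h6
  have h8 : q P * (exp (2 * (u * ω)) * (2 * (u * 1))) ≠ 0 :=
    mul_ne_zero hP (mul_ne_zero (Complex.exp_ne_zero _) (mul_ne_zero two_ne_zero
      (mul_ne_zero hu0 one_ne_zero)))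
  exact h8 h6.symm

/-- a local chart is a local homeomorphism -/
theorem LocChart.map_nhds {u : ℂ} (hu : 0 < u.re) {q : ℂ → ℂ} (hq : DifferentiableOn ℂ q Hm)
    {P : ℂ} (hP : q P ≠ 0) {lam : ℂ → ℂ} {r : ℝ} (h : LocChart u q P lam r) {ω : ℂ}
    (hω : ω ∈ ball (0 : ℂ) r) : map lam (𝓝 ω) = 𝓝 (lam ω) := by
  have h1 : AnalyticAt ℂ lam ω := h.2.2.2.1.analyticAt (isOpen_ball.mem_nhds hω)
  exact h1.hasStrictDerivAt.map_nhds_eq (h.deriv_ne hu hq hP hω)

theorem tipE_sq {u a Y y : ℂ} (h : Y ^ 2 = y ^ 2) (e : ℂ) (g : ℂ → ℂ) (z : ℂ) :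
    tipE u (G Y * e) a Y g z = tipE u (G y * e) a y g z := by
  rcases sq_eq_sq_iff_eq_or_eq_neg.1 h with h1 | h1
  · rw [h1]
  · rw [h1, G_neg, neg_mul, tipE_neg]

/-- the lift of the chart and the flow agree -/
theorem TipL_flow {u gs l0 y0 a0 lb : ℂ} {q Y lam : ℂ → ℂ} {r ρ : ℝ} (hu : 0 < u.re)
    (hlam : LocChart u q lb lam r) (htip : gs ^ 2 * q lb = tipc)
    (hYd : DifferentiableOn ℂ Y (ball l0 ρ)) (hρ : 0 < ρ)
    (hYs : ∀ l ∈ ball l0 ρ, sin (Y l) ≠ 0 ∧ G (Y l) ^ 2 = gs ^ 2 * q l)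
    (ha : lam a0 = l0) (hy0 : Y l0 = y0) (ha0 : a0 ≠ 0) (ha1 : 8 * ‖a0‖ < r) :
    ∀ᶠ b in 𝓝 a0, Y (lam b) = Fl y0 (u * (b - a0)) := by
  obtain ⟨hr0, hr1, hr2, hd, h0, hv, hi⟩ := hlam
  have hna : 0 < ‖a0‖ := norm_pos_iff.2 ha0
  have ha0r : a0 ∈ ball (0 : ℂ) r := by rw [mem_ball_zero_iff]; linarith
  have hl0 : l0 ∈ ball l0 ρ := mem_ball_self hρ
  obtain ⟨hs0, hG0⟩ := hYs l0 hl0
  rw [hy0] at hs0 hG0
  have hW : (G y0 * exp (-(u * a0))) ^ 2 = tipc := by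
    rw [mul_pow, hG0, ← ha, (hv a0 ha0r).2, ← Complex.exp_nat_mul]
    have h1 : gs ^ 2 * (q lb * exp (2 * (u * a0))) * exp ((2 : ℕ) * -(u * a0)) =
        gs ^ 2 * q lb * (exp (2 * (u * a0)) * exp ((2 : ℕ) * -(u * a0))) := by ring
    rw [h1, ← Complex.exp_add, htip]
    have h2 : 2 * (u * a0) + (2 : ℕ) * -(u * a0) = 0 := by push_cast; ring
    rw [h2, Complex.exp_zero, mul_one]
  have hGW : G y0 = G y0 * exp (-(u * a0)) * exp (u * a0) := by
    rw [mul_assoc, ← Complex.exp_add, neg_add_cancel, Complex.exp_zero, mul_one]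
  have hlc : ContinuousAt lam a0 := (hd.differentiableAt (isOpen_ball.mem_nhds ha0r)).continuousAt
  have hYc : ContinuousAt Y l0 := (hYd.differentiableAt (isOpen_ball.mem_nhds hl0)).continuousAt
  have hf : Tendsto (fun b => Y (lam b)) (𝓝 a0) (𝓝 y0) := by
    have h1 : Tendsto lam (𝓝 a0) (𝓝 l0) := by rw [← ha]; exact hlc
    have h2 : Tendsto Y (𝓝 l0) (𝓝 y0) := by rw [← hy0]; exact hYc
    exact h2.comp h1
  have hfwd : ∀ b ∈ ball a0 ‖a0‖, Fwd y0 (u * (b - a0)) := fun b hb =>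
    TipL2_fwd hu hW hGW ha0 ha1 hr2 (mem_ball_self hna) hb
  have hg : Tendsto (fun b => Fl y0 (u * (b - a0))) (𝓝 a0) (𝓝 y0) := by
    have h1 : Fwd y0 0 := by
      have := hfwd a0 (mem_ball_self hna)
      rwa [sub_self, mul_zero] at this
    have h2 : Tendsto (Fl y0) (𝓝 0) (𝓝 y0) := by
      have h3 := (hasDerivAt_Fl hs0 h1).continuousAt
      rw [ContinuousAt, Fl_zero hs0] at h3
      exact h3
    have h3 : Tendsto (fun b : ℂ => u * (b - a0)) (𝓝 a0) (𝓝 0) := by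
      have h4 : Continuous fun b : ℂ => u * (b - a0) := by fun_prop
      have h5 := h4.tendsto a0
      rwa [sub_self, mul_zero] at h5
    exact h2.comp h3
  refine eventually_eq_of_G_eq hs0 hf hg ?_
  have hsum : Tendsto (fun b => G (Y (lam b)) + G (Fl y0 (u * (b - a0)))) (𝓝 a0)
      (𝓝 (G y0 + G y0)) :=
    ((continuousAt_G hs0).tendsto.comp hf).add ((continuousAt_G hs0).tendsto.comp hg)
  have hne : G y0 + G y0 ≠ 0 := by
    rw [← two_mul]
    exact mul_ne_zero two_ne_zero (G_ne_zero hs0)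
  have hlb : ∀ᶠ b in 𝓝 a0, lam b ∈ ball l0 ρ := by
    have h1 : Tendsto lam (𝓝 a0) (𝓝 l0) := by rw [← ha]; exact hlc
    exact h1.eventually (ball_mem_nhds l0 hρ)
  filter_upwards [hsum.eventually_ne hne, hlb, isOpen_ball.mem_nhds ha0r,
    ball_mem_nhds a0 hna] with b hb1 hb2 hb3 hb4
  have h1 : G (Y (lam b)) ^ 2 = tipc * exp (2 * (u * b)) := by
    rw [(hYs _ hb2).2, (hv b hb3).2, ← mul_assoc, htip]
  have h2 : G (Fl y0 (u * (b - a0))) ^ 2 = tipc * exp (2 * (u * b)) := by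
    rw [G_Fl hs0 (hfwd b hb4), ← hW]
    have h3 : (G y0 * exp (-(u * a0))) ^ 2 * exp (2 * (u * b)) =
        G y0 ^ 2 * (exp (-(u * a0)) ^ 2 * exp (2 * (u * b))) := by ring
    rw [h3, mul_pow, ← Complex.exp_nat_mul, ← Complex.exp_nat_mul, ← Complex.exp_add]
    congr 2
    push_cast
    ring
  have h3 : (G (Y (lam b)) + G (Fl y0 (u * (b - a0)))) *
      (G (Y (lam b)) - G (Fl y0 (u * (b - a0)))) = 0 := by
    have h4 : (G (Y (lam b)) + G (Fl y0 (u * (b - a0)))) *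
        (G (Y (lam b)) - G (Fl y0 (u * (b - a0)))) =
        G (Y (lam b)) ^ 2 - G (Fl y0 (u * (b - a0))) ^ 2 := by ring
    rw [h4, h1, h2, sub_self]
  exact sub_eq_zero.1 ((mul_eq_zero.1 h3).resolve_left hb1)

/-- LOCAL CONSTANCY. With the height `a τ` (`lam (a τ) = L (τ, gs)`, holomorphic near `τ0`, from
injectivity of `lam`), the germ `f_τ z - tipE(a τ, Y τ) z` does not depend on `τ` near `τ0`:
`f_τ z - f_{τ0} z = T (lam a) z - T (lam a0) z = ∫_[a0, a] (w/y) lam'(ω) dω` (derivative of the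
inverse
function `= w/y`, as in `exists_loc`) `= ∫_[a0+z, a+z] ψ(ω) lam'(ω-z) dω = tipE a z - tipE a0 z`
(`tipE_sub`, `tipE_neg` for the sign of `Y`). -/
theorem tip_local {q : ℂ → ℂ} {U : Set (ℂ × ℂ)} {L : ℂ × ℂ → ℂ} (h : DS q U L) {u gs lb : ℂ}
    (hu : 0 < u.re) (hgs : gs ≠ 0) {lam : ℂ → ℂ} {r : ℝ} (hlam : LocChart u q lb lam r)
    (htip : gs ^ 2 * q lb = tipc) {τ0 a0 : ℂ} (h0 : (τ0, gs) ∈ U) (ha : lam a0 = L (τ0, gs))
    (ha0 : a0 ≠ 0) (ha1 : 8 * ‖a0‖ < r) :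
    ∃ ε : ℝ, 0 < ε ∧ ∀ τ ∈ ball τ0 ε, (τ, gs) ∈ U ∧ ∃ a : ℂ, ‖a - a0‖ < ‖a0‖ / 16 ∧
      lam a = L (τ, gs) ∧ ∀ (Y0 Y1 : ℂ) (f0 f1 : ℂ → ℂ), Y0 ^ 2 = y2 q L (τ0, gs) →
        Y1 ^ 2 = y2 q L (τ, gs) → InvGerm U L gs u τ0 f0 → InvGerm U L gs u τ f1 →
        ∀ᶠ z in 𝓝 (0 : ℂ),
          f1 z - tipE u (G Y1 * exp (-(u * a))) a Y1 (deriv lam) z =
          f0 z - tipE u (G Y0 * exp (-(u * a0))) a0 Y0 (deriv lam) z := by
  have hlam' := hlam
  obtain ⟨hr0, hr1, hr2, hd, hl0, hv, hi⟩ := hlam'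
  have hna : 0 < ‖a0‖ := norm_pos_iff.2 ha0
  have ha0r : a0 ∈ ball (0 : ℂ) r := by rw [mem_ball_zero_iff]; linarith
  have hqlb : q lb ≠ 0 := by
    intro h1
    rw [h1, mul_zero] at htip
    exact TipL2_tipc_ne htip.symm
  have hq0 : q (L (τ0, gs)) ≠ 0 := by
    rw [← ha, (hv a0 ha0r).2]
    exact mul_ne_zero hqlb (Complex.exp_ne_zero _)
  obtain ⟨r0, hr0s⟩ : ∃ r0 : ℂ, r0 ^ 2 = q (L (τ0, gs)) := by
    obtain ⟨r0, h1⟩ := IsAlgClosed.exists_pow_nat_eq (q (L (τ0, gs))) (n := 2) two_pos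
    exact ⟨r0, h1⟩
  have hr00 : r0 ≠ 0 := by
    rintro rfl
    rw [zero_pow two_ne_zero] at hr0s
    exact hq0 hr0s.symm
  obtain ⟨ρ, hρ, Y, F, hLP, hFU, hFd, hFa, ρ1, hρ1, hτ⟩ := exists_loc h h0 hr0s hr00
  set l0 : ℂ := L (τ0, gs) with hl0d
  set y0 : ℂ := Y l0 with hy0d
  have hl0B : l0 ∈ ball l0 ρ := mem_ball_self hρ
  have hYs : ∀ l ∈ ball l0 ρ, sin (Y l) ≠ 0 ∧ G (Y l) ^ 2 = gs ^ 2 * q l :=
    fun l hl => (hLP.2.1 l hl).2
  obtain ⟨hs0, hG0⟩ := hYs l0 hl0B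
  have hW : (G y0 * exp (-(u * a0))) ^ 2 = tipc := by
    rw [mul_pow, hG0, ← ha, (hv a0 ha0r).2, ← Complex.exp_nat_mul]
    have h1 : gs ^ 2 * (q lb * exp (2 * (u * a0))) * exp ((2 : ℕ) * -(u * a0)) =
        gs ^ 2 * q lb * (exp (2 * (u * a0)) * exp ((2 : ℕ) * -(u * a0))) := by ring
    rw [h1, ← Complex.exp_add, htip]
    have h2 : 2 * (u * a0) + (2 : ℕ) * -(u * a0) = 0 := by push_cast; ring
    rw [h2, Complex.exp_zero, mul_one]
  set W : ℂ := G y0 * exp (-(u * a0)) with hWd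
  have hGW : G y0 = W * exp (u * a0) := by
    rw [hWd, mul_assoc, ← Complex.exp_add, neg_add_cancel, Complex.exp_zero, mul_one]
  have hflow := TipL_flow hu hlam htip hLP.1 hρ hYs ha hy0d.symm ha0 ha1
  have hlc : Tendsto lam (𝓝 a0) (𝓝 l0) := by
    rw [← ha]
    exact (hd.differentiableAt (isOpen_ball.mem_nhds ha0r)).continuousAt
  have hexp : ∀ᶠ b : ℂ in 𝓝 a0, ‖exp (u * (b - a0)) - 1‖ < 1 / 2 := by
    have h1 : Continuous fun b : ℂ => ‖exp (u * (b - a0)) - 1‖ := by fun_prop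
    have h2 := h1.tendsto a0
    rw [sub_self, mul_zero, Complex.exp_zero, sub_self, norm_zero] at h2
    exact h2.eventually (gt_mem_nhds (by norm_num))
  obtain ⟨η, hη, hηb⟩ := Metric.eventually_nhds_iff_ball.1 (((hflow.and
    (hlc.eventually (ball_mem_nhds l0 hρ))).and hexp).and (isOpen_ball.mem_nhds ha0r))
  set η' : ℝ := min η (‖a0‖ / 16) with hη'
  have hη'0 : 0 < η' := lt_min hη (by positivity)
  have himg : lam '' ball a0 η' ∈ 𝓝 l0 := by
    have h1 := hlam.map_nhds hu h.qd hqlb ha0r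
    rw [ha] at h1
    rw [← h1]
    exact image_mem_map (ball_mem_nhds a0 hη'0)
  have hLc : Tendsto (fun τ => L (τ, gs)) (𝓝 τ0) (𝓝 l0) := by
    have h1 : ContinuousAt L (τ0, gs) := (h.an (τ0, gs) h0).continuousAt
    exact ContinuousAt.comp (g := L) (f := fun τ : ℂ => (τ, gs)) h1 (by fun_prop)
  obtain ⟨ε, hε, hεb⟩ := Metric.eventually_nhds_iff_ball.1 ((hLc.eventually himg).and
    (ball_mem_nhds τ0 hρ1))
  have hinv : ∀ τ ∈ ball τ0 ρ1, InvGerm U L gs u τ (F (L (τ, gs))) := by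
    intro τ hτb
    obtain ⟨h1, h2, h3, -⟩ := hτ τ hτb
    refine ⟨hFa _ h2 0 (mem_ball_self hρ), h3, ?_⟩
    filter_upwards [ball_mem_nhds (0 : ℂ) hρ] with z hz
    exact hFU _ h2 z hz
  have hy0sq : y0 ^ 2 = y2 q L (τ0, gs) := by
    have h1 := (hτ τ0 (mem_ball_self hρ1)).2.2.2 r0 hr0s (by
      rw [sub_self, norm_zero]
      have := norm_pos_iff.2 hr00
      positivity)
    rw [hy0d, hl0d, h1, mul_pow, hr0s]
    rfl
  refine ⟨ε, hε, fun τ hτε => ?_⟩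
  obtain ⟨⟨a, haη, haL⟩, hτρ⟩ := hεb τ hτε
  obtain ⟨hτU, hτB, hτF, hτY⟩ := hτ τ hτρ
  have haη1 : a ∈ ball a0 η := ball_subset_ball (min_le_left _ _) haη
  have haη2 : ‖a - a0‖ < ‖a0‖ / 16 := by
    rw [← mem_ball_iff_norm]
    exact ball_subset_ball (min_le_right _ _) haη
  obtain ⟨⟨⟨hfl, hlamB⟩, hex⟩, har⟩ := hηb a haη1
  rw [haL] at hfl
  refine ⟨hτU, a, haη2, haL, ?_⟩
  have hy1sq : (Fl y0 (u * (a - a0))) ^ 2 = y2 q L (τ, gs) := by
    have h1 : (r0 * exp (u * (a - a0))) ^ 2 = q (L (τ, gs)) := by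
      rw [mul_pow, hr0s, ← Complex.exp_nat_mul, ← haL, (hv a har).2, ← ha, (hv a0 ha0r).2,
        mul_assoc, ← Complex.exp_add]
      congr 2
      push_cast
      ring
    have h2 := hτY _ h1 (by
      have h3 : r0 * exp (u * (a - a0)) - r0 = r0 * (exp (u * (a - a0)) - 1) := by ring
      rw [h3, norm_mul]
      have := norm_pos_iff.2 hr00
      nlinarith)
    rw [← hfl, h2, mul_pow, h1]
    rfl
  have hfwd0 : ∀ b ∈ ball a0 ‖a0‖, Fwd y0 (u * (b - a0)) := fun b hb =>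
    TipL2_fwd hu hW hGW ha0 ha1 hr2 (mem_ball_self hna) hb
  have hGFl : ∀ b ∈ ball a0 ‖a0‖, G (Fl y0 (u * (b - a0))) = W * exp (u * b) := by
    intro b hb
    rw [G_Fl hs0 (hfwd0 b hb), hGW, mul_assoc, ← Complex.exp_add]
    congr 2
    ring
  have haB : a ∈ ball a0 ‖a0‖ := by rw [mem_ball_iff_norm]; linarith
  intro Y0 Y1 f0 f1 hY0 hY1 hf0 hf1
  have e1 := h.invGerm_unique hτU hf1 (hinv τ hτρ)
  have e0 := h.invGerm_unique h0 hf0 (hinv τ0 (mem_ball_self hρ1))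
  have hδ : 0 < min ρ (‖a0‖ / 16) := lt_min hρ (by positivity)
  filter_upwards [e1, e0, ball_mem_nhds (0 : ℂ) hδ] with z hz1 hz0 hz
  rw [mem_ball_zero_iff, lt_min_iff] at hz
  have hzρ : z ∈ ball (0 : ℂ) ρ := mem_ball_zero_iff.2 hz.1
  rw [hz1, hz0]
  have hT1 : tipE u (G Y1 * exp (-(u * a))) a Y1 (deriv lam) z =
      tipE u W a (Fl y0 (u * (a - a0))) (deriv lam) z := by
    rw [tipE_sq (hY1.trans hy1sq.symm)]
    congr 1
    rw [hGFl a haB, mul_assoc, ← Complex.exp_add, add_neg_cancel, Complex.exp_zero, mul_one]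
  have hT0 : tipE u (G Y0 * exp (-(u * a0))) a0 Y0 (deriv lam) z =
      tipE u W a0 y0 (deriv lam) z := tipE_sq (hY0.trans hy0sq.symm) _ _ _
  rw [hT1, hT0]
  have hsub := tipE_sub (b := a) (z := z) hu hW hs0 hGW ha0 ha1 hr2 hr1
    (hd.deriv isOpen_ball) (by linarith [hz.2])
  -- the difference of the germs
  have hsegB : ∀ θ ∈ Icc (0 : ℝ) 1, a0 + θ * (a - a0) ∈ ball a0 η := by
    intro θ hθ
    rw [mem_ball_iff_norm] at haη1 ⊢
    rw [add_sub_cancel_left, norm_mul, Complex.norm_real, Real.norm_of_nonneg hθ.1]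
    have h2 : θ * ‖a - a0‖ ≤ 1 * ‖a - a0‖ := mul_le_mul_of_nonneg_right hθ.2 (norm_nonneg _)
    linarith
  have hseg16 : ∀ θ ∈ Icc (0 : ℝ) 1, ‖(θ : ℂ) * (a - a0)‖ < ‖a0‖ / 16 := by
    intro θ hθ
    rw [norm_mul, Complex.norm_real, Real.norm_of_nonneg hθ.1]
    have h2 : θ * ‖a - a0‖ ≤ 1 * ‖a - a0‖ := mul_le_mul_of_nonneg_right hθ.2 (norm_nonneg _)
    linarith
  have hvel : ∀ θ ∈ Icc (0 : ℝ) 1,
      G (Y (lam (a0 + θ * (a - a0)))) * exp (u * z) / Fl (Y (lam (a0 + θ * (a - a0)))) (u * z) =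
      W * exp (u * (a0 + z + θ * (a - a0))) / Fl y0 (u * (z + θ * (a - a0))) := by
    intro θ hθ
    obtain ⟨⟨⟨h1, h2⟩, -⟩, h3⟩ := hηb _ (hsegB θ hθ)
    have h16 := hseg16 θ hθ
    have hbB : a0 + θ * (a - a0) ∈ ball a0 ‖a0‖ := by
      rw [mem_ball_iff_norm, add_sub_cancel_left]; linarith
    have hbzB : a0 + θ * (a - a0) + z ∈ ball a0 ‖a0‖ := by
      rw [mem_ball_iff_norm]
      have h4 : a0 + θ * (a - a0) + z - a0 = θ * (a - a0) + z := by ring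
      rw [h4]
      exact (norm_add_le _ _).trans_lt (by linarith [hz.2])
    rw [h1, hGFl _ hbB]
    have h5 := Fl_add hs0 (hfwd0 _ hbB) (s := u * z) (by
      have h6 := TipL2_fwd hu hW (hGFl _ hbB) ha0 ha1 hr2 hbB hbzB
      have h7 : u * (a0 + θ * (a - a0) + z - (a0 + θ * (a - a0))) = u * z := by ring
      rw [h7] at h6
      exact h6) (by
      intro s hs
      have h6 : u * (a0 + θ * (a - a0) - a0) + s * (u * z) =
          u * (a0 + θ * (a - a0) + s * z - a0) := by ring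
      rw [h6]
      apply hfwd0
      rw [mem_ball_iff_norm]
      have h7 : a0 + θ * (a - a0) + s * z - a0 = θ * (a - a0) + s * z := by ring
      rw [h7]
      refine (norm_add_le _ _).trans_lt ?_
      rw [norm_mul (s : ℂ), Complex.norm_real, Real.norm_of_nonneg hs.1]
      have h8 : s * ‖z‖ ≤ 1 * ‖z‖ := mul_le_mul_of_nonneg_right hs.2 (norm_nonneg _)
      linarith [hz.2])
    rw [h5, mul_assoc, ← Complex.exp_add]
    congr 3 <;> ring
  have hFTC : F (L (τ, gs)) z - F l0 z = (a - a0) * ∫ θ in (0 : ℝ)..1,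
      W * exp (u * (a0 + z + θ * (a - a0))) /
        Fl y0 (u * (z + θ * (a - a0))) * deriv lam (a0 + θ * (a - a0)) := by
    have c1 : ∀ θ ∈ uIcc (0 : ℝ) 1, HasDerivAt (fun θ : ℝ => F (lam (a0 + θ * (a - a0))) z)
        (W * exp (u * (a0 + z + θ * (a - a0))) /
          Fl y0 (u * (z + θ * (a - a0))) * deriv lam (a0 + θ * (a - a0)) * (a - a0)) θ := by
      intro θ hθ
      rw [uIcc_of_le zero_le_one] at hθ
      obtain ⟨⟨⟨h1, h2⟩, -⟩, h3⟩ := hηb _ (hsegB θ hθ)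
      have c3 : HasDerivAt (fun θ : ℝ => a0 + (θ : ℂ) * (a - a0)) (a - a0) θ := by
        have := ((Complex.ofRealCLM.hasDerivAt (x := θ)).mul_const (a - a0)).const_add a0
        simpa using this
      have c4 : HasDerivAt lam (deriv lam (a0 + θ * (a - a0))) (a0 + θ * (a - a0)) :=
        (hd.differentiableAt (isOpen_ball.mem_nhds h3)).hasDerivAt
      have c5 := hFd _ h2 z hzρ
      rw [hvel θ hθ] at c5
      have c6 : HasDerivAt (fun b => F (lam b) z) (W * exp (u * (a0 + z + θ * (a - a0))) /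
          Fl y0 (u * (z + θ * (a - a0))) * deriv lam (a0 + θ * (a - a0))) (a0 + θ * (a - a0)) :=
        HasDerivAt.comp (h₂ := fun l' => F l' z) (a0 + θ * (a - a0)) c5 c4
      exact HasDerivAt.comp θ (h₂ := fun b => F (lam b) z) c6 c3
    have c2 : IntervalIntegrable (fun θ : ℝ => W * exp (u * (a0 + z + θ * (a - a0))) /
          Fl y0 (u * (z + θ * (a - a0))) * deriv lam (a0 + θ * (a - a0)) * (a - a0))
        MeasureTheory.volume 0 1 := by
      refine ContinuousOn.intervalIntegrable fun θ hθ => ?_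
      rw [uIcc_of_le zero_le_one] at hθ
      obtain ⟨-, h3⟩ := hηb _ (hsegB θ hθ)
      have h16 := hseg16 θ hθ
      have hF : Fwd y0 (u * (z + θ * (a - a0))) := by
        have h4 : u * (z + θ * (a - a0)) = u * (a0 + (z + θ * (a - a0)) - a0) := by ring
        rw [h4]
        apply hfwd0
        rw [mem_ball_iff_norm, add_sub_cancel_left]
        exact (norm_add_le _ _).trans_lt (by linarith [hz.2])
      have d1 : ContinuousAt (fun θ : ℝ => Fl y0 (u * (z + θ * (a - a0)))) θ :=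
        ContinuousAt.comp (g := Fl y0) (f := fun θ : ℝ => u * (z + θ * (a - a0)))
          (hasDerivAt_Fl hs0 hF).continuousAt (by fun_prop)
      have d2 : ContinuousAt (fun θ : ℝ => deriv lam (a0 + θ * (a - a0))) θ :=
        ContinuousAt.comp (g := deriv lam) (f := fun θ : ℝ => a0 + (θ : ℂ) * (a - a0))
          ((hd.deriv isOpen_ball).differentiableAt (isOpen_ball.mem_nhds h3)).continuousAt
          (by fun_prop)
      have d3 : ContinuousAt (fun θ : ℝ => W * exp (u * (a0 + z + θ * (a - a0)))) θ := by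
        fun_prop
      exact (((d3.div d1 (Fl_ne_zero hs0 hF)).mul d2).mul continuousAt_const).continuousWithinAt
    have c3 := intervalIntegral.integral_eq_sub_of_hasDerivAt c1 c2
    rw [intervalIntegral.integral_mul_const] at c3
    rw [mul_comm, c3]
    have c4 : a0 + ((1 : ℝ) : ℂ) * (a - a0) = a := by
      push_cast
      ring
    have c5 : a0 + ((0 : ℝ) : ℂ) * (a - a0) = a0 := by
      push_cast
      ring
    rw [c4, c5, haL, ha]
  have hfin : F (L (τ, gs)) z - F l0 z = tipE u W a (Fl y0 (u * (a - a0))) (deriv lam) z -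
      tipE u W a0 y0 (deriv lam) z := by rw [hsub, hFTC]
  linear_combination hfin

end Pool.Agent.MP_ae5b4e_an_WD
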