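import Pool.Agent.Lib.MP_ae5b4e_an_WB.Flow

/-!
# POR (iii), N2, bridge: asymptotic values of `G`, branches and the flow on a ball
-/

namespace Pool.Agent.MP_ae5b4e_an_WD

open Complex Set Filter Topology Metric
open Pool.Agent.MP_ae5b4e_an_WB

/-- Picard-Lindelof on a closed ball, times `[0, 1]` -/
theorem pl_exists {f : ℂ → ℂ} {x0 : ℂ} {a L : ℝ} (hL : 0 ≤ L) (hLa : L ≤ a)
    (hf : ContDiffOn ℝ 1 f (closedBall x0 a)) (hb : ∀ x ∈ closedBall x0 a, ‖f x‖ ≤ L) :
    ∃ η : ℝ → ℂ, η 0 = x0 ∧ ∀ r ∈ Icc (0 : ℝ) 1,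
      η r ∈ closedBall x0 a ∧ HasDerivWithinAt η (f (η r)) (Icc 0 1) r := by
  have ha : 0 ≤ a := hL.trans hLa
  obtain ⟨K, hK⟩ := hf.exists_lipschitzOnWith one_ne_zero (convex_closedBall x0 a)
    (isCompact_closedBall x0 a)
  lift a to NNReal using ha
  lift L to NNReal using hL
  have h0 : (0 : ℝ) ∈ Icc (0 : ℝ) 1 := ⟨le_rfl, zero_le_one⟩
  have hP : IsPicardLindelof (fun _ : ℝ => f) (tmin := 0) (tmax := 1) ⟨0, h0⟩ x0
      a 0 L K := by
    refine IsPicardLindelof.of_time_independent hb hK ?_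
    simp only [NNReal.coe_zero, sub_zero]
    rw [max_eq_left zero_le_one, mul_one]
    exact hLa
  have hx : x0 ∈ closedBall x0 ((0 : NNReal) : ℝ) := by simp
  obtain ⟨α, hα⟩ := ODE.FunSpace.exists_isFixedPt_next hP hx
  have hmem : ∀ t, α.compProj t ∈ closedBall x0 a := fun t =>
    α.compProj_mem_closedBall hP.mul_max_le
  have hpic : ∀ t ∈ Icc (0 : ℝ) 1, α.compProj t = ODE.picard (fun _ => f) 0 x0 α.compProj t := by
    intro t ht
    have h1 := (ODE.FunSpace.isFixedPt_next_iff hP hx).1 hα ⟨t, ht⟩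
    rw [ODE.FunSpace.compProj_of_mem ht]
    exact h1
  refine ⟨α.compProj, ?_, fun r hr => ⟨hmem r, ?_⟩⟩
  · rw [hpic 0 h0]; simp
  · have h1 : HasDerivWithinAt (ODE.picard (fun _ => f) 0 x0 α.compProj)
        (f (α.compProj r)) (Icc 0 1) r := by
      refine ODE.hasDerivWithinAt_picard_Icc (u := closedBall x0 a) h0 ?_
        (α.continuous_compProj.continuousOn) (fun t _ => hmem t) x0 hr
      have : ContinuousOn (fun p : ℝ × ℂ => f p.2) (Icc (0 : ℝ) 1 ×ˢ closedBall x0 a) :=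
        hf.continuousOn.comp continuousOn_snd (fun p hp => hp.2)
      exact this
    exact h1.congr (fun t ht => hpic t ht) (hpic r hr)

/-- lifts for all times in a disc: the end point map -/
theorem branch_of_lift {y1 : ℂ} {T : ℝ} (h : sin y1 ≠ 0)
    (hex : ∀ t ∈ ball (0 : ℂ) T, ∃ η, IsLift y1 t η) :
    ContinuousOn (Fl y1) (ball 0 T) ∧ Fl y1 0 = y1 ∧
      ∀ t ∈ ball (0 : ℂ) T, sin (Fl y1 t) ≠ 0 ∧ G (Fl y1 t) = G y1 * exp t := by
  have hmul : ∀ t ∈ ball (0 : ℂ) T, ∀ r ∈ Icc (0 : ℝ) 1, (r : ℂ) * t ∈ ball (0 : ℂ) T := by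
    intro t ht r hr
    rw [mem_ball_zero_iff] at ht ⊢
    rw [norm_mul, norm_real, Real.norm_eq_abs, abs_of_nonneg hr.1]
    nlinarith [norm_nonneg t, hr.2, hr.1]
  have hsp : ∀ t ∈ ball (0 : ℂ) T, sin (Fl y1 t) ≠ 0 ∧ G (Fl y1 t) = G y1 * exp t := by
    intro t ht
    obtain ⟨η, hη⟩ := hex t ht
    rw [Fl_eq hη]
    have := hη.2.2 1 ⟨zero_le_one, le_rfl⟩
    simpa using this
  refine ⟨?_, Fl_zero h, hsp⟩
  rw [continuousOn_iff_continuous_domRestrict]
  set A := ball (0 : ℂ) T with hA'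
  set f : C(unitInterval × A, ℂ) := ⟨fun x => G y1 * exp ((x.1 : ℝ) * x.2.1), by fun_prop⟩ with hf
  set g : unitInterval × A → {y : ℂ // sin y ≠ 0} := fun x =>
    ⟨Fl y1 ((x.1 : ℝ) * x.2.1), (hsp _ (hmul _ x.2.2 _ x.1.2)).1⟩ with hg
  have hlift : (fun y : {y : ℂ // sin y ≠ 0} => G y) ∘ g = f := by
    ext x
    simp only [hg, hf, Function.comp_apply, ContinuousMap.coe_mk]
    exact (hsp _ (hmul _ x.2.2 _ x.1.2)).2
  have h0 : Continuous (fun a => g ⟨0, a⟩) := by
    refine Continuous.subtype_mk ?_ _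
    have : (fun a : A => Fl y1 (((0 : unitInterval) : ℝ) * a.1)) = fun a : A => y1 := by
      funext a
      simp only [Icc.coe_zero, ofReal_zero, zero_mul]
      exact Fl_zero h
    rw [this]
    fun_prop
  have hA : ∀ a, Continuous (fun t => g ⟨t, a⟩) := by
    intro a
    refine Continuous.subtype_mk ?_ _
    obtain ⟨η, hη⟩ := hex a.1 a.2
    have h1 := hη.1
    rw [continuousOn_iff_continuous_domRestrict] at h1
    refine h1.congr fun r => ?_
    exact (Fl_mul_eq hη r.2).symm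
  have hc := isLocalHomeomorph_G.continuous_lift (T2Space.isSeparatedMap _) f hlift h0 hA
  have h1 : Continuous (fun a : A => (g (1, a) : ℂ)) :=
    continuous_subtype_val.comp (hc.comp (by fun_prop))
  refine h1.congr fun a => ?_
  simp [hg]

theorem contDiffAt_V {y : ℂ} (hy : y ≠ 0) : ContDiffAt ℝ 1 V y := by
  have h1 : ContDiffAt ℂ 1 V y := by
    unfold V
    exact ((contDiff_sin.contDiffAt).pow 2).div contDiffAt_id hy
  exact h1.restrict_scalars ℝ

/-- flow lemma: if `|V| ≤ r / (2T)` on a ball without zeros of `sin` -/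
theorem lift_of_V_bound {y1 : ℂ} {r T : ℝ} (hr : 0 < r)
    (hb : ∀ z, ‖z - y1‖ < r → sin z ≠ 0 ∧ ‖V z‖ * (2 * T) ≤ r) :
    ∀ t ∈ ball (0 : ℂ) T, ∃ η, IsLift y1 t η := by
  intro t ht
  rw [mem_ball_zero_iff] at ht
  have hcb : ∀ z ∈ closedBall y1 (r / 2), ‖z - y1‖ < r := by
    intro z hz
    rw [mem_closedBall, dist_eq_norm] at hz
    linarith
  obtain ⟨η, h0, hη⟩ := pl_exists (f := fun z => t * V z) (x0 := y1) (a := r / 2) (L := r / 2)
    (by positivity) le_rfl
    (fun z hz => by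
      have hz0 : z ≠ 0 := ne_zero_of_sin (hb z (hcb z hz)).1
      exact (contDiffAt_const.mul (contDiffAt_V hz0)).contDiffWithinAt)
    (fun z hz => by
      have h1 := (hb z (hcb z hz)).2
      rw [norm_mul]
      nlinarith [norm_nonneg (V z), norm_nonneg t, ht])
  have hs : ∀ x ∈ Icc (0 : ℝ) 1, sin (η x) ≠ 0 := fun x hx => (hb _ (hcb _ (hη x hx).1)).1
  refine ⟨η, fun x hx => (hη x hx).2.continuousWithinAt, h0, fun x hx => ⟨hs x hx, ?_⟩⟩
  -- `G (η x) exp (- x t)` is constant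
  have hconst : ∀ x ∈ Icc (0 : ℝ) 1, G (η x) * exp (-(x * t)) = G (η 0) * exp (-((0 : ℝ) * t)) := by
    refine constant_of_has_deriv_right_zero (f := fun x : ℝ => G (η x) * exp (-(x * t))) ?_ ?_
    · intro x hx
      refine ContinuousWithinAt.mul ?_ (by fun_prop)
      exact (continuousAt_G (hs x hx)).comp_continuousWithinAt (hη x hx).2.continuousWithinAt
    · intro x hx
      have hx' : x ∈ Icc (0 : ℝ) 1 := ⟨hx.1, hx.2.le⟩
      have h1 : HasDerivWithinAt η (t * V (η x)) (Ici x) x :=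
        ((hη x hx').2.mono (Icc_subset_Icc_left hx.1)).mono_of_mem_nhdsWithin
          (Icc_mem_nhdsGE hx.2)
      have h2 : HasDerivWithinAt (fun x => G (η x)) (G (η x) * (η x / sin (η x) ^ 2) *
          (t * V (η x))) (Ici x) x := (hasDerivAt_G (hs x hx')).comp_hasDerivWithinAt x h1
      have h3 : HasDerivWithinAt (fun x : ℝ => exp (-(x * t))) (exp (-(x * t)) * -(1 * t))
          (Ici x) x := by
        have : HasDerivAt (fun x : ℝ => -((x : ℂ) * t)) (-(1 * t)) x :=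
          ((ofRealCLM.hasDerivAt (x := x)).mul_const t).neg
        exact (this.cexp).hasDerivWithinAt
      have hs' := hs x hx'
      refine (h2.fun_mul h3).congr_deriv ?_
      have hy := ne_zero_of_sin hs'
      unfold V
      field_simp
      ring
  have h1 := hconst x hx
  rw [h0] at h1
  simp only [ofReal_zero, zero_mul, neg_zero, exp_zero, mul_one] at h1
  rw [← h1, mul_assoc, ← exp_add]
  simp

end Pool.Agent.MP_ae5b4e_an_WD
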