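import Pool.Agent.Lib.MP_ae5b4e_an_WD.AV1

/-!
# POR (iii), N2, bridge: asymptotic values of `G`: convergence to regular points
-/

namespace Pool.Agent.MP_ae5b4e_an_WD

open Complex Set Filter Topology Metric
open Pool.Agent.MP_ae5b4e_an_WB

/-- for every `T > 0` the points `a`, `b` near `w ≠ 0` satisfy `|log (a / b)| < T` -/
theorem log_div_near {w : ℂ} (h0 : w ≠ 0) {T : ℝ} (hT : 0 < T) :
    ∃ ε : ℝ, 0 < ε ∧ ∀ a ∈ ball w ε, ∀ b ∈ ball w ε,
      b ≠ 0 ∧ a / b ∈ slitPlane ∧ ‖log (a / b)‖ < T := by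
  have h1 : ContinuousAt (fun p : ℂ × ℂ => p.1 / p.2) (w, w) :=
    continuousAt_fst.div continuousAt_snd h0
  have h2 : ∀ᶠ z in 𝓝 (1 : ℂ), z ∈ slitPlane ∧ ‖log z‖ < T := by
    have h3 : ContinuousAt (fun z => ‖log z‖) 1 := (continuousAt_clog (by simp)).norm
    have h4 : ∀ᶠ z in 𝓝 (1 : ℂ), ‖log z‖ < T := by
      have h5 : (fun z : ℂ => ‖log z‖) 1 < T := by simpa using hT
      exact h3.eventually (Iio_mem_nhds h5)
    have h6 : ∀ᶠ z in 𝓝 (1 : ℂ), z ∈ slitPlane :=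
      isOpen_slitPlane.mem_nhds Complex.one_mem_slitPlane
    exact h6.and h4
  have h5 : ∀ᶠ p : ℂ × ℂ in 𝓝 (w, w), p.1 / p.2 ∈ slitPlane ∧ ‖log (p.1 / p.2)‖ < T := by
    have : (fun p : ℂ × ℂ => p.1 / p.2) (w, w) = 1 := div_self h0
    rw [← this] at h2
    exact h1.eventually h2
  have h6 : ∀ᶠ p : ℂ × ℂ in 𝓝 (w, w), p.2 ≠ 0 := continuousAt_snd.eventually_ne h0
  obtain ⟨ε, hε, hb⟩ := Metric.eventually_nhds_iff_ball.1 (h5.and h6)
  refine ⟨ε, hε, fun a ha b hb' => ?_⟩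
  have hm : (a, b) ∈ ball (w, w) ε := by
    rw [← ball_prod_same]
    exact ⟨ha, hb'⟩
  exact ⟨(hb _ hm).2, (hb _ hm).1⟩

/-- if the inverse branches at infinitely many points of the path exist in log discs of one radius,
the path converges to a regular point -/
theorem tendsto_of_branch {y : ℝ → ℂ} {s0 : ℝ} (hs0 : 0 < s0) {w : ℂ} {T : ℝ} (hT : 0 < T)
    (hc : ContinuousOn y (Ioc 0 s0)) (hs : ∀ s ∈ Ioc 0 s0, sin (y s) ≠ 0)
    (hw : Tendsto (fun s => G (y s)) (𝓝[>] 0) (𝓝 w)) (h0 : w ≠ 0)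
    (hB : ∃ᶠ s in 𝓝[>] (0 : ℝ), ∀ t ∈ ball (0 : ℂ) T, ∃ η, IsLift (y s) t η) :
    ∃ y1, sin y1 ≠ 0 ∧ G y1 = w ∧ Tendsto y (𝓝[>] 0) (𝓝 y1) := by
  obtain ⟨ε, hε, hlog⟩ := log_div_near h0 hT
  have h1 : ∀ᶠ s in 𝓝[>] (0 : ℝ), G (y s) ∈ ball w ε := hw.eventually (ball_mem_nhds w hε)
  have h2 : ∀ᶠ s in 𝓝[>] (0 : ℝ), s ∈ Ioc 0 s0 := Ioc_mem_nhdsGT hs0
  obtain ⟨s1, hs1, hb⟩ := (mem_nhdsGT_iff_exists_Ioc_subset).1 (h1.and h2)
  have hs1' : (0 : ℝ) < s1 := hs1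
  obtain ⟨s', ⟨hlift, hG'⟩, hs'⟩ :=
    ((hB.and_eventually (h1.and h2)).and_eventually (Ioc_mem_nhdsGT hs1')).exists
  have hsin : sin (y s') ≠ 0 := hs s' hG'.2
  obtain ⟨hΦc, hΦ0, hΦ⟩ := branch_of_lift hsin hlift
  set Φ := Fl (y s') with hΦdef
  have hmem : ∀ s ∈ Ioc 0 s', G (y s) ∈ ball w ε ∧ s ∈ Ioc 0 s0 := fun s hs'' =>
    hb ⟨hs''.1, hs''.2.trans hs'.2⟩
  have hq : ∀ s ∈ Ioc 0 s', G (y s) / G (y s') ∈ slitPlane ∧
      log (G (y s) / G (y s')) ∈ ball (0 : ℂ) T := by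
    intro s hs''
    have := hlog _ (hmem s hs'').1 _ hG'.1
    exact ⟨this.2.1, by rw [mem_ball_zero_iff]; exact this.2.2⟩
  have hGy' : G (y s') ≠ 0 := G_ne_zero hsin
  have heq : ∀ s ∈ Ioc 0 s', y s = Φ (log (G (y s) / G (y s'))) := by
    intro s hss
    have hsub : ∀ r ∈ Icc (0 : ℝ) (s' - s), s' - r ∈ Ioc 0 s' := fun r hr =>
      ⟨by linarith [hr.2, hss.1], by linarith [hr.1]⟩
    have hcy : ContinuousOn (fun r => y (s' - r)) (Icc 0 (s' - s)) :=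
      hc.comp (by fun_prop) fun r hr => (hmem _ (hsub r hr)).2
    have hcG : ContinuousOn (fun r => G (y (s' - r))) (Icc 0 (s' - s)) := by
      intro r hr
      exact (continuousAt_G (hs _ (hmem _ (hsub r hr)).2)).comp_continuousWithinAt
        (f := fun r => y (s' - r)) (hcy r hr)
    have hcl : ContinuousOn (fun r => Φ (log (G (y (s' - r)) / G (y s')))) (Icc 0 (s' - s)) := by
      refine hΦc.comp ?_ fun r hr => (hq _ (hsub r hr)).2
      exact (hcG.div_const _).clog fun r hr => (hq _ (hsub r hr)).1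
    have := eqOn_of_G_eq hcy hcl (fun r hr => hs _ (hmem _ (hsub r hr)).2) (fun r hr => ?_) ?_
    · have h3 := this ⟨by linarith [hss.2], le_rfl⟩
      simpa using h3
    · have h4 := hq _ (hsub r hr)
      rw [(hΦ _ h4.2).2, exp_log (slitPlane_ne_zero h4.1), mul_div_cancel₀ _ hGy']
    · simp only [sub_zero]
      rw [div_self hGy', log_one, hΦ0]
  have hwm := hlog w (mem_ball_self hε) _ hG'.1
  have hwb : log (w / G (y s')) ∈ ball (0 : ℂ) T := by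
    rw [mem_ball_zero_iff]; exact hwm.2.2
  refine ⟨Φ (log (w / G (y s'))), (hΦ _ hwb).1, ?_, ?_⟩
  · rw [(hΦ _ hwb).2, exp_log (slitPlane_ne_zero hwm.2.1), mul_div_cancel₀ _ hGy']
  · have h5 : Tendsto (fun s => log (G (y s) / G (y s'))) (𝓝[>] 0) (𝓝 (log (w / G (y s')))) :=
      (hw.div_const _).clog hwm.2.1
    have h6 : ContinuousAt Φ (log (w / G (y s'))) := hΦc.continuousAt (isOpen_ball.mem_nhds hwb)
    refine (h6.tendsto.comp h5).congr' ?_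
    filter_upwards [Ioc_mem_nhdsGT hs'.1] with s hss
    exact (heq s hss).symm

/-- (AV1): values `w ≠ 0` with `w ^ 2 ≠ tipc` are not asymptotic values -/
theorem av_regular {y : ℝ → ℂ} {s0 : ℝ} (hs0 : 0 < s0) {w : ℂ}
    (hc : ContinuousOn y (Ioc 0 s0)) (hs : ∀ s ∈ Ioc 0 s0, sin (y s) ≠ 0)
    (hw : Tendsto (fun s => G (y s)) (𝓝[>] 0) (𝓝 w)) (h0 : w ≠ 0) (h2 : w ^ 2 ≠ tipc) :
    ∃ y1, sin y1 ≠ 0 ∧ G y1 = w ∧ Tendsto y (𝓝[>] 0) (𝓝 y1) := by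
  have h3 : ∀ᶠ p : ℂ × ℂ in 𝓝 (w, 0), p.1 ^ 2 * exp (2 * p.2) ≠ tipc := by
    have hc' : ContinuousAt (fun p : ℂ × ℂ => p.1 ^ 2 * exp (2 * p.2)) (w, 0) := by fun_prop
    exact hc'.eventually_ne (by simpa using h2)
  obtain ⟨T, hT, hb⟩ := Metric.eventually_nhds_iff_ball.1 h3
  refine tendsto_of_branch hs0 hT hc hs hw h0 (Eventually.frequently ?_)
  filter_upwards [hw.eventually (ball_mem_nhds w hT), Ioc_mem_nhdsGT hs0] with s hsw hss t ht
  refine exists_isLift (hs s hss) fun r hr => ?_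
  have hrt : (r : ℂ) * t ∈ ball (0 : ℂ) T := by
    rw [mem_ball_zero_iff] at ht ⊢
    rw [norm_mul, norm_real, Real.norm_eq_abs, abs_of_nonneg hr.1]
    nlinarith [norm_nonneg t, hr.2, hr.1]
  exact hb (G (y s), r * t) (by rw [← ball_prod_same]; exact ⟨hsw, hrt⟩)

/-- near a regular point all branches exist in log discs of one radius -/
theorem lift_near {y1 : ℂ} (h : sin y1 ≠ 0) : ∃ T : ℝ, 0 < T ∧
    ∀ᶠ z in 𝓝 y1, ∀ t ∈ ball (0 : ℂ) T, ∃ η, IsLift z t η := by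
  have h1 : ∀ᶠ z in 𝓝 y1, sin z ≠ 0 ∧ ‖V z‖ < ‖V y1‖ + 1 := by
    have h2 : ∀ᶠ z in 𝓝 y1, sin z ≠ 0 := isOpen_sin_ne_zero.mem_nhds h
    refine h2.and ?_
    exact (continuousAt_V (ne_zero_of_sin h)).norm.eventually
      (Iio_mem_nhds (by linarith [norm_nonneg (V y1)]))
  obtain ⟨r, hr, hb⟩ := Metric.eventually_nhds_iff_ball.1 h1
  have hV : 0 < ‖V y1‖ + 1 := by positivity
  refine ⟨r / 2 / (2 * (‖V y1‖ + 1)), by positivity, ?_⟩
  filter_upwards [ball_mem_nhds y1 (half_pos hr)] with z hz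
  refine lift_of_V_bound (r := r / 2) (by positivity) fun z' hz' => ?_
  have hz'' : z' ∈ ball y1 r := by
    rw [mem_ball, dist_eq_norm] at hz ⊢
    calc ‖z' - y1‖ = ‖(z' - z) + (z - y1)‖ := by ring_nf
      _ ≤ ‖z' - z‖ + ‖z - y1‖ := norm_add_le _ _
      _ < r := by linarith
  have h2 := hb z' hz''
  refine ⟨h2.1, ?_⟩
  calc ‖V z'‖ * (2 * (r / 2 / (2 * (‖V y1‖ + 1))))
      ≤ (‖V y1‖ + 1) * (2 * (r / 2 / (2 * (‖V y1‖ + 1)))) := by
        gcongr; exact h2.2.le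
    _ = r / 2 := by field_simp

/-- near the zeros of `sin` and far away in horizontal strips all branches exist in log discs of
radius `1` -/
theorem lift_of_im_le (M : ℝ) : ∃ K : ℝ, 1 ≤ K ∧ ∀ (y1 : ℂ) (k : ℤ), sin y1 ≠ 0 → |y1.im| ≤ M →
    |y1.re - k * Real.pi| ≤ Real.pi / 2 → K * ‖y1 - k * Real.pi‖ ≤ ‖y1‖ →
    ∀ t ∈ ball (0 : ℂ) 1, ∃ η, IsLift y1 t η := by
  set R : ℝ := 3 / 2 * (|M| + 2) with hR
  have hRpos : 0 ≤ R := by positivity
  obtain ⟨C, hC⟩ := ((Complex.contDiff_sin (n := 1)).restrict_scalars ℝ).contDiffOn.exists_lipschitzOnWith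
    one_ne_zero (convex_closedBall (0 : ℂ) R) (isCompact_closedBall (0 : ℂ) R)
  have hsin : ∀ ν : ℂ, ‖ν‖ ≤ R → ‖sin ν‖ ≤ C * ‖ν‖ := by
    intro ν hν
    have := hC.norm_sub_le (x := ν) (y := 0) (by simpa using hν) (by simpa using hRpos)
    simpa using this
  refine ⟨1 + 18 * (C : ℝ) ^ 2, by nlinarith [sq_nonneg (C : ℝ)], fun y1 k hs hM hk hK => ?_⟩
  set d : ℝ := ‖y1 - k * Real.pi‖ with hd
  have hdpos : 0 < d := by
    rw [hd, norm_pos_iff, sub_ne_zero]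
    rintro h
    apply hs
    rw [h]
    exact_mod_cast Complex.sin_int_mul_pi k
  have hdle : d ≤ |M| + 2 := by
    have h1 := Complex.norm_le_abs_re_add_abs_im (y1 - k * Real.pi)
    have h2 : (y1 - (k : ℂ) * (Real.pi : ℂ)).re = y1.re - k * Real.pi := by simp
    have h3 : (y1 - (k : ℂ) * (Real.pi : ℂ)).im = y1.im := by simp
    rw [h2, h3] at h1
    have := Real.pi_lt_four
    linarith [le_abs_self M]
  have hmin : ∀ j : ℤ, d ≤ ‖y1 - j * Real.pi‖ := by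
    intro j
    rcases eq_or_ne j k with hjk | hjk
    · rw [hjk]
    · have h2 : ∀ i : ℤ, (y1 - (i : ℂ) * (Real.pi : ℂ)).re = y1.re - i * Real.pi := by
        intro i; simp
      have h3 : ∀ i : ℤ, (y1 - (i : ℂ) * (Real.pi : ℂ)).im = y1.im := by intro i; simp
      have h4 : |y1.re - k * Real.pi| ≤ |y1.re - j * Real.pi| := by
        have h5 : Real.pi ≤ |(j : ℝ) * Real.pi - k * Real.pi| := by
          rw [← sub_mul, abs_mul, abs_of_pos Real.pi_pos]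
          have : (1 : ℝ) ≤ |(j : ℝ) - k| := by
            have : (1 : ℤ) ≤ |j - k| := Int.one_le_abs (sub_ne_zero.2 hjk)
            exact_mod_cast this
          nlinarith [Real.pi_pos]
        have h6 : |(j : ℝ) * Real.pi - k * Real.pi| ≤
            |y1.re - k * Real.pi| + |y1.re - j * Real.pi| := by
          have := abs_sub_le ((j : ℝ) * Real.pi) y1.re (k * Real.pi)
          rw [abs_sub_comm _ y1.re] at this
          linarith
        linarith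
      rw [hd, ← sq_le_sq₀ (norm_nonneg _) (norm_nonneg _), Complex.sq_norm, Complex.sq_norm,
        normSq_apply, normSq_apply, h2, h2, h3, h3]
      nlinarith [sq_abs (y1.re - k * Real.pi), sq_abs (y1.re - j * Real.pi),
        abs_nonneg (y1.re - k * Real.pi)]
  have hKd : d ≤ ‖y1‖ ∧ 18 * (C : ℝ) ^ 2 * d ≤ ‖y1‖ := by
    constructor <;> nlinarith [sq_nonneg (C : ℝ), mul_nonneg (sq_nonneg (C : ℝ)) hdpos.le]
  have hy1 : 0 < ‖y1‖ := hdpos.trans_le hKd.1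
  refine lift_of_V_bound (r := d / 2) (by positivity) fun z hz => ?_
  have hz0 : sin z ≠ 0 := by
    intro h
    obtain ⟨j, hj⟩ := Complex.sin_eq_zero_iff.1 h
    have h1 := hmin j
    have h2 : ‖y1 - j * Real.pi‖ = ‖z - y1‖ := by
      rw [← hj, norm_sub_rev]
    linarith
  refine ⟨hz0, ?_⟩
  have hν : ‖z - k * Real.pi‖ ≤ 3 / 2 * d := by
    calc ‖z - k * Real.pi‖ = ‖(z - y1) + (y1 - k * Real.pi)‖ := by ring_nf
      _ ≤ ‖z - y1‖ + ‖y1 - k * Real.pi‖ := norm_add_le _ _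
      _ ≤ 3 / 2 * d := by linarith
  have hsz : ‖sin z‖ = ‖sin (z - k * Real.pi)‖ := by
    have := sin_add_int_mul_pi' (z - k * Real.pi) k
    rw [sub_add_cancel] at this
    rw [this, norm_mul, norm_zpow]
    simp
  have h1 : ‖sin z‖ ≤ C * (3 / 2 * d) := by
    rw [hsz]
    refine (hsin _ ?_).trans (by gcongr)
    rw [hR]
    exact hν.trans (by gcongr)
  have hz1 : ‖y1‖ / 2 ≤ ‖z‖ := by
    have := norm_sub_norm_le y1 z
    rw [norm_sub_rev] at this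
    linarith [hKd.1]
  have hV : ‖V z‖ ≤ (C * (3 / 2 * d)) ^ 2 / (‖y1‖ / 2) := by
    unfold V
    rw [norm_div, norm_pow]
    gcongr
  calc ‖V z‖ * (2 * 1) ≤ (C * (3 / 2 * d)) ^ 2 / (‖y1‖ / 2) * (2 * 1) := by gcongr
    _ = (18 * (C : ℝ) ^ 2 * d) * (d / 2) / ‖y1‖ := by field_simp; ring
    _ ≤ ‖y1‖ * (d / 2) / ‖y1‖ := by gcongr; exact hKd.2
    _ = d / 2 := by field_simp

end Pool.Agent.MP_ae5b4e_an_WD
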