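import Pool.Agent.Lib.MP_ae5b4e_an_WD.Defs
import Pool.Agent.Lib.MP_ae5b4e_an_LAT.NDImplicit

/-!
# POR (iii), N2, bridge: basic facts about the D-side
-/

namespace Pool.Agent.MP_ae5b4e_an_WD

open Complex Set Filter Topology Metric
open Pool.Agent.MP_ae5b4e_an_WB
open Pool.Agent.MP_ae5b4e_an_M (S1 C1f Gf)

private theorem DA_hasDerivAt {q : ℂ → ℂ} {U : Set (ℂ × ℂ)} {L : ℂ × ℂ → ℂ} (h : DS q U L)
    {p : ℂ × ℂ} (hp : p ∈ U) :
    HasDerivAt (fun τ => L (τ, p.2)) (fderiv ℂ L p (1, 0)) p.1 := by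
  have h1 : HasFDerivAt L (fderiv ℂ L p) (p.1, p.2) := (h.an p hp).differentiableAt.hasFDerivAt
  have h2 : HasDerivAt (fun τ : ℂ => ((τ, p.2) : ℂ × ℂ)) ((1 : ℂ), (0 : ℂ)) p.1 :=
    (hasDerivAt_id p.1).prodMk (hasDerivAt_const p.1 p.2)
  exact h1.comp_hasDerivAt p.1 h2

theorem DS.an_dt {q : ℂ → ℂ} {U : Set (ℂ × ℂ)} {L : ℂ × ℂ → ℂ} (h : DS q U L) :
    AnalyticOnNhd ℂ (dt L) U := by
  have h1 : AnalyticOnNhd ℂ (fun p => fderiv ℂ L p (1, 0)) U := by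
    intro p hp
    exact ((ContinuousLinearMap.apply ℂ ℂ ((1 : ℂ), (0 : ℂ))).analyticAt _).comp
      ((h.an p hp).fderiv)
  intro p hp
  refine (h1 p hp).congr ?_
  filter_upwards [h.isOpen.mem_nhds hp] with x hx
  exact (DA_hasDerivAt h hx).deriv.symm

theorem DS.dt_ne_zero {q : ℂ → ℂ} {U : Set (ℂ × ℂ)} {L : ℂ × ℂ → ℂ} (h : DS q U L) {p : ℂ × ℂ}
    (hp : p ∈ U) : dt L p ≠ 0 := by
  intro h0
  have h1 := h.gf p hp
  rw [h0, mul_zero] at h1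
  unfold Gf at h1
  rw [zero_mul, zero_mul] at h1
  exact h.ne p hp h1.symm

/-- `y = r γ ∂_τ L`, `r² = q (L)`: `sin y ≠ 0` (`y ≠ 0` and `S1 (y²) ≠ 0`), `G y = r γ`
(`Gf = α (sin y/y) exp (1 - y cot y)`, `y = r α`; `S1_sq`, `C1f_sq`) -/
theorem DS.G_eq {q : ℂ → ℂ} {U : Set (ℂ × ℂ)} {L : ℂ × ℂ → ℂ} (h : DS q U L) {p : ℂ × ℂ}
    (hp : p ∈ U) {r : ℂ} (hr : r ^ 2 = q (L p)) (hr0 : r ≠ 0) :
    sin (r * (p.2 * dt L p)) ≠ 0 ∧ G (r * (p.2 * dt L p)) = r * p.2 := by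
  have hα : p.2 * dt L p ≠ 0 := mul_ne_zero (h.ne p hp) (h.dt_ne_zero hp)
  set α := p.2 * dt L p with hαdef
  have hy : r * α ≠ 0 := mul_ne_zero hr0 hα
  have hy2 : (r * α) ^ 2 = q (L p) * α ^ 2 := by rw [mul_pow, hr]
  have hs : S1 ((r * α) ^ 2) ≠ 0 := by
    rw [hy2]
    exact h.s1 p hp
  have h1 := Pool.Agent.MP_ae5b4e_an_M.S1_sq (r * α)
  have h2 := Pool.Agent.MP_ae5b4e_an_M.C1f_sq (r * α)
  have hsin : sin (r * α) ≠ 0 := by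
    rw [← h1]
    exact mul_ne_zero hy hs
  refine ⟨hsin, ?_⟩
  have h3 := h.gf p hp
  unfold Gf at h3
  rw [← hαdef, ← hy2] at h3
  have h4 : r * α * (cos (r * α) / sin (r * α)) = C1f ((r * α) ^ 2) / S1 ((r * α) ^ 2) := by
    rw [← h1, h2]
    field_simp
  unfold G
  rw [h4, ← h1]
  calc r * α * S1 ((r * α) ^ 2) * cexp (1 - C1f ((r * α) ^ 2) / S1 ((r * α) ^ 2)) =
      r * (α * S1 ((r * α) ^ 2) * cexp (1 - C1f ((r * α) ^ 2) / S1 ((r * α) ^ 2))) := by ring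
    _ = r * p.2 := by rw [h3]

/-- if `Y² = y2` and `q (L) ≠ 0` then `sin Y ≠ 0`, `G Y² = γ² q (L)` and `γ ∂_τ L = Y / r` with
`r = G Y / γ`, i.e. `∂_τ L = Y / G Y` -/
theorem DS.G_of_sq {q : ℂ → ℂ} {U : Set (ℂ × ℂ)} {L : ℂ × ℂ → ℂ} (h : DS q U L) {p : ℂ × ℂ}
    (hp : p ∈ U) (hq : q (L p) ≠ 0) {Y : ℂ} (hY : Y ^ 2 = y2 q L p) :
    sin Y ≠ 0 ∧ G Y ^ 2 = p.2 ^ 2 * q (L p) ∧ dt L p = Y / G Y := by
  have hα : p.2 * dt L p ≠ 0 := mul_ne_zero (h.ne p hp) (h.dt_ne_zero hp)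
  have hp2 := h.ne p hp
  have hd := h.dt_ne_zero hp
  set r := Y / (p.2 * dt L p) with hr
  have hrα : r * (p.2 * dt L p) = Y := div_mul_cancel₀ Y hα
  have hr2 : r ^ 2 = q (L p) := by
    rw [hr, div_pow, hY, y2]
    field_simp
  have hr0 : r ≠ 0 := by
    intro h0
    rw [h0] at hr2
    exact hq (by rw [← hr2]; ring)
  obtain ⟨h1, h2⟩ := h.G_eq hp hr2 hr0
  rw [hrα] at h1 h2
  refine ⟨h1, ?_, ?_⟩
  · rw [h2, mul_pow, hr2]
    ring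
  · rw [h2, ← hrα]
    field_simp

private theorem DA_implicit {q : ℂ → ℂ} {U : Set (ℂ × ℂ)} {L : ℂ × ℂ → ℂ} (h : DS q U L)
    {gs u τ : ℂ} (hp : (τ, gs) ∈ U) : ∃ b : ℂ → ℂ, AnalyticAt ℂ b 0 ∧ b 0 = τ ∧
      ∀ᶠ p in 𝓝 ((0 : ℂ), τ), L (p.2, gs * exp (u * p.1)) = L (τ, gs) ↔ b p.1 = p.2 := by
  have hd : HasDerivAt (fun t => L (t, gs)) (dt L (τ, gs)) τ := by
    have := DA_hasDerivAt h hp
    have h1 : dt L (τ, gs) = fderiv ℂ L (τ, gs) (1, 0) := this.deriv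
    rw [h1]
    exact this
  have hF : AnalyticAt ℂ (fun p : ℂ × ℂ => L (p.2, gs * exp (u * p.1)) - L (τ, gs)) (0, τ) := by
    refine AnalyticAt.sub ?_ analyticAt_const
    have h4 : AnalyticAt ℂ (fun p : ℂ × ℂ => ((p.2, gs * exp (u * p.1)) : ℂ × ℂ)) (0, τ) := by
      refine analyticAt_snd.prod ?_
      exact analyticAt_const.mul (analyticAt_cexp.comp (analyticAt_const.mul analyticAt_fst))
    have h5 : AnalyticAt ℂ L ((fun p : ℂ × ℂ => ((p.2, gs * exp (u * p.1)) : ℂ × ℂ)) (0, τ)) := by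
      simp only [mul_zero, exp_zero, mul_one]
      exact h.an _ hp
    exact AnalyticAt.fun_comp (g := L)
      (f := fun p : ℂ × ℂ => ((p.2, gs * exp (u * p.1)) : ℂ × ℂ)) h5 h4
  have hF0 : (fun p : ℂ × ℂ => L (p.2, gs * exp (u * p.1)) - L (τ, gs)) (0, τ) = 0 := by
    simp only [mul_zero, exp_zero, mul_one, sub_self]
  have hFd : HasDerivAt (fun t => (fun p : ℂ × ℂ => L (p.2, gs * exp (u * p.1)) - L (τ, gs))
      ((0 : ℂ), t)) (dt L (τ, gs)) τ := by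
    simp only [mul_zero, exp_zero, mul_one]
    exact hd.sub_const _
  obtain ⟨b, h1, h2, h3⟩ := Pool.Agent.MP_ae5b4e_an_ND.implicit_analytic hF hF0
    (h.dt_ne_zero hp) hFd
  refine ⟨b, h1, h2, ?_⟩
  filter_upwards [h3] with p hp'
  rw [← hp', sub_eq_zero]

/-- implicit function theorem (`∂_τ L ≠ 0`) -/
theorem DS.exists_invGerm {q : ℂ → ℂ} {U : Set (ℂ × ℂ)} {L : ℂ × ℂ → ℂ} (h : DS q U L)
    {gs u τ : ℂ} (hp : (τ, gs) ∈ U) : ∃ f : ℂ → ℂ, InvGerm U L gs u τ f := by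
  obtain ⟨f, h1, h2, h3⟩ := DA_implicit h (u := u) hp
  have hz : Tendsto (fun z : ℂ => ((z, f z) : ℂ × ℂ)) (𝓝 0) (𝓝 (0, τ)) := by
    have := (continuousAt_id (x := (0 : ℂ))).prodMk h1.continuousAt
    unfold ContinuousAt at this
    simp only [id, h2] at this
    exact this
  have hz2 : Tendsto (fun z : ℂ => ((f z, gs * exp (u * z)) : ℂ × ℂ)) (𝓝 0) (𝓝 (τ, gs)) := by
    have h4 : ContinuousAt (fun z : ℂ => gs * exp (u * z)) 0 := by fun_prop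
    have := h1.continuousAt.prodMk h4
    unfold ContinuousAt at this
    simp only [h2, mul_zero, exp_zero, mul_one] at this
    exact this
  refine ⟨f, h1, h2, ?_⟩
  filter_upwards [hz.eventually h3, hz2.eventually (h.isOpen.mem_nhds hp)] with z h4 h5
  exact ⟨h5, h4.2 rfl⟩

theorem DS.invGerm_unique {q : ℂ → ℂ} {U : Set (ℂ × ℂ)} {L : ℂ × ℂ → ℂ} (h : DS q U L)
    {gs u τ : ℂ} (hp : (τ, gs) ∈ U) {f g : ℂ → ℂ} (hf : InvGerm U L gs u τ f)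
    (hg : InvGerm U L gs u τ g) : ∀ᶠ z in 𝓝 (0 : ℂ), f z = g z := by
  obtain ⟨b, h1, h2, h3⟩ := DA_implicit h (u := u) hp
  have key : ∀ f : ℂ → ℂ, InvGerm U L gs u τ f → ∀ᶠ z in 𝓝 (0 : ℂ), b z = f z := by
    intro f hf
    have hz : Tendsto (fun z : ℂ => ((z, f z) : ℂ × ℂ)) (𝓝 0) (𝓝 (0, τ)) := by
      have := (continuousAt_id (x := (0 : ℂ))).prodMk hf.1.continuousAt
      unfold ContinuousAt at this
      simp only [id, hf.2.1] at this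
      exact this
    filter_upwards [hz.eventually h3, hf.2.2] with z h4 h5
    exact h4.1 h5.2
  filter_upwards [key f hf, key g hg] with z h4 h5
  rw [← h4, h5]

/-- the flow is odd: `Fl (-y) t = - Fl y t` -/
theorem Fl_neg (y0 t : ℂ) : Fl (-y0) t = -Fl y0 t := by
  have key : ∀ (y0 : ℂ) (η : ℝ → ℂ), IsLift y0 t η → IsLift (-y0) t (fun r => -η r) := by
    rintro y0 η ⟨h1, h2, h3⟩
    refine ⟨h1.neg, by simp only [h2], fun r hr => ⟨?_, ?_⟩⟩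
    · rw [sin_neg]
      exact neg_ne_zero.2 (h3 r hr).1
    · rw [G_neg, G_neg, (h3 r hr).2]
      ring
  by_cases h : ∃ η, IsLift y0 t η
  · obtain ⟨η, hη⟩ := h
    rw [Fl_eq hη, Fl_eq (key y0 η hη)]
  · have h' : ¬ ∃ η, IsLift (-y0) t η := by
      rintro ⟨η, hη⟩
      have := key (-y0) η hη
      rw [neg_neg] at this
      exact h ⟨_, this⟩
    unfold Fl
    rw [dif_neg h, dif_neg h', neg_zero]

/-- hence `tipE` only depends on `Ya` up to sign -/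
theorem tipE_neg (u W a Ya : ℂ) (g : ℂ → ℂ) (z : ℂ) :
    tipE u (-W) a (-Ya) g z = tipE u W a Ya g z := by
  unfold tipE
  congr 1
  refine intervalIntegral.integral_congr fun θ _ => ?_
  rw [Fl_neg, neg_mul, neg_div_neg_eq]

end Pool.Agent.MP_ae5b4e_an_WD
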