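import Pool.Agent.Lib.MP_ae5b4e_an_WB.Chain
import Pool.Agent.Lib.MP_ae5b4e_an_WB.TipEnd
import Pool.Agent.Lib.MP_ae5b4e_an_WB.ZEnd
import Pool.Agent.Lib.MP_ae5b4e_an_M.FnA

/-!
# POR (iii), N2: bridge between the D-side (limit label `L` on an open set `U` of pairs `(τ, γ)`) and
Lemma B (`WB`)
-/

namespace Pool.Agent.MP_ae5b4e_an_WD

open Complex Set Filter Topology Metric
open Pool.Agent.MP_ae5b4e_an_WB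
open Pool.Agent.MP_ae5b4e_an_M (S1 C1f Gf)

/-- `∂_τ L` -/
noncomputable def dt (L : ℂ × ℂ → ℂ) (p : ℂ × ℂ) : ℂ := deriv (fun τ => L (τ, p.2)) p.1

/-- the D-side: `L` holomorphic on the open set `U`, with values in `Hm`, first integral
`Gf q L (γ ∂_τ L) = γ` (M8) -/
structure DS (q : ℂ → ℂ) (U : Set (ℂ × ℂ)) (L : ℂ × ℂ → ℂ) : Prop where
  isOpen : IsOpen U
  ne : ∀ p ∈ U, p.2 ≠ 0
  qd : DifferentiableOn ℂ q Hm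
  an : AnalyticOnNhd ℂ L U
  low : ∀ p ∈ U, (L p).im < 0
  s1 : ∀ p ∈ U, S1 (q (L p) * (p.2 * dt L p) ^ 2) ≠ 0
  gf : ∀ p ∈ U, Gf q (L p) (p.2 * dt L p) = p.2

/-- `y²` -/
noncomputable def y2 (q : ℂ → ℂ) (L : ℂ × ℂ → ℂ) (p : ℂ × ℂ) : ℂ := q (L p) * (p.2 * dt L p) ^ 2

/-- `f` is the germ at `z = 0` of the point with the fixed label `L (τ, gs)` at `γ = gs e^(uz)` -/
def InvGerm (U : Set (ℂ × ℂ)) (L : ℂ × ℂ → ℂ) (gs u τ : ℂ) (f : ℂ → ℂ) : Prop :=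
  AnalyticAt ℂ f 0 ∧ f 0 = τ ∧
    ∀ᶠ z in 𝓝 (0 : ℂ), (f z, gs * exp (u * z)) ∈ U ∧ L (f z, gs * exp (u * z)) = L (τ, gs)

/-- local chart at `P`: `q (lam ω) = q P e^(2uω)` on a small ball -/
def LocChart (u : ℂ) (q : ℂ → ℂ) (P : ℂ) (lam : ℂ → ℂ) (r : ℝ) : Prop :=
  0 < r ∧ r ≤ 1 ∧ r * ‖u‖ ^ 2 ≤ u.re ∧ DifferentiableOn ℂ lam (ball 0 r) ∧ lam 0 = P ∧
    (∀ ω ∈ ball (0 : ℂ) r, (lam ω).im < 0 ∧ q (lam ω) = q P * exp (2 * (u * ω))) ∧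
    InjOn lam (ball 0 r)

/-- `ζb` is a tip on the line (vertical limit from below), with label `lb` -/
structure TipAt (q : ℂ → ℂ) (U : Set (ℂ × ℂ)) (L : ℂ × ℂ → ℂ) (gs ζb lb : ℂ) : Prop where
  seg : ∃ s0 : ℝ, 0 < s0 ∧ ∀ s ∈ Ioc (0 : ℝ) s0, (ζb - I * s, gs) ∈ U ∧
    gs ^ 2 * q (L (ζb - I * s, gs)) ≠ tipc
  lim : Tendsto (fun s : ℝ => L (ζb - I * s, gs)) (𝓝[>] 0) (𝓝 lb)
  low : lb.im < 0
  tip : gs ^ 2 * q lb = tipc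
  reg : deriv q lb ≠ 0

/-- `Tb` is (near `z = 0`) the height of the tip `lam (-z)`, seen from the point `τ` of the D-side
with label `lam a`, radially -/
def TipGerm (q : ℂ → ℂ) (U : Set (ℂ × ℂ)) (L : ℂ × ℂ → ℂ) (gs u : ℂ) (lam : ℂ → ℂ)
    (τ a : ℂ) (Tb : ℂ → ℂ) : Prop :=
  lam a = L (τ, gs) ∧ a ≠ 0 ∧ ∀ (Y : ℂ) (f : ℂ → ℂ), Y ^ 2 = y2 q L (τ, gs) →
    InvGerm U L gs u τ f →
    ∀ᶠ z in 𝓝 (0 : ℂ), Tb z = f z - tipE u (G Y * exp (-(u * a))) a Y (deriv lam) z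

/-- an end of the path: `Te` is analytic, `Te 0 = ζ`, and from D-side points `τ` arbitrarily close to
`ζ` (below it) the difference to the point of fixed label is a good germ -/
def EndGood (q : ℂ → ℂ) (U : Set (ℂ × ℂ)) (L : ℂ × ℂ → ℂ) (gs u ζ : ℂ) (Te : ℂ → ℂ) : Prop :=
  AnalyticAt ℂ Te 0 ∧ Te 0 = ζ ∧ ∀ ε : ℝ, 0 < ε → ∃ s ∈ Ioo (0 : ℝ) ε, ∃ τ : ℂ,
    ‖τ - (ζ - I * s)‖ < s / 2 ∧ (τ, gs) ∈ U ∧ q (L (τ, gs)) ≠ 0 ∧ Off u gs q (L (τ, gs)) ∧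
    ∀ f : ℂ → ℂ, InvGerm U L gs u τ f → ∃ E : ℂ → ℂ, AnalyticAt ℂ E 0 ∧
      GermGood u (fun t => E t) ∧ ∀ᶠ z in 𝓝 (0 : ℂ), Te z = f z - E z

end Pool.Agent.MP_ae5b4e_an_WD
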