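import Pool.Agent.Lib.MP_ae5b4e_an_WD.TipF

/-!
# POR (iii), N2, bridge: tipE is a good germ for all small a
-/

namespace Pool.Agent.MP_ae5b4e_an_WD

open Complex Set Filter Topology Metric MeasureTheory
open scoped ComplexConjugate
open Pool.Agent.MP_ae5b4e_an_WB
open Pool.Agent.MP_ae5b4e_an_M (S1 C1f Gf)

/-- integrals along segments that start at the boundary point `0` of a disc -/
private lemma EndTip1_tri {c : ℂ} {R M : ℝ} {f : ℂ → ℂ} (hR : 0 < R) (hc : ‖c‖ = R)
    (hf : DifferentiableOn ℂ f (ball c R)) (hM : ∀ z ∈ ball c R, ‖f z‖ ≤ M) :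
    ∃ Φ : ℂ → ℂ, (∀ z ∈ ball c R, HasDerivAt Φ (f z) z) ∧
      ∀ z1 ∈ ball c R, ∀ z2 ∈ ball c R, z1 * (∫ θ in (0 : ℝ)..1, f (θ * z1)) -
        z2 * (∫ θ in (0 : ℝ)..1, f (θ * z2)) = Φ z1 - Φ z2 := by
  obtain ⟨Φ, hΦ⟩ := hf.isExactOn_ball
  have hΦ' : ∀ z ∈ ball c R, HasDerivAt Φ (f z) z := fun z hz => hΦ z hz
  refine ⟨Φ, hΦ', ?_⟩
  have hseg : ∀ z ∈ ball c R, ∀ θ ∈ Ioc (0 : ℝ) 1, (θ : ℂ) * z ∈ ball c R := by
    intro z hz θ hθ
    rw [mem_ball_iff_norm] at hz ⊢
    have h1 : (θ : ℂ) * z - c = ((θ : ℝ) : ℂ) * (z - c) - ((1 - θ : ℝ) : ℂ) * c := by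
      push_cast
      ring
    rw [h1]
    refine (norm_sub_le _ _).trans_lt ?_
    rw [norm_mul, norm_mul, Complex.norm_real, Complex.norm_real, Real.norm_of_nonneg hθ.1.le,
      Real.norm_of_nonneg (by linarith [hθ.2]), hc]
    have h2 := mul_lt_mul_of_pos_left hz hθ.1
    nlinarith
  have hcont : ∀ z ∈ ball c R, ContinuousOn (fun θ : ℝ => f (θ * z)) (Ioc 0 1) := by
    intro z hz θ hθ
    have h1 : ContinuousAt f ((θ : ℂ) * z) :=
      (hf.differentiableAt (isOpen_ball.mem_nhds (hseg z hz θ hθ))).continuousAt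
    exact (ContinuousAt.comp (g := f) (f := fun θ : ℝ => (θ : ℂ) * z) h1
      (by fun_prop)).continuousWithinAt
  have hint : ∀ z ∈ ball c R, IntervalIntegrable (fun θ : ℝ => f (θ * z)) volume 0 1 := by
    intro z hz
    rw [intervalIntegrable_iff_integrableOn_Ioc_of_le zero_le_one]
    refine IntegrableOn.of_bound measure_Ioc_lt_top
      ((hcont z hz).aestronglyMeasurable measurableSet_Ioc) M ?_
    exact (ae_restrict_mem measurableSet_Ioc).mono fun θ hθ => hM _ (hseg z hz θ hθ)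
  have hftc : ∀ z ∈ ball c R, ∀ s ∈ Ioc (0 : ℝ) 1,
      z * (∫ θ in s..1, f (θ * z)) = Φ z - Φ (s * z) := by
    intro z hz s hs
    have h1 : ∀ θ ∈ uIcc s 1, HasDerivAt (fun θ : ℝ => Φ (θ * z)) (f (θ * z) * z) θ := by
      intro θ hθ
      rw [uIcc_of_le hs.2] at hθ
      have h2 := hΦ' _ (hseg z hz θ ⟨hs.1.trans_le hθ.1, hθ.2⟩)
      have h3 : HasDerivAt (fun θ : ℝ => (θ : ℂ) * z) z θ := by
        have := (Complex.ofRealCLM.hasDerivAt (x := θ)).mul_const z
        simpa using this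
      exact HasDerivAt.comp θ (h₂ := Φ) h2 h3
    have h4 : IntervalIntegrable (fun θ : ℝ => f (θ * z) * z) volume s 1 := by
      refine ContinuousOn.intervalIntegrable ?_
      rw [uIcc_of_le hs.2]
      exact ((hcont z hz).mono fun θ hθ => ⟨hs.1.trans_le hθ.1, hθ.2⟩).mul continuousOn_const
    have h5 := intervalIntegral.integral_eq_sub_of_hasDerivAt h1 h4
    rw [intervalIntegral.integral_mul_const] at h5
    rw [mul_comm, h5]
    simp
  intro z1 hz1 z2 hz2
  have hlim : ∀ z ∈ ball c R, Tendsto (fun s : ℝ => z * (∫ θ in s..1, f (θ * z))) (𝓝[>] 0)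
      (𝓝 (z * (∫ θ in (0 : ℝ)..1, f (θ * z)))) := by
    intro z hz
    have h1 : IntegrableOn (fun θ : ℝ => f (θ * z)) (uIcc 0 1) := by
      rw [uIcc_of_le zero_le_one, integrableOn_Icc_iff_integrableOn_Ioc]
      exact (intervalIntegrable_iff_integrableOn_Ioc_of_le zero_le_one).1 (hint z hz)
    have h2 := intervalIntegral.continuousOn_primitive_interval_left h1 0 left_mem_uIcc
    have h3 : Tendsto (fun s : ℝ => ∫ θ in s..1, f (θ * z)) (𝓝[>] 0)
        (𝓝 (∫ θ in (0 : ℝ)..1, f (θ * z))) := by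
      refine Tendsto.mono_left h2 ?_
      rw [uIcc_of_le zero_le_one]
      refine nhdsWithin_le_of_mem ?_
      exact Icc_mem_nhdsGT zero_lt_one
    exact h3.const_mul z
  have h1 := ((hlim z1 hz1).sub (hlim z2 hz2)).sub_const (Φ z1 - Φ z2)
  have h2 : Tendsto (fun s : ℝ => z1 * (∫ θ in s..1, f (θ * z1)) -
      z2 * (∫ θ in s..1, f (θ * z2)) - (Φ z1 - Φ z2)) (𝓝[>] 0) (𝓝 0) := by
    have hM0 : 0 ≤ M := (norm_nonneg _).trans (hM c (mem_ball_self hR))
    have h3 : Tendsto (fun s : ℝ => M * (s * ‖z2 - z1‖)) (𝓝[>] 0) (𝓝 0) := by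
      have : Tendsto (fun s : ℝ => M * (s * ‖z2 - z1‖)) (𝓝 0) (𝓝 (M * (0 * ‖z2 - z1‖))) := by
        have h : Continuous fun s : ℝ => M * (s * ‖z2 - z1‖) := by fun_prop
        exact h.tendsto 0
      rw [zero_mul, mul_zero] at this
      exact this.mono_left nhdsWithin_le_nhds
    refine squeeze_zero_norm' ?_ h3
    filter_upwards [Ioc_mem_nhdsGT zero_lt_one] with s hs
    rw [hftc z1 hz1 s hs, hftc z2 hz2 s hs]
    have h4 : Φ z1 - Φ (s * z1) - (Φ z2 - Φ (s * z2)) - (Φ z1 - Φ z2) =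
        Φ (s * z2) - Φ (s * z1) := by ring
    rw [h4]
    refine ((convex_ball c R).norm_image_sub_le_of_norm_hasDerivWithin_le
      (fun z hz => (hΦ' z hz).hasDerivWithinAt) hM (hseg z1 hz1 s hs)
      (hseg z2 hz2 s hs)).trans (le_of_eq ?_)
    rw [← mul_sub, norm_mul, Complex.norm_real, Real.norm_of_nonneg hs.1.le]
  have h3 := tendsto_nhds_unique h1 h2
  exact sub_eq_zero.1 h3

private lemma EndTip1_tipc_ne : tipc ≠ 0 := by
  unfold tipc
  rw [neg_ne_zero, Complex.ofReal_ne_zero]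
  positivity

/-- comparison of two heights of the same size -/
private lemma EndTip1_cmp {u W a b Ya : ℂ} {g : ℂ → ℂ} {r : ℝ} (hu : 0 < u.re)
    (hW : W ^ 2 = tipc) (hYa : sin Ya ≠ 0) (hG : G Ya = W * exp (u * a)) (ha : a ≠ 0)
    (hb : ‖b‖ = ‖a‖) (hab : 0 ≤ (a * conj b).re)
    (hseg : ∀ θ ∈ Icc (0 : ℝ) 1, ∀ t : ℝ, 0 ≤ t → b + θ * (a - b) + t ≠ 0)
    (har : 8 * ‖a‖ < r) (hr : r * ‖u‖ ^ 2 ≤ u.re) (hg : DifferentiableOn ℂ g (ball 0 r)) :
    sin (Fl Ya (u * (b - a))) ≠ 0 ∧ G (Fl Ya (u * (b - a))) = W * exp (u * b) ∧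
      (GermGood u (fun t => tipE u W b (Fl Ya (u * (b - a))) g t) →
        GermGood u (fun t => tipE u W a Ya g t)) := by
  have ha0 : 0 < ‖a‖ := norm_pos_iff.2 ha
  set c : ℂ := a + b with hc
  set R : ℝ := ‖c‖ with hRdef
  have hR2 : 2 * ‖a‖ ^ 2 ≤ R ^ 2 := by
    have h1 : R ^ 2 = ‖a‖ ^ 2 + ‖b‖ ^ 2 + 2 * (a * conj b).re := by
      rw [hRdef, hc, ← Complex.normSq_eq_norm_sq, ← Complex.normSq_eq_norm_sq,
        ← Complex.normSq_eq_norm_sq, Complex.normSq_add]
    rw [h1, hb]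
    linarith
  have hR0 : 0 < R := by
    have : 0 < R ^ 2 := by nlinarith
    refine lt_of_le_of_ne (norm_nonneg c) fun h => ?_
    rw [← h] at this
    simp at this
  have hRa : ‖a‖ < R := by nlinarith
  have hRle : R ≤ 2 * ‖a‖ := by
    rw [hRdef, hc]
    refine (norm_add_le _ _).trans ?_
    rw [hb]
    linarith
  have haB : a ∈ ball c R := by
    rw [mem_ball_iff_norm, hc]
    have : a - (a + b) = -b := by ring
    rw [this, norm_neg, hb]
    exact hRa
  have hbB : b ∈ ball c R := by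
    rw [mem_ball_iff_norm, hc]
    have : b - (a + b) = -a := by ring
    rw [this, norm_neg]
    exact hRa
  have hB4 : ∀ ω ∈ ball c R, ‖ω‖ < 4 * ‖a‖ := by
    intro ω hω
    rw [mem_ball_iff_norm] at hω
    have h1 : ω = (ω - c) + c := by ring
    rw [h1]
    refine (norm_add_le _ _).trans_lt ?_
    change ‖ω - c‖ + R < _
    linarith
  have hB0 : ∀ ω ∈ ball c R, ω ≠ 0 := by
    rintro ω hω rfl
    rw [mem_ball_iff_norm, zero_sub, norm_neg] at hω
    exact lt_irrefl _ hω
  -- no tip on the ball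
  have hne : ∀ ω : ℂ, |ω.im| < r → ω ≠ 0 → tipc * exp (2 * (u * ω)) ≠ tipc := by
    intro ω h1 h2 h3
    have h4 : exp (2 * (u * ω)) = 1 := by
      have : tipc * exp (2 * (u * ω)) = tipc * 1 := by rw [h3, mul_one]
      exact mul_left_cancel₀ EndTip1_tipc_ne this
    exact h2 (exp_eq_one_strip hu (by linarith) h1 h4)
  have hneB : ∀ ω ∈ ball c R, tipc * exp (2 * (u * ω)) ≠ tipc := by
    intro ω hω
    refine hne ω (lt_of_le_of_lt (abs_im_le_norm ω) ?_) (hB0 ω hω)
    have := hB4 ω hω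
    linarith
  have hsegB : ∀ x ∈ ball c R, ∀ y ∈ ball c R, ∀ s ∈ Icc (0 : ℝ) 1,
      x + s * (y - x) ∈ ball c R := by
    intro x hx y hy s hs
    have h1 := (convex_ball c R).add_smul_sub_mem hx hy hs
    rwa [Complex.real_smul] at h1
  have hGsq : ∀ y x t : ℂ, G y = W * exp (u * x) →
      G y ^ 2 * exp (2 * t) = tipc * exp (2 * (u * x + t)) := by
    intro y x t hy
    rw [hy, mul_pow, hW, ← Complex.exp_nat_mul, mul_assoc, ← Complex.exp_add]
    congr 2
    push_cast
    ring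
  have hfwd : ∀ w x : ℂ, x ∈ ball c R → G w = W * exp (u * x) → ∀ y ∈ ball c R,
      Fwd w (u * (y - x)) := by
    intro w x hx hw y hy s hs
    rw [hGsq w x _ hw]
    have h1 : u * x + s * (u * (y - x)) = u * (x + s * (y - x)) := by ring
    rw [h1]
    exact hneB _ (hsegB x hx y hy s hs)
  have hFa : ∀ y ∈ ball c R, Fwd Ya (u * (y - a)) := hfwd Ya a haB hG
  set Yb : ℂ := Fl Ya (u * (b - a)) with hYb
  have hGF : ∀ y ∈ ball c R, G (Fl Ya (u * (y - a))) = W * exp (u * y) := by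
    intro y hy
    rw [G_Fl hYa (hFa y hy), hG, mul_assoc, ← Complex.exp_add]
    congr 2
    ring
  have hsF : ∀ y ∈ ball c R, sin (Fl Ya (u * (y - a))) ≠ 0 := fun y hy =>
    sin_Fl_ne_zero hYa (hFa y hy)
  have hcomp : ∀ x ∈ ball c R, ∀ y ∈ ball c R,
      Fl (Fl Ya (u * (x - a))) (u * (y - x)) = Fl Ya (u * (y - a)) := by
    intro x hx y hy
    rw [Fl_add hYa (hFa x hx) (hfwd _ x hx (hGF x hx) y hy) (fun s hs => ?_)]
    · congr 1
      ring
    · have h1 : u * (x - a) + s * (u * (y - x)) = u * (x + s * (y - x) - a) := by ring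
      rw [h1]
      exact hFa _ (hsegB x hx y hy s hs)
  refine ⟨hsF b hbB, hGF b hbB, fun hgood => ?_⟩
  -- the path of heights
  set cc : ℝ → ℂ := fun θ => b + θ * (a - b) with hcc
  have hccB : ∀ θ ∈ Icc (0 : ℝ) 1, cc θ ∈ ball c R := fun θ hθ => hsegB b hbB a haB θ hθ
  have hccc : Continuous cc := by
    rw [hcc]
    fun_prop
  set Yc : ℝ → ℂ := fun θ => Fl Ya (u * (cc θ - a)) with hYc
  have hYcont : ContinuousOn Yc (Icc 0 1) := by
    intro θ hθ
    have h1 : ContinuousAt (Fl Ya) (u * (cc θ - a)) :=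
      (hasDerivAt_Fl hYa (hFa _ (hccB θ hθ))).continuousAt
    exact (ContinuousAt.comp (g := Fl Ya) (f := fun θ => u * (cc θ - a)) h1
      (by fun_prop)).continuousWithinAt
  have hYall : ∀ θ ∈ Icc (0 : ℝ) 1, sin (Yc θ) ≠ 0 ∧ FwdAll u (Yc θ) := by
    intro θ hθ
    refine ⟨hsF _ (hccB θ hθ), fun t ht => ?_⟩
    rw [hGsq (Yc θ) (cc θ) _ (hGF _ (hccB θ hθ))]
    have h1 : u * cc θ + u * t = u * (cc θ + t) := by ring
    rw [h1]
    refine hne _ ?_ (hseg θ hθ t ht)
    rw [add_im, ofReal_im, add_zero]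
    refine lt_of_le_of_lt (abs_im_le_norm _) ?_
    have := hB4 _ (hccB θ hθ)
    linarith
  have hgat : ∀ ω : ℂ, ‖ω‖ < r → DifferentiableAt ℂ g ω := fun ω hω =>
    hg.differentiableAt (isOpen_ball.mem_nhds (mem_ball_zero_iff.2 hω))
  have hmcont : ContinuousOn (fun θ : ℝ => g (cc θ) * (a - b)) (Icc 0 1) := by
    intro θ hθ
    have h1 : ContinuousAt g (cc θ) := by
      refine (hgat _ ?_).continuousAt
      have := hB4 _ (hccB θ hθ)
      linarith
    exact (ContinuousAt.comp (g := g) (f := cc) h1 hccc.continuousAt).continuousWithinAt.mul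
      continuousWithinAt_const
  have hfg := good_fwd hu hYcont hYall hmcont
  have hfg' : GermGood u (fun t : ℝ => ∫ s in (0 : ℝ)..1,
      G (Yc s) * exp (u * t) / Fl (Yc s) (u * t) * (g (cc s) * (a - b))) :=
    ⟨_, hfg, 1, one_pos, fun _ _ => rfl⟩
  -- small times
  have hsm : ∃ τ : ℝ, 0 < τ ∧ τ ≤ ‖a‖ ∧ ∀ t ∈ Ioo (0 : ℝ) τ, a + t ∈ ball c R ∧
      b + t ∈ ball c R := by
    refine ⟨min (R - ‖a‖) ‖a‖, lt_min (by linarith) ha0, min_le_right _ _, fun t ht => ?_⟩
    have h1 : t < R - ‖a‖ := ht.2.trans_le (min_le_left _ _)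
    have h2 : ‖(t : ℂ)‖ = t := by rw [Complex.norm_real, Real.norm_of_nonneg ht.1.le]
    constructor
    · rw [mem_ball_iff_norm, hc]
      have : a + t - (a + b) = -b + t := by ring
      rw [this]
      refine (norm_add_le _ _).trans_lt ?_
      rw [norm_neg, hb, h2]
      linarith
    · rw [mem_ball_iff_norm, hc]
      have : b + t - (a + b) = -a + t := by ring
      rw [this]
      refine (norm_add_le _ _).trans_lt ?_
      rw [norm_neg, h2]
      linarith
  obtain ⟨τ, hτ, hτa, hτB⟩ := hsm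
  refine (hgood.add hfg').congr hτ (fun t ht => ?_)
  obtain ⟨hat, hbt⟩ := hτB t ht
  have ht0 : 0 < t := ht.1
  have hta : t < ‖a‖ := ht.2.trans_le hτa
  set f : ℂ → ℂ := fun ω => W * exp (u * ω) / Fl Ya (u * (ω - a)) * g (ω - t) with hf
  have hB5 : ∀ ω ∈ ball c R, ‖ω - t‖ ≤ 5 * ‖a‖ := by
    intro ω hω
    refine (norm_sub_le _ _).trans ?_
    rw [Complex.norm_real, Real.norm_of_nonneg ht0.le]
    have := hB4 ω hω
    linarith
  obtain ⟨M, hM⟩ := (isCompact_closedBall (0 : ℂ) (5 * ‖a‖)).exists_bound_of_continuousOn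
    (hg.continuousOn.mono (closedBall_subset_ball (by linarith)))
  obtain ⟨C, hC, hCb⟩ := exists_norm_psi_le
  have hfd : DifferentiableOn ℂ f (ball c R) := by
    intro ω hω
    have h1 : DifferentiableAt ℂ (fun ω => Fl Ya (u * (ω - a))) ω :=
      DifferentiableAt.comp (g := Fl Ya) (f := fun ω => u * (ω - a)) ω
        (hasDerivAt_Fl hYa (hFa ω hω)).differentiableAt (by fun_prop)
    have h2 : DifferentiableAt ℂ (fun ω => g (ω - t)) ω :=
      DifferentiableAt.comp (g := g) (f := fun ω : ℂ => ω - t) ω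
        (hgat _ (by have := hB5 ω hω; linarith)) (by fun_prop)
    have h3 : DifferentiableAt ℂ (fun ω => W * exp (u * ω)) ω := by fun_prop
    exact ((h3.div h1 (Fl_ne_zero hYa (hFa ω hω))).mul h2).differentiableWithinAt
  have hfb : ∀ ω ∈ ball c R, ‖f ω‖ ≤ C * (1 + ‖W‖ * Real.exp (‖u‖ * (4 * ‖a‖))) * M := by
    intro ω hω
    rw [hf]
    simp only []
    rw [norm_mul]
    have h0 := hB4 ω hω
    refine mul_le_mul ?_ (hM _ (mem_closedBall_zero_iff.2 (hB5 ω hω))) (norm_nonneg _)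
      (by positivity)
    have h1 := hCb Ya (u * (ω - a))
    have h2 : G Ya * exp (u * (ω - a)) = W * exp (u * ω) := by
      rw [hG, mul_assoc, ← Complex.exp_add]
      congr 2
      ring
    rw [h2] at h1
    refine h1.trans (mul_le_mul_of_nonneg_left ?_ hC.le)
    rw [norm_mul, Complex.norm_exp]
    have h3 : (u * ω).re ≤ ‖u‖ * (4 * ‖a‖) := by
      refine (Complex.re_le_norm _).trans ?_
      rw [norm_mul]
      exact mul_le_mul_of_nonneg_left h0.le (norm_nonneg _)
    have h4 := mul_le_mul_of_nonneg_left (Real.exp_le_exp.2 h3) (norm_nonneg W)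
    linarith
  obtain ⟨Φ, hΦ, htri⟩ := EndTip1_tri hR0 rfl hfd hfb
  have key := htri _ hat _ hbt
  have hleft : tipE u W a Ya g t = (a + t) * (∫ θ in (0 : ℝ)..1, f (θ * (a + t))) := rfl
  have hright : tipE u W b Yb g t = (b + t) * (∫ θ in (0 : ℝ)..1, f (θ * (b + t))) := by
    unfold tipE
    congr 1
    refine intervalIntegral.integral_congr_ae (Eventually.of_forall fun θ hθ => ?_)
    rw [uIoc_of_le zero_le_one] at hθ
    have h1 : (θ : ℂ) * (b + t) ∈ ball c R := by
      rw [mem_ball_iff_norm] at hbt ⊢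
      have h1 : (θ : ℂ) * (b + t) - c = ((θ : ℝ) : ℂ) * (b + t - c) - ((1 - θ : ℝ) : ℂ) * c := by
        push_cast
        ring
      rw [h1]
      refine (norm_sub_le _ _).trans_lt ?_
      rw [norm_mul, norm_mul, Complex.norm_real, Complex.norm_real,
        Real.norm_of_nonneg hθ.1.le, Real.norm_of_nonneg (by linarith [hθ.2])]
      have h2 := mul_lt_mul_of_pos_left hbt hθ.1
      change θ * ‖b + t - c‖ + (1 - θ) * R < R
      nlinarith
    simp only [hf]
    rw [hYb, hcomp b hbB _ h1]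
  have hmid : Φ (a + t) - Φ (b + t) = ∫ s in (0 : ℝ)..1,
      G (Yc s) * exp (u * t) / Fl (Yc s) (u * t) * (g (cc s) * (a - b)) := by
    have hmem : ∀ s ∈ Icc (0 : ℝ) 1, cc s + t ∈ ball c R := by
      intro s hs
      have h1 := hsegB _ hbt _ hat s hs
      have h2 : b + t + s * (a + t - (b + t)) = cc s + t := by
        rw [hcc]
        ring
      rwa [h2] at h1
    have c1 : ∀ s ∈ uIcc (0 : ℝ) 1, HasDerivAt (fun s : ℝ => Φ (cc s + t))
        (f (cc s + t) * (a - b)) s := by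
      intro s hs
      rw [uIcc_of_le zero_le_one] at hs
      have c3 : HasDerivAt (fun s : ℝ => cc s + t) (a - b) s := by
        have := (((Complex.ofRealCLM.hasDerivAt (x := s)).mul_const (a - b)).const_add b).add_const
          (t : ℂ)
        exact HasDerivAt.congr_deriv this (by simp)
      exact HasDerivAt.comp s (h₂ := Φ) (hΦ _ (hmem s hs)) c3
    have c2 : IntervalIntegrable (fun s : ℝ => f (cc s + t) * (a - b)) volume 0 1 := by
      refine ContinuousOn.intervalIntegrable fun s hs => ?_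
      rw [uIcc_of_le zero_le_one] at hs
      have c3 : ContinuousAt f (cc s + t) :=
        (hfd.differentiableAt (isOpen_ball.mem_nhds (hmem s hs))).continuousAt
      exact ((ContinuousAt.comp (g := f) (f := fun s : ℝ => cc s + t) c3
        (by fun_prop)).mul continuousAt_const).continuousWithinAt
    have c3 := intervalIntegral.integral_eq_sub_of_hasDerivAt c1 c2
    have e1 : cc 1 = a := by
      rw [hcc]
      push_cast
      ring
    have e0 : cc 0 = b := by
      rw [hcc]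
      push_cast
      ring
    rw [e1, e0] at c3
    rw [← c3]
    refine intervalIntegral.integral_congr fun s hs => ?_
    rw [uIcc_of_le zero_le_one] at hs
    have d1 : Fl (Yc s) (u * t) = Fl Ya (u * (cc s + t - a)) := by
      have := hcomp _ (hccB s hs) _ (hmem s hs)
      rw [← this]
      congr 1
      ring
    have d2 : G (Yc s) * exp (u * t) = W * exp (u * (cc s + t)) := by
      rw [hGF _ (hccB s hs), mul_assoc, ← Complex.exp_add]
      congr 2
      ring
    simp only [hf]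
    rw [d1, d2, add_sub_cancel_right, mul_assoc]
  rw [hleft, hright, ← hmid]
  linear_combination -key

/-- `germ_tip_up`, `germ_tip_dn` for every small `a` which is not in `(-oo, 0]`: if `0 ≤ Im a` compare with
`a' = i e0`: `tipE a z - tipE a' z = (a - a') ∫_0^1 ..` (`tipE_sub` on a chain of short steps, or directly
Cauchy for the triangle `0, a'+z, a+z`, which lies in a convex sector), which for real `z = t` is
`∫_0^1 G (Y_θ) e^(ut) / Fl Y_θ (ut) * (lam' (c θ) (a - a')) dθ`, `c θ = a' + θ (a - a')`,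
`Y_θ = Fl Ya' (u (c θ - a'))`, and `FwdAll Y_θ` (the heights `c θ + t` are `≠ 0`): `good_fwd`. If `Im a < 0`:
compare with `- i e0`. -/
theorem germ_tip {u gs W : ℂ} (hu : 0 < u.re) {q : ℂ → ℂ} {P : ℂ} {lam : ℂ → ℂ}
    (hlam : IsChart u q P lam) (hP : gs ^ 2 * q P = tipc) (hW : W ^ 2 = tipc) :
    ∃ ε : ℝ, 0 < ε ∧ ∀ a Ya : ℂ, ‖a‖ < ε → ¬ (a.im = 0 ∧ a.re ≤ 0) → sin Ya ≠ 0 →
      G Ya = W * exp (u * a) → GermGood u (fun t => tipE u W a Ya (deriv lam) t) := by
  obtain ⟨ε1, hε1, hup⟩ := germ_tip_up hu hlam hP hW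
  obtain ⟨ε2, hε2, hdn⟩ := germ_tip_dn hu hlam hP hW
  obtain ⟨e1, he1, hl, -⟩ := sideG_chart hlam
  have hRo : IsOpen (Rc 1 e1) := by
    have h1 : IsOpen {ω : ℂ | -1 - e1 < ω.re} := isOpen_lt continuous_const continuous_re
    have h2 : IsOpen {ω : ℂ | ω.re < e1} := isOpen_lt continuous_re continuous_const
    have h3 : IsOpen {ω : ℂ | |ω.im| < e1} := isOpen_lt continuous_im.abs continuous_const
    exact h1.inter (h2.inter h3)
  have hg : DifferentiableOn ℂ (deriv lam) (Rc 1 e1) := hl.deriv hRo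
  have hun : 0 < ‖u‖ ^ 2 := by
    have hu0 : u ≠ 0 := by
      rintro rfl
      simp at hu
    have := norm_pos_iff.2 hu0
    positivity
  set r : ℝ := min e1 (u.re / ‖u‖ ^ 2) with hr
  have hr0 : 0 < r := lt_min he1 (by positivity)
  have hru : r * ‖u‖ ^ 2 ≤ u.re := by
    have h1 : r ≤ u.re / ‖u‖ ^ 2 := min_le_right _ _
    have h2 := mul_le_mul_of_nonneg_right h1 hun.le
    rwa [div_mul_cancel₀ _ hun.ne'] at h2
  have hgr : DifferentiableOn ℂ (deriv lam) (ball 0 r) := by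
    refine hg.mono fun ω hω => ?_
    rw [mem_ball_zero_iff] at hω
    have h1 : r ≤ e1 := min_le_left _ _
    have h2 := abs_le.1 (abs_re_le_norm ω)
    have h3 := abs_im_le_norm ω
    exact ⟨by linarith, by linarith, by linarith⟩
  refine ⟨min (min ε1 ε2) (r / 8), by positivity, fun a Ya ha1 ha2 hYa hG => ?_⟩
  rw [lt_min_iff, lt_min_iff] at ha1
  obtain ⟨⟨h1, h2⟩, h3⟩ := ha1
  have ha : a ≠ 0 := by
    rintro rfl
    exact ha2 ⟨rfl, le_rfl⟩
  have ha0 : 0 < ‖a‖ := norm_pos_iff.2 ha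
  have hn : ‖(‖a‖ * I : ℂ)‖ = ‖a‖ := by
    rw [norm_mul, Complex.norm_I, mul_one, Complex.norm_real, norm_norm]
  rcases le_or_gt 0 a.im with him | him
  · obtain ⟨c1, c2, c3⟩ := EndTip1_cmp (b := ‖a‖ * I) hu hW hYa hG ha hn
      (by
        rw [map_mul, Complex.conj_ofReal, Complex.conj_I]
        have : (a * (‖a‖ * -I)).re = ‖a‖ * a.im := by simp [mul_comm]
        rw [this]
        positivity)
      (by
        intro θ hθ t ht h0
        have h4 := congrArg Complex.im h0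
        have h5 := congrArg Complex.re h0
        simp only [add_im, mul_im, sub_im, sub_re, ofReal_re, ofReal_im, I_re, I_im, mul_one,
          mul_zero, zero_mul, add_zero, zero_add, mul_re, add_re, sub_zero, zero_im, zero_re]
          at h4 h5
        have h6 : (1 - θ) * ‖a‖ = 0 := by
          have h7 : 0 ≤ (1 - θ) * ‖a‖ := mul_nonneg (by linarith [hθ.2]) ha0.le
          have h8 : 0 ≤ θ * a.im := mul_nonneg hθ.1 him
          nlinarith
        have h7 : θ = 1 := by
          rcases mul_eq_zero.1 h6 with h | h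
          · linarith
          · exact absurd h ha0.ne'
        subst h7
        exact ha2 ⟨by linarith, by linarith⟩)
      (by linarith) hru hgr
    refine c3 (hup ‖a‖ ⟨ha0, h1⟩ _ c1 c2)
  · obtain ⟨c1, c2, c3⟩ := EndTip1_cmp (b := -(‖a‖ * I)) hu hW hYa hG ha (by rw [norm_neg, hn])
      (by
        rw [map_neg, map_mul, Complex.conj_ofReal, Complex.conj_I]
        have : (a * -(‖a‖ * -I)).re = ‖a‖ * -a.im := by simp [mul_comm]
        rw [this]
        exact mul_nonneg ha0.le (by linarith))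
      (by
        intro θ hθ t ht h0
        have h4 := congrArg Complex.im h0
        simp only [add_im, mul_im, sub_im, neg_im, ofReal_re, ofReal_im, I_re, I_im, mul_one,
          mul_zero, zero_mul, add_zero, zero_im] at h4
        have h7 : 0 ≤ (1 - θ) * ‖a‖ := mul_nonneg (by linarith [hθ.2]) ha0.le
        have h8 : 0 ≤ θ * -a.im := mul_nonneg hθ.1 (by linarith)
        have h9 : (1 - θ) * ‖a‖ = 0 := by nlinarith
        have h10 : θ = 1 := by
          rcases mul_eq_zero.1 h9 with h | h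
          · linarith
          · exact absurd h ha0.ne'
        subst h10
        linarith)
      (by linarith) hru hgr
    refine c3 (hdn ‖a‖ ⟨ha0, h2⟩ _ c1 ?_)
    rw [c2]
    congr 2
    ring

end Pool.Agent.MP_ae5b4e_an_WD
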