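import Pool.Agent.Lib.MP_ae5b4e_an_WB.Flow
import Pool.Agent.Lib.MP_ae5b4e_an_M.FnA

/-!
# POR (iii), N2, bridge from the label function to Lemma B: the label function and its local inverse
-/

noncomputable section

namespace Pool.Agent.MP_ae5b4e_an_WD

open Complex Set Filter Topology Metric
open Pool.Agent.MP_ae5b4e_an_WB
open Pool.Agent.MP_ae5b4e_an_M (Gf S1 C1f S1_sq C1f_sq)

/-- `∂_τ L` -/
def dL (L : ℂ × ℂ → ℂ) (p : ℂ × ℂ) : ℂ := deriv (fun t => L (t, p.2)) p.1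

/-- a label function on the open set `U` (coordinates `(τ, γ)`): the first integral (M8) -/
structure Lab (q : ℂ → ℂ) (L : ℂ × ℂ → ℂ) (U : Set (ℂ × ℂ)) : Prop where
  op : IsOpen U
  an : AnalyticOnNhd ℂ L U
  low : ∀ p ∈ U, (L p).im < 0
  ne : ∀ p ∈ U, S1 (q (L p) * (p.2 * dL L p) ^ 2) ≠ 0
  eq : ∀ p ∈ U, Gf q (L p) (p.2 * dL L p) = p.2

theorem Lab.mono {q : ℂ → ℂ} {L : ℂ × ℂ → ℂ} {U U' : Set (ℂ × ℂ)} (h : Lab q L U)
    (hU : IsOpen U') (hs : U' ⊆ U) : Lab q L U' where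
  op := hU
  an := h.an.mono hs
  low := fun p hp => h.low p (hs hp)
  ne := fun p hp => h.ne p (hs hp)
  eq := fun p hp => h.eq p (hs hp)

variable {q : ℂ → ℂ} {L : ℂ × ℂ → ℂ} {U : Set (ℂ × ℂ)}

theorem Lab.dL_ne (h : Lab q L U) {p : ℂ × ℂ} (hp : p ∈ U) (h2 : p.2 ≠ 0) : dL L p ≠ 0 := by
  intro h0
  have := h.eq p hp
  rw [h0, mul_zero] at this
  unfold Gf at this
  rw [zero_mul, zero_mul] at this
  exact h2 this.symm

/-- the value of `y` at a point of the domain, for a square root `r` of `q (L p)` -/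
theorem Lab.y_spec (h : Lab q L U) {p : ℂ × ℂ} (hp : p ∈ U) (h2 : p.2 ≠ 0) {r : ℂ}
    (hr : r ^ 2 = q (L p)) (hr0 : r ≠ 0) :
    sin (r * (p.2 * dL L p)) ≠ 0 ∧ G (r * (p.2 * dL L p)) = r * p.2 ∧
      (dL L p)⁻¹ = G (r * (p.2 * dL L p)) / (r * (p.2 * dL L p)) := by
  have hd := h.dL_ne hp h2
  set α := p.2 * dL L p with hα
  have hα0 : α ≠ 0 := mul_ne_zero h2 hd
  have hy0 : r * α ≠ 0 := mul_ne_zero hr0 hα0
  have hsq : q (L p) * α ^ 2 = (r * α) ^ 2 := by rw [← hr]; ring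
  have hS := h.ne p hp
  rw [← hα, hsq] at hS
  have hs := S1_sq (r * α)
  have hsin : sin (r * α) ≠ 0 := by
    rw [← hs]; exact mul_ne_zero hy0 hS
  have hG : G (r * α) = r * p.2 := by
    have h3 := h.eq p hp
    rw [← hα] at h3
    unfold Gf at h3
    rw [hsq, C1f_sq] at h3
    unfold G
    have h4 : cos (r * α) / S1 ((r * α) ^ 2) = r * α * (cos (r * α) / sin (r * α)) := by
      rw [← hs]; field_simp
    rw [h4] at h3
    rw [← h3, ← hs]
    ring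
  refine ⟨hsin, hG, ?_⟩
  rw [hG, hα]
  field_simp

/-- the derivative of `L` as a function of two variables, first partial derivative -/
theorem Lab.hasDerivAt_fst (h : Lab q L U) {p : ℂ × ℂ} (hp : p ∈ U) :
    HasDerivAt (fun t => L (t, p.2)) (dL L p) p.1 := by
  have h1 : DifferentiableAt ℂ L (p.1, p.2) := (h.an p hp).differentiableAt
  have h2 : DifferentiableAt ℂ (fun t => L (t, p.2)) p.1 :=
    DifferentiableAt.comp (g := L) (f := fun t : ℂ => (t, p.2)) p.1 h1 (by fun_prop)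
  exact h2.hasDerivAt

theorem Lab.fderiv_apply (h : Lab q L U) {p : ℂ × ℂ} (hp : p ∈ U) :
    fderiv ℂ L p (1, 0) = dL L p := by
  have h1 : HasFDerivAt L (fderiv ℂ L p) (p.1, p.2) := (h.an p hp).differentiableAt.hasFDerivAt
  have h2 : HasDerivAt (fun t : ℂ => (t, p.2)) ((1 : ℂ), (0 : ℂ)) p.1 :=
    (hasDerivAt_id p.1).prodMk (hasDerivAt_const p.1 p.2)
  have h3 := HasFDerivAt.comp_hasDerivAt p.1 h1 h2
  exact (h.hasDerivAt_fst hp).unique h3 |>.symm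

/-- the linear isomorphism `(a, b) ↦ (c a + d b, b)` -/
def tri (c d : ℂ) (hc : c ≠ 0) : (ℂ × ℂ) ≃L[ℂ] (ℂ × ℂ) :=
  ContinuousLinearEquiv.equivOfInverse
    ((c • ContinuousLinearMap.fst ℂ ℂ ℂ + d • ContinuousLinearMap.snd ℂ ℂ ℂ).prod
      (ContinuousLinearMap.snd ℂ ℂ ℂ))
    ((c⁻¹ • ContinuousLinearMap.fst ℂ ℂ ℂ - (c⁻¹ * d) • ContinuousLinearMap.snd ℂ ℂ ℂ).prod
      (ContinuousLinearMap.snd ℂ ℂ ℂ))
    (by
      rintro ⟨a, b⟩
      ext
      · simp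
        field_simp
        ring
      · simp)
    (by
      rintro ⟨a, b⟩
      ext
      · simp
        field_simp
        ring
      · simp)

/-- strict derivative of `(τ, γ) ↦ (L (τ, γ), γ)` -/
theorem Lab.hasStrictFDerivAt (h : Lab q L U) {p : ℂ × ℂ} (hp : p ∈ U) (h2 : p.2 ≠ 0) :
    HasStrictFDerivAt (fun x : ℂ × ℂ => (L x, x.2))
      (tri (dL L p) (fderiv ℂ L p (0, 1)) (h.dL_ne hp h2) : (ℂ × ℂ) →L[ℂ] (ℂ × ℂ)) p := by
  have h1 : HasStrictFDerivAt L (fderiv ℂ L p) p := (h.an p hp).hasStrictFDerivAt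
  have h3 : HasStrictFDerivAt (fun x : ℂ × ℂ => x.2) (ContinuousLinearMap.snd ℂ ℂ ℂ) p :=
    hasStrictFDerivAt_snd
  refine (h1.prodMk h3).congr_fderiv ?_
  ext ⟨⟩
  · simp [tri, h.fderiv_apply hp]
  · simp [tri]
  · simp [tri]
  · simp [tri]

/-- LOCAL INVERSE of the label function in the first variable -/
theorem Lab.exists_inv (h : Lab q L U) {p : ℂ × ℂ} (hp : p ∈ U) (h2 : p.2 ≠ 0) :
    ∃ ρ : ℝ, 0 < ρ ∧ ρ < ‖p.2‖ ∧ ∃ F : ℂ × ℂ → ℂ,
      (∀ x ∈ ball (L p) ρ ×ˢ ball p.2 ρ, x.2 ≠ 0 ∧ (F x, x.2) ∈ U ∧ L (F x, x.2) = x.1 ∧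
        DifferentiableAt ℂ F x ∧ HasDerivAt (fun l => F (l, x.2)) (dL L (F x, x.2))⁻¹ x.1) ∧
      ∀ᶠ x in 𝓝 p, (L x, x.2) ∈ ball (L p) ρ ×ˢ ball p.2 ρ ∧ F (L x, x.2) = x.1 := by
  have hS := h.hasStrictFDerivAt hp h2
  set Φ : ℂ × ℂ → ℂ × ℂ := fun x => (L x, x.2) with hΦ
  set e := hS.toOpenPartialHomeomorph Φ with he
  have hce : ∀ z, e z = Φ z := fun z => rfl
  have hps : p ∈ e.source := hS.mem_toOpenPartialHomeomorph_source
  have hpt : Φ p ∈ e.target := hS.image_mem_toOpenPartialHomeomorph_target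
  have hsymm : e.symm (Φ p) = p := by rw [← hce]; exact e.left_inv hps
  have hc : ContinuousAt e.symm (Φ p) := e.continuousAt_symm hpt
  have h3 : ∀ᶠ x in 𝓝 (Φ p), x ∈ e.target ∧ e.symm x ∈ U := by
    have h31 : ∀ᶠ x in 𝓝 (Φ p), x ∈ e.target := e.open_target.mem_nhds hpt
    have h32 : ∀ᶠ x in 𝓝 (Φ p), e.symm x ∈ U := by
      have : U ∈ 𝓝 (e.symm (Φ p)) := by rw [hsymm]; exact h.op.mem_nhds hp
      exact hc this
    exact h31.and h32
  have h4 : ∀ᶠ x : ℂ × ℂ in 𝓝 (Φ p), x.2 ≠ 0 :=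
    (continuous_snd.continuousAt (x := Φ p)).eventually_ne h2
  obtain ⟨ρ0, hρ0, hb⟩ := Metric.eventually_nhds_iff_ball.1 (h3.and h4)
  have hpos : 0 < ‖p.2‖ := norm_pos_iff.2 h2
  refine ⟨min ρ0 (‖p.2‖ / 2), lt_min hρ0 (by positivity),
    (min_le_right _ _).trans_lt (by linarith), fun x => (e.symm x).1, ?_, ?_⟩
  · rintro x ⟨hx1, hx2⟩
    have hx : x ∈ ball (Φ p) ρ0 := by
      rw [mem_ball] at hx1 hx2 ⊢
      rw [Prod.dist_eq]
      exact max_lt (hx1.trans_le (min_le_left _ _)) (hx2.trans_le (min_le_left _ _))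
    obtain ⟨⟨hxt, hxU⟩, hx0⟩ := hb x hx
    have hr : Φ (e.symm x) = x := by rw [← hce]; exact e.right_inv hxt
    have hr1 : L (e.symm x) = x.1 := congrArg Prod.fst hr
    have hr2 : (e.symm x).2 = x.2 := by
      have := congrArg Prod.snd hr
      exact this
    have hxe : ((e.symm x).1, x.2) = e.symm x := Prod.ext rfl hr2.symm
    have hne : (e.symm x).2 ≠ 0 := by rw [hr2]; exact hx0
    have hd1 := (h.hasStrictFDerivAt hxU hne).hasFDerivAt
    have hd2 := e.hasFDerivAt_symm hxt hd1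
    have hd3 : DifferentiableAt ℂ (fun x => (e.symm x).1) x :=
      differentiableAt_fst.comp x hd2.differentiableAt
    refine ⟨hx0, by rw [hxe]; exact hxU, by rw [hxe]; exact hr1, hd3, ?_⟩
    -- the derivative in `l`
    rw [hxe]
    have hl : DifferentiableAt ℂ (fun l : ℂ => (e.symm (l, x.2)).1) x.1 :=
      DifferentiableAt.comp (g := fun x : ℂ × ℂ => (e.symm x).1) (f := fun l : ℂ => (l, x.2)) x.1
        hd3 (by fun_prop)
    -- `L (F (l, x.2), x.2) = l` near `x.1`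
    have hid : ∀ᶠ l in 𝓝 x.1, L ((e.symm (l, x.2)).1, x.2) = l := by
      have hcl : ContinuousAt (fun l : ℂ => (l, x.2)) x.1 := by fun_prop
      have hnh : ball (Φ p) ρ0 ∈ 𝓝 (x.1, x.2) := isOpen_ball.mem_nhds hx
      filter_upwards [hcl hnh] with l hlb
      have hlb' : (l, x.2) ∈ ball (Φ p) ρ0 := hlb
      obtain ⟨⟨hlt, -⟩, -⟩ := hb _ hlb'
      have hr' : Φ (e.symm (l, x.2)) = (l, x.2) := by rw [← hce]; exact e.right_inv hlt
      have hr1' : L (e.symm (l, x.2)) = l := congrArg Prod.fst hr'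
      have hr2' : (e.symm (l, x.2)).2 = x.2 := by
        have := congrArg Prod.snd hr'
        exact this
      have hxe' : ((e.symm (l, x.2)).1, x.2) = e.symm (l, x.2) := Prod.ext rfl hr2'.symm
      rw [hxe', hr1']
    have hcomp : HasDerivAt (fun l : ℂ => L ((e.symm (l, x.2)).1, x.2))
        (dL L (e.symm x) * deriv (fun l : ℂ => (e.symm (l, x.2)).1) x.1) x.1 := by
      have ha := h.hasDerivAt_fst hxU
      rw [hr2] at ha
      exact HasDerivAt.comp x.1 (h₂ := fun t => L (t, x.2)) ha hl.hasDerivAt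
    have hcomp' : HasDerivAt (fun l : ℂ => l)
        (dL L (e.symm x) * deriv (fun l : ℂ => (e.symm (l, x.2)).1) x.1) x.1 :=
      hcomp.congr_of_eventuallyEq (by filter_upwards [hid] with l hl using hl.symm)
    have h1 := hcomp'.unique (hasDerivAt_id x.1)
    have h5 : deriv (fun l : ℂ => (e.symm (l, x.2)).1) x.1 = (dL L (e.symm x))⁻¹ :=
      eq_inv_of_mul_eq_one_right h1
    rw [← h5]
    exact hl.hasDerivAt
  · have hcΦ : ContinuousAt Φ p := hS.continuousAt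
    have hball : ball (L p) (min ρ0 (‖p.2‖ / 2)) ×ˢ ball p.2 (min ρ0 (‖p.2‖ / 2)) ∈ 𝓝 (Φ p) :=
      prod_mem_nhds (ball_mem_nhds _ (lt_min hρ0 (by positivity)))
        (ball_mem_nhds _ (lt_min hρ0 (by positivity)))
    filter_upwards [hcΦ hball, e.open_source.mem_nhds hps] with x hx1 hx2
    refine ⟨hx1, ?_⟩
    have : e.symm (Φ x) = x := by rw [← hce]; exact e.left_inv hx2
    change (e.symm (Φ x)).1 = x.1
    rw [this]

end Pool.Agent.MP_ae5b4e_an_WD
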