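import Pool.Agent.Lib.MP_ae5b4e_an_WD.DA

/-!
# POR (iii), N2, bridge: local primitive near a point of the D-side
-/

namespace Pool.Agent.MP_ae5b4e_an_WD

open Complex Set Filter Topology Metric
open Pool.Agent.MP_ae5b4e_an_WB
open Pool.Agent.MP_ae5b4e_an_M (S1 C1f Gf)

/-- the analytic implicit function theorem with two parameters -/
private theorem Loc_implicit {F : (ℂ × ℂ) × ℂ → ℂ} {p₀ : ℂ × ℂ} {t₀ c : ℂ}
    (hF : AnalyticAt ℂ F (p₀, t₀)) (h0 : F (p₀, t₀) = 0) (hc : c ≠ 0)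
    (ht : HasDerivAt (fun t => F (p₀, t)) c t₀) :
    ∃ b : ℂ × ℂ → ℂ, AnalyticAt ℂ b p₀ ∧ b p₀ = t₀ ∧
      ∀ᶠ q in 𝓝 (p₀, t₀), F q = 0 ↔ b q.1 = q.2 := by
  have hcd : ContDiffAt ℂ ⊤ F (p₀, t₀) := hF.contDiffAt
  have hinr : (fderiv ℂ F (p₀, t₀)) ∘L .inr ℂ (ℂ × ℂ) ℂ =
      ContinuousLinearMap.toSpanSingleton ℂ c := by
    have h1 : HasFDerivAt F (fderiv ℂ F (p₀, t₀)) (p₀, t₀) := hF.differentiableAt.hasFDerivAt
    have h2 : HasFDerivAt (fun t : ℂ => ((p₀, t) : (ℂ × ℂ) × ℂ)) (.inr ℂ (ℂ × ℂ) ℂ) t₀ :=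
      hasFDerivAt_prodMk_right p₀ t₀
    have h3 := h1.comp t₀ h2
    exact h3.unique ht.hasFDerivAt
  have hinv : ((fderiv ℂ F (p₀, t₀)) ∘L .inr ℂ (ℂ × ℂ) ℂ).IsInvertible := by
    rw [hinr]
    refine ⟨ContinuousLinearEquiv.unitsEquivAut ℂ (Units.mk0 c hc), ?_⟩
    ext
    simp
  refine ⟨hcd.implicitFunction (by simp) hinv, ?_, ?_, ?_⟩
  · have := hcd.contDiffAt_implicitFunction (by simp) hinv
    exact this.analyticAt
  · exact hcd.implicitFunction_apply_self (by simp) hinv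
  · have := hcd.eventually_apply_eq_iff_implicitFunction (by simp) hinv
    rw [h0] at this
    exact this

private theorem Loc_dt {q : ℂ → ℂ} {U : Set (ℂ × ℂ)} {L : ℂ × ℂ → ℂ} (h : DS q U L) {p : ℂ × ℂ}
    (hp : p ∈ U) : HasDerivAt (fun τ => L (τ, p.2)) (dt L p) p.1 := by
  have h1 : DifferentiableAt ℂ (fun τ : ℂ => L (τ, p.2)) p.1 := by
    have h2 : DifferentiableAt ℂ L (p.1, p.2) := (h.an p hp).differentiableAt
    exact h2.comp p.1 (differentiableAt_id.prodMk (differentiableAt_const _))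
  exact h1.hasDerivAt

/-- The implicit function. -/
private theorem Loc_b {q : ℂ → ℂ} {U : Set (ℂ × ℂ)} {L : ℂ × ℂ → ℂ} (h : DS q U L)
    {gs τ0 : ℂ} (u : ℂ) (h0 : (τ0, gs) ∈ U) : ∃ b : ℂ × ℂ → ℂ, b (L (τ0, gs), 0) = τ0 ∧
      (∀ᶠ p in 𝓝 (L (τ0, gs), (0 : ℂ)), AnalyticAt ℂ b p ∧ (b p, gs * exp (u * p.2)) ∈ U ∧
        L (b p, gs * exp (u * p.2)) = p.1) ∧
      ∀ᶠ τ in 𝓝 τ0, b (L (τ, gs), 0) = τ := by
  have e0 : gs * exp (u * 0) = gs := by rw [mul_zero, Complex.exp_zero, mul_one]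
  have han : AnalyticAt ℂ (fun w : (ℂ × ℂ) × ℂ => L (w.2, gs * exp (u * w.1.2)) - w.1.1)
      ((L (τ0, gs), 0), τ0) := by
    have h1 : AnalyticAt ℂ (fun w : (ℂ × ℂ) × ℂ => ((w.2, gs * exp (u * w.1.2)) : ℂ × ℂ))
        ((L (τ0, gs), 0), τ0) := by
      have k1 : AnalyticAt ℂ (fun w : (ℂ × ℂ) × ℂ => w.1.2) ((L (τ0, gs), 0), τ0) :=
        analyticAt_snd.fun_comp analyticAt_fst
      exact analyticAt_snd.prod (analyticAt_const.mul (analyticAt_const.mul k1).cexp')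
    have h2 : AnalyticAt ℂ L (τ0, gs * exp (u * 0)) := by
      rw [e0]
      exact h.an _ h0
    have h3 : AnalyticAt ℂ (fun w : (ℂ × ℂ) × ℂ => L (w.2, gs * exp (u * w.1.2)))
        ((L (τ0, gs), 0), τ0) :=
      AnalyticAt.fun_comp (f := fun w : (ℂ × ℂ) × ℂ => ((w.2, gs * exp (u * w.1.2)) : ℂ × ℂ))
        (g := L) h2 h1
    exact h3.sub (analyticAt_fst.fun_comp analyticAt_fst)
  have hder : HasDerivAt (fun t => L (t, gs * exp (u * 0)) - L (τ0, gs)) (dt L (τ0, gs)) τ0 := by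
    rw [e0]
    exact (Loc_dt h h0).sub_const _
  obtain ⟨b, hb, hb0, hiff⟩ := Loc_implicit
    (F := fun w : (ℂ × ℂ) × ℂ => L (w.2, gs * exp (u * w.1.2)) - w.1.1)
    (p₀ := (L (τ0, gs), 0)) (t₀ := τ0) han (by
      change L (τ0, gs * exp (u * 0)) - L (τ0, gs) = 0
      rw [e0, sub_self]) (h.dt_ne_zero h0) hder
  refine ⟨b, hb0, ?_, ?_⟩
  · have h1 : ContinuousAt (fun p : ℂ × ℂ => (b p, gs * exp (u * p.2))) (L (τ0, gs), 0) :=
      hb.continuousAt.prodMk (by fun_prop)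
    have h2 : ∀ᶠ p in 𝓝 (L (τ0, gs), (0 : ℂ)), (b p, gs * exp (u * p.2)) ∈ U := by
      refine h1.preimage_mem_nhds (h.isOpen.mem_nhds ?_)
      change (b (L (τ0, gs), 0), gs * exp (u * 0)) ∈ U
      rw [hb0, e0]
      exact h0
    have h3 : Tendsto (fun p : ℂ × ℂ => (p, b p)) (𝓝 (L (τ0, gs), 0))
        (𝓝 ((L (τ0, gs), 0), τ0)) := by
      have h4 : ContinuousAt (fun p : ℂ × ℂ => (p, b p)) (L (τ0, gs), 0) :=
        continuousAt_id.prodMk hb.continuousAt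
      have h5 := h4.tendsto
      rw [hb0] at h5
      exact h5
    filter_upwards [hb.eventually_analyticAt, h2, h3.eventually hiff] with p k1 k2 k3
    exact ⟨k1, k2, sub_eq_zero.1 (k3.2 rfl)⟩
  · have h1 : ContinuousAt (fun τ : ℂ => L (τ, gs)) τ0 := (Loc_dt h h0).continuousAt
    have h2 : Tendsto (fun τ : ℂ => (((L (τ, gs), (0 : ℂ)), τ) : (ℂ × ℂ) × ℂ)) (𝓝 τ0)
        (𝓝 ((L (τ0, gs), 0), τ0)) := by
      have h3 : ContinuousAt (fun τ : ℂ => (((L (τ, gs), (0 : ℂ)), τ) : (ℂ × ℂ) × ℂ)) τ0 :=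
        (h1.prodMk continuousAt_const).prodMk continuousAt_id
      exact h3.tendsto
    filter_upwards [h2.eventually hiff] with τ k
    refine k.1 ?_
    rw [e0, sub_self]

/-- The branch of the square root. -/
private theorem Loc_R {q : ℂ → ℂ} {l0 r0 : ℂ} (hq : DifferentiableOn ℂ q Hm) (hl : l0 ∈ Hm)
    (hr : r0 ^ 2 = q l0) (hr0 : r0 ≠ 0) : ∃ R : ℂ → ℂ, ∀ᶠ l in 𝓝 l0,
      DifferentiableAt ℂ R l ∧ R l ^ 2 = q l ∧ R l ≠ 0 ∧ ‖R l - r0‖ < ‖r0‖ / 2 := by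
  have hHm : IsOpen Hm := isOpen_lt Complex.continuous_im continuous_const
  have hr2 : r0 ^ 2 ≠ 0 := pow_ne_zero 2 hr0
  have e1 : q l0 / r0 ^ 2 = 1 := by rw [← hr, div_self hr2]
  have hqd : ∀ l ∈ Hm, DifferentiableAt ℂ q l := fun l hl =>
    (hq l hl).differentiableAt (hHm.mem_nhds hl)
  have h1 : ∀ᶠ l in 𝓝 l0, q l / r0 ^ 2 ∈ slitPlane := by
    have h2 : ContinuousAt (fun l => q l / r0 ^ 2) l0 := (hqd l0 hl).continuousAt.div_const _
    refine h2.preimage_mem_nhds (Complex.isOpen_slitPlane.mem_nhds ?_)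
    rw [e1]
    exact Complex.one_mem_slitPlane
  have hRd : ∀ l ∈ Hm, q l / r0 ^ 2 ∈ slitPlane →
      DifferentiableAt ℂ (fun l => r0 * exp (log (q l / r0 ^ 2) / 2)) l := by
    intro l hl hs
    exact (((hqd l hl).div_const _).clog hs).div_const 2 |>.cexp.const_mul r0
  refine ⟨fun l => r0 * exp (log (q l / r0 ^ 2) / 2), ?_⟩
  have h3 : ∀ᶠ l in 𝓝 l0, ‖r0 * exp (log (q l / r0 ^ 2) / 2) - r0‖ < ‖r0‖ / 2 := by
    have h4 : ContinuousAt (fun l => r0 * exp (log (q l / r0 ^ 2) / 2)) l0 :=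
      (hRd l0 hl h1.self_of_nhds).continuousAt
    have h5 := (h4.tendsto.sub_const r0).norm
    have h6 : ‖r0 * exp (log (q l0 / r0 ^ 2) / 2) - r0‖ = 0 := by
      rw [e1, Complex.log_one, zero_div, Complex.exp_zero, mul_one, sub_self, norm_zero]
    rw [h6] at h5
    exact h5.eventually (gt_mem_nhds (by positivity))
  filter_upwards [h1, h3, hHm.mem_nhds hl] with l k1 k2 k3
  refine ⟨hRd l k3 k1, ?_, mul_ne_zero hr0 (Complex.exp_ne_zero _), k2⟩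
  have k4 : q l / r0 ^ 2 ≠ 0 := Complex.slitPlane_ne_zero k1
  rw [mul_pow, ← Complex.exp_nat_mul]
  have e2 : ((2 : ℕ) : ℂ) * (log (q l / r0 ^ 2) / 2) = log (q l / r0 ^ 2) := by
    push_cast
    ring
  rw [e2, Complex.exp_log k4, mul_div_cancel₀ _ hr2]

/-- LOCAL PRIMITIVE. By the implicit function theorem there is `F (l, z)`, holomorphic near
`(L (τ0, gs), 0)`, with `L (F l z, gs e^(uz)) = l`, `F (L (τ0,gs)) 0 = τ0` (unique). Let `R l` be the branch of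
the square root of `q l` near `l0` with `R l0 = r0`, and
`y l z := R l * (gs e^(uz) * dt L (F l z, gs e^(uz)))`, `Y l := y l 0`. By `DS.G_eq`: `sin (y l z) ≠ 0`,
`G (y l z) = R l gs e^(uz) = G (Y l) e^(uz)`, so `η r = y l (r t)` is a lift and `Fl (Y l) (ut) = y l t`
(`Fl_eq`). `∂_l F = 1 / dt L (F l t, gs e^(ut)) = G (Y l) e^(ut) / Fl (Y l) (ut)`. -/
theorem exists_loc {q : ℂ → ℂ} {U : Set (ℂ × ℂ)} {L : ℂ × ℂ → ℂ} (h : DS q U L)
    {u gs τ0 r0 : ℂ} (h0 : (τ0, gs) ∈ U) (hr : r0 ^ 2 = q (L (τ0, gs))) (hr0 : r0 ≠ 0) :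
    ∃ ρ : ℝ, 0 < ρ ∧ ∃ (Y : ℂ → ℂ) (F : ℂ → ℂ → ℂ),
      LocPrim u gs q (ball (L (τ0, gs)) ρ) ρ Y (fun l t => F l t) ∧
      (∀ l ∈ ball (L (τ0, gs)) ρ, ∀ z ∈ ball (0 : ℂ) ρ,
        (F l z, gs * exp (u * z)) ∈ U ∧ L (F l z, gs * exp (u * z)) = l) ∧
      (∀ l ∈ ball (L (τ0, gs)) ρ, ∀ z ∈ ball (0 : ℂ) ρ,
        HasDerivAt (fun l' => F l' z) (G (Y l) * exp (u * z) / Fl (Y l) (u * z)) l) ∧
      (∀ l ∈ ball (L (τ0, gs)) ρ, AnalyticOnNhd ℂ (F l) (ball 0 ρ)) ∧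
      ∃ ρ1 : ℝ, 0 < ρ1 ∧ ∀ τ ∈ ball τ0 ρ1, (τ, gs) ∈ U ∧ L (τ, gs) ∈ ball (L (τ0, gs)) ρ ∧
        F (L (τ, gs)) 0 = τ ∧ ∀ r : ℂ, r ^ 2 = q (L (τ, gs)) → ‖r - r0‖ < ‖r0‖ / 2 →
          Y (L (τ, gs)) = r * (gs * dt L (τ, gs)) := by
  obtain ⟨b, hb0, hb1, hb2⟩ := Loc_b h u h0
  obtain ⟨R, hR⟩ := Loc_R h.qd (h.low _ h0) hr hr0
  have e0 : gs * exp (u * 0) = gs := by rw [mul_zero, Complex.exp_zero, mul_one]
  have hR' : ∀ᶠ p : ℂ × ℂ in 𝓝 (L (τ0, gs), (0 : ℂ)), DifferentiableAt ℂ R p.1 ∧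
      R p.1 ^ 2 = q p.1 ∧ R p.1 ≠ 0 ∧ ‖R p.1 - r0‖ < ‖r0‖ / 2 :=
    (continuous_fst.tendsto (L (τ0, gs), (0 : ℂ))).eventually hR
  obtain ⟨ρ, hρ, hall⟩ := Metric.eventually_nhds_iff.1 (hb1.and hR')
  have hz0 : (0 : ℂ) ∈ ball (0 : ℂ) ρ := mem_ball_self hρ
  have hb : ∀ l ∈ ball (L (τ0, gs)) ρ, ∀ z ∈ ball (0 : ℂ) ρ, AnalyticAt ℂ b (l, z) ∧
      (b (l, z), gs * exp (u * z)) ∈ U ∧ L (b (l, z), gs * exp (u * z)) = l := by
    intro l hl z hz
    refine (hall (y := (l, z)) ?_).1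
    rw [Prod.dist_eq]
    exact max_lt hl hz
  have hRb : ∀ l ∈ ball (L (τ0, gs)) ρ, DifferentiableAt ℂ R l ∧ R l ^ 2 = q l ∧ R l ≠ 0 ∧
      ‖R l - r0‖ < ‖r0‖ / 2 := by
    intro l hl
    refine (hall (y := (l, 0)) ?_).2
    rw [Prod.dist_eq]
    exact max_lt hl hz0
  set y : ℂ → ℂ → ℂ := fun l z => R l * (gs * exp (u * z) *
    dt L (b (l, z), gs * exp (u * z))) with hy
  have hG : ∀ l ∈ ball (L (τ0, gs)) ρ, ∀ z ∈ ball (0 : ℂ) ρ,
      sin (y l z) ≠ 0 ∧ G (y l z) = R l * (gs * exp (u * z)) := by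
    intro l hl z hz
    obtain ⟨-, h1, h2⟩ := hb l hl z hz
    exact h.G_eq h1 (r := R l) (by rw [h2]; exact (hRb l hl).2.1) (hRb l hl).2.2.1
  have hbc : ∀ l ∈ ball (L (τ0, gs)) ρ, ∀ z ∈ ball (0 : ℂ) ρ,
      AnalyticAt ℂ (fun z => b (l, z)) z := by
    intro l hl z hz
    exact AnalyticAt.fun_comp (f := fun z : ℂ => ((l, z) : ℂ × ℂ)) (g := b) (hb l hl z hz).1
      (analyticAt_const.prod analyticAt_id)
  have hyc : ∀ l ∈ ball (L (τ0, gs)) ρ, ∀ z ∈ ball (0 : ℂ) ρ, ContinuousAt (y l) z := by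
    intro l hl z hz
    have h1 : ContinuousAt (fun z : ℂ => gs * exp (u * z)) z := by fun_prop
    have h2 : ContinuousAt (fun z : ℂ => (b (l, z), gs * exp (u * z))) z :=
      (hbc l hl z hz).continuousAt.prodMk h1
    have h3 : ContinuousAt (fun z : ℂ => dt L (b (l, z), gs * exp (u * z))) z :=
      ContinuousAt.comp (f := fun z : ℂ => (b (l, z), gs * exp (u * z))) (g := dt L)
        (h.an_dt _ (hb l hl z hz).2.1).continuousAt h2
    exact continuousAt_const.mul (h1.mul h3)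
  have hGY : ∀ l ∈ ball (L (τ0, gs)) ρ, G (y l 0) = R l * gs := by
    intro l hl
    rw [(hG l hl 0 hz0).2, e0]
  have hFl : ∀ l ∈ ball (L (τ0, gs)) ρ, ∀ z ∈ ball (0 : ℂ) ρ, Fl (y l 0) (u * z) = y l z := by
    intro l hl z hz
    have hmem : ∀ r ∈ Icc (0 : ℝ) 1, (r : ℂ) * z ∈ ball (0 : ℂ) ρ := by
      intro r hr
      rw [mem_ball_zero_iff] at hz ⊢
      rw [norm_mul, Complex.norm_real, Real.norm_of_nonneg hr.1]
      exact (mul_le_of_le_one_left (norm_nonneg z) hr.2).trans_lt hz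
    have h1 : IsLift (y l 0) (u * z) (fun r => y l (r * z)) := by
      refine ⟨fun r hr => ?_, ?_, fun r hr => ⟨(hG l hl _ (hmem r hr)).1, ?_⟩⟩
      · refine ContinuousAt.continuousWithinAt ?_
        exact ContinuousAt.comp (f := fun r : ℝ => (r : ℂ) * z) (g := y l)
          (hyc l hl _ (hmem r hr)) (by fun_prop)
      · beta_reduce
        rw [Complex.ofReal_zero, zero_mul]
      · beta_reduce
        rw [(hG l hl _ (hmem r hr)).2, hGY l hl, mul_assoc]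
        congr 3
        ring
    rw [Fl_eq h1]
    rw [Complex.ofReal_one, one_mul]
  have hder : ∀ l ∈ ball (L (τ0, gs)) ρ, ∀ z ∈ ball (0 : ℂ) ρ,
      HasDerivAt (fun l' => b (l', z)) (G (y l 0) * exp (u * z) / Fl (y l 0) (u * z)) l := by
    intro l hl z hz
    obtain ⟨h1, h2, h3⟩ := hb l hl z hz
    have h4 : DifferentiableAt ℂ (fun l' : ℂ => b (l', z)) l :=
      DifferentiableAt.comp (f := fun l' : ℂ => ((l', z) : ℂ × ℂ)) (g := b) l
        h1.differentiableAt (differentiableAt_id.prodMk (differentiableAt_const _))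
    have h5 := h4.hasDerivAt
    have h6 := Loc_dt h h2
    have h7 : HasDerivAt (fun l' : ℂ => L (b (l', z), gs * exp (u * z)))
        (dt L (b (l, z), gs * exp (u * z)) * deriv (fun l' : ℂ => b (l', z)) l) l :=
      HasDerivAt.comp (h₂ := fun τ => L (τ, gs * exp (u * z))) (h := fun l' : ℂ => b (l', z))
        l h6 h5
    have h8 : HasDerivAt (fun l' : ℂ => L (b (l', z), gs * exp (u * z))) 1 l := by
      refine (hasDerivAt_id l).congr_of_eventuallyEq ?_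
      filter_upwards [isOpen_ball.mem_nhds hl] with l' hl'
      exact (hb l' hl' z hz).2.2
    have h9 := h7.unique h8
    have h10 : deriv (fun l' : ℂ => b (l', z)) l =
        G (y l 0) * exp (u * z) / Fl (y l 0) (u * z) := by
      rw [hFl l hl z hz, hGY l hl]
      have k1 : y l z ≠ 0 := ne_zero_of_sin (hG l hl z hz).1
      rw [eq_div_iff k1]
      change deriv (fun l' : ℂ => b (l', z)) l * (R l * (gs * exp (u * z) *
        dt L (b (l, z), gs * exp (u * z)))) = R l * gs * exp (u * z)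
      linear_combination (R l * gs * exp (u * z)) * h9
    rw [← h10]
    exact h5
  refine ⟨ρ, hρ, fun l => y l 0, fun l z => b (l, z), ⟨?_, ?_, ?_⟩, ?_, hder, ?_, ?_⟩
  · intro l hl
    refine DifferentiableAt.differentiableWithinAt ?_
    obtain ⟨h1, h2, h3⟩ := hb l hl 0 hz0
    have h4 : DifferentiableAt ℂ (fun l' : ℂ => (b (l', 0), gs * exp (u * 0))) l :=
      (hder l hl 0 hz0).differentiableAt.prodMk (differentiableAt_const _)
    have h5 : DifferentiableAt ℂ (fun l' : ℂ => dt L (b (l', 0), gs * exp (u * 0))) l :=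
      DifferentiableAt.comp (f := fun l' : ℂ => (b (l', 0), gs * exp (u * 0))) (g := dt L) l
        (h.an_dt _ h2).differentiableAt h4
    exact (hRb l hl).1.mul ((differentiableAt_const _).mul h5)
  · intro l hl
    obtain ⟨h1, h2, h3⟩ := hb l hl 0 hz0
    refine ⟨?_, (hG l hl 0 hz0).1, ?_⟩
    · have h4 := h.low _ h2
      rwa [h3] at h4
    · rw [hGY l hl, mul_pow, (hRb l hl).2.1, mul_comm]
  · intro t ht l hl
    refine hder l hl t ?_
    rw [mem_ball_zero_iff, Complex.norm_real, Real.norm_of_nonneg ht.1.le]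
    exact ht.2
  · intro l hl z hz
    exact (hb l hl z hz).2
  · intro l hl z hz
    exact hbc l hl z hz
  · have c1 : ContinuousAt (fun τ : ℂ => L (τ, gs)) τ0 := (Loc_dt h h0).continuousAt
    have c2 : ∀ᶠ τ in 𝓝 τ0, L (τ, gs) ∈ ball (L (τ0, gs)) ρ :=
      c1.preimage_mem_nhds (isOpen_ball.mem_nhds (mem_ball_self hρ))
    have c3 : ∀ᶠ τ in 𝓝 τ0, (τ, gs) ∈ U := by
      have : ContinuousAt (fun τ : ℂ => (τ, gs)) τ0 := by fun_prop
      exact this.preimage_mem_nhds (h.isOpen.mem_nhds h0)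
    obtain ⟨ρ1, hρ1, hτ⟩ := Metric.eventually_nhds_iff.1 (hb2.and (c2.and c3))
    refine ⟨ρ1, hρ1, fun τ hτ' => ?_⟩
    obtain ⟨k1, k2, k3⟩ := hτ hτ'
    refine ⟨k3, k2, k1, fun r hr1 hr2 => ?_⟩
    obtain ⟨-, m2, m3, m4⟩ := hRb _ k2
    have m5 : r = R (L (τ, gs)) := by
      have m6 : (r - R (L (τ, gs))) * (r + R (L (τ, gs))) = 0 := by
        linear_combination hr1 - m2
      rcases mul_eq_zero.1 m6 with m7 | m7
      · exact sub_eq_zero.1 m7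
      · exfalso
        have m8 : ‖(2 : ℂ) * r0‖ ≤ ‖r - r0‖ + ‖R (L (τ, gs)) - r0‖ := by
          have m9 : (2 : ℂ) * r0 = -(r - r0) - (R (L (τ, gs)) - r0) := by
            linear_combination m7
          rw [m9]
          refine (norm_sub_le _ _).trans ?_
          rw [norm_neg]
        rw [norm_mul, Complex.norm_ofNat] at m8
        have m10 : 0 < ‖r0‖ := norm_pos_iff.2 hr0
        linarith
    change R (L (τ, gs)) * (gs * exp (u * 0) * dt L (b (L (τ, gs), 0), gs * exp (u * 0))) = _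
    rw [k1, e0, m5]

end Pool.Agent.MP_ae5b4e_an_WD
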