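import Mathlib

/-!
# POR (iii), N2, bridge: continuous square root along a path
-/

namespace Pool.Agent.MP_ae5b4e_an_WD

open Complex Set Filter Topology Metric

/-- a continuous non vanishing function on `[0,1]` has a continuous square root (locally a branch of
the logarithm; glue over a subdivision) -/
theorem exists_sqrt_path {f : ℝ → ℂ} (hf : ContinuousOn f (Icc 0 1))
    (h0 : ∀ s ∈ Icc (0 : ℝ) 1, f s ≠ 0) :
    ∃ r : ℝ → ℂ, ContinuousOn r (Icc 0 1) ∧ ∀ s ∈ Icc (0 : ℝ) 1, r s ^ 2 = f s := by
  have hc : Continuous (fun s : ℝ => f (projIcc (0 : ℝ) 1 zero_le_one s)) :=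
    hf.comp_continuous (continuous_subtype_val.comp continuous_projIcc) (fun s => (projIcc _ _ _ s).2)
  have hU : IsSimplyConnected (univ : Set ℝ) := by
    have : ContractibleSpace (univ : Set ℝ) := convex_univ.contractibleSpace univ_nonempty
    unfold IsSimplyConnected
    infer_instance
  obtain ⟨r, hr, hr2⟩ := Complex.exists_continuousOn_pow_eq hU isOpen_univ hc.continuousOn
    (by
      rintro ⟨s, -, hs⟩
      exact h0 _ (projIcc (0 : ℝ) 1 zero_le_one s).2 hs) (n := 2) two_ne_zero
  refine ⟨r, hr.mono (subset_univ _), fun s hs => ?_⟩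
  rw [hr2 s, projIcc_of_mem zero_le_one hs]

end Pool.Agent.MP_ae5b4e_an_WD
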