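import Pool.Agent.Lib.MP_ae5b4e_an_WD.Loc
import Pool.Agent.Lib.MP_ae5b4e_an_WD.Path1

/-!
# POR (iii), N2, bridge: path of labels of a path in the D-side
-/

namespace Pool.Agent.MP_ae5b4e_an_WD

open Complex Set Filter Topology Metric
open Pool.Agent.MP_ae5b4e_an_WB
open Pool.Agent.MP_ae5b4e_an_M (S1 C1f Gf)

private theorem path_uniq {q : ℂ → ℂ} {U : Set (ℂ × ℂ)} {L : ℂ × ℂ → ℂ} (h : DS q U L)
    {gs u τ : ℂ} (hp : (τ, gs) ∈ U) {g1 g2 : ℂ → ℂ} {R1 R2 : ℝ}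
    (h1 : AnalyticOnNhd ℂ g1 (ball 0 R1)) (h2 : AnalyticOnNhd ℂ g2 (ball 0 R2))
    (i1 : InvGerm U L gs u τ g1) (i2 : InvGerm U L gs u τ g2) {z : ℂ} (hz1 : z ∈ ball (0 : ℂ) R1)
    (hz2 : z ∈ ball (0 : ℂ) R2) : g1 z = g2 z := by
  have hR1 : 0 < R1 := (norm_nonneg z).trans_lt (mem_ball_zero_iff.1 hz1)
  have hR2 : 0 < R2 := (norm_nonneg z).trans_lt (mem_ball_zero_iff.1 hz2)
  have hR : 0 < min R1 R2 := lt_min hR1 hR2
  have he : g1 =ᶠ[𝓝 0] g2 := h.invGerm_unique hp i1 i2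
  have heq := (h1.mono (ball_subset_ball (min_le_left R1 R2))).eqOn_of_preconnected_of_eventuallyEq
    (h2.mono (ball_subset_ball (min_le_right R1 R2))) (convex_ball _ _).isPreconnected
    (mem_ball_self hR) he
  exact heq (mem_ball_zero_iff.2 (lt_min (mem_ball_zero_iff.1 hz1) (mem_ball_zero_iff.1 hz2)))

open Classical in
private noncomputable def pathT (U : Set (ℂ × ℂ)) (L : ℂ × ℂ → ℂ) (gs u τ z : ℂ) : ℂ :=
  if hh : ∃ g : ℂ → ℂ, ∃ R : ℝ, AnalyticOnNhd ℂ g (ball 0 R) ∧ InvGerm U L gs u τ g ∧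
    z ∈ ball (0 : ℂ) R then (Classical.choose hh) z else 0

private theorem pathT_eq {q : ℂ → ℂ} {U : Set (ℂ × ℂ)} {L : ℂ × ℂ → ℂ} (h : DS q U L)
    {gs u τ : ℂ} (hp : (τ, gs) ∈ U) {g : ℂ → ℂ} {R : ℝ}
    (h1 : AnalyticOnNhd ℂ g (ball 0 R)) (i1 : InvGerm U L gs u τ g) {z : ℂ}
    (hz : z ∈ ball (0 : ℂ) R) : pathT U L gs u τ z = g z := by
  have hh : ∃ g : ℂ → ℂ, ∃ R : ℝ, AnalyticOnNhd ℂ g (ball 0 R) ∧ InvGerm U L gs u τ g ∧
    z ∈ ball (0 : ℂ) R := ⟨g, R, h1, i1, hz⟩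
  have e : pathT U L gs u τ z = (Classical.choose hh) z := by
    unfold pathT
    rw [dif_pos hh]
  rw [e]
  obtain ⟨R', ha, hi, hz'⟩ := Classical.choose_spec hh
  exact path_uniq h hp ha h1 hi i1 hz' hz

private theorem path_inv {U : Set (ℂ × ℂ)} {L : ℂ × ℂ → ℂ} {gs u τ l : ℂ} {ρ : ℝ} (hρ : 0 < ρ)
    {f : ℂ → ℂ} (hl : L (τ, gs) = l) (ha : AnalyticOnNhd ℂ f (ball 0 ρ)) (h0 : f 0 = τ)
    (hU : ∀ z ∈ ball (0 : ℂ) ρ, (f z, gs * exp (u * z)) ∈ U ∧ L (f z, gs * exp (u * z)) = l) :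
    InvGerm U L gs u τ f := by
  refine ⟨ha 0 (mem_ball_self hρ), h0, ?_⟩
  filter_upwards [ball_mem_nhds (0 : ℂ) hρ] with z hz
  rw [hl]
  exact hU z hz

/-- D1. `y s = r s * (gs * dt L (ζ s, gs))`, `T s z = F_s (L (ζ s, gs)) z` with the `F` of `exists_loc` at
`ζ s`. Near `s`: `F_s (L (ζ s', gs)) z = T s' z` by uniqueness of germs and the identity theorem on
`ball 0 ρ` (after shrinking `ρ`: both are holomorphic in `z` on a common ball, equal near `0`). -/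
theorem exists_pathPrim {q : ℂ → ℂ} {U : Set (ℂ × ℂ)} {L : ℂ × ℂ → ℂ} (h : DS q U L)
    {u gs : ℂ} {ζ : ℝ → ℂ} (hζ : ContinuousOn ζ (Icc 0 1))
    (hU : ∀ s ∈ Icc (0 : ℝ) 1, (ζ s, gs) ∈ U)
    (hq0 : ∀ s ∈ Icc (0 : ℝ) 1, q (L (ζ s, gs)) ≠ 0) :
    ∃ (y : ℝ → ℂ) (T : ℝ → ℂ → ℂ),
      PathPrim u gs q (fun s => L (ζ s, gs)) y (fun s t => T s t) ∧
      (∀ s ∈ Icc (0 : ℝ) 1, InvGerm U L gs u (ζ s) (T s)) ∧
      ∀ s ∈ Icc (0 : ℝ) 1, y s ^ 2 = y2 q L (ζ s, gs) := by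
  have hLc : ContinuousOn L U := fun p hp => (h.an p hp).continuousAt.continuousWithinAt
  have hpc : ContinuousOn (fun s => L (ζ s, gs)) (Icc 0 1) :=
    hLc.comp (hζ.prodMk continuousOn_const) (fun s hs => hU s hs)
  have hfc : ContinuousOn (fun s => q (L (ζ s, gs))) (Icc 0 1) :=
    h.qd.continuousOn.comp hpc (fun s hs => h.low _ (hU s hs))
  obtain ⟨r, hrc, hr2⟩ := exists_sqrt_path hfc hq0
  have hr0 : ∀ s ∈ Icc (0 : ℝ) 1, r s ≠ 0 := by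
    intro s hs h0
    apply hq0 s hs
    rw [← hr2 s hs, h0]
    ring
  refine ⟨fun s => r s * (gs * dt L (ζ s, gs)), fun s => pathT U L gs u (ζ s), ?_, ?_, ?_⟩
  · intro s hs
    obtain ⟨ρ, hρ, Y, F, hLP, hFU, hFd, hFan, ρ1, hρ1, hloc⟩ :=
      exists_loc h (u := u) (hU s hs) (hr2 s hs) (hr0 s hs)
    obtain ⟨ε1, hε1, h1⟩ := Metric.continuousWithinAt_iff.1 (hζ s hs) ρ1 hρ1
    obtain ⟨ε2, hε2, h2⟩ := Metric.continuousWithinAt_iff.1 (hrc s hs) (‖r s‖ / 2)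
      (half_pos (norm_pos_iff.2 (hr0 s hs)))
    refine ⟨ρ, min ε1 ε2, hρ, lt_min hε1 hε2, Y, fun l t => F l t, hLP, fun s' hs' hlt => ?_⟩
    have hd1 : dist s' s < ε1 := by
      rw [Real.dist_eq]
      exact hlt.trans_le (min_le_left _ _)
    have hd2 : dist s' s < ε2 := by
      rw [Real.dist_eq]
      exact hlt.trans_le (min_le_right _ _)
    have hζ' : ζ s' ∈ ball (ζ s) ρ1 := h1 hs' hd1
    have hr' : ‖r s' - r s‖ < ‖r s‖ / 2 := by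
      rw [← dist_eq_norm]
      exact h2 hs' hd2
    obtain ⟨hUt, hLball, hF0, hY⟩ := hloc (ζ s') hζ'
    refine ⟨hLball, hY (r s') (hr2 s' hs') hr', fun t ht => ?_⟩
    refine (pathT_eq h (hU s' hs') (hFan _ hLball)
      (path_inv hρ rfl (hFan _ hLball) hF0 (fun z hz => hFU _ hLball z hz)) ?_).symm
    rw [mem_ball_zero_iff, Complex.norm_real, Real.norm_eq_abs, abs_of_pos ht.1]
    exact ht.2
  · intro s hs
    obtain ⟨ρ, hρ, Y, F, hLP, hFU, hFd, hFan, ρ1, hρ1, hloc⟩ :=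
      exists_loc h (u := u) (hU s hs) (hr2 s hs) (hr0 s hs)
    obtain ⟨hUt, hLball, hF0, hY⟩ := hloc (ζ s) (mem_ball_self hρ1)
    have hinv : InvGerm U L gs u (ζ s) (F (L (ζ s, gs))) :=
      path_inv hρ rfl (hFan _ hLball) hF0 (fun z hz => hFU _ hLball z hz)
    have heq : ∀ z ∈ ball (0 : ℂ) ρ, pathT U L gs u (ζ s) z = F (L (ζ s, gs)) z :=
      fun z hz => pathT_eq h (hU s hs) (hFan _ hLball) hinv hz
    show InvGerm U L gs u (ζ s) (pathT U L gs u (ζ s))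
    refine path_inv hρ rfl ?_ ?_ ?_
    · exact (hFan _ hLball).congr isOpen_ball (fun z hz => (heq z hz).symm)
    · rw [heq 0 (mem_ball_self hρ), hF0]
    · intro z hz
      rw [heq z hz]
      exact hFU _ hLball z hz
  · intro s hs
    show (r s * (gs * dt L (ζ s, gs))) ^ 2 = q (L (ζ s, gs)) * (gs * dt L (ζ s, gs)) ^ 2
    rw [mul_pow, hr2 s hs]

end Pool.Agent.MP_ae5b4e_an_WD
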