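import Pool.Agent.Lib.MP_ae5b4e_an_WD.TipL

/-!
# POR (iii), N2, bridge: the analytic family of a tip
-/

namespace Pool.Agent.MP_ae5b4e_an_WD

open Complex Set Filter Topology Metric
open Pool.Agent.MP_ae5b4e_an_WB
open Pool.Agent.MP_ae5b4e_an_M (S1 C1f Gf)

/-- `tipE` at `z = 0` is small: `‖tipE u W a Ya lam' 0‖ ≤ C ‖a‖` (`exists_norm_psi_le`; `lam'`
bounded on
`ball 0 (r/2)`) -/
theorem exists_norm_tipE_le {u lb : ℂ} {q : ℂ → ℂ} {lam : ℂ → ℂ} {r : ℝ}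
    (hlam : LocChart u q lb lam r) {W : ℂ} (hW : W ^ 2 = tipc) :
    ∃ C : ℝ, ∀ a Ya : ℂ, ‖a‖ < r / 4 → G Ya = W * exp (u * a) →
      ‖tipE u W a Ya (deriv lam) 0‖ ≤ C * ‖a‖ := by
  obtain ⟨hr0, hr1, hr2, hd, hl0, hv, hi⟩ := hlam
  obtain ⟨C, hC, hbd⟩ := TipL2_bd
  have hK : ContinuousOn (deriv lam) (closedBall 0 (r / 2)) :=
    (hd.deriv isOpen_ball).continuousOn.mono (closedBall_subset_ball (by linarith))
  obtain ⟨M, hM⟩ := (isCompact_closedBall (0 : ℂ) (r / 2)).exists_bound_of_continuousOn hK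
  have hM0 : 0 ≤ M := (norm_nonneg _).trans (hM 0 (mem_closedBall_self (by linarith)))
  refine ⟨C * (1 + ‖W‖ * Real.exp ‖u‖) * M, fun a Ya ha hG => ?_⟩
  unfold tipE
  rw [norm_mul, add_zero, mul_comm]
  apply mul_le_mul_of_nonneg_right _ (norm_nonneg _)
  have key := intervalIntegral.norm_integral_le_of_norm_le_const (a := 0) (b := 1)
    (C := C * (1 + ‖W‖ * Real.exp ‖u‖) * M)
    (f := fun θ : ℝ => W * exp (u * (θ * a)) / Fl Ya (u * (θ * a - a)) *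
      deriv lam (θ * a - 0)) (by
    intro θ hθ
    rw [uIoc_of_le zero_le_one] at hθ
    have h1 : ‖(θ : ℂ) * a‖ ≤ ‖a‖ := by
      rw [norm_mul, Complex.norm_real, Real.norm_of_nonneg hθ.1.le]
      have := mul_le_mul_of_nonneg_right hθ.2 (norm_nonneg a)
      linarith
    have h2 : ‖(θ : ℂ) * a‖ ≤ 1 := by linarith
    rw [norm_mul]
    refine mul_le_mul ((hbd u W a Ya hG _).trans ?_) (hM _ ?_) (norm_nonneg _) (by positivity)
    · have h3 : Real.exp (‖u‖ * ‖(θ : ℂ) * a‖) ≤ Real.exp ‖u‖ := by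
        apply Real.exp_le_exp.2
        have := mul_le_mul_of_nonneg_left h2 (norm_nonneg u)
        linarith
      have h4 := mul_le_mul_of_nonneg_left h3 (norm_nonneg W)
      exact mul_le_mul_of_nonneg_left (by linarith) hC.le
    · rw [sub_zero, mem_closedBall_zero_iff]
      linarith)
  rw [sub_zero, abs_one, mul_one] at key
  exact key

/-- THE TIP FAMILY. For small `s > 0` the label `L (ζb - i s, gs)` is `lam (a s)` with `a s → 0`,
`a s ≠ 0` (`TipAt.seg`). By `tip_local` the germ `f_s z - tipE(a s)` does not depend on `s ∈ (0,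
s1]`
(connectedness); call it `Tb` (analytic: `analyticAt_tipE`, `InvGerm`). At `z = 0`:
`Tb 0 = ζb - i s - tipE(a s) 0 → ζb` as `s → 0` (`exists_norm_tipE_le`; `W` only depends on the
sign,
`tipE_neg`), so `Tb 0 = ζb`. The last statement is `tip_local` at `τ0 = ζb - i s`. -/
theorem exists_tipFam {q : ℂ → ℂ} {U : Set (ℂ × ℂ)} {L : ℂ × ℂ → ℂ} (h : DS q U L) {u gs lb ζb : ℂ}
    (hu : 0 < u.re) (hgs : gs ≠ 0) {lam : ℂ → ℂ} {r : ℝ} (hlam : LocChart u q lb lam r)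
    (hT : TipAt q U L gs ζb lb) :
    ∃ Tb : ℂ → ℂ, AnalyticAt ℂ Tb 0 ∧ Tb 0 = ζb ∧ ∃ s1 : ℝ, 0 < s1 ∧ ∀ s ∈ Ioc (0 : ℝ) s1,
      ∃ δ : ℝ, 0 < δ ∧ ∀ τ ∈ ball (ζb - I * s) δ, (τ, gs) ∈ U ∧
        ∃ a : ℂ, TipGerm q U L gs u lam τ a Tb := by
  classical
  have hlam' := hlam
  obtain ⟨hr0, hr1, hr2, hd, hl0, hv, hi⟩ := hlam'
  have hqlb : q lb ≠ 0 := by
    intro h1
    have h2 := hT.tip
    rw [h1, mul_zero] at h2
    exact TipL2_tipc_ne h2.symm
  obtain ⟨s0, hs0, hseg⟩ := hT.seg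
  have h0r : (0 : ℂ) ∈ ball (0 : ℂ) r := mem_ball_self hr0
  -- images of balls
  have himg : ∀ η : ℝ, 0 < η → ∀ᶠ s : ℝ in 𝓝[>] 0,
      L (ζb - I * s, gs) ∈ lam '' (ball 0 η) := by
    intro η hη
    have h1 := hlam.map_nhds hu h.qd hqlb h0r
    rw [hl0] at h1
    have h2 : lam '' ball 0 η ∈ 𝓝 lb := by
      rw [← h1]
      exact image_mem_map (ball_mem_nhds 0 hη)
    exact hT.lim.eventually h2
  obtain ⟨s1', hs1', hs1i⟩ := mem_nhdsGT_iff_exists_Ioc_subset.1 (himg (r / 16) (by linarith))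
  set s1 : ℝ := min s0 s1' with hs1d
  have hs1 : 0 < s1 := lt_min hs0 hs1'
  have hU : ∀ s ∈ Ioc (0 : ℝ) s1, (ζb - I * s, gs) ∈ U := fun s hs =>
    (hseg s ⟨hs.1, hs.2.trans (min_le_left _ _)⟩).1
  have hex : ∀ s : ℝ, ∃ a : ℂ, s ∈ Ioc (0 : ℝ) s1 → a ∈ ball (0 : ℂ) (r / 16) ∧
      lam a = L (ζb - I * s, gs) ∧ a ≠ 0 := by
    intro s
    by_cases hs : s ∈ Ioc (0 : ℝ) s1
    · obtain ⟨a, ha1, ha2⟩ := hs1i ⟨hs.1, hs.2.trans (min_le_right _ _)⟩
      refine ⟨a, fun _ => ⟨ha1, ha2, ?_⟩⟩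
      rintro rfl
      apply (hseg s ⟨hs.1, hs.2.trans (min_le_left _ _)⟩).2
      rw [← ha2, hl0]
      exact hT.tip
    · exact ⟨0, fun h1 => absurd h1 hs⟩
  choose a ha using hex
  have hexY : ∀ s : ℝ, ∃ Y : ℂ, Y ^ 2 = y2 q L (ζb - I * s, gs) := fun s =>
    IsAlgClosed.exists_pow_nat_eq _ two_pos
  choose Y hY using hexY
  have hexf : ∀ s : ℝ, ∃ f : ℂ → ℂ, s ∈ Ioc (0 : ℝ) s1 →
      InvGerm U L gs u (ζb - I * s) f := by
    intro s
    by_cases hs : s ∈ Ioc (0 : ℝ) s1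
    · obtain ⟨f, hf⟩ := h.exists_invGerm (u := u) (hU s hs)
      exact ⟨f, fun _ => hf⟩
    · exact ⟨fun _ => 0, fun h1 => absurd h1 hs⟩
  choose f hf using hexf
  set T : ℝ → ℂ → ℂ := fun s z =>
    f s z - tipE u (G (Y s) * exp (-(u * a s))) (a s) (Y s) (deriv lam) z with hTd
  have har : ∀ s ∈ Ioc (0 : ℝ) s1, 8 * ‖a s‖ < r := by
    intro s hs
    have := mem_ball_zero_iff.1 (ha s hs).1
    linarith
  -- local constancy
  have hloc : ∀ s ∈ Ioc (0 : ℝ) s1, ∃ ε : ℝ, 0 < ε ∧ ∀ τ ∈ ball (ζb - I * s) ε, (τ, gs) ∈ U ∧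
      ∃ b : ℂ, ‖b - a s‖ < ‖a s‖ / 16 ∧ lam b = L (τ, gs) ∧ ∀ (Y1 : ℂ) (f1 : ℂ → ℂ),
        Y1 ^ 2 = y2 q L (τ, gs) → InvGerm U L gs u τ f1 → ∀ᶠ z in 𝓝 (0 : ℂ),
          f1 z - tipE u (G Y1 * exp (-(u * b))) b Y1 (deriv lam) z = T s z := by
    intro s hs
    obtain ⟨ε, hε, h1⟩ := tip_local h hu hgs hlam hT.tip (hU s hs) (ha s hs).2.1 (ha s hs).2.2
      (har s hs)
    refine ⟨ε, hε, fun τ hτ => ?_⟩
    obtain ⟨h2, b, h3, h4, h5⟩ := h1 τ hτ
    exact ⟨h2, b, h3, h4, fun Y1 f1 hY1 hf1 => h5 (Y s) Y1 (f s) f1 (hY s) hY1 (hf s hs) hf1⟩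
  have hconst : ∀ s ∈ Ioc (0 : ℝ) s1, T s =ᶠ[𝓝 0] T s1 := by
    have hpc : PreconnectedSpace (Ioc (0 : ℝ) s1) :=
      Subtype.preconnectedSpace isPreconnected_Ioc
    have hlc : IsLocallyConstant
        (fun s : Ioc (0 : ℝ) s1 => ((T s : ℂ → ℂ) : Germ (𝓝 (0 : ℂ)) ℂ)) := by
      rw [IsLocallyConstant.iff_eventually_eq]
      intro s
      obtain ⟨ε, hε, h1⟩ := hloc s s.2
      have h2 : ∀ᶠ s' : Ioc (0 : ℝ) s1 in 𝓝 s, (ζb - I * (s' : ℝ)) ∈ ball (ζb - I * (s : ℝ)) ε := by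
        have hc : Continuous fun s' : Ioc (0 : ℝ) s1 => (ζb - I * (s' : ℝ)) := by fun_prop
        exact hc.continuousAt.eventually (ball_mem_nhds _ hε)
      filter_upwards [h2] with s' hs'
      obtain ⟨-, b, h3, h4, h5⟩ := h1 _ hs'
      have h6 : b = a s' := by
        have hb : b ∈ ball (0 : ℂ) r := by
          rw [mem_ball_zero_iff]
          have h7 := norm_sub_norm_le b (a s)
          have h8 := har s s.2
          have h9 := norm_nonneg (a s)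
          linarith
        have hb' : a s' ∈ ball (0 : ℂ) r := by
          rw [mem_ball_zero_iff]
          have h8 := har s' s'.2
          have h9 := norm_nonneg (a s')
          linarith
        exact hi hb hb' (h4.trans (ha s' s'.2).2.1.symm)
      rw [h6] at h5
      exact Germ.coe_eq.2 (h5 (Y s') (f s') (hY s') (hf s' s'.2))
    intro s hs
    have h1 := hlc.apply_eq_of_preconnectedSpace ⟨s, hs⟩ ⟨s1, ⟨hs1, le_rfl⟩⟩
    exact Germ.coe_eq.1 h1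
  have hs1m : s1 ∈ Ioc (0 : ℝ) s1 := ⟨hs1, le_rfl⟩
  -- the values of `G`
  have hGY : ∀ s ∈ Ioc (0 : ℝ) s1, sin (Y s) ≠ 0 ∧ (G (Y s) * exp (-(u * a s))) ^ 2 = tipc := by
    intro s hs
    have hq : q (L (ζb - I * s, gs)) ≠ 0 := by
      rw [← (ha s hs).2.1, (hv _ (ball_subset_ball (by linarith) (ha s hs).1)).2]
      exact mul_ne_zero hqlb (Complex.exp_ne_zero _)
    obtain ⟨h1, h2, -⟩ := h.G_of_sq (hU s hs) hq (hY s)
    refine ⟨h1, ?_⟩
    rw [mul_pow, h2, ← (ha s hs).2.1, (hv _ (ball_subset_ball (by linarith) (ha s hs).1)).2,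
      ← Complex.exp_nat_mul]
    have h3 : gs ^ 2 * (q lb * exp (2 * (u * a s))) * exp ((2 : ℕ) * -(u * a s)) =
        gs ^ 2 * q lb * (exp (2 * (u * a s)) * exp ((2 : ℕ) * -(u * a s))) := by ring
    have h4 : 2 * (u * a s) + (2 : ℕ) * -(u * a s) = 0 := by push_cast; ring
    rw [h3, ← Complex.exp_add, hT.tip, h4, Complex.exp_zero, mul_one]
  have hGYe : ∀ s : ℝ, G (Y s) = G (Y s) * exp (-(u * a s)) * exp (u * a s) := by
    intro s
    rw [mul_assoc, ← Complex.exp_add, neg_add_cancel, Complex.exp_zero, mul_one]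
  refine ⟨T s1, ?_, ?_, s1, hs1, ?_⟩
  · -- analytic
    refine (hf s1 hs1m).1.sub ?_
    exact analyticAt_tipE hu (hGY s1 hs1m).2 (hGY s1 hs1m).1 (hGYe s1) (ha s1 hs1m).2.2
      (by have := har s1 hs1m; have := norm_nonneg (a s1); linarith) hr2 hr1
      (hd.deriv isOpen_ball)
  · -- the value at `0`
    obtain ⟨W, hW⟩ : ∃ W : ℂ, W ^ 2 = tipc := IsAlgClosed.exists_pow_nat_eq _ two_pos
    obtain ⟨C1, hC1⟩ := exists_norm_tipE_le hlam hW
    obtain ⟨C2, hC2⟩ := exists_norm_tipE_le hlam (W := -W) (by rw [neg_sq]; exact hW)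
    have hbd : ∀ s ∈ Ioc (0 : ℝ) s1, ‖T s1 0 - (ζb - I * s)‖ ≤ max C1 C2 * ‖a s‖ := by
      intro s hs
      have h1 : T s 0 = T s1 0 := (hconst s hs).self_of_nhds
      have h2 : T s 0 = (ζb - I * s) -
          tipE u (G (Y s) * exp (-(u * a s))) (a s) (Y s) (deriv lam) 0 := by
        show f s 0 - _ = _
        rw [(hf s hs).2.1]
      rw [← h1, h2, sub_sub_cancel_left, norm_neg]
      have h3 : ‖a s‖ < r / 4 := by
        have := har s hs
        have := norm_nonneg (a s)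
        linarith
      have h4 : (G (Y s) * exp (-(u * a s))) ^ 2 = W ^ 2 := by rw [(hGY s hs).2, hW]
      rcases sq_eq_sq_iff_eq_or_eq_neg.1 h4 with h5 | h5
      · rw [h5]
        exact (hC1 _ _ h3 (by rw [← h5]; exact hGYe s)).trans
          (mul_le_mul_of_nonneg_right (le_max_left _ _) (norm_nonneg _))
      · rw [h5]
        exact (hC2 _ _ h3 (by rw [← h5]; exact hGYe s)).trans
          (mul_le_mul_of_nonneg_right (le_max_right _ _) (norm_nonneg _))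
    have ha0 : Tendsto (fun s : ℝ => ‖a s‖) (𝓝[>] 0) (𝓝 0) := by
      rw [Metric.tendsto_nhds]
      intro ε hε
      have h1 : 0 < min ε (r / 16) := lt_min hε (by linarith)
      filter_upwards [himg _ h1, Ioc_mem_nhdsGT hs1] with s hs2 hs
      obtain ⟨b, hb1, hb2⟩ := hs2
      have h2 : b = a s := by
        refine hi (ball_subset_ball ?_ hb1) (ball_subset_ball (by linarith) (ha s hs).1)
          (hb2.trans (ha s hs).2.1.symm)
        exact (min_le_right _ _).trans (by linarith)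
      rw [h2] at hb1
      rw [dist_zero_right, norm_norm]
      exact (mem_ball_zero_iff.1 hb1).trans_le (min_le_left _ _)
    have h1 : Tendsto (fun s : ℝ => ζb - I * s) (𝓝[>] 0) (𝓝 ζb) := by
      have hc : Continuous fun s : ℝ => ζb - I * s := by fun_prop
      have h2 := hc.tendsto 0
      rw [ofReal_zero, mul_zero, sub_zero] at h2
      exact h2.mono_left nhdsWithin_le_nhds
    have h2 : Tendsto (fun s : ℝ => ζb - I * s) (𝓝[>] 0) (𝓝 (T s1 0)) := by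
      rw [tendsto_iff_norm_sub_tendsto_zero]
      have h3 := ha0.const_mul (max C1 C2)
      rw [mul_zero] at h3
      refine squeeze_zero' (Eventually.of_forall fun s => norm_nonneg _) ?_ h3
      filter_upwards [Ioc_mem_nhdsGT hs1] with s hs
      rw [norm_sub_rev]
      exact hbd s hs
    exact tendsto_nhds_unique h2 h1
  · intro s hs
    obtain ⟨ε, hε, h1⟩ := hloc s hs
    refine ⟨ε, hε, fun τ hτ => ?_⟩
    obtain ⟨h2, b, h3, h4, h5⟩ := h1 τ hτ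
    refine ⟨h2, b, h4, ?_, fun Y1 f1 hY1 hf1 => ?_⟩
    · rintro rfl
      rw [zero_sub, norm_neg] at h3
      have := norm_pos_iff.2 (ha s hs).2.2
      linarith
    · filter_upwards [h5 Y1 f1 hY1 hf1, hconst s hs] with z hz1 hz2
      rw [hz1, hz2]

/-- the family does not depend on the chart, nor on the point from which it is seen -/
theorem tipFam_unique {q : ℂ → ℂ} {U : Set (ℂ × ℂ)} {L : ℂ × ℂ → ℂ} (h : DS q U L) {u gs lb : ℂ}
    (hu : 0 < u.re) (hgs : gs ≠ 0) {lam : ℂ → ℂ} {r : ℝ} (hlam : LocChart u q lb lam r)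
    (htip : gs ^ 2 * q lb = tipc) {τ a : ℂ} (hτ : (τ, gs) ∈ U) {T T' : ℂ → ℂ}
    (hT : TipGerm q U L gs u lam τ a T) (hT' : TipGerm q U L gs u lam τ a T') :
    ∀ᶠ z in 𝓝 (0 : ℂ), T z = T' z := by
  obtain ⟨Y, hY⟩ : ∃ Y : ℂ, Y ^ 2 = y2 q L (τ, gs) := IsAlgClosed.exists_pow_nat_eq _ two_pos
  obtain ⟨f, hf⟩ := h.exists_invGerm (u := u) hτ
  filter_upwards [hT.2.2 Y f hY hf, hT'.2.2 Y f hY hf] with z h1 h2
  rw [h1, h2]

end Pool.Agent.MP_ae5b4e_an_WD
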