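import Pool.Agent.Lib.MP_ae5b4e_an_WD.ZD

/-!
# POR (iii), N2, bridge, Z side: local coordinate at a zero of `q`
-/

namespace Pool.Agent.MP_ae5b4e_an_WD

open Complex Set Filter Topology Metric MeasureTheory
open Pool.Agent.MP_ae5b4e_an_WB
open Pool.Agent.MP_ae5b4e_an_M (S1 C1f Gf)

/-- Existence of the local coordinate. `q z = (z - z0) ^ μ • g z` near `z0` with `g z0 ≠ 0`, `g` analytic
(`AnalyticAt.exists_eventuallyEq_pow_smul_nonzero_iff`), `μ ≠ 0` as `q z0 = 0`. Choose `b ^ μ = g z0`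
(`IsAlgClosed.exists_pow_nat_eq`), `χ z := (z - z0) * (b * exp (log (g z / g z0) / μ))`: analytic at
`z0`, `χ ^ μ = q` near `z0`, `χ z0 = 0`, `χ' z0 = b ≠ 0`. `lam` = local inverse of `χ`
(`HasStrictDerivAt.localInverse`, or `HasStrictDerivAt.to_localInverse`): `χ (lam c) = c` near `0`, so
`lam` is injective near `0`, and holomorphic near `0` (at every `c` near `0`: inverse function rule,
`χ' ≠ 0` near `z0`). -/
theorem exists_zChart {q : ℂ → ℂ} (hq : DifferentiableOn ℂ q Hm) {z0 : ℂ} (hz : z0.im < 0)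
    (h0 : q z0 = 0) (hne : ¬ ∀ᶠ z in 𝓝 z0, q z = 0) :
    ∃ (μ : ℕ) (lam : ℂ → ℂ) (r : ℝ), ZChart q z0 μ lam r := by
  have hopen : IsOpen {z : ℂ | z.im < 0} := isOpen_lt continuous_im continuous_const
  have hqa : AnalyticAt ℂ q z0 := by
    apply DifferentiableOn.analyticAt (s := {z : ℂ | z.im < 0})
    · exact hq.mono (fun z hz' => hz')
    · exact hopen.mem_nhds hz
  obtain ⟨μ, g, hg, hg0, hev⟩ := hqa.exists_eventuallyEq_pow_smul_nonzero_iff.2 hne
  have hμ : μ ≠ 0 := by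
    rintro rfl
    have h1 := hev.self_of_nhds
    rw [h0] at h1
    simp at h1
    exact hg0 h1.symm
  have hμC : (μ : ℂ) ≠ 0 := Nat.cast_ne_zero.2 hμ
  obtain ⟨b, hb⟩ := IsAlgClosed.exists_pow_nat_eq (g z0) (Nat.pos_of_ne_zero hμ)
  have hb0 : b ≠ 0 := by
    rintro rfl
    rw [zero_pow hμ] at hb
    exact hg0 hb.symm
  set h : ℂ → ℂ := fun z => b * exp (log (g z / g z0) / μ) with hh
  have hha : AnalyticAt ℂ h z0 := by
    have h1 : AnalyticAt ℂ (fun z => g z / g z0) z0 := hg.div analyticAt_const hg0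
    have h2 : AnalyticAt ℂ (fun z => log (g z / g z0)) z0 := by
      apply h1.clog
      rw [div_self hg0]
      exact one_mem_slitPlane
    exact analyticAt_const.mul ((h2.div analyticAt_const hμC).cexp)
  have hhz : h z0 = b := by
    simp [hh, div_self hg0]
  set χ : ℂ → ℂ := fun z => (z - z0) * h z with hχ
  have hχa : AnalyticAt ℂ χ z0 := (analyticAt_id.sub analyticAt_const).mul hha
  have hχ0 : χ z0 = 0 := by simp [hχ]
  have hχd : HasDerivAt χ b z0 := by
    have h1 : HasDerivAt (fun z : ℂ => z - z0) 1 z0 := (hasDerivAt_id z0).sub_const z0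
    have h2 := h1.mul hha.differentiableAt.hasDerivAt
    have h3 : 1 * h z0 + (z0 - z0) * deriv h z0 = b := by rw [hhz]; ring
    rw [h3] at h2
    exact h2
  have hχs : HasStrictDerivAt χ b z0 := by
    have h1 := hχa.hasStrictDerivAt
    rwa [hχd.deriv] at h1
  have hpow : ∀ᶠ z in 𝓝 z0, q z = (χ z) ^ μ := by
    have h1 : ∀ᶠ z in 𝓝 z0, g z ≠ 0 := hg.continuousAt.eventually_ne hg0
    filter_upwards [hev, h1] with z hz1 hz2
    rw [hz1, smul_eq_mul, hχ]
    simp only [hh, mul_pow]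
    rw [← Complex.exp_nat_mul, mul_div_cancel₀ _ hμC, Complex.exp_log (div_ne_zero hz2 hg0), hb]
    field_simp
  let e : OpenPartialHomeomorph ℂ ℂ := (hχs.hasStrictFDerivAt_equiv hb0).toOpenPartialHomeomorph χ
  have hec : (e : ℂ → ℂ) = χ := rfl
  have hes : z0 ∈ e.source :=
    (hχs.hasStrictFDerivAt_equiv hb0).mem_toOpenPartialHomeomorph_source
  have het : (0 : ℂ) ∈ e.target := by
    have h1 := e.map_source hes
    rw [hec, hχ0] at h1
    exact h1
  have hsymm0 : e.symm 0 = z0 := by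
    have h1 := e.left_inv hes
    rw [hec, hχ0] at h1
    exact h1
  have hcd : ContDiffAt ℂ 1 e.symm 0 := by
    apply e.contDiffAt_symm_deriv hb0 het
    · rw [hsymm0, hec]
      exact hχd
    · rw [hsymm0, hec]
      exact hχa.contDiffAt
  have hcont : Tendsto e.symm (𝓝 0) (𝓝 z0) := by
    have h1 := hcd.continuousAt.tendsto
    rwa [hsymm0] at h1
  have hdiff : ∀ᶠ c in 𝓝 (0 : ℂ), DifferentiableAt ℂ e.symm c := by
    have h1 := hcd.eventually (by simp)
    filter_upwards [h1] with c hc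
    exact hc.differentiableAt (by simp)
  have hall : ∀ᶠ c in 𝓝 (0 : ℂ), DifferentiableAt ℂ e.symm c ∧ c ∈ e.target ∧
      (e.symm c).im < 0 ∧ q (e.symm c) = c ^ μ := by
    filter_upwards [hdiff, e.open_target.mem_nhds het, hcont.eventually hpow,
      hcont.eventually (hopen.mem_nhds hz)] with c h1 h2 h3 h4
    refine ⟨h1, h2, h4, ?_⟩
    rw [h3]
    have h5 := e.right_inv h2
    rw [hec] at h5
    rw [h5]
  obtain ⟨r, hr, hball⟩ := Metric.eventually_nhds_iff_ball.1 hall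
  refine ⟨μ, e.symm, r, hr, Nat.pos_of_ne_zero hμ, ?_, hsymm0, ?_, ?_⟩
  · intro c hc
    exact (hball c hc).1.differentiableWithinAt
  · intro c hc
    exact (hball c hc).2.2
  · intro c hc c' hc' hcc
    have h1 := e.right_inv (hball c hc).2.1
    have h2 := e.right_inv (hball c' hc').2.1
    rw [← h1, ← h2, hcc]

/-- differentiate `q (lam c) = c ^ μ` at `c ≠ 0` -/
theorem ZChart.deriv_ne {q : ℂ → ℂ} {z0 : ℂ} {μ : ℕ} {lam : ℂ → ℂ} {r : ℝ}
    (hq : DifferentiableOn ℂ q Hm) (h : ZChart q z0 μ lam r) {c : ℂ} (hc : c ∈ ball (0 : ℂ) r)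
    (hc0 : c ≠ 0) : deriv lam c ≠ 0 := by
  have hopen : IsOpen {z : ℂ | z.im < 0} := isOpen_lt continuous_im continuous_const
  have hlam : DifferentiableAt ℂ lam c := (h.d c hc).differentiableAt (isOpen_ball.mem_nhds hc)
  have hqd : DifferentiableAt ℂ q (lam c) := by
    have h1 : DifferentiableOn ℂ q {z : ℂ | z.im < 0} := hq.mono (fun z hz' => hz')
    exact (h1 _ (h.val c hc).1).differentiableAt (hopen.mem_nhds (h.val c hc).1)
  have hcomp : HasDerivAt (fun x => q (lam x)) (deriv q (lam c) * deriv lam c) c :=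
    hqd.hasDerivAt.comp c hlam.hasDerivAt
  have hpow : HasDerivAt (fun x : ℂ => x ^ μ) (μ * c ^ (μ - 1)) c := hasDerivAt_pow μ c
  have hev : (fun x => q (lam x)) =ᶠ[𝓝 c] fun x => x ^ μ := by
    filter_upwards [isOpen_ball.mem_nhds hc] with x hx
    exact (h.val x hx).2
  have heq := hcomp.unique (hpow.congr_of_eventuallyEq hev)
  intro h0
  rw [h0, mul_zero] at heq
  have h1 : (μ : ℂ) * c ^ (μ - 1) ≠ 0 :=
    mul_ne_zero (Nat.cast_ne_zero.2 h.mu.ne') (pow_ne_zero _ hc0)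
  exact h1 heq.symm

/-- `lam` is a local homeomorphism at every `c ≠ 0` of the ball (strict derivative `≠ 0`) -/
theorem ZChart.map_nhds {q : ℂ → ℂ} {z0 : ℂ} {μ : ℕ} {lam : ℂ → ℂ} {r : ℝ}
    (hq : DifferentiableOn ℂ q Hm) (h : ZChart q z0 μ lam r) {c : ℂ} (hc : c ∈ ball (0 : ℂ) r)
    (hc0 : c ≠ 0) : map lam (𝓝 c) = 𝓝 (lam c) := by
  have hla : AnalyticAt ℂ lam c := h.d.analyticAt (isOpen_ball.mem_nhds hc)
  exact hla.hasStrictDerivAt.map_nhds_eq (h.deriv_ne hq hc hc0)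

/-- `lam` is open at `0`: `lam` is not constant near `0` (injective), open mapping theorem
(`AnalyticAt.eventually_constant_or_nhds_le_map_nhds`) -/
theorem ZChart.nhds_le {q : ℂ → ℂ} {z0 : ℂ} {μ : ℕ} {lam : ℂ → ℂ} {r : ℝ}
    (h : ZChart q z0 μ lam r) : 𝓝 z0 ≤ map lam (𝓝 0) := by
  have h0 : (0 : ℂ) ∈ ball (0 : ℂ) r := mem_ball_self h.pos
  have hla : AnalyticAt ℂ lam 0 := h.d.analyticAt (isOpen_ball.mem_nhds h0)
  rcases hla.eventually_constant_or_nhds_le_map_nhds with h1 | h1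
  · exfalso
    have h2 : ∀ᶠ z in 𝓝[≠] (0 : ℂ), lam z = lam 0 ∧ z ∈ ball (0 : ℂ) r ∧ z ≠ 0 := by
      have h3 : ∀ᶠ z in 𝓝[≠] (0 : ℂ), z ≠ 0 := self_mem_nhdsWithin
      filter_upwards [nhdsWithin_le_nhds h1, nhdsWithin_le_nhds (isOpen_ball.mem_nhds h0), h3]
        with z a1 a2 a3
      exact ⟨a1, a2, a3⟩
    obtain ⟨z, hz1, hz2, hz3⟩ := h2.exists
    exact hz3 (h.inj hz2 h0 hz1)
  · rwa [h.zero] at h1

end Pool.Agent.MP_ae5b4e_an_WD
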