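import Pool.Agent.Lib.MP_ae5b4e_an_WD.ZD

/-!
# POR (iii), N2, bridge, Z side: analyticity, smallness and good germs of `zE`
-/

namespace Pool.Agent.MP_ae5b4e_an_WD

open Complex Set Filter Topology Metric MeasureTheory
open Pool.Agent.MP_ae5b4e_an_WB
open Pool.Agent.MP_ae5b4e_an_M (S1 C1f Gf)

private theorem Z2_tip : ‖tipc‖ = Real.exp 2 / 4 := by
  unfold tipc
  rw [norm_neg, Complex.norm_real, Real.norm_of_nonneg]
  have := Real.exp_pos 2
  positivity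

private theorem Z2_num : Real.exp (1 / 2) < Real.exp 2 / 4 := by
  have h1 : (4 : ℝ) < Real.exp (3 / 2) := by
    have h2 : Real.exp (3 / 2) * Real.exp (3 / 2) = Real.exp 1 * Real.exp 1 * Real.exp 1 := by
      rw [← Real.exp_add, ← Real.exp_add, ← Real.exp_add]
      norm_num
    have h3 := Real.exp_one_gt_d9
    have h4 : (16 : ℝ) < Real.exp 1 * Real.exp 1 * Real.exp 1 := by
      have h5 : (2.7 : ℝ) < Real.exp 1 := by linarith
      nlinarith [mul_pos (show (0:ℝ) < Real.exp 1 - 2.7 by linarith)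
        (show (0:ℝ) < Real.exp 1 by linarith)]
    have h6 := Real.exp_pos (3 / 2)
    nlinarith
  have h7 : Real.exp 2 = Real.exp (3 / 2) * Real.exp (1 / 2) := by
    rw [← Real.exp_add]
    norm_num
  rw [h7]
  have h8 := Real.exp_pos (1 / 2)
  nlinarith

private theorem Z2_ne {Y w : ℂ} (h1 : ‖G Y‖ ≤ 1) (hw : w.re ≤ 1 / 2) : G Y ^ 2 * exp w ≠ tipc := by
  intro h
  have h2 := congrArg norm h
  rw [norm_mul, norm_pow, Complex.norm_exp, Z2_tip] at h2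
  have h3 : ‖G Y‖ ^ 2 ≤ 1 := pow_le_one₀ (norm_nonneg _) h1
  have h4 : Real.exp w.re ≤ Real.exp (1 / 2) := Real.exp_le_exp.2 hw
  have h5 := Real.exp_pos w.re
  have h6 := Z2_num
  nlinarith

/-- continuation to the left and a little to the right is possible from small values of `G` -/
theorem fwd_of_small {Y t : ℂ} (h1 : ‖G Y‖ ≤ 1) (ht : t.re ≤ 1 / 4) : Fwd Y t := by
  intro r hr
  refine Z2_ne h1 ?_
  have e : (2 * ((r : ℂ) * t)).re = 2 * (r * t.re) := by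
    rw [show (2 : ℂ) * ((r : ℂ) * t) = ((2 * r : ℝ) : ℂ) * t by push_cast; ring,
      Complex.re_ofReal_mul]
    ring
  rw [e]
  obtain ⟨h0, h2⟩ := hr
  nlinarith

/-- the measure on the arc -/
private noncomputable def Z2m (u : ℂ) (μ : ℕ) (c : ℂ) (g : ℂ → ℂ) (s : ℝ) : ℂ :=
  2 * u / μ * (c * exp (-(2 * u / μ * s))) * g (c * exp (-(2 * u / μ * s)))

private theorem Z2_vre {u : ℂ} (hu : 0 < u.re) {μ : ℕ} (hμ : 0 < μ) : 0 < (2 * u / μ : ℂ).re := by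
  have h1 : (0 : ℝ) < μ := by exact_mod_cast hμ
  have e : (2 * u / μ : ℂ) = ((2 / μ : ℝ) : ℂ) * u := by
    push_cast
    ring
  rw [e, Complex.re_ofReal_mul]
  positivity

private theorem Z2_norm_arg (v c : ℂ) (s : ℝ) :
    ‖c * exp (-(v * s))‖ = ‖c‖ * Real.exp (-v.re * s) := by
  rw [norm_mul, Complex.norm_exp, Complex.neg_re, Complex.re_mul_ofReal, neg_mul]

private theorem Z2_arg_le {v c : ℂ} (hv : 0 < v.re) {s : ℝ} (hs : 0 < s) :
    ‖c * exp (-(v * s))‖ ≤ ‖c‖ := by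
  rw [Z2_norm_arg]
  have h1 : Real.exp (-v.re * s) ≤ 1 := by
    rw [Real.exp_le_one_iff]
    nlinarith
  have h2 := norm_nonneg c
  nlinarith

private theorem Z2_bound {u : ℂ} (hu : 0 < u.re) {μ : ℕ} (hμ : 0 < μ) {c : ℂ} {g : ℂ → ℂ} {K ρ : ℝ}
    (hK : ∀ x ∈ closedBall (0 : ℂ) ρ, ‖g x‖ ≤ K) (hc : ‖c‖ ≤ ρ) {s : ℝ} (hs : 0 < s) :
    ‖Z2m u μ c g s‖ ≤ ‖(2 * u / μ : ℂ)‖ * ‖c‖ * K * Real.exp (-(2 * u / μ : ℂ).re * s) := by
  have hv := Z2_vre hu hμ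
  unfold Z2m
  rw [norm_mul, norm_mul, Z2_norm_arg]
  have h1 := hK (c * exp (-(2 * u / μ * s))) (by
    rw [mem_closedBall_zero_iff]
    exact (Z2_arg_le hv hs).trans hc)
  calc ‖(2 * u / μ : ℂ)‖ * (‖c‖ * Real.exp (-(2 * u / μ : ℂ).re * s)) *
        ‖g (c * exp (-(2 * u / μ * s)))‖
      ≤ ‖(2 * u / μ : ℂ)‖ * (‖c‖ * Real.exp (-(2 * u / μ : ℂ).re * s)) * K :=
        mul_le_mul_of_nonneg_left h1 (by positivity)
    _ = ‖(2 * u / μ : ℂ)‖ * ‖c‖ * K * Real.exp (-(2 * u / μ : ℂ).re * s) := by ring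

private theorem Z2_K {g : ℂ → ℂ} {r ρ : ℝ} (hρ : ρ < r) (hg : DifferentiableOn ℂ g (ball 0 r)) :
    ∃ K : ℝ, ∀ x ∈ closedBall (0 : ℂ) ρ, ‖g x‖ ≤ K :=
  (isCompact_closedBall (0 : ℂ) ρ).exists_bound_of_continuousOn
    (hg.continuousOn.mono (closedBall_subset_ball hρ))

private theorem Z2_int {u : ℂ} (hu : 0 < u.re) {μ : ℕ} (hμ : 0 < μ) {c : ℂ} {r : ℝ}
    (hc : ‖c‖ < r) {g : ℂ → ℂ} (hg : DifferentiableOn ℂ g (ball 0 r)) :
    IntegrableOn (Z2m u μ c g) (Ioi 0) := by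
  have hv := Z2_vre hu hμ
  obtain ⟨K, hK⟩ := Z2_K hc hg
  have h1 : IntegrableOn (fun s : ℝ => ‖(2 * u / μ : ℂ)‖ * ‖c‖ * K *
      Real.exp (-(2 * u / μ : ℂ).re * s)) (Ioi 0) :=
    (exp_neg_integrableOn_Ioi 0 hv).const_mul _
  refine Integrable.mono' h1 ?_ ?_
  · refine ContinuousOn.aestronglyMeasurable ?_ measurableSet_Ioi
    have h2 : ContinuousOn (fun s : ℝ => g (c * exp (-(2 * u / μ * s)))) (Ioi 0) := by
      refine hg.continuousOn.comp (f := fun s : ℝ => c * exp (-(2 * u / μ * s)))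
        (by fun_prop) ?_
      intro s hs
      rw [mem_ball_zero_iff]
      exact (Z2_arg_le hv hs).trans_lt hc
    unfold Z2m
    exact ContinuousOn.mul (by fun_prop) h2
  · rw [ae_restrict_iff' measurableSet_Ioi]
    exact .of_forall fun s hs => Z2_bound hu hμ hK le_rfl hs

private theorem Z2_re (u z : ℂ) (s : ℝ) : (u * (z - s)).re = (u * z).re - u.re * s := by
  rw [mul_sub, Complex.sub_re, Complex.re_mul_ofReal]

/-- `zE` is analytic at `z = 0`. On `ball 0 δ`, `‖u‖ δ ≤ 1/4`: `differentiableOn_paramInt_Ioi` with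
`m s = v c e^(-vs) g (c e^(-vs))` (`v = 2u/μ`, `‖m s‖ ≤ C e^(- s v.re)`, as `g` is bounded on the compact
ball of radius `‖c‖ < r`), `f z s = G Y e^(u(z-s)) / Fl Y (u (z-s))`: holomorphic in `z`
(`hasDerivAt_Fl`, `Fl_ne_zero`, `fwd_of_small`), bounded by `C (1 + ‖G Y‖ e^(1/4))`
(`exists_norm_G_div_le`, `G_Fl`). -/
theorem analyticAt_zE {u : ℂ} (hu : 0 < u.re) {μ : ℕ} (hμ : 0 < μ) {Y c : ℂ} {r : ℝ}
    (hY : sin Y ≠ 0) (h1 : ‖G Y‖ ≤ 1) (hc : ‖c‖ < r) {g : ℂ → ℂ}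
    (hg : DifferentiableOn ℂ g (ball 0 r)) : AnalyticAt ℂ (zE u μ Y c g) 0 := by
  have hn : 0 ≤ ‖u‖ := norm_nonneg u
  obtain ⟨δ, hδ⟩ : ∃ δ : ℝ, δ = 1 / (4 * (‖u‖ + 1)) := ⟨_, rfl⟩
  have hδ0 : 0 < δ := by
    rw [hδ]
    positivity
  have hδu : ‖u‖ * δ ≤ 1 / 4 := by
    rw [hδ, mul_one_div, div_le_div_iff₀ (by positivity) (by norm_num)]
    linarith
  have hre : ∀ z ∈ ball (0 : ℂ) δ, ∀ s : ℝ, 0 < s → (u * (z - s)).re ≤ 1 / 4 := by
    intro z hz s hs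
    rw [mem_ball_zero_iff] at hz
    rw [Z2_re]
    have h2 : (u * z).re ≤ ‖u‖ * ‖z‖ := by
      rw [← norm_mul]
      exact Complex.re_le_norm _
    have h3 : ‖u‖ * ‖z‖ ≤ ‖u‖ * δ := mul_le_mul_of_nonneg_left hz.le hn
    have h4 := mul_pos hu hs
    linarith
  have hfw : ∀ z ∈ ball (0 : ℂ) δ, ∀ s : ℝ, 0 < s → Fwd Y (u * (z - s)) :=
    fun z hz s hs => fwd_of_small h1 (hre z hz s hs)
  obtain ⟨C, hC, hCb⟩ := exists_norm_psi_le
  have hd : DifferentiableOn ℂ (fun z => ∫ s in Ioi (0 : ℝ),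
      G Y * exp (u * (z - s)) / Fl Y (u * (z - s)) * Z2m u μ c g s) (ball 0 δ) := by
    refine differentiableOn_paramInt_Ioi isOpen_ball (Z2_int hu hμ hc hg)
      (f := fun z s => G Y * exp (u * (z - s)) / Fl Y (u * (z - s))) ?_ ?_ ?_
    · intro s hs z hz
      have hF := hfw z hz s hs
      have h2 : DifferentiableAt ℂ (fun z : ℂ => Fl Y (u * (z - s))) z :=
        DifferentiableAt.comp (g := Fl Y) (f := fun z : ℂ => u * (z - s)) z
          (hasDerivAt_Fl hY hF).differentiableAt (by fun_prop)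
      exact (DifferentiableAt.div (by fun_prop) h2 (Fl_ne_zero hY hF)).differentiableWithinAt
    · intro z hz s hs
      have hF := hfw z hz s hs
      have h2 : ContinuousAt (fun s : ℝ => Fl Y (u * (z - s))) s :=
        ContinuousAt.comp (g := Fl Y) (f := fun s : ℝ => u * (z - s))
          (hasDerivAt_Fl hY hF).continuousAt (by fun_prop)
      exact (ContinuousAt.div (by fun_prop) h2 (Fl_ne_zero hY hF)).continuousWithinAt
    · intro z0 hz0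
      refine ⟨C * (1 + Real.exp (1 / 4)), ?_⟩
      filter_upwards [isOpen_ball.mem_nhds hz0] with z hz s hs
      refine (hCb Y (u * (z - s))).trans ?_
      have h2 : ‖G Y * exp (u * (z - s))‖ ≤ Real.exp (1 / 4) := by
        rw [norm_mul, Complex.norm_exp]
        have h3 : Real.exp (u * (z - s)).re ≤ Real.exp (1 / 4) :=
          Real.exp_le_exp.2 (hre z hz s hs)
        have h4 := Real.exp_pos (u * (z - s)).re
        have h5 := norm_nonneg (G Y)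
        nlinarith
      gcongr
  exact (hd.analyticOnNhd isOpen_ball) 0 (mem_ball_self hδ0)

/-- smallness at `z = 0`: same estimates, `g` is bounded on `closedBall 0 (r/2)` -/
theorem exists_norm_zE_le {u : ℂ} (hu : 0 < u.re) {μ : ℕ} (hμ : 0 < μ) {r : ℝ} (hr : 0 < r)
    {g : ℂ → ℂ} (hg : DifferentiableOn ℂ g (ball 0 r)) :
    ∃ C : ℝ, ∀ Y c : ℂ, sin Y ≠ 0 → ‖G Y‖ ≤ 1 → ‖c‖ < r / 2 → ‖zE u μ Y c g 0‖ ≤ C * ‖c‖ := by
  have hv := Z2_vre hu hμ
  obtain ⟨K, hK⟩ := Z2_K (half_lt_self hr) hg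
  obtain ⟨C, hC, hCb⟩ := exists_norm_psi_le
  refine ⟨2 * C * (‖(2 * u / μ : ℂ)‖ * K) * ∫ s in Ioi (0 : ℝ), Real.exp (-(2 * u / μ : ℂ).re * s),
    fun Y c hY h1 hc => ?_⟩
  have hint : IntegrableOn (fun s : ℝ => 2 * C * (‖(2 * u / μ : ℂ)‖ * ‖c‖ * K) *
      Real.exp (-(2 * u / μ : ℂ).re * s)) (Ioi 0) :=
    (exp_neg_integrableOn_Ioi 0 hv).const_mul _
  have h2 : ‖zE u μ Y c g 0‖ ≤ ∫ s in Ioi (0 : ℝ), 2 * C * (‖(2 * u / μ : ℂ)‖ * ‖c‖ * K) *
      Real.exp (-(2 * u / μ : ℂ).re * s) := by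
    unfold zE
    refine norm_integral_le_of_norm_le hint ?_
    rw [ae_restrict_iff' measurableSet_Ioi]
    refine .of_forall fun s hs => ?_
    have hs0 : 0 < s := hs
    rw [norm_mul]
    have h3 : ‖G Y * exp (u * (0 - s)) / Fl Y (u * (0 - s))‖ ≤ 2 * C := by
      refine (hCb Y (u * (0 - s))).trans ?_
      have h4 : ‖G Y * exp (u * (0 - s))‖ ≤ 1 := by
        rw [norm_mul, Complex.norm_exp, Z2_re, mul_zero, Complex.zero_re]
        have h5 : Real.exp (0 - u.re * s) ≤ 1 := by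
          rw [Real.exp_le_one_iff]
          have := mul_pos hu hs0
          linarith
        have h6 := Real.exp_pos (0 - u.re * s)
        have h7 := norm_nonneg (G Y)
        nlinarith
      nlinarith
    have h4 := Z2_bound hu hμ hK hc.le hs0
    calc ‖G Y * exp (u * (0 - s)) / Fl Y (u * (0 - s))‖ * ‖2 * u / μ * (c * exp (-(2 * u / μ * s))) *
          g (c * exp (-(2 * u / μ * s)))‖
        ≤ 2 * C * (‖(2 * u / μ : ℂ)‖ * ‖c‖ * K * Real.exp (-(2 * u / μ : ℂ).re * s)) :=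
          mul_le_mul h3 h4 (norm_nonneg _) (by positivity)
      _ = 2 * C * (‖(2 * u / μ : ℂ)‖ * ‖c‖ * K) * Real.exp (-(2 * u / μ : ℂ).re * s) := by ring
  rw [integral_const_mul] at h2
  refine h2.trans (le_of_eq ?_)
  ring

/-- good germ: `good_zend` (`h` for `t ≥ 0` is the hypothesis `Off`, for `t ≤ 0` from `‖G Y‖ ≤ 1`) -/
theorem germ_zE {u : ℂ} (hu : 0 < u.re) {μ : ℕ} (hμ : 0 < μ) {Y c : ℂ} {r : ℝ}
    (hY : sin Y ≠ 0) (h1 : ‖G Y‖ ≤ 1)
    (h : ∀ t : ℝ, 0 ≤ t → G Y ^ 2 * exp (2 * (u * t)) ≠ tipc) (hc : ‖c‖ < r) {g : ℂ → ℂ}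
    (hg : DifferentiableOn ℂ g (ball 0 r)) : GermGood u (fun t => zE u μ Y c g t) := by
  refine ⟨_, good_zend hu hY ?_ (Z2_int hu hμ hc hg), 1, one_pos, fun t _ => rfl⟩
  intro τ
  rcases le_or_gt 0 τ with hτ | hτ
  · exact h τ hτ
  · refine Z2_ne h1 ?_
    have e : (2 * (u * (τ : ℂ))).re = 2 * (u.re * τ) := by
      rw [show (2 : ℂ) * (u * (τ : ℂ)) = u * ((2 * τ : ℝ) : ℂ) by push_cast; ring,
        Complex.re_mul_ofReal]
      ring
    rw [e]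
    have := mul_pos_of_neg_of_neg (show -u.re < 0 by linarith) hτ
    nlinarith

end Pool.Agent.MP_ae5b4e_an_WD
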