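import Pool.Agent.Lib.MP_ae5b4e_an_WD.Z1
import Pool.Agent.Lib.MP_ae5b4e_an_WD.Z2

/-!
# POR (iii), N2, bridge, Z side: change of the starting label
-/

namespace Pool.Agent.MP_ae5b4e_an_WD

open Complex Set Filter Topology Metric MeasureTheory
open Pool.Agent.MP_ae5b4e_an_WB
open Pool.Agent.MP_ae5b4e_an_M (S1 C1f Gf)

/-- derivative of `zE` in the logarithmic coordinate of the label. With
`Ω z X := G Y e^(uz + μX/2) / Fl Y (uz + μX/2) * (c e^X * g (c e^X))`: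
`zE u μ (Fl Y (μ X/2)) (c e^X) g z = ∫_0^oo Ω z (X - s v) v ds` (`v = 2u/μ`, `Fl_add`, `G_Fl`; note
`u z + μ (X - s v)/2 = μ X/2 + u (z - s)`), so `hp_prim` with `κ = 1` (bounds as in `analyticAt_zE`;
`R > 0` with `‖c‖ e^R < r` and `‖u‖ δ + μ R/2 ≤ 1/4`). -/
theorem zE_hasDerivAt {u : ℂ} (hu : 0 < u.re) {μ : ℕ} (hμ : 0 < μ) {Y c : ℂ} {r : ℝ}
    (hY : sin Y ≠ 0) (h1 : ‖G Y‖ ≤ 1) (hc : ‖c‖ < r) {g : ℂ → ℂ}
    (hg : DifferentiableOn ℂ g (ball 0 r)) : ∃ δ : ℝ, 0 < δ ∧ ∀ z ∈ ball (0 : ℂ) δ,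
      ∀ X ∈ ball (0 : ℂ) δ, HasDerivAt (fun X => zE u μ (Fl Y (μ * X / 2)) (c * exp X) g z)
        (G Y * exp (u * z + μ * X / 2) / Fl Y (u * z + μ * X / 2) *
          (c * exp X * g (c * exp X))) X := by
  obtain ⟨C1, hC1, hCG⟩ := exists_norm_G_div_le
  have hμ' : (0 : ℝ) < μ := by exact_mod_cast hμ
  have hμc : (μ : ℂ) ≠ 0 := by exact_mod_cast hμ.ne'
  obtain ⟨R, hcR, hRμ, hR⟩ : ∃ R : ℝ, ‖c‖ * Real.exp R < r ∧ R < 1 / (4 * μ) ∧ 0 < R := by
    have h2 : ∀ᶠ R : ℝ in 𝓝[>] (0 : ℝ), ‖c‖ * Real.exp R < r := by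
      have h3 : Tendsto (fun R : ℝ => ‖c‖ * Real.exp R) (𝓝 0) (𝓝 ‖c‖) :=
        (by fun_prop : Continuous fun R : ℝ => ‖c‖ * Real.exp R).tendsto' 0 ‖c‖ (by simp)
      exact (h3.eventually (gt_mem_nhds hc)).filter_mono nhdsWithin_le_nhds
    have h3 : ∀ᶠ R : ℝ in 𝓝[>] (0 : ℝ), R < 1 / (4 * μ) :=
      Filter.Eventually.filter_mono nhdsWithin_le_nhds (gt_mem_nhds (by positivity))
    have h4 : ∀ᶠ R : ℝ in 𝓝[>] (0 : ℝ), 0 < R := self_mem_nhdsWithin
    exact (h2.and (h3.and h4)).exists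
  have hgc : ContinuousOn g (closedBall 0 (‖c‖ * Real.exp R)) :=
    hg.continuousOn.mono (closedBall_subset_ball hcR)
  obtain ⟨M, hM⟩ := (isCompact_closedBall (0 : ℂ) _).exists_bound_of_continuousOn hgc
  have hM0 : 0 ≤ M := (norm_nonneg _).trans (hM 0 (mem_closedBall_self (by positivity)))
  refine ⟨min R (1 / (8 * (‖u‖ + 1))), lt_min hR (by positivity), fun z hz X hX => ?_⟩
  rw [mem_ball_zero_iff, lt_min_iff] at hz hX
  have huz : ‖u * z‖ ≤ 1 / 8 := by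
    rw [norm_mul]
    have h2 : ‖u‖ * ‖z‖ ≤ ‖u‖ * (1 / (8 * (‖u‖ + 1))) :=
      mul_le_mul_of_nonneg_left hz.2.le (norm_nonneg _)
    refine h2.trans ?_
    rw [mul_one_div, div_le_div_iff₀ (by positivity) (by norm_num)]
    have := norm_nonneg u
    linarith
  have huzr : (u * z).re ≤ 1 / 8 := (le_trans (Complex.re_le_norm _) huz)
  have hXR : X.re < R := (Complex.re_le_norm X).trans_lt hX.1
  have hre1 : ∀ X : ℂ, X.re < R → (μ * X / 2).re ≤ 1 / 8 := by
    intro X hX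
    have h2 : (μ * X / 2 : ℂ).re = μ * X.re / 2 := by
      have : (μ * X / 2 : ℂ) = ((μ / 2 : ℝ) : ℂ) * X := by
        push_cast
        ring
      rw [this, Complex.re_ofReal_mul]
      ring
    rw [h2]
    have h3 : (μ : ℝ) * X.re ≤ μ * (1 / (4 * μ)) :=
      mul_le_mul_of_nonneg_left (hX.le.trans hRμ.le) hμ'.le
    have h4 : (μ : ℝ) * (1 / (4 * μ)) = 1 / 4 := by
      field_simp
    linarith
  have hre : ∀ X : ℂ, X.re < R → (u * z + μ * X / 2).re ≤ 1 / 4 := by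
    intro X hX
    rw [Complex.add_re]
    have := hre1 X hX
    linarith
  have hF : ∀ X : ℂ, X.re < R → Fwd Y (u * z + μ * X / 2) := fun X hX =>
    fwd_of_small h1 (hre X hX)
  have hnc : ∀ X : ℂ, ‖c * exp X‖ = ‖c‖ * Real.exp X.re := fun X => by
    rw [norm_mul, norm_exp]
  have hcle : ∀ X : ℂ, X.re < R → ‖c * exp X‖ ≤ ‖c‖ * Real.exp R := fun X hX => by
    rw [hnc]
    exact mul_le_mul_of_nonneg_left (Real.exp_le_exp.mpr hX.le) (norm_nonneg _)
  set v : ℂ := 2 * u / μ with hv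
  have hvre : 0 < v.re := by
    have : v = ((2 / μ : ℝ) : ℂ) * u := by
      rw [hv]
      push_cast
      ring
    rw [this, Complex.re_ofReal_mul]
    positivity
  set Ω : ℂ → ℂ := fun X => G Y * exp (u * z + μ * X / 2) / Fl Y (u * z + μ * X / 2) *
    (c * exp X * g (c * exp X)) with hΩd
  have hΩ : DifferentiableOn ℂ Ω {X | X.re < R} := by
    intro X hX
    have hX' : X.re < R := hX
    have a1 : DifferentiableAt ℂ (fun X : ℂ => Fl Y (u * z + μ * X / 2)) X :=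
      DifferentiableAt.comp (g := Fl Y) (f := fun X : ℂ => u * z + μ * X / 2) X
        (hasDerivAt_Fl hY (hF X hX')).differentiableAt (by fun_prop)
    have a2 : DifferentiableAt ℂ (fun X : ℂ => g (c * exp X)) X := by
      refine DifferentiableAt.comp (g := g) (f := fun X : ℂ => c * exp X) X ?_ (by fun_prop)
      refine (hg _ ?_).differentiableAt (isOpen_ball.mem_nhds ?_) <;>
      · rw [mem_ball_zero_iff]
        exact (hcle X hX').trans_lt hcR
    exact ((((by fun_prop : DifferentiableAt ℂ (fun X : ℂ => G Y * exp (u * z + μ * X / 2)) X).div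
      a1 (Fl_ne_zero hY (hF X hX'))).mul
      ((by fun_prop : DifferentiableAt ℂ (fun X : ℂ => c * exp X) X).mul
      a2))).differentiableWithinAt
  have hb : ∀ X : ℂ, X.re < R →
      ‖Ω X‖ ≤ (C1 * (1 + Real.exp (1 / 4)) * (‖c‖ * M)) * Real.exp (1 * X.re) := by
    intro X hX
    have b1 : ‖G Y * exp (u * z + μ * X / 2) / Fl Y (u * z + μ * X / 2)‖ ≤
        C1 * (1 + Real.exp (1 / 4)) := by
      have h2 := hCG _ (sin_Fl_ne_zero hY (hF X hX))
      rw [G_Fl hY (hF X hX)] at h2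
      refine h2.trans (mul_le_mul_of_nonneg_left ?_ hC1.le)
      have h3 : ‖G Y * exp (u * z + μ * X / 2)‖ ≤ 1 * Real.exp (1 / 4) := by
        rw [norm_mul, norm_exp]
        exact mul_le_mul h1 (Real.exp_le_exp.mpr (hre X hX)) (Real.exp_pos _).le zero_le_one
      linarith
    have b2 : ‖c * exp X * g (c * exp X)‖ ≤ ‖c‖ * M * Real.exp (1 * X.re) := by
      rw [norm_mul, hnc, one_mul, mul_right_comm]
      exact mul_le_mul_of_nonneg_right (mul_le_mul_of_nonneg_left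
        (hM _ (mem_closedBall_zero_iff.mpr (hcle X hX))) (norm_nonneg _)) (Real.exp_pos _).le
    calc ‖Ω X‖ = ‖G Y * exp (u * z + μ * X / 2) / Fl Y (u * z + μ * X / 2)‖ *
          ‖c * exp X * g (c * exp X)‖ := norm_mul _ _
      _ ≤ (C1 * (1 + Real.exp (1 / 4))) * (‖c‖ * M * Real.exp (1 * X.re)) :=
          mul_le_mul b1 b2 (norm_nonneg _) (by positivity)
      _ = _ := by ring
  have h2 := (hp_prim one_pos hvre hΩ hb (X := X) hXR).1
  refine h2.congr_of_eventuallyEq ?_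
  have hopen : ∀ᶠ X' in 𝓝 X, X'.re < R :=
    (isOpen_lt Complex.continuous_re continuous_const).mem_nhds hXR
  filter_upwards [hopen] with X' hX'
  unfold zE
  refine setIntegral_congr_fun measurableSet_Ioi fun s hs => ?_
  have hs0 : (0 : ℝ) < s := hs
  have ht : Fwd Y (μ * X' / 2) := fwd_of_small h1 ((hre1 X' hX').trans (by norm_num))
  have hts : ∀ ρ ∈ Icc (0 : ℝ) 1, (μ * X' / 2 + ρ * (u * (z - s)) : ℂ).re ≤ 1 / 4 := by
    intro ρ hρ
    have e0 : (μ * X' / 2 + ρ * (u * (z - s)) : ℂ).re =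
        (μ * X' / 2 : ℂ).re + ρ * ((u * z).re - s * u.re) := by
      have : (μ * X' / 2 + ρ * (u * (z - s)) : ℂ) = μ * X' / 2 + (ρ : ℂ) * (u * z - (s : ℂ) * u)
      := by
        ring
      rw [this, Complex.add_re, Complex.re_ofReal_mul, Complex.sub_re, Complex.re_ofReal_mul]
    rw [e0]
    have e1 := hre1 X' hX'
    have e2 : ρ * ((u * z).re - s * u.re) ≤ 1 / 8 := by
      have e3 : (u * z).re - s * u.re ≤ 1 / 8 := by
        have : 0 < s * u.re := mul_pos hs0 hu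
        linarith
      calc ρ * ((u * z).re - s * u.re) ≤ ρ * (1 / 8) := mul_le_mul_of_nonneg_left e3 hρ.1
        _ ≤ 1 * (1 / 8) := mul_le_mul_of_nonneg_right hρ.2 (by norm_num)
        _ = 1 / 8 := one_mul _
    linarith
  have hs' : Fwd (Fl Y (μ * X' / 2)) (u * (z - s)) := by
    intro ρ hρ
    have h3 := fwd_of_small h1 (hts ρ hρ) 1 (right_mem_Icc.mpr zero_le_one)
    rw [G_Fl hY ht, mul_pow, ← Complex.exp_nat_mul, mul_assoc, ← Complex.exp_add]
    rw [ofReal_one, one_mul, mul_add] at h3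
    push_cast
    exact h3
  have e1 : G (Fl Y (μ * X' / 2)) = G Y * exp (μ * X' / 2) := G_Fl hY ht
  have e2 : Fl (Fl Y (μ * X' / 2)) (u * (z - s)) = Fl Y (μ * X' / 2 + u * (z - s)) :=
    Fl_add hY ht hs' fun ρ hρ => fwd_of_small h1 (hts ρ hρ)
  have e3 : u * z + μ * (X' - s * v) / 2 = μ * X' / 2 + u * (z - s) := by
    rw [hv]
    field_simp
    ring
  have e4 : c * exp X' * exp (-(v * s)) = c * exp (X' - s * v) := by
    rw [mul_assoc, ← Complex.exp_add]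
    congr 2
    ring
  change G (Fl Y (μ * X' / 2)) * exp (u * (z - s)) / Fl (Fl Y (μ * X' / 2)) (u * (z - s)) *
    (v * (c * exp X' * exp (-(v * s))) * g (c * exp X' * exp (-(v * s)))) = Ω (X' - s * v) * v
  rw [e1, e2, e4]
  simp only [hΩd]
  rw [e3, Complex.exp_add]
  ring

end Pool.Agent.MP_ae5b4e_an_WD
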