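import Pool.Agent.Lib.MP_ae5b4e_an_WD.Z0
import Pool.Agent.Lib.MP_ae5b4e_an_WD.Z3
import Pool.Agent.Lib.MP_ae5b4e_an_WD.Loc

/-!
# POR (iii), N2, bridge, Z side: local constancy of the height of a zero
-/

namespace Pool.Agent.MP_ae5b4e_an_WD

open Complex Set Filter Topology Metric MeasureTheory
open Pool.Agent.MP_ae5b4e_an_WB
open Pool.Agent.MP_ae5b4e_an_M (S1 C1f Gf)

private theorem Z4_fwd {y0 t s : ℂ} (h : sin y0 ≠ 0) (h1 : ‖G y0‖ ≤ 1) (ht : ‖t‖ ≤ 1 / 8)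
    (hs : ‖s‖ ≤ 1 / 8) :
    Fwd y0 t ∧ Fwd (Fl y0 t) s ∧ ∀ r ∈ Icc (0 : ℝ) 1, Fwd y0 (t + r * s) := by
  have key : ∀ r ∈ Icc (0 : ℝ) 1, Fwd y0 (t + r * s) := by
    intro r hr
    refine fwd_of_small h1 ?_
    have h2 : (t + r * s).re ≤ ‖t‖ + ‖s‖ := by
      refine (Complex.re_le_norm _).trans ((norm_add_le _ _).trans ?_)
      rw [norm_mul, Complex.norm_real, Real.norm_of_nonneg hr.1]
      have := mul_le_of_le_one_left (norm_nonneg s) hr.2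
      linarith
    linarith
  have hF : Fwd y0 t := by
    have := key 0 ⟨le_rfl, zero_le_one⟩
    simpa using this
  refine ⟨hF, ?_, key⟩
  intro r hr
  have h2 := key r hr 1 ⟨zero_le_one, le_rfl⟩
  rw [G_Fl h hF, mul_pow, ← Complex.exp_nat_mul, mul_assoc, ← Complex.exp_add]
  have h3 : ((2 : ℕ) : ℂ) * t + 2 * (r * s) = 2 * (((1 : ℝ) : ℂ) * (t + r * s)) := by
    push_cast
    ring
  rw [h3]
  exact h2

/-- the lift of the chart and the flow agree -/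
private theorem Z4_flow {gs l0 y0 c0 z0 : ℂ} {q Y lam : ℂ → ℂ} {μ : ℕ} {r ρ : ℝ}
    (hlam : ZChart q z0 μ lam r) (hYd : DifferentiableOn ℂ Y (ball l0 ρ)) (hρ : 0 < ρ)
    (hYs : ∀ l ∈ ball l0 ρ, sin (Y l) ≠ 0 ∧ G (Y l) ^ 2 = gs ^ 2 * q l)
    (hc : lam c0 = l0) (hy0 : Y l0 = y0) (hcr : ‖c0‖ < r) (h1 : ‖G y0‖ ≤ 1) :
    ∀ᶠ X in 𝓝 (0 : ℂ), Y (lam (c0 * exp X)) = Fl y0 (μ * X / 2) := by
  have hc0r : c0 ∈ ball (0 : ℂ) r := by rw [mem_ball_zero_iff]; exact hcr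
  have hl0 : l0 ∈ ball l0 ρ := mem_ball_self hρ
  obtain ⟨hs0, hG0⟩ := hYs l0 hl0
  rw [hy0] at hs0 hG0
  have hcX : Tendsto (fun X : ℂ => c0 * exp X) (𝓝 0) (𝓝 c0) := by
    have h2 : Continuous fun X : ℂ => c0 * exp X := by fun_prop
    have h3 := h2.tendsto 0
    rwa [Complex.exp_zero, mul_one] at h3
  have hlc : Tendsto lam (𝓝 c0) (𝓝 l0) := by
    rw [← hc]
    exact (hlam.d.differentiableAt (isOpen_ball.mem_nhds hc0r)).continuousAt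
  have hYc : Tendsto Y (𝓝 l0) (𝓝 y0) := by
    rw [← hy0]
    exact (hYd.differentiableAt (isOpen_ball.mem_nhds hl0)).continuousAt
  have hf : Tendsto (fun X : ℂ => Y (lam (c0 * exp X))) (𝓝 0) (𝓝 y0) :=
    hYc.comp (hlc.comp hcX)
  have hm : Tendsto (fun X : ℂ => (μ : ℂ) * X / 2) (𝓝 0) (𝓝 0) := by
    have h2 : Continuous fun X : ℂ => (μ : ℂ) * X / 2 := by fun_prop
    have h3 := h2.tendsto 0
    rwa [mul_zero, zero_div] at h3
  have hfw : ∀ᶠ X : ℂ in 𝓝 0, Fwd y0 ((μ : ℂ) * X / 2) := by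
    have h2 : ∀ᶠ X : ℂ in 𝓝 0, (μ : ℂ) * X / 2 ∈ ball (0 : ℂ) (1 / 8) :=
      hm.eventually (ball_mem_nhds 0 (by norm_num : (0 : ℝ) < 1 / 8))
    filter_upwards [h2] with X hX
    rw [mem_ball_zero_iff] at hX
    exact (Z4_fwd hs0 h1 hX.le (s := 0) (by simp)).1
  have hg : Tendsto (fun X : ℂ => Fl y0 ((μ : ℂ) * X / 2)) (𝓝 0) (𝓝 y0) := by
    have h2 : Tendsto (Fl y0) (𝓝 0) (𝓝 y0) := by
      have h3 := (hasDerivAt_Fl hs0 (fwd_of_small (t := 0) h1 (by simp))).continuousAt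
      rw [ContinuousAt, Fl_zero hs0] at h3
      exact h3
    exact h2.comp hm
  refine eventually_eq_of_G_eq hs0 hf hg ?_
  have hsum : Tendsto (fun X : ℂ => G (Y (lam (c0 * exp X))) + G (Fl y0 ((μ : ℂ) * X / 2))) (𝓝 0)
      (𝓝 (G y0 + G y0)) :=
    ((continuousAt_G hs0).tendsto.comp hf).add ((continuousAt_G hs0).tendsto.comp hg)
  have hne : G y0 + G y0 ≠ 0 := by
    rw [← two_mul]
    exact mul_ne_zero two_ne_zero (G_ne_zero hs0)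
  have hB1 : ∀ᶠ X : ℂ in 𝓝 0, lam (c0 * exp X) ∈ ball l0 ρ :=
    (hlc.comp hcX).eventually (ball_mem_nhds l0 hρ)
  have hB2 : ∀ᶠ X : ℂ in 𝓝 0, c0 * exp X ∈ ball (0 : ℂ) r :=
    hcX.eventually (isOpen_ball.mem_nhds hc0r)
  filter_upwards [hsum.eventually_ne hne, hB1, hB2, hfw] with X hX1 hX2 hX3 hX4
  have e1 : G (Y (lam (c0 * exp X))) ^ 2 = gs ^ 2 * (c0 * exp X) ^ μ := by
    rw [(hYs _ hX2).2, (hlam.val _ hX3).2]
  have e2 : G (Fl y0 ((μ : ℂ) * X / 2)) ^ 2 = gs ^ 2 * (c0 * exp X) ^ μ := by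
    rw [G_Fl hs0 hX4, mul_pow, hG0, ← hc, (hlam.val c0 hc0r).2, mul_pow c0, ← Complex.exp_nat_mul,
      ← Complex.exp_nat_mul, mul_assoc]
    congr 3
    push_cast
    ring
  have e3 : (G (Y (lam (c0 * exp X))) + G (Fl y0 ((μ : ℂ) * X / 2))) *
      (G (Y (lam (c0 * exp X))) - G (Fl y0 ((μ : ℂ) * X / 2))) = 0 := by
    linear_combination e1 - e2
  exact sub_eq_zero.1 ((mul_eq_zero.1 e3).resolve_left hX1)

/-- LOCAL CONSTANCY (analogue of `tip_local`). `exists_loc` at `τ0` with `r0 = Y0/(gs ∂_τ L)`: `Y`, `F`.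
For `X` near `0` the label `l X = lam (c0 e^X)` is near `L (τ0, gs)`, `Y (l X) = Fl Y0 (μX/2)`
(`G (Y (l X)) ^ 2 = gs² c0^μ e^(μX) = G (Fl Y0 (μX/2)) ^ 2`, both continuous and equal to `Y0` at
`X = 0`: see `TipL_flow`), and `X ↦ F (l X) z - zE u μ (Fl Y0 (μX/2)) (c0 e^X) lam' z` has derivative `0`
near `0` (`exists_loc`, `zE_hasDerivAt`, `Fl_add`: `Fl (Fl Y0 (μX/2)) (uz) = Fl Y0 (uz + μX/2)`), for
`z`, `X` in a fixed ball: constant. For `τ` near `τ0`: `L (τ, gs) = lam (c0 e^X)`, `X` near `0`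
(`ZChart.map_nhds` and the logarithm), `f1 z = F (L (τ, gs)) z` near `0` (`invGerm_unique`), `zE_sq`. -/
theorem z_local {q : ℂ → ℂ} {U : Set (ℂ × ℂ)} {L : ℂ × ℂ → ℂ} (h : DS q U L) {u gs z0 : ℂ}
    (hu : 0 < u.re) (hgs : gs ≠ 0) {μ : ℕ} {lam : ℂ → ℂ} {r : ℝ} (hlam : ZChart q z0 μ lam r)
    {τ0 c0 : ℂ} (h0 : (τ0, gs) ∈ U) (hc : lam c0 = L (τ0, gs)) (hc0 : c0 ≠ 0) (hcr : ‖c0‖ < r)
    (hsm : ‖gs‖ ^ 2 * ‖c0‖ ^ μ ≤ 1) :
    ∃ ε : ℝ, 0 < ε ∧ ∀ τ ∈ ball τ0 ε, (τ, gs) ∈ U ∧ ∃ c : ℂ, ‖c - c0‖ < ‖c0‖ / 2 ∧ ‖c‖ < r ∧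
      lam c = L (τ, gs) ∧ ∀ (Y0 Y1 : ℂ) (f0 f1 : ℂ → ℂ), Y0 ^ 2 = y2 q L (τ0, gs) →
        Y1 ^ 2 = y2 q L (τ, gs) → InvGerm U L gs u τ0 f0 → InvGerm U L gs u τ f1 →
        ∀ᶠ z in 𝓝 (0 : ℂ), f1 z - zE u μ Y1 c (deriv lam) z =
          f0 z - zE u μ Y0 c0 (deriv lam) z := by
  have hc0r : c0 ∈ ball (0 : ℂ) r := by rw [mem_ball_zero_iff]; exact hcr
  have hnc : 0 < ‖c0‖ := norm_pos_iff.2 hc0
  have hq0' : q (L (τ0, gs)) = c0 ^ μ := by rw [← hc, (hlam.val c0 hc0r).2]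
  have hq0 : q (L (τ0, gs)) ≠ 0 := by
    rw [hq0']
    exact pow_ne_zero _ hc0
  obtain ⟨r0, hr0s⟩ : ∃ r0 : ℂ, r0 ^ 2 = q (L (τ0, gs)) := by
    obtain ⟨r0, h1⟩ := IsAlgClosed.exists_pow_nat_eq (q (L (τ0, gs))) (n := 2) two_pos
    exact ⟨r0, h1⟩
  have hr00 : r0 ≠ 0 := by
    rintro rfl
    rw [zero_pow two_ne_zero] at hr0s
    exact hq0 hr0s.symm
  have hnr : 0 < ‖r0‖ := norm_pos_iff.2 hr00
  obtain ⟨ρ, hρ, Y, F, hLP, hFU, hFd, hFa, ρ1, hρ1, hτ⟩ := exists_loc (u := u) h h0 hr0s hr00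
  obtain ⟨l0, hl0d⟩ : ∃ l0 : ℂ, l0 = L (τ0, gs) := ⟨_, rfl⟩
  rw [← hl0d] at hLP hFU hFd hFa hτ hc hq0' hq0 hr0s
  obtain ⟨y0, hy0d⟩ : ∃ y0 : ℂ, y0 = Y l0 := ⟨_, rfl⟩
  have hl0B : l0 ∈ ball l0 ρ := mem_ball_self hρ
  have hYs : ∀ l ∈ ball l0 ρ, sin (Y l) ≠ 0 ∧ G (Y l) ^ 2 = gs ^ 2 * q l :=
    fun l hl => (hLP.2.1 l hl).2
  obtain ⟨hs0, hG0⟩ := hYs l0 hl0B
  rw [← hy0d] at hs0 hG0
  have hG1 : ‖G y0‖ ≤ 1 := by
    have h1 : ‖G y0‖ ^ 2 ≤ 1 := by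
      rw [← norm_pow, hG0, hq0', norm_mul, norm_pow, norm_pow]
      exact hsm
    have h2 := norm_nonneg (G y0)
    nlinarith
  have hflow := Z4_flow hlam hLP.1 hρ hYs hc hy0d.symm hcr hG1
  obtain ⟨δ, hδ, hder⟩ := zE_hasDerivAt hu hlam.mu hs0 hG1 hcr (hlam.d.deriv isOpen_ball)
  have hcX : Tendsto (fun X : ℂ => c0 * exp X) (𝓝 0) (𝓝 c0) := by
    have h2 : Continuous fun X : ℂ => c0 * exp X := by fun_prop
    have h3 := h2.tendsto 0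
    rwa [Complex.exp_zero, mul_one] at h3
  have hlc : Tendsto lam (𝓝 c0) (𝓝 l0) := by
    rw [← hc]
    exact (hlam.d.differentiableAt (isOpen_ball.mem_nhds hc0r)).continuousAt
  have hm : Tendsto (fun X : ℂ => (μ : ℂ) * X / 2) (𝓝 0) (𝓝 0) := by
    have h2 : Continuous fun X : ℂ => (μ : ℂ) * X / 2 := by fun_prop
    have h3 := h2.tendsto 0
    rwa [mul_zero, zero_div] at h3
  have hexp : ∀ᶠ X : ℂ in 𝓝 0, ‖exp ((μ : ℂ) * X / 2) - 1‖ < 1 / 2 := by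
    have h1 : Continuous fun t : ℂ => ‖exp t - 1‖ := by fun_prop
    have h2 := h1.tendsto 0
    rw [Complex.exp_zero, sub_self, norm_zero] at h2
    exact (h2.comp hm).eventually (gt_mem_nhds (by norm_num))
  have hcd : ∀ᶠ X : ℂ in 𝓝 0, ‖c0 * exp X - c0‖ < ‖c0‖ / 2 := by
    have h1 : ∀ᶠ X : ℂ in 𝓝 0, c0 * exp X ∈ ball c0 (‖c0‖ / 2) :=
      hcX.eventually (ball_mem_nhds c0 (by positivity : (0 : ℝ) < ‖c0‖ / 2))
    filter_upwards [h1] with X hX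
    rwa [mem_ball_iff_norm] at hX
  have hm8 : ∀ᶠ X : ℂ in 𝓝 0, ‖(μ : ℂ) * X / 2‖ ≤ 1 / 8 := by
    have h2 : ∀ᶠ X : ℂ in 𝓝 0, (μ : ℂ) * X / 2 ∈ ball (0 : ℂ) (1 / 8) :=
      hm.eventually (ball_mem_nhds 0 (by norm_num : (0 : ℝ) < 1 / 8))
    filter_upwards [h2] with X hX
    rw [mem_ball_zero_iff] at hX
    exact hX.le
  have hB1 : ∀ᶠ X : ℂ in 𝓝 0, lam (c0 * exp X) ∈ ball l0 ρ :=
    (hlc.comp hcX).eventually (ball_mem_nhds l0 hρ)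
  have hB2 : ∀ᶠ X : ℂ in 𝓝 0, c0 * exp X ∈ ball (0 : ℂ) r :=
    hcX.eventually (isOpen_ball.mem_nhds hc0r)
  have hB3 : ∀ᶠ X : ℂ in 𝓝 0, X ∈ ball (0 : ℂ) δ := ball_mem_nhds 0 hδ
  obtain ⟨η, hη, hηb⟩ := Metric.eventually_nhds_iff_ball.1 (((hflow.and hB1).and
    (hexp.and hcd)).and (hB2.and (hm8.and hB3)))
  have himg : (fun X : ℂ => lam (c0 * exp X)) '' ball 0 η ∈ 𝓝 l0 := by
    have h1 : map (fun X : ℂ => c0 * exp X) (𝓝 0) = 𝓝 c0 := by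
      have h2 : HasStrictDerivAt (fun X : ℂ => c0 * exp X) (c0 * exp 0) 0 :=
        (Complex.hasStrictDerivAt_exp 0).const_mul c0
      have h3 := h2.map_nhds_eq (by
        rw [Complex.exp_zero, mul_one]
        exact hc0)
      rw [Complex.exp_zero, mul_one] at h3
      exact h3
    have h2 := hlam.map_nhds h.qd hc0r hc0
    rw [hc, ← h1, Filter.map_map] at h2
    rw [← h2]
    exact image_mem_map (ball_mem_nhds 0 hη)
  have hLc : Tendsto (fun τ => L (τ, gs)) (𝓝 τ0) (𝓝 l0) := by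
    have h1 : ContinuousAt L (τ0, gs) := (h.an (τ0, gs) h0).continuousAt
    rw [hl0d]
    exact ContinuousAt.comp (g := L) (f := fun τ : ℂ => (τ, gs)) h1 (by fun_prop)
  obtain ⟨ε, hε, hεb⟩ := Metric.eventually_nhds_iff_ball.1 ((hLc.eventually himg).and
    (ball_mem_nhds τ0 hρ1))
  have hinv : ∀ τ ∈ ball τ0 ρ1, InvGerm U L gs u τ (F (L (τ, gs))) := by
    intro τ hτb
    obtain ⟨h1, h2, h3, -⟩ := hτ τ hτb
    refine ⟨hFa _ h2 0 (mem_ball_self hρ), h3, ?_⟩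
    filter_upwards [ball_mem_nhds (0 : ℂ) hρ] with z hz
    exact hFU _ h2 z hz
  have hy0sq : y0 ^ 2 = y2 q L (τ0, gs) := by
    have h1 := (hτ τ0 (mem_ball_self hρ1)).2.2.2 r0 (by rw [← hl0d]; exact hr0s) (by
      rw [sub_self, norm_zero]
      positivity)
    rw [hy0d, hl0d, h1, mul_pow, hr0s, hl0d]
    rfl
  -- the difference is constant
  have hconst : ∀ z ∈ ball (0 : ℂ) (min (min ρ δ) (1 / (8 * (‖u‖ + 1)))), ∀ X ∈ ball (0 : ℂ) η,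
      F (lam (c0 * exp X)) z - zE u μ (Fl y0 (μ * X / 2)) (c0 * exp X) (deriv lam) z =
      F l0 z - zE u μ y0 c0 (deriv lam) z := by
    intro z hz X hX
    rw [mem_ball_zero_iff, lt_min_iff, lt_min_iff] at hz
    obtain ⟨⟨hz1, hz2⟩, hz3⟩ := hz
    have huz : ‖u * z‖ ≤ 1 / 8 := by
      rw [norm_mul]
      have hu1 : 0 < ‖u‖ + 1 := by positivity
      rw [lt_div_iff₀ (by positivity)] at hz3
      have h2 := norm_nonneg z
      nlinarith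
    have hzρ : z ∈ ball (0 : ℂ) ρ := mem_ball_zero_iff.2 hz1
    have hzδ : z ∈ ball (0 : ℂ) δ := mem_ball_zero_iff.2 hz2
    have hd : ∀ X ∈ ball (0 : ℂ) η, HasDerivAt (fun X : ℂ => F (lam (c0 * exp X)) z -
        zE u μ (Fl y0 (μ * X / 2)) (c0 * exp X) (deriv lam) z) 0 X := by
      intro X hX
      obtain ⟨⟨⟨k1, k2⟩, k3, k4⟩, k5, k6, k7⟩ := hηb X hX
      have d1 := hder z hzδ X k7
      have d2 : HasDerivAt (fun X : ℂ => c0 * exp X) (c0 * exp X) X :=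
        (Complex.hasDerivAt_exp X).const_mul c0
      have d3 : HasDerivAt lam (deriv lam (c0 * exp X)) (c0 * exp X) :=
        (hlam.d.differentiableAt (isOpen_ball.mem_nhds k5)).hasDerivAt
      have d4 := hFd _ k2 z hzρ
      obtain ⟨f1, f2, f3⟩ := Z4_fwd hs0 hG1 k6 huz
      have e1 : G (Y (lam (c0 * exp X))) * exp (u * z) / Fl (Y (lam (c0 * exp X))) (u * z) =
          G y0 * exp (u * z + μ * X / 2) / Fl y0 (u * z + μ * X / 2) := by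
        rw [k1, Fl_add hs0 f1 f2 f3, G_Fl hs0 f1, mul_assoc, ← Complex.exp_add,
          add_comm (u * z) ((μ : ℂ) * X / 2)]
      have d5 : HasDerivAt (fun X : ℂ => lam (c0 * exp X)) (deriv lam (c0 * exp X) *
          (c0 * exp X)) X := HasDerivAt.comp (h₂ := lam) (h := fun X : ℂ => c0 * exp X) X d3 d2
      have d4' : HasDerivAt (fun l' => F l' z)
          (G y0 * exp (u * z + μ * X / 2) / Fl y0 (u * z + μ * X / 2)) (lam (c0 * exp X)) := by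
        rw [← e1]
        exact d4
      have d6 : HasDerivAt (fun X : ℂ => F (lam (c0 * exp X)) z)
          (G y0 * exp (u * z + μ * X / 2) / Fl y0 (u * z + μ * X / 2) *
            (deriv lam (c0 * exp X) * (c0 * exp X))) X :=
        HasDerivAt.comp (h₂ := fun l' => F l' z) (h := fun X : ℂ => lam (c0 * exp X)) X d4' d5
      have d7 := d6.sub d1
      have e2 : G y0 * exp (u * z + μ * X / 2) / Fl y0 (u * z + μ * X / 2) *
            (deriv lam (c0 * exp X) * (c0 * exp X)) -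
          G y0 * exp (u * z + μ * X / 2) / Fl y0 (u * z + μ * X / 2) *
          (c0 * exp X * deriv lam (c0 * exp X)) = 0 := by ring
      rw [e2] at d7
      exact d7
    have h1 := (convex_ball (0 : ℂ) η).norm_image_sub_le_of_norm_hasDerivWithin_le (C := 0)
      (fun X hX => (hd X hX).hasDerivWithinAt) (fun X _ => by rw [norm_zero])
      (mem_ball_self hη) hX
    rw [zero_mul] at h1
    have h2 := norm_le_zero_iff.1 h1
    rw [sub_eq_zero] at h2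
    rw [h2]
    simp only [mul_zero, zero_div, Complex.exp_zero, mul_one]
    rw [hc, Fl_zero hs0]
  refine ⟨ε, hε, fun τ hτε => ?_⟩
  obtain ⟨⟨X, hX, hXL⟩, hτρ⟩ := hεb τ hτε
  obtain ⟨hτU, hτB, hτF, hτY⟩ := hτ τ hτρ
  obtain ⟨⟨⟨k1, k2⟩, k3, k4⟩, k5, k6, k7⟩ := hηb X hX
  change lam (c0 * exp X) = L (τ, gs) at hXL
  refine ⟨hτU, c0 * exp X, k4, by rwa [mem_ball_zero_iff] at k5, hXL, ?_⟩
  have hy1sq : (Fl y0 ((μ : ℂ) * X / 2)) ^ 2 = y2 q L (τ, gs) := by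
    have h1 : (r0 * exp ((μ : ℂ) * X / 2)) ^ 2 = q (L (τ, gs)) := by
      rw [mul_pow, hr0s, ← Complex.exp_nat_mul, ← hXL, (hlam.val _ k5).2, hq0', mul_pow,
        ← Complex.exp_nat_mul]
      congr 2
      push_cast
      ring
    have h2 := hτY _ h1 (by
      have h3 : r0 * exp ((μ : ℂ) * X / 2) - r0 = r0 * (exp ((μ : ℂ) * X / 2) - 1) := by ring
      rw [h3, norm_mul]
      nlinarith)
    rw [← k1, hXL, h2, mul_pow, h1]
    rfl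
  intro Y0 Y1 f0 f1 hY0 hY1 hf0 hf1
  have e1 := h.invGerm_unique hτU hf1 (hinv τ hτρ)
  have e0 := h.invGerm_unique h0 hf0 (hinv τ0 (mem_ball_self hρ1))
  have hδ' : 0 < min (min ρ δ) (1 / (8 * (‖u‖ + 1))) :=
    lt_min (lt_min hρ hδ) (by positivity)
  filter_upwards [e1, e0, ball_mem_nhds (0 : ℂ) hδ'] with z hz1 hz0 hz
  rw [hz1, hz0, zE_sq (hY1.trans hy1sq.symm), zE_sq (hY0.trans hy0sq.symm), ← hl0d, ← hXL]
  exact hconst z hz X hX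

end Pool.Agent.MP_ae5b4e_an_WD
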